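import Pool.Agent.Lib.MP_e1dd62_co.Evn.Defs
import Pool.Agent.Lib.MP_e1dd62_co.Big.W1

/-!
# C1: the constraint inequality (combinatorial part)
-/

namespace Pool.Agent.Lib.MP_e1dd62_co.Evn

open Finset Real

private noncomputable def c1ip (z w : ℂ) : ℝ := (z * (starRingEnd ℂ) w).re

private theorem c1ip_sub_left (a b w : ℂ) : c1ip (a - b) w = c1ip a w - c1ip b w := by
  simp [c1ip, sub_mul]

private theorem c1ip_sub_right (a b w : ℂ) : c1ip w (a - b) = c1ip w a - c1ip w b := by
  simp [c1ip, mul_sub]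

private theorem c1ip_add_right (a b w : ℂ) : c1ip w (a + b) = c1ip w a + c1ip w b := by
  simp [c1ip, mul_add]

private theorem c1ip_neg_right (a w : ℂ) : c1ip w (-a) = -c1ip w a := by
  simp [c1ip]

private theorem c1ip_real_right (r : ℝ) (a w : ℂ) : c1ip w ((r : ℂ) * a) = r * c1ip w a := by
  unfold c1ip
  rw [map_mul, Complex.conj_ofReal, mul_left_comm, Complex.re_ofReal_mul]

private theorem c1ip_sum_right (L : ℕ) (f : ℕ → ℂ) (w : ℂ) :
    c1ip w (∑ k ∈ range L, f k) = ∑ k ∈ range L, c1ip w (f k) := by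
  simp [c1ip, map_sum, Finset.mul_sum]

private theorem c1ip_le (z w : ℂ) : c1ip z w ≤ ‖z‖ * ‖w‖ := by
  unfold c1ip
  refine (Complex.re_le_norm _).trans ?_
  rw [norm_mul, RCLike.norm_conj]

/-- `i e^{i x m}` -/
private noncomputable def c1E (x : ℝ) (m : ℤ) : ℂ :=
  Complex.I * Complex.exp (((x * m : ℝ) : ℂ) * Complex.I)

/-- `e^{i x (m + 1/2)}` -/
private noncomputable def c1F (x : ℝ) (m : ℤ) : ℂ :=
  Complex.exp (((x * (m + 1 / 2) : ℝ) : ℂ) * Complex.I)

private theorem c1F_norm (x : ℝ) (m : ℤ) : ‖c1F x m‖ = 1 := by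
  unfold c1F
  exact Complex.norm_exp_ofReal_mul_I _

private theorem c1_exp_sub (y : ℝ) : Complex.exp (((-y : ℝ) : ℂ) * Complex.I) -
    Complex.exp ((y : ℂ) * Complex.I) = -(2 * Complex.I * (sin y : ℝ)) := by
  rw [Complex.exp_mul_I, Complex.exp_mul_I]
  push_cast
  rw [Complex.cos_neg, Complex.sin_neg]
  ring

private theorem c1_exp_add (y : ℝ) : Complex.exp (((-y : ℝ) : ℂ) * Complex.I) +
    Complex.exp ((y : ℂ) * Complex.I) = 2 * (cos y : ℝ) := by
  rw [Complex.exp_mul_I, Complex.exp_mul_I]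
  push_cast
  rw [Complex.cos_neg, Complex.sin_neg]
  ring

private theorem c1E_sub (x : ℝ) (m : ℤ) :
    c1E x m - c1E x (m + 1) = ((2 * sin (x / 2) : ℝ) : ℂ) * c1F x m := by
  have h1 : Complex.exp (((x * m : ℝ) : ℂ) * Complex.I) =
      c1F x m * Complex.exp (((-(x / 2) : ℝ) : ℂ) * Complex.I) := by
    unfold c1F
    rw [← Complex.exp_add]
    congr 1
    push_cast
    ring
  have h2 : Complex.exp (((x * (m + 1 : ℤ) : ℝ) : ℂ) * Complex.I) =
      c1F x m * Complex.exp (((x / 2 : ℝ) : ℂ) * Complex.I) := by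
    unfold c1F
    rw [← Complex.exp_add]
    congr 1
    push_cast
    ring
  have h3 := c1_exp_sub (x / 2)
  unfold c1E
  rw [h1, h2]
  have hI := Complex.I_sq
  push_cast at h3 ⊢
  linear_combination (Complex.I * c1F x m) * h3 - (2 * c1F x m * Complex.sin (x / 2)) * hI

private theorem c1E_tel (x : ℝ) (p : ℤ) (L : ℕ) :
    c1E x p - c1E x (p + L) = ∑ k ∈ range L, ((2 * sin (x / 2) : ℝ) : ℂ) * c1F x (p + k) := by
  induction L with
  | zero => simp
  | succ L ih =>
    rw [sum_range_succ, ← ih, ← c1E_sub]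
    push_cast
    rw [add_assoc]
    ring

private theorem c1F_add (x : ℝ) (m : ℤ) : c1F x m + c1F x (m + 1) =
    ((2 * cos (x / 2) : ℝ) : ℂ) * Complex.exp (((x * (m + 1) : ℝ) : ℂ) * Complex.I) := by
  have h1 : c1F x m = Complex.exp (((x * (m + 1) : ℝ) : ℂ) * Complex.I) *
      Complex.exp (((-(x / 2) : ℝ) : ℂ) * Complex.I) := by
    unfold c1F
    rw [← Complex.exp_add]
    congr 1
    push_cast
    ring
  have h2 : c1F x (m + 1) = Complex.exp (((x * (m + 1) : ℝ) : ℂ) * Complex.I) *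
      Complex.exp (((x / 2 : ℝ) : ℂ) * Complex.I) := by
    unfold c1F
    rw [← Complex.exp_add]
    congr 1
    push_cast
    ring
  rw [h1, h2, ← mul_add, c1_exp_add]
  push_cast
  ring

private theorem c1F_shift (x : ℝ) (n : ℕ) (hx : x * n = π) (m : ℤ) :
    c1F x (m + n) = -c1F x m := by
  unfold c1F
  have : (((x * (((m + n : ℤ) : ℝ) + 1 / 2) : ℝ) : ℂ) * Complex.I) =
      ((x * (m + 1 / 2) : ℝ) : ℂ) * Complex.I + (π : ℂ) * Complex.I := by
    rw [← hx]
    push_cast
    ring
  rw [this, Complex.exp_add, Complex.exp_pi_mul_I]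
  ring

private theorem c1E_shift (x : ℝ) (n : ℕ) (hx : x * n = π) (m : ℤ) :
    c1E x (m + 2 * n) = c1E x m := by
  unfold c1E
  have : (((x * ((m + 2 * n : ℤ) : ℝ) : ℝ) : ℂ) * Complex.I) =
      ((x * m : ℝ) : ℂ) * Complex.I + 2 * (π : ℂ) * Complex.I := by
    rw [← hx]
    push_cast
    ring
  rw [this, Complex.exp_add, Complex.exp_two_pi_mul_I, mul_one]

private theorem c1_per (f : ℤ → ℝ) (L : ℕ) (hf : ∀ j, f (j + L) = f j) (a : ℤ) :
    ∑ k ∈ range L, f (a + k) = ∑ k ∈ range L, f k := by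
  have step : ∀ a : ℤ, ∑ k ∈ range L, f (a + 1 + k) = ∑ k ∈ range L, f (a + k) := by
    intro a
    have h1 := sum_range_succ (fun k : ℕ => f (a + k)) L
    have h2 := sum_range_succ' (fun k : ℕ => f (a + k)) L
    rw [h1] at h2
    simp only [Nat.cast_zero, add_zero, hf] at h2
    have h3 := add_right_cancel h2
    rw [h3]
    refine sum_congr rfl fun k _ => ?_
    congr 1
    push_cast
    ring
  induction a using Int.induction_on with
  | zero => simp
  | succ i ih => rw [step]; exact ih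
  | pred i ih =>
    rw [← ih]
    have := step (-i - 1)
    rw [sub_add_cancel] at this
    exact this.symm

private theorem c1_chop (g : ℤ → ℤ) (hg : ∀ j, g (j - 1) ≤ g j) (ψ : ℤ → ℝ) (K : ℕ) :
    ∑ j ∈ range K, ∑ k ∈ range (g j - g (j - 1)).toNat, ψ (g (j - 1) + k) =
      ∑ k ∈ range (g (K - 1) - g (-1)).toNat, ψ (g (-1) + k) := by
  have mono : ∀ K : ℕ, g (-1) ≤ g (K - 1) := by
    intro K
    induction K with
    | zero => simp
    | succ K ih =>
      refine ih.trans ((hg K).trans (le_of_eq ?_))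
      congr 1
      push_cast
      ring
  induction K with
  | zero => simp
  | succ K ih =>
    rw [sum_range_succ, ih]
    have h1 := mono K
    have h2 := hg K
    have e : ((K + 1 : ℕ) : ℤ) - 1 = K := by push_cast; ring
    rw [e]
    have h3 : (g K - g (-1)).toNat = (g (K - 1) - g (-1)).toNat + (g K - g (K - 1)).toNat := by
      omega
    rw [h3, Finset.sum_range_add]
    congr 1
    refine sum_congr rfl fun k _ => ?_
    congr 1
    push_cast
    omega

private theorem c1_core (N n : ℕ) (hN : 2 ≤ N) (hn : n = 2 * N) (W : ℤ → ℂ) (h : ℤ → ℤ)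
    (hWp : ∀ j, W (j + n) = W j) (hhp : ∀ j, h (j + n) = h j) (hanti : ∀ j, h (j + N) = -h j)
    (hstep : ∀ j, h j - h (j + 1) ≤ 2) (hdiam : ∀ i j, ‖W i - W j‖ ≤ 2) (x : ℝ)
    (hx : x * n = π) (B : ℕ)
    (hB : B = ((range n).filter fun k : ℕ => ¬ (h ((k : ℤ) - 1) = h k ∧ h (k + h k) = h k ∧
      h (k + h k - 1) = h k)).card) :
    ∑ k ∈ range n, c1ip (W (k + 1) - W k) (c1E x (2 * k + 1 + h k)) ≤
      sin (x / 2) * (4 * cos (x / 2) * (n - B) + 4 * B) := by
  have hnpos : 0 < n := by omega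
  have hnr : (0 : ℝ) < n := by exact_mod_cast hnpos
  have hn4 : (4 : ℝ) ≤ n := by
    have : 4 ≤ n := by omega
    exact_mod_cast this
  have hx0 : 0 < x := by
    by_contra hc
    push Not at hc
    have := mul_nonpos_of_nonpos_of_nonneg hc hnr.le
    linarith [Real.pi_pos]
  have hx1 : x ≤ 1 := by
    have h4 : x * 4 ≤ π := by
      rw [← hx]
      exact mul_le_mul_of_nonneg_left hn4 hx0.le
    linarith [Real.pi_le_four]
  have hs : 0 < sin (x / 2) := Real.sin_pos_of_pos_of_lt_pi (by linarith) (by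
    linarith [Real.pi_gt_three])
  have hc : 0 < cos (x / 2) := Real.cos_pos_of_mem_Ioo ⟨by linarith [Real.pi_gt_three], by
    linarith [Real.pi_gt_three]⟩
  set g : ℤ → ℤ := fun j => 2 * j + 1 + h j with hgdef
  have hg : ∀ j, g (j - 1) ≤ g j := by
    intro j
    have := hstep (j - 1)
    rw [sub_add_cancel] at this
    simp only [hgdef]
    omega
  have hgn : ∀ j, g (j + n) = g j + 2 * n := by
    intro j
    simp only [hgdef, hhp]
    ring
  have hmono : Monotone g := monotone_int_of_le_succ fun j => by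
    have := hg (j + 1)
    rwa [add_sub_cancel_right] at this
  -- S1, S2
  have hperW : ∀ j, c1ip (W (j + n)) (c1E x (g (j + n - 1))) = c1ip (W j) (c1E x (g (j - 1))) := by
    intro j
    rw [hWp, show j + (n : ℤ) - 1 = (j - 1) + n by ring, hgn, c1E_shift x n hx]
  have s1 : ∑ k ∈ range n, c1ip (W (k + 1) - W k) (c1E x (g k)) =
      ∑ k ∈ range n, c1ip (W k) (c1E x (g (k - 1)) - c1E x (g k)) := by
    simp only [c1ip_sub_left, c1ip_sub_right, sum_sub_distrib]
    congr 1
    have := c1_per (fun j => c1ip (W j) (c1E x (g (j - 1)))) n hperW 1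
    rw [← this]
    refine sum_congr rfl fun k _ => ?_
    rw [show (1 : ℤ) + k - 1 = k by ring, add_comm (1 : ℤ) k]
  have s2 : ∀ k : ℤ, c1ip (W k) (c1E x (g (k - 1)) - c1E x (g k)) =
      2 * sin (x / 2) * ∑ m ∈ range (g k - g (k - 1)).toNat, c1ip (W k) (c1F x (g (k - 1) + m)) := by
    intro k
    have e : g k = g (k - 1) + ((g k - g (k - 1)).toNat : ℤ) := by
      have := hg k
      omega
    conv_lhs => rw [e]
    rw [c1E_tel, c1ip_sum_right, mul_sum]
    exact sum_congr rfl fun m _ => c1ip_real_right _ _ _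
  -- the index function
  have hex : ∀ m : ℤ, ∃ j, g (j - 1) ≤ m ∧ m < g j := by
    intro m
    have hlow : ∃ j0, g j0 ≤ m := by
      refine ⟨-((g 0 - m).toNat * n : ℕ), ?_⟩
      have hk : ∀ k : ℕ, g (-(k * n : ℕ)) = g 0 - 2 * k * n := by
        intro k
        induction k with
        | zero => simp
        | succ k ih =>
          have h1 := hgn (-((k + 1 : ℕ) * n : ℕ))
          have h2 : -(((k + 1 : ℕ) * n : ℕ) : ℤ) + n = -((k * n : ℕ) : ℤ) := by push_cast; ring
          rw [h2, ih] at h1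
          push_cast at h1 ⊢
          linarith
      rw [hk]
      have h3 : (g 0 - m) ≤ ((g 0 - m).toNat : ℤ) := Int.self_le_toNat _
      have h4 : (1 : ℤ) ≤ n := by exact_mod_cast hnpos
      have h5 : (0 : ℤ) ≤ ((g 0 - m).toNat : ℤ) := by positivity
      nlinarith
    have hhigh : ∃ j1, m < g j1 := by
      refine ⟨((m - g 0 + 1).toNat * n : ℕ), ?_⟩
      have hk : ∀ k : ℕ, g ((k * n : ℕ)) = g 0 + 2 * k * n := by
        intro k
        induction k with
        | zero => simp
        | succ k ih =>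
          have h1 := hgn ((k * n : ℕ) : ℤ)
          have h2 : ((k * n : ℕ) : ℤ) + n = (((k + 1 : ℕ) * n : ℕ) : ℤ) := by push_cast; ring
          rw [h2, ih] at h1
          push_cast at h1 ⊢
          linarith
      rw [hk]
      have h3 : (m - g 0 + 1) ≤ ((m - g 0 + 1).toNat : ℤ) := Int.self_le_toNat _
      have h4 : (1 : ℤ) ≤ n := by exact_mod_cast hnpos
      have h5 : (0 : ℤ) ≤ ((m - g 0 + 1).toNat : ℤ) := by positivity
      nlinarith
    obtain ⟨j0, hj0⟩ := hlow
    obtain ⟨j, hj, hmin⟩ := Int.exists_least_of_bdd (P := fun j => m < g j)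
      ⟨j0, fun z hz => by
        by_contra hc
        push Not at hc
        have := hmono hc.le
        omega⟩ hhigh
    refine ⟨j, ?_, hj⟩
    by_contra hc
    push Not at hc
    have := hmin (j - 1) hc
    omega
  choose J hJ1 hJ2 using hex
  have huniq : ∀ m j, g (j - 1) ≤ m → m < g j → J m = j := by
    intro m j h1 h2
    rcases lt_trichotomy (J m) j with h3 | h3 | h3
    · have := hmono (show J m ≤ j - 1 by omega)
      have := hJ2 m
      omega
    · exact h3
    · have := hmono (show j ≤ J m - 1 by omega)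
      have := hJ1 m
      omega
  have hJper : ∀ m, J (m + 2 * n) = J m + n := by
    intro m
    apply huniq
    · have := hJ1 m
      rw [show J m + (n : ℤ) - 1 = (J m - 1) + n by ring, hgn]
      omega
    · have := hJ2 m
      rw [hgn]
      omega
  -- ψ and T
  set ψ : ℤ → ℝ := fun m => c1ip (W (J m)) (c1F x m) with hψ
  set T : ℤ → ℝ := fun m => c1ip (W (J m) - W (J (m + n))) (c1F x m) with hT
  have hF2 : ∀ m, c1F x (m + 2 * n) = c1F x m := by
    intro m
    rw [show m + 2 * (n : ℤ) = (m + n) + n by ring, c1F_shift x n hx, c1F_shift x n hx, neg_neg]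
  have hψper : ∀ m, ψ (m + (2 * n : ℕ)) = ψ m := by
    intro m
    simp only [hψ]
    push_cast
    rw [hJper, hWp, hF2]
  have hTψ : ∀ m, T m = ψ m + ψ (m + n) := by
    intro m
    simp only [hT, hψ]
    rw [c1ip_sub_left, c1F_shift x n hx, c1ip_neg_right]
    ring
  have hTsum : ∀ a : ℤ, ∑ k ∈ range (2 * n), T (a + k) = 2 * ∑ k ∈ range (2 * n), ψ (a + k) := by
    intro a
    simp only [hTψ]
    rw [sum_add_distrib]
    have h1 := c1_per ψ (2 * n) hψper (a + n)
    have h2 := c1_per ψ (2 * n) hψper a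
    have h3 : ∑ k ∈ range (2 * n), ψ (a + k + n) = ∑ k ∈ range (2 * n), ψ (a + k) := by
      rw [h2, ← h1]
      refine sum_congr rfl fun k _ => ?_
      congr 1
      ring
    rw [h3]
    ring
  have hlen : (g ((n : ℕ) - 1 : ℤ) - g (-1)).toNat = 2 * n := by
    have := hgn (-1)
    rw [show (-1 : ℤ) + n = (n : ℕ) - 1 by ring] at this
    rw [this]
    omega
  have s3 : ∑ k ∈ range n, ∑ m ∈ range (g k - g (k - 1)).toNat,
      c1ip (W k) (c1F x (g (k - 1) + m)) = ∑ k ∈ range (2 * n), ψ (g (-1) + k) := by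
    rw [← hlen, ← c1_chop g hg ψ n]
    refine sum_congr rfl fun k _ => sum_congr rfl fun m hm => ?_
    rw [mem_range] at hm
    have : J (g ((k : ℤ) - 1) + m) = k := by
      apply huniq
      · omega
      · omega
    simp only [hψ]
    rw [this]
  have s4 : ∑ k ∈ range n, ∑ m ∈ range (g k - g (k - 1)).toNat, T (g ((k : ℤ) - 1) + m) =
      2 * ∑ k ∈ range (2 * n), ψ (g (-1) + k) := by
    rw [c1_chop g hg T n, hlen, hTsum]
  -- the total
  have stot : ∑ k ∈ range n, c1ip (W (k + 1) - W k) (c1E x (g k)) =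
      sin (x / 2) * ∑ k ∈ range n, ∑ m ∈ range (g k - g (k - 1)).toNat,
        T (g ((k : ℤ) - 1) + m) := by
    rw [s1, sum_congr rfl fun (k : ℕ) _ => s2 k, ← mul_sum, s3, s4]
    ring
  -- bounds
  have hTle : ∀ m, T m ≤ 2 := by
    intro m
    refine (c1ip_le _ _).trans ?_
    rw [c1F_norm, mul_one]
    exact hdiam _ _
  set good : ℤ → Prop := fun k => h (k - 1) = h k ∧ h (k + h k) = h k ∧ h (k + h k - 1) = h k
    with hgood
  have hlenall : ∀ k : ℤ, (((g k - g (k - 1)).toNat : ℕ) : ℝ) = (g k : ℝ) - g (k - 1) := by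
    intro k
    have h1 := hg k
    have h2 : (((g k - g (k - 1)).toNat : ℕ) : ℤ) = g k - g (k - 1) := by omega
    have h3 : ((((g k - g (k - 1)).toNat : ℕ) : ℤ) : ℝ) = ((g k - g (k - 1) : ℤ) : ℝ) := by rw [h2]
    push_cast at h3
    exact h3
  have hbad : ∀ k : ℤ, ∑ m ∈ range (g k - g (k - 1)).toNat, T (g (k - 1) + m) ≤
      2 * ((g k : ℝ) - g (k - 1)) := by
    intro k
    refine (sum_le_sum fun m _ => hTle _).trans ?_
    rw [sum_const, card_range, nsmul_eq_mul, hlenall]
    linarith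
  have hgoodlen : ∀ k : ℤ, good k → g k - g (k - 1) = 2 := by
    intro k hk
    simp only [hgdef, hk.1]
    ring
  have hgoodle : ∀ k : ℤ, good k → ∑ m ∈ range (g k - g (k - 1)).toNat, T (g (k - 1) + m) ≤
      4 * cos (x / 2) := by
    intro k hk
    have hl := hgoodlen k hk
    rw [hl]
    have e2 : (2 : ℤ).toNat = 2 := rfl
    rw [e2, sum_range_succ, sum_range_one]
    -- the partner
    set k' : ℤ := k + h k + N with hk'
    have hgk1 : g (k - 1) = 2 * k - 1 + h k := by
      simp only [hgdef, hk.1]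
      ring
    have hp1 : g (k' - 1) = g (k - 1) + n := by
      rw [hgk1]
      simp only [hgdef]
      have : h (k' - 1) = -h k := by
        rw [hk', show k + h k + (N : ℤ) - 1 = (k + h k - 1) + N by ring, hanti, hk.2.2]
      rw [this, hk', hn]
      push_cast
      ring
    have hp2 : g k' = g (k - 1) + n + 2 := by
      rw [hgk1]
      simp only [hgdef]
      have : h k' = -h k := by
        rw [hk', hanti, hk.2.1]
      rw [this, hk', hn]
      push_cast
      ring
    have hJa : J (g (k - 1)) = k := huniq _ _ le_rfl (by omega)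
    have hJb : J (g (k - 1) + 1) = k := huniq _ _ (by omega) (by omega)
    have hJc : J (g (k - 1) + n) = k' := huniq _ _ (by omega) (by omega)
    have hJd : J (g (k - 1) + 1 + n) = k' := huniq _ _ (by omega) (by omega)
    simp only [hT, Nat.cast_zero, add_zero, Nat.cast_one]
    rw [hJa, hJb, hJc, hJd, ← c1ip_add_right, c1F_add]
    refine (c1ip_le _ _).trans ?_
    rw [norm_mul, Complex.norm_exp_ofReal_mul_I, mul_one, Complex.norm_real, Real.norm_eq_abs,
      abs_of_pos (by positivity)]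
    have := hdiam k k'
    nlinarith
  classical
  have hsumlen : ∑ k ∈ range n, ((g (k : ℤ) : ℝ) - g ((k : ℤ) - 1)) = 2 * n := by
    have h1 := c1_chop g hg (fun _ => (1 : ℝ)) n
    rw [hlen] at h1
    simp only [sum_const, card_range, nsmul_eq_mul, mul_one, hlenall] at h1
    rw [h1]
    push_cast
    ring
  have hcount : (B : ℝ) = ∑ k ∈ range n, if good (k : ℤ) then (0 : ℝ) else 1 := by
    rw [hB, card_filter]
    push_cast
    refine sum_congr rfl fun k _ => ?_
    by_cases hk : good (k : ℤ)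
    · rw [if_pos hk, if_neg (not_not.2 hk)]
    · rw [if_neg hk, if_pos hk]
  have hterm : ∀ k : ℕ, ∑ m ∈ range (g k - g (k - 1)).toNat, T (g ((k : ℤ) - 1) + m) ≤
      2 * ((g (k : ℤ) : ℝ) - g ((k : ℤ) - 1)) + (if good (k : ℤ) then (0 : ℝ) else 1) *
        (4 - 4 * cos (x / 2)) - (4 - 4 * cos (x / 2)) := by
    intro k
    by_cases hk : good (k : ℤ)
    · rw [if_pos hk]
      have h1 := hgoodle k hk
      have h2 : ((g (k : ℤ) : ℝ) - g ((k : ℤ) - 1)) = 2 := by
        have := hgoodlen k hk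
        have h3 : ((g (k : ℤ) - g ((k : ℤ) - 1) : ℤ) : ℝ) = ((2 : ℤ) : ℝ) := by rw [this]
        push_cast at h3
        exact h3
      rw [h2]
      linarith
    · rw [if_neg hk]
      have h1 := hbad k
      linarith
  have hfinal : ∑ k ∈ range n, ∑ m ∈ range (g k - g (k - 1)).toNat, T (g ((k : ℤ) - 1) + m) ≤
      4 * cos (x / 2) * (n - B) + 4 * B := by
    refine (sum_le_sum fun k _ => hterm k).trans ?_
    rw [sum_sub_distrib, sum_add_distrib, ← mul_sum, hsumlen, ← sum_mul, ← hcount, sum_const,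
      card_range, nsmul_eq_mul]
    linarith
  rw [stot]
  exact mul_le_mul_of_nonneg_left hfinal hs.le

private theorem c1_sum_cast {n : ℕ} [NeZero n] (f : ZMod n → ℝ) :
    ∑ a ∈ range n, f (a : ZMod n) = ∑ a, f a := by
  refine sum_bij (fun a _ => (a : ZMod n)) (fun _ _ => mem_univ _) ?_ ?_ fun _ _ => rfl
  · intro a ha b hb hab
    rw [mem_range] at ha hb
    have h1 := (ZMod.natCast_eq_natCast_iff' a b n).1 hab
    rwa [Nat.mod_eq_of_lt ha, Nat.mod_eq_of_lt hb] at h1
  · intro b _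
    exact ⟨b.val, mem_range.2 (ZMod.val_lt b), ZMod.natCast_zmod_val b⟩

private theorem c1_main {N n : ℕ} (hN : 2 ≤ N) (hn : n = 2 * N) [NeZero n] {c : ℝ}
    {u t : ZMod n → ℝ}
    (hdiam : ∀ i j : ℕ, ‖pt c u t i - pt c u t j‖ ≤ 2)
    (h : ZMod n → ℤ) (hanti : ∀ a, h (a + (N : ZMod n)) = -h a)
    (hstep : ∀ a, h a - h (a + 1) ≤ 2) :
    c * ∑ a, (Big.X u t a 1 * cos (h a * (π / n)) + Big.Y u t a 1 * sin (h a * (π / n))) ≤
    n + #{a | ¬(h (a - 1) = h a ∧ h (a + (h a : ZMod n)) = h a ∧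
      h (a + (h a : ZMod n) - 1) = h a)} * (π / n) ^ 2 / 4 := by
  classical
  have hnpos : 0 < n := by omega
  have hnr : (0 : ℝ) < n := by exact_mod_cast hnpos
  set x : ℝ := π / n with hxdef
  have hx : x * n = π := by rw [hxdef]; field_simp
  set W : ℤ → ℂ := fun j => (c : ℂ) * Complex.exp (((2 * j * x : ℝ) : ℂ) * Complex.I) *
    (1 + (u (j : ZMod n) : ℂ) + (t (j : ZMod n) : ℂ) * Complex.I) with hW
  set h' : ℤ → ℤ := fun j => h (j : ZMod n) with hh'
  have hWp : ∀ j, W (j + n) = W j := by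
    intro j
    simp only [hW]
    have e1 : (((2 * ((j + n : ℤ) : ℝ) * x : ℝ) : ℂ) * Complex.I) =
        ((2 * j * x : ℝ) : ℂ) * Complex.I + 2 * (π : ℂ) * Complex.I := by
      rw [← hx]
      push_cast
      ring
    rw [e1, Complex.exp_add, Complex.exp_two_pi_mul_I, mul_one]
    simp
  have hWpt : ∀ k : ℕ, W k = pt c u t k := by
    intro k
    simp only [hW, pt]
    have e1 : (((2 * ((k : ℤ) : ℝ) * x : ℝ) : ℂ) * Complex.I) = 2 * π * Complex.I * k / n := by
      rw [hxdef]
      push_cast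
      ring
    rw [e1]
    simp
  have hWmod : ∀ j : ℤ, ∃ k : ℕ, W j = W k := by
    intro j
    refine ⟨(j % n).toNat, ?_⟩
    have hmod : ((j % n).toNat : ℤ) = j % n := Int.toNat_of_nonneg
      (Int.emod_nonneg _ (by exact_mod_cast hnpos.ne'))
    rw [hmod]
    have hq : ∀ q : ℕ, ∀ i : ℤ, W (i + q * n) = W i := by
      intro q
      induction q with
      | zero => simp
      | succ q ih =>
        intro i
        have := hWp (i + q * n)
        rw [ih] at this
        rw [← this]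
        congr 1
        push_cast
        ring
    have hd := Int.emod_add_mul_ediv j n
    rcases Int.le_total 0 (j / n) with h0 | h0
    · have h1 := hq (j / n).toNat (j % n)
      rw [Int.toNat_of_nonneg h0] at h1
      rw [← h1]
      congr 1
      linarith [mul_comm (j / (n : ℤ)) n]
    · have h1 := hq (-(j / n)).toNat j
      rw [Int.toNat_of_nonneg (by omega)] at h1
      rw [← h1]
      congr 1
      linarith [mul_comm (j / (n : ℤ)) n, neg_mul (j / (n : ℤ)) (n : ℤ)]
  have hWd : ∀ i j, ‖W i - W j‖ ≤ 2 := by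
    intro i j
    obtain ⟨a, ha⟩ := hWmod i
    obtain ⟨b, hb⟩ := hWmod j
    rw [ha, hb, hWpt, hWpt]
    exact hdiam a b
  have hcore := c1_core N n hN hn W h' hWp (fun j => by simp [hh'])
    (fun j => by
      have := hanti (j : ZMod n)
      simp only [hh']
      rw [← this]
      congr 1
      push_cast
      ring)
    (fun j => by
      have := hstep (j : ZMod n)
      simp only [hh']
      push_cast
      exact this) hWd x hx _ rfl
  -- the count
  have hcnt : ((range n).filter fun k : ℕ => ¬ (h' ((k : ℤ) - 1) = h' k ∧ h' (k + h' k) = h' k ∧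
      h' (k + h' k - 1) = h' k)).card = #{a : ZMod n | ¬(h (a - 1) = h a ∧ h (a + (h a : ZMod n)) = h a ∧
      h (a + (h a : ZMod n) - 1) = h a)} := by
    rw [card_filter, card_filter]
    have h1 : ((∑ i ∈ range n, if ¬ (h' (((i : ℕ) : ℤ) - 1) = h' i ∧ h' (i + h' i) = h' i ∧
      h' (i + h' i - 1) = h' i) then 1 else 0 : ℕ) : ℝ) = ((∑ a : ZMod n, if ¬(h (a - 1) = h a ∧
        h (a + (h a : ZMod n)) = h a ∧ h (a + (h a : ZMod n) - 1) = h a) then 1 else 0 : ℕ) : ℝ) := by
      push_cast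
      rw [← c1_sum_cast]
      refine sum_congr rfl fun k _ => ?_
      simp only [hh']
      push_cast
      rfl
    exact_mod_cast h1
  rw [hcnt] at hcore
  set B : ℕ := #{a : ZMod n | ¬(h (a - 1) = h a ∧ h (a + (h a : ZMod n)) = h a ∧
      h (a + (h a : ZMod n) - 1) = h a)} with hB
  -- the left side
  have hleft : ∀ k : ℕ, c1ip (W (k + 1) - W k) (c1E x (2 * k + 1 + h' k)) =
      2 * sin x * (c * (Big.X u t (k : ZMod n) 1 * cos (h (k : ZMod n) * x) +
        Big.Y u t (k : ZMod n) 1 * sin (h (k : ZMod n) * x))) := by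
    intro k
    have hkey := Big.W1_key (n := n) (ℓ := 1) one_pos (by omega) u t (k : ZMod n)
    simp only [Nat.cast_one, one_mul] at hkey
    have e1 : W (k + 1) - W k = (c : ℂ) *
        Complex.exp ((((2 * k + 1) * x : ℝ) : ℂ) * Complex.I) *
        (((Big.X u t (k : ZMod n) 1 : ℂ) + (Big.Y u t (k : ZMod n) 1 : ℂ) * Complex.I) *
        (2 * Complex.I * (sin x : ℝ))) := by
      rw [hxdef, hkey, ← hxdef]
      simp only [hW]
      have a1 : Complex.exp (((2 * (((k : ℤ) + 1 : ℤ) : ℝ) * x : ℝ) : ℂ) * Complex.I) =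
          Complex.exp ((((2 * k + 1) * x : ℝ) : ℂ) * Complex.I) *
            Complex.exp ((x : ℂ) * Complex.I) := by
        rw [← Complex.exp_add]
        congr 1
        push_cast
        ring
      have a2 : Complex.exp (((2 * (((k : ℤ)) : ℝ) * x : ℝ) : ℂ) * Complex.I) =
          Complex.exp ((((2 * k + 1) * x : ℝ) : ℂ) * Complex.I) *
            Complex.exp (((-x : ℝ) : ℂ) * Complex.I) := by
        rw [← Complex.exp_add]
        congr 1
        push_cast
        ring
      rw [a1, a2]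
      push_cast
      ring
    rw [e1]
    unfold c1ip c1E
    have a3 : (starRingEnd ℂ) (Complex.I * Complex.exp (((x * ((2 * k + 1 + h' k : ℤ) : ℝ) : ℝ) : ℂ) *
        Complex.I)) = -Complex.I * (Complex.exp (((-((2 * k + 1) * x) : ℝ) : ℂ) * Complex.I) *
          Complex.exp (((-(h (k : ZMod n) * x) : ℝ) : ℂ) * Complex.I)) := by
      rw [map_mul, Complex.conj_I, ← Complex.exp_conj, ← Complex.exp_add]
      congr 2
      rw [map_mul, Complex.conj_I, Complex.conj_ofReal]
      simp only [hh']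
      push_cast
      ring
    rw [a3]
    have a4 : Complex.exp ((((2 * k + 1) * x : ℝ) : ℂ) * Complex.I) *
        Complex.exp (((-((2 * k + 1) * x) : ℝ) : ℂ) * Complex.I) = 1 := by
      rw [← Complex.exp_add, ← Complex.exp_zero]
      congr 1
      push_cast
      ring
    have a5 : (c : ℂ) * Complex.exp ((((2 * k + 1) * x : ℝ) : ℂ) * Complex.I) *
        (((Big.X u t (k : ZMod n) 1 : ℂ) + (Big.Y u t (k : ZMod n) 1 : ℂ) * Complex.I) *
        (2 * Complex.I * (sin x : ℝ))) * (-Complex.I *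
        (Complex.exp (((-((2 * k + 1) * x) : ℝ) : ℂ) * Complex.I) *
          Complex.exp (((-(h (k : ZMod n) * x) : ℝ) : ℂ) * Complex.I))) =
        ((2 * sin x * c : ℝ) : ℂ) * (((Big.X u t (k : ZMod n) 1 : ℂ) +
          (Big.Y u t (k : ZMod n) 1 : ℂ) * Complex.I) *
          Complex.exp (((-(h (k : ZMod n) * x) : ℝ) : ℂ) * Complex.I)) := by
      have hI := Complex.I_sq
      clear e1 a3
      generalize Complex.exp ((((2 * k + 1) * x : ℝ) : ℂ) * Complex.I) = p1 at *
      generalize Complex.exp (((-((2 * k + 1) * x) : ℝ) : ℂ) * Complex.I) = p2 at *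
      generalize Complex.exp (((-(h (k : ZMod n) * x) : ℝ) : ℂ) * Complex.I) = p3 at *
      push_cast
      linear_combination (2 * Complex.sin x * c * ((Big.X u t (k : ZMod n) 1 : ℂ) +
          (Big.Y u t (k : ZMod n) 1 : ℂ) * Complex.I) * p3) * a4 -
        (2 * Complex.sin x * c * ((Big.X u t (k : ZMod n) 1 : ℂ) +
          (Big.Y u t (k : ZMod n) 1 : ℂ) * Complex.I) * p3 * p1 * p2) * hI
    rw [a5, Complex.re_ofReal_mul]
    have a6 : (((Big.X u t (k : ZMod n) 1 : ℂ) + (Big.Y u t (k : ZMod n) 1 : ℂ) * Complex.I) *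
          Complex.exp (((-(h (k : ZMod n) * x) : ℝ) : ℂ) * Complex.I)).re =
        Big.X u t (k : ZMod n) 1 * cos (h (k : ZMod n) * x) +
        Big.Y u t (k : ZMod n) 1 * sin (h (k : ZMod n) * x) := by
      rw [Complex.mul_re, Complex.exp_ofReal_mul_I_re, Complex.exp_ofReal_mul_I_im, Real.cos_neg,
        Real.sin_neg]
      simp
    rw [a6]
    ring
  rw [sum_congr rfl fun (k : ℕ) _ => hleft k, ← mul_sum, ← mul_sum] at hcore
  rw [c1_sum_cast (fun a : ZMod n => Big.X u t a 1 * cos (h a * x) +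
    Big.Y u t a 1 * sin (h a * x))] at hcore
  -- final computation
  have hn4 : (4 : ℝ) ≤ n := by
    have : 4 ≤ n := by omega
    exact_mod_cast this
  have hx0 : 0 < x := by rw [hxdef]; positivity
  have hx1 : x ≤ 1 := by
    rw [hxdef, div_le_one hnr]
    linarith [Real.pi_le_four]
  have hs : 0 < sin (x / 2) := Real.sin_pos_of_pos_of_lt_pi (by linarith) (by
    linarith [Real.pi_gt_three])
  have hc : 0 < cos (x / 2) := Real.cos_pos_of_mem_Ioo ⟨by linarith [Real.pi_gt_three], by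
    linarith [Real.pi_gt_three]⟩
  have hsin : sin x = 2 * sin (x / 2) * cos (x / 2) := by
    rw [← Real.sin_two_mul]
    congr 1
    ring
  rw [hsin] at hcore
  set S := c * ∑ a : ZMod n, (Big.X u t a 1 * cos (h a * x) + Big.Y u t a 1 * sin (h a * x)) with hS
  have h1 : cos (x / 2) * S ≤ cos (x / 2) * (n - B) + B := by
    have h2 : (4 * sin (x / 2)) * (cos (x / 2) * S) ≤
        (4 * sin (x / 2)) * (cos (x / 2) * (n - B) + B) := by
      calc (4 * sin (x / 2)) * (cos (x / 2) * S) = 2 * (2 * sin (x / 2) * cos (x / 2)) * S := by ring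
        _ ≤ _ := hcore
        _ = _ := by ring
    exact le_of_mul_le_mul_left h2 (by positivity)
  have hcos : 1 - (x / 2) ^ 2 / 2 ≤ cos (x / 2) := Real.one_sub_sq_div_two_le_cos
  have hB0 : (0 : ℝ) ≤ B := Nat.cast_nonneg _
  have h3 : (1 : ℝ) ≤ cos (x / 2) * (1 + x ^ 2 / 4) := by
    have h4 : (1 - (x / 2) ^ 2 / 2) * (1 + x ^ 2 / 4) ≤ cos (x / 2) * (1 + x ^ 2 / 4) :=
      mul_le_mul_of_nonneg_right hcos (by positivity)
    have h5 : x ^ 2 ≤ 1 := by nlinarith
    nlinarith [sq_nonneg x, sq_nonneg (x ^ 2)]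
  have h4 : cos (x / 2) * S ≤ cos (x / 2) * (n + B * x ^ 2 / 4) := by
    have h5 : (B : ℝ) ≤ B * (cos (x / 2) * (1 + x ^ 2 / 4)) := le_mul_of_one_le_right hB0 h3
    nlinarith
  exact le_of_mul_le_mul_left h4 hc

theorem constraint {N : ℕ} (hN : 2 ≤ N) [NeZero (2 * N)] {c : ℝ} {u t : ZMod (2 * N) → ℝ}
    (hdiam : ∀ i j : ℕ, ‖pt c u t i - pt c u t j‖ ≤ 2)
    (h : ZMod (2 * N) → ℤ) (hanti : ∀ a, h (a + (N : ZMod (2 * N))) = -h a)
    (hstep : ∀ a, h a - h (a + 1) ≤ 2) :
    c * ∑ a, (Big.X u t a 1 * cos (h a * (π / (2 * N))) +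
      Big.Y u t a 1 * sin (h a * (π / (2 * N)))) ≤
    2 * N + #{a | ¬(h (a - 1) = h a ∧ h (a + (h a : ZMod (2 * N))) = h a ∧
      h (a + (h a : ZMod (2 * N)) - 1) = h a)} * (π / (2 * N)) ^ 2 / 4 := by
  have h1 := c1_main hN rfl hdiam h hanti hstep
  have h2 : ((2 * N : ℕ) : ℝ) = 2 * N := by push_cast; ring
  rw [h2] at h1
  exact h1

end Pool.Agent.Lib.MP_e1dd62_co.Evn
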