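import Pool.Agent.Lib.MP_e1dd62_co.Evn.Y3

/-!
# Y4: ramps
-/

namespace Pool.Agent.Lib.MP_e1dd62_co.Evn

open Finset Real

/-- remainder of a point in its block -/
def Y4_r (B N : ℕ) (a : ZMod (2 * N)) : ℕ := a.val * B % N

/-- offset of a point in its block -/
def Y4_o (B N : ℕ) (a : ZMod (2 * N)) : ℕ := Y4_r B N a / B

theorem Y4_r_lt {N : ℕ} (hN : 0 < N) (B : ℕ) (a : ZMod (2 * N)) : Y4_r B N a < N :=
  Nat.mod_lt _ hN

theorem Y4_r_eq {N : ℕ} (B : ℕ) (a : ZMod (2 * N)) (k : ℕ)
    (h : k ≡ a.val [MOD N]) : Y4_r B N a = k * B % N := by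
  unfold Y4_r
  exact (h.mul_right B).symm

theorem Y4_val_add {N : ℕ} [NeZero (2 * N)] (a : ZMod (2 * N)) (k : ℕ) :
    a.val + k ≡ (a + (k : ZMod (2 * N))).val [MOD N] := by
  have h1 : (a + (k : ZMod (2 * N))).val = (a.val + k) % (2 * N) := by
    rw [ZMod.val_add, ZMod.val_natCast, Nat.add_mod_mod]
  rw [h1]
  exact (Nat.ModEq.of_mul_left 2 (Nat.mod_modEq (a.val + k) (2 * N))).symm

theorem Y4_r_N {N : ℕ} [NeZero (2 * N)] (B : ℕ) (a : ZMod (2 * N)) :
    Y4_r B N (a + (N : ZMod (2 * N))) = Y4_r B N a := by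
  have h := Y4_val_add a N
  rw [Y4_r_eq B _ _ h]
  unfold Y4_r
  rw [add_mul, Nat.add_mul_mod_self_left]

theorem Y4_r_one {N : ℕ} [NeZero (2 * N)] (B : ℕ) (a : ZMod (2 * N)) :
    Y4_r B N (a + 1) = (Y4_r B N a + B) % N := by
  have h := Y4_val_add a 1
  rw [Nat.cast_one] at h
  rw [Y4_r_eq B _ _ h]
  unfold Y4_r
  rw [add_mul, one_mul, Nat.mod_add_mod]

theorem Y4_inj {B N : ℕ} (hB : 0 < B) {a b : ZMod (2 * N)} [NeZero (2 * N)]
    (h1 : blk B N a = blk B N b) (h2 : Y4_o B N a = Y4_o B N b) : a = b := by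
  apply ZMod.val_injective
  have ha := Nat.div_add_mod (a.val * B) N
  have hb := Nat.div_add_mod (b.val * B) N
  unfold blk at h1
  unfold Y4_o Y4_r at h2
  have ha' := Nat.div_add_mod (a.val * B % N) B
  have hb' := Nat.div_add_mod (b.val * B % N) B
  have ha'' := Nat.mod_lt (a.val * B % N) hB
  have hb'' := Nat.mod_lt (b.val * B % N) hB
  rw [h1] at ha
  rw [h2] at ha'
  have h3 : a.val * B < b.val * B + B := by omega
  have h4 : b.val * B < a.val * B + B := by omega
  have h5 : a.val < b.val + 1 := by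
    by_contra hcon
    have : (b.val + 1) * B ≤ a.val * B := Nat.mul_le_mul_right B (by omega)
    rw [add_mul, one_mul] at this
    omega
  have h6 : b.val < a.val + 1 := by
    by_contra hcon
    have : (a.val + 1) * B ≤ b.val * B := Nat.mul_le_mul_right B (by omega)
    rw [add_mul, one_mul] at this
    omega
  omega

theorem Y4_blk_lt {B N : ℕ} (hN : 0 < N) (hB : 0 < B) [NeZero (2 * N)] (a : ZMod (2 * N)) :
    blk B N a < 2 * B := by
  unfold blk
  rw [Nat.div_lt_iff_lt_mul hN]
  have := ZMod.val_lt a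
  calc a.val * B < 2 * N * B := Nat.mul_lt_mul_of_pos_right this hB
    _ = 2 * B * N := by ring

theorem Y4_same {B N : ℕ} (hN : 0 < N) [NeZero (2 * N)] (a : ZMod (2 * N))
    (h : Y4_r B N a + B < N) (hB : 0 < B) :
    blk B N (a + 1) = blk B N a ∧ Y4_o B N (a + 1) = Y4_o B N a + 1 := by
  have hr : Y4_r B N (a + 1) = Y4_r B N a + B := by
    rw [Y4_r_one, Nat.mod_eq_of_lt h]
  have hv : (a + 1).val = a.val + 1 := by
    have h1 : (a + 1).val = (a.val + 1) % (2 * N) := by
      have : (a + ((1 : ℕ) : ZMod (2 * N))).val = (a.val + 1) % (2 * N) := by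
        rw [ZMod.val_add, ZMod.val_natCast, Nat.add_mod_mod]
      rwa [Nat.cast_one] at this
    rw [h1]
    apply Nat.mod_eq_of_lt
    have := ZMod.val_lt a
    by_contra hcon
    have hval : a.val = 2 * N - 1 := by omega
    -- then `r a + B = N`
    have h2 := Nat.div_add_mod (a.val * B) N
    unfold Y4_r at h
    have h3 : a.val * B + B = 2 * N * B := by
      have : a.val + 1 = 2 * N := by omega
      calc a.val * B + B = (a.val + 1) * B := by ring
        _ = 2 * N * B := congrArg (· * B) this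
    set q := a.val * B / N
    set r := a.val * B % N
    have h4 : N * q + (r + B) = N * (2 * B) := by
      have : 2 * N * B = N * (2 * B) := by ring
      omega
    have h5 : N * q < N * (2 * B) := by omega
    have h6 : q + 1 ≤ 2 * B := Nat.lt_of_mul_lt_mul_left h5
    have h7 : N * (q + 1) ≤ N * (2 * B) := Nat.mul_le_mul_left N h6
    rw [mul_add, mul_one] at h7
    omega
  constructor
  · unfold blk
    rw [hv]
    unfold Y4_r at h
    have h2 := Nat.div_add_mod (a.val * B) N
    have h3 : (a.val + 1) * B = a.val * B + B := by ring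
    rw [h3]
    set q := a.val * B / N
    have h4 : q * N = N * q := mul_comm _ _
    apply Nat.div_eq_of_lt_le
    · omega
    · rw [add_mul, one_mul]
      omega
  · unfold Y4_o
    rw [hr, Nat.add_div_right _ hB]

theorem Y4_new {B N : ℕ} (hN : 0 < N) [NeZero (2 * N)] (a : ZMod (2 * N))
    (h : N ≤ Y4_r B N a + B) (hB : 0 < B) {K₀ : ℕ} (hK : B * (2 * K₀ + 2) ≤ N) :
    Y4_o B N (a + 1) = 0 ∧ 2 * K₀ + 1 ≤ Y4_o B N a := by
  have hr := Y4_r_lt hN B a
  have hBN : B ≤ N := by nlinarith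
  constructor
  · unfold Y4_o
    rw [Y4_r_one]
    apply Nat.div_eq_of_lt
    have h2 : (Y4_r B N a + B) % N = Y4_r B N a + B - N := by
      rw [Nat.mod_eq_sub_mod h, Nat.mod_eq_of_lt (by omega)]
    omega
  · unfold Y4_o
    rw [Nat.le_div_iff_mul_le hB]
    have : (2 * K₀ + 1) * B + B = B * (2 * K₀ + 2) := by ring
    omega

theorem ramp {B : ℕ} (hB : 0 < B) {K₀ : ℕ} {N : ℕ} (hN : B * (2 * K₀ + 2) ≤ N)
    [NeZero (2 * N)] (h : ZMod (2 * N) → ℤ) (hanti : ∀ a, h (a + (N : ZMod (2 * N))) = -h a)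
    (hblk : ∀ a b, blk B N a = blk B N b → h a = h b) (hK : ∀ a, |h a| ≤ K₀) :
    ∃ g : ZMod (2 * N) → ℤ, (∀ a, g (a + (N : ZMod (2 * N))) = -g a) ∧ (∀ a, |g a| ≤ K₀) ∧
      (∀ a, |g (a + 1) - g a| ≤ 1) ∧ #{a | g (a + 1) ≠ g a} ≤ 4 * B * (K₀ + 1) ∧
      #{a | g a ≠ h a} ≤ 4 * B * (K₀ + 1) := by
  have hN0 : 0 < N := by nlinarith
  -- previous value
  obtain ⟨p, hp⟩ : ∃ p : ZMod (2 * N) → ℤ, ∀ a, p a = h (a - ((Y4_o B N a + 1 : ℕ) : ZMod (2 * N))) :=
    ⟨_, fun _ => rfl⟩
  obtain ⟨o, ho⟩ : ∃ o : ZMod (2 * N) → ℤ, ∀ a, o a = (Y4_o B N a : ℤ) := ⟨_, fun _ => rfl⟩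
  obtain ⟨g, hg⟩ : ∃ g : ZMod (2 * N) → ℤ, ∀ a, g a =
      p a + max (-(o a + 1)) (min (o a + 1) (h a - p a)) := ⟨_, fun _ => rfl⟩
  have ho0 : ∀ a, 0 ≤ o a := fun a => by rw [ho]; positivity
  have hpK : ∀ a, |p a| ≤ K₀ := fun a => by rw [hp]; exact hK _
  have hoN : ∀ a, Y4_o B N (a + (N : ZMod (2 * N))) = Y4_o B N a := fun a => by
    unfold Y4_o; rw [Y4_r_N]
  have hpN : ∀ a, p (a + (N : ZMod (2 * N))) = -p a := fun a => by
    rw [hp, hp, hoN, ← hanti]
    congr 1
    ring
  -- the two kinds of steps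
  have step : ∀ a, (h (a + 1) = h a ∧ p (a + 1) = p a ∧ o (a + 1) = o a + 1) ∨
      (p (a + 1) = h a ∧ o (a + 1) = 0 ∧ 2 * (K₀ : ℤ) + 1 ≤ o a) := by
    intro a
    rcases lt_or_ge (Y4_r B N a + B) N with hlt | hge
    · left
      obtain ⟨h1, h2⟩ := Y4_same hN0 a hlt hB
      refine ⟨hblk _ _ h1, ?_, ?_⟩
      · rw [hp, hp, h2]
        congr 1
        push_cast
        ring
      · rw [ho, ho, h2]
        push_cast
        ring
    · right
      obtain ⟨h1, h2⟩ := Y4_new hN0 a hge hB hN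
      refine ⟨?_, ?_, ?_⟩
      · rw [hp, h1]
        congr 1
        push_cast
        ring
      · rw [ho, h1]
        rfl
      · rw [ho]
        exact_mod_cast h2
  have cnt : ∀ s : Finset (ZMod (2 * N)), (∀ a ∈ s, o a < 2 * K₀ + 1) →
      s.card ≤ 4 * B * (K₀ + 1) := by
    intro s hs
    have h1 : s.card ≤ ((range (2 * B)) ×ˢ (range (2 * K₀ + 1))).card := by
      apply Finset.card_le_card_of_injOn (fun a => (blk B N a, Y4_o B N a))
      · intro a ha
        rw [Finset.coe_product, Set.mem_prod]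
        refine ⟨?_, ?_⟩
        · simpa using Y4_blk_lt hN0 hB a
        · have := hs a ha
          rw [ho] at this
          simp only [Finset.coe_range, Set.mem_Iio]
          exact_mod_cast this
      · intro a _ b _ hab
        simp only [Prod.mk.injEq] at hab
        exact Y4_inj hB hab.1 hab.2
    rw [Finset.card_product, card_range, card_range] at h1
    nlinarith
  refine ⟨g, ?_, ?_, ?_, ?_, ?_⟩
  · intro a
    rw [hg, hg, hpN, hanti, ho, ho, hoN]
    set x := h a
    set y := p a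
    set z := (Y4_o B N a : ℤ)
    have hz : 0 ≤ z := by positivity
    simp only [max_def, min_def]
    split_ifs <;> omega
  · intro a
    have h1 := abs_le.mp (hK a)
    have h2 := abs_le.mp (hpK a)
    have h3 := ho0 a
    rw [hg, abs_le]
    simp only [max_def, min_def]
    split_ifs <;> constructor <;> omega
  · intro a
    have h1 := abs_le.mp (hK a)
    have h2 := abs_le.mp (hpK a)
    have h1' := abs_le.mp (hK (a + 1))
    have h3 := ho0 a
    rw [hg, hg, abs_le]
    rcases step a with ⟨e1, e2, e3⟩ | ⟨e1, e2, e3⟩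
    · rw [e1, e2, e3]
      simp only [max_def, min_def]
      split_ifs <;> constructor <;> omega
    · rw [e1, e2]
      simp only [max_def, min_def]
      split_ifs <;> constructor <;> omega
  · have h1 : #{a | g (a + 1) ≠ g a} ≤ #{a | o a < 2 * (K₀ : ℤ) + 1} := by
      apply Finset.card_le_card_of_injOn (fun a => a + 1)
      · intro a ha
        simp only [Finset.coe_filter, Finset.mem_univ, true_and, Set.mem_setOf_eq] at ha ⊢
        have h1 := abs_le.mp (hK a)
        have h2 := abs_le.mp (hpK a)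
        have h1' := abs_le.mp (hK (a + 1))
        have h3 := ho0 a
        rw [hg, hg] at ha
        rcases step a with ⟨e1, e2, e3⟩ | ⟨e1, e2, e3⟩
        · rw [e1, e2, e3] at ha
          rw [e3]
          by_contra hcon
          apply ha
          simp only [max_def, min_def]
          split_ifs <;> omega
        · rw [e2]
          omega
      · intro a _ b _ hab
        exact add_right_cancel hab
    refine h1.trans (cnt _ ?_)
    intro a ha
    simpa using ha
  · apply cnt
    intro a ha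
    simp only [Finset.mem_filter, Finset.mem_univ, true_and] at ha
    have h1 := abs_le.mp (hK a)
    have h2 := abs_le.mp (hpK a)
    have h3 := ho0 a
    by_contra hcon
    apply ha
    rw [hg]
    simp only [max_def, min_def]
    split_ifs <;> omega

end Pool.Agent.Lib.MP_e1dd62_co.Evn
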