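import Pool.Agent.Lib.MP_e1dd62_co.Evn.Y2
import Pool.Agent.Lib.MP_e1dd62_co.Evn.Y4

/-!
# Y5: the choice of the integer valued function
-/

namespace Pool.Agent.Lib.MP_e1dd62_co.Evn

open Finset Real

/-- The admissible integer valued functions of the constraint inequality. -/
structure Adm (K₀ U₀ N : ℕ) (h : ZMod (2 * N) → ℤ) [NeZero (2 * N)] : Prop where
  anti : ∀ a, h (a + (N : ZMod (2 * N))) = -h a
  le : ∀ a, |h a| ≤ K₀
  step : ∀ a, |h (a + 1) - h a| ≤ 1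
  few : #{a | h (a + 1) ≠ h a} ≤ U₀

/-- Odd rounding. -/
noncomputable def Y5_rd (x : ℝ) : ℤ := if 0 ≤ x then round x else -round (-x)

theorem Y5_rd_neg (x : ℝ) : Y5_rd (-x) = -Y5_rd x := by
  unfold Y5_rd
  rcases lt_trichotomy x 0 with h | h | h
  · rw [if_pos (by linarith), if_neg (by linarith), neg_neg]
  · subst h
    simp
  · rw [if_neg (by linarith), if_pos h.le, neg_neg]

theorem Y5_round_neg (x : ℝ) : |x - round x| ≤ |(-x) - round (-x)| := by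
  have := round_le x (-round (-x))
  rw [show |(-x) - (round (-x) : ℝ)| = |x - ((-round (-x) : ℤ) : ℝ)| by
    rw [← abs_neg]
    congr 1
    push_cast
    ring]
  exact this

theorem Y5_rd_sq (x : ℝ) : (x - Y5_rd x) ^ 2 = (x - round x) ^ 2 := by
  unfold Y5_rd
  split_ifs with h
  · rfl
  · have h1 := Y5_round_neg x
    have h2 := Y5_round_neg (-x)
    rw [neg_neg] at h2
    have h3 : |x - round x| = |(-x) - round (-x)| := le_antisymm h1 h2
    rw [← sq_abs (x - round x), h3, sq_abs]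
    push_cast
    ring

theorem Y5_rd_abs (x : ℝ) : |(Y5_rd x : ℝ)| ≤ |x| + 1 / 2 := by
  have h1 : |x - Y5_rd x| ≤ 1 / 2 := by
    have h2 := Y5_rd_sq x
    have h3 := abs_sub_round x
    rw [← sq_abs, ← sq_abs (x - round x)] at h2
    have h4 : |x - Y5_rd x| = |x - round x| := by
      have := abs_nonneg (x - Y5_rd x)
      have := abs_nonneg (x - (round x : ℝ))
      nlinarith
    rw [h4]
    exact h3
  have h2 : (Y5_rd x : ℝ) = x - (x - Y5_rd x) := by ring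
  calc |(Y5_rd x : ℝ)| = |x - (x - Y5_rd x)| := by rw [← h2]
    _ ≤ |x| + |x - Y5_rd x| := abs_sub _ _
    _ ≤ |x| + 1 / 2 := by linarith

theorem Y5_hat_le {n : ℕ} [NeZero n] {f : ZMod n → ℝ} {C : ℝ} (hC : 0 ≤ C)
    (hf : ∑ a, f a ^ 2 ≤ C * n) (p : ZMod n) : ‖Big.hat f p‖ ≤ √C * n := by
  have hn : (0 : ℝ) < n := by exact_mod_cast NeZero.pos n
  have h1 : ‖Big.hat f p‖ ≤ ∑ a, |f a| := by
    unfold Big.hat
    refine (norm_sum_le _ _).trans (sum_le_sum fun a _ => ?_)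
    rw [norm_mul, Complex.norm_real, Real.norm_eq_abs, AddChar.norm_apply, mul_one]
  have h2 : (∑ a, |f a|) ^ 2 ≤ n * ∑ a, f a ^ 2 := by
    have := sq_sum_le_card_mul_sum_sq (s := (univ : Finset (ZMod n))) (f := fun a => |f a|)
    rw [card_univ, ZMod.card] at this
    simpa only [sq_abs] using this
  have h3 : (∑ a, |f a|) ^ 2 ≤ (√C * n) ^ 2 := by
    rw [mul_pow, Real.sq_sqrt hC]
    calc (∑ a, |f a|) ^ 2 ≤ n * ∑ a, f a ^ 2 := h2
      _ ≤ n * (C * n) := by gcongr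
      _ = C * n ^ 2 := by ring
  have h4 : ∑ a, |f a| ≤ √C * n :=
    (pow_le_pow_iff_left₀ (sum_nonneg fun a _ => abs_nonneg _) (by positivity) two_ne_zero).1 h3
  exact h1.trans h4

/-- The change of the functional when `h` is changed at few places. -/
theorem Y5_change {n : ℕ} [NeZero n] {K₀ D : ℕ} {g h : ZMod n → ℤ} {y : ZMod n → ℝ}
    (hg : ∀ a, |g a| ≤ K₀) (hh : ∀ a, |h a| ≤ K₀) (hD : #{a | g a ≠ h a} ≤ D) {η : ℝ} (hη : 0 < η) :
    ∑ a, (π ^ 2 / 2 * (g a : ℝ) ^ 2 - π * g a * y a) ≤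
      ∑ a, (π ^ 2 / 2 * (h a : ℝ) ^ 2 - π * h a * y a) +
        D * (π ^ 2 / 2 * (K₀ : ℝ) ^ 2 + π * K₀ / η) + π * K₀ * η * ∑ a, y a ^ 2 := by
  have hpi := pi_pos
  have h1 : ∀ a, (π ^ 2 / 2 * (g a : ℝ) ^ 2 - π * g a * y a) ≤
      (π ^ 2 / 2 * (h a : ℝ) ^ 2 - π * h a * y a) +
      (if g a ≠ h a then (π ^ 2 / 2 * (K₀ : ℝ) ^ 2 + π * K₀ / η) else 0) +
        π * K₀ * η * y a ^ 2 := by
    intro a
    by_cases hgh : g a = h a
    · rw [if_neg (by simpa using hgh), hgh]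
      have : 0 ≤ π * K₀ * η * y a ^ 2 := by positivity
      linarith
    · rw [if_pos hgh]
      have hg' : |(g a : ℝ)| ≤ K₀ := by
        have := hg a
        have h2 : ((|g a| : ℤ) : ℝ) ≤ ((K₀ : ℤ) : ℝ) := by exact_mod_cast this
        simpa using h2
      have hh' : |(h a : ℝ)| ≤ K₀ := by
        have := hh a
        have h2 : ((|h a| : ℤ) : ℝ) ≤ ((K₀ : ℤ) : ℝ) := by exact_mod_cast this
        simpa using h2
      have h3 : (g a : ℝ) ^ 2 ≤ (K₀ : ℝ) ^ 2 := sq_le_sq' (abs_le.1 hg').1 (abs_le.1 hg').2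
      have h4 : (0 : ℝ) ≤ (h a : ℝ) ^ 2 := sq_nonneg _
      have h5 : |((h a : ℝ) - g a) * y a| ≤ 2 * K₀ * |y a| := by
        rw [abs_mul]
        refine mul_le_mul_of_nonneg_right ?_ (abs_nonneg _)
        have := abs_sub (h a : ℝ) (g a : ℝ)
        linarith
      have h6 : 2 * |y a| ≤ 1 / η + η * y a ^ 2 := by
        have h7 : 0 ≤ (1 - η * |y a|) ^ 2 := sq_nonneg _
        have h8 : (η * |y a|) ^ 2 = η ^ 2 * y a ^ 2 := by rw [mul_pow, sq_abs]
        have h9 : η * (2 * |y a|) ≤ η * (1 / η + η * y a ^ 2) := by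
          have : η * (1 / η + η * y a ^ 2) = 1 + η ^ 2 * y a ^ 2 := by field_simp
          rw [this]
          nlinarith
        exact le_of_mul_le_mul_left h9 hη
      have h10 : π * (((h a : ℝ) - g a) * y a) ≤ π * (K₀ * (1 / η + η * y a ^ 2)) := by
        refine mul_le_mul_of_nonneg_left ?_ hpi.le
        calc ((h a : ℝ) - g a) * y a ≤ 2 * K₀ * |y a| := (le_abs_self _).trans h5
          _ = K₀ * (2 * |y a|) := by ring
          _ ≤ _ := mul_le_mul_of_nonneg_left h6 (Nat.cast_nonneg _)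
      have h11 : π ^ 2 / 2 * (g a : ℝ) ^ 2 ≤ π ^ 2 / 2 * (K₀ : ℝ) ^ 2 :=
        mul_le_mul_of_nonneg_left h3 (by positivity)
      have h12 : 0 ≤ π ^ 2 / 2 * (h a : ℝ) ^ 2 := by positivity
      have h13 : π * (K₀ * (1 / η + η * y a ^ 2)) = π * K₀ / η + π * K₀ * η * y a ^ 2 := by
        field_simp
      linarith only [h10, h11, h12, h13]
  refine (sum_le_sum fun a _ => h1 a).trans ?_
  rw [sum_add_distrib, sum_add_distrib, ← mul_sum, ← sum_filter, sum_const, nsmul_eq_mul]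
  have h2 : ((#{a | g a ≠ h a} : ℕ) : ℝ) * (π ^ 2 / 2 * (K₀ : ℝ) ^ 2 + π * K₀ / η) ≤
      D * (π ^ 2 / 2 * (K₀ : ℝ) ^ 2 + π * K₀ / η) := by
    refine mul_le_mul_of_nonneg_right ?_ (by positivity)
    exact_mod_cast hD
  linarith

/-- One mode. -/
theorem Y5_mode {Yh Gh C B N j : ℝ} (hY0 : 0 ≤ Yh) (hG0 : 0 ≤ Gh) (hC : 0 < C) (hB : 0 < B)
    (hN : 0 < N) (hj : 0 ≤ j) (h3 : Yh - Gh ≤ 8 * (2 * j + 3) / B * √C * (2 * N))
    (hY : Yh ≤ √C * (2 * N)) (hG : Gh ≤ √C * (2 * N)) :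
    Yh ^ 2 / (2 * N) ^ 2 / (2 * j + 4) ≤ (1 - π * (2 * j + 3) / N) *
      (Gh ^ 2 / (2 * N) ^ 2) / (2 * j + 4) + (16 * C / B + 4 * C / N) := by
  have hpi := pi_pos
  have hpi4 := pi_lt_four
  have hsq := Real.sq_sqrt hC.le
  have h4 : Yh + Gh ≤ 2 * √C * (2 * N) := by linarith
  have h5 : Yh ^ 2 - Gh ^ 2 ≤ 16 * (2 * j + 3) * C / B * (2 * N) ^ 2 := by
    have h6 : (Yh - Gh) * (Yh + Gh) ≤
        (8 * (2 * j + 3) / B * √C * (2 * N)) * (2 * √C * (2 * N)) := by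
      calc (Yh - Gh) * (Yh + Gh) ≤ (8 * (2 * j + 3) / B * √C * (2 * N)) * (Yh + Gh) :=
            mul_le_mul_of_nonneg_right h3 (by positivity)
        _ ≤ _ := mul_le_mul_of_nonneg_left h4 (by positivity)
    calc Yh ^ 2 - Gh ^ 2 = (Yh - Gh) * (Yh + Gh) := by ring
      _ ≤ _ := h6
      _ = 16 * (2 * j + 3) * (√C ^ 2) / B * (2 * N) ^ 2 := by ring
      _ = _ := by rw [hsq]
  have h6 : Yh ^ 2 / (2 * N) ^ 2 ≤ Gh ^ 2 / (2 * N) ^ 2 + 16 * (2 * j + 3) * C / B := by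
    rw [div_le_iff₀ (by positivity), add_mul, div_mul_cancel₀ _ (by positivity)]
    linarith only [h5]
  have h7 : Gh ^ 2 / (2 * N) ^ 2 ≤ C := by
    rw [div_le_iff₀ (by positivity)]
    calc Gh ^ 2 ≤ (√C * (2 * N)) ^ 2 := by gcongr
      _ = √C ^ 2 * (2 * N) ^ 2 := by ring
      _ = _ := by rw [hsq]
  have h9 : π * (2 * j + 3) / N * (Gh ^ 2 / (2 * N) ^ 2) ≤ 4 * (2 * j + 3) / N * C := by
    gcongr
  have h10 : 4 * (2 * j + 3) / N * C ≤ 4 * C / N * (2 * j + 4) := by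
    have : 4 * C / N * (2 * j + 4) = 4 * (2 * j + 3) / N * C + 4 * C / N := by ring
    rw [this]
    have : 0 ≤ 4 * C / N := by positivity
    linarith only [this]
  have h11 : 16 * (2 * j + 3) * C / B ≤ 16 * C / B * (2 * j + 4) := by
    have : 16 * C / B * (2 * j + 4) = 16 * (2 * j + 3) * C / B + 16 * C / B := by ring
    rw [this]
    have : 0 ≤ 16 * C / B := by positivity
    linarith
  have h8 : Yh ^ 2 / (2 * N) ^ 2 ≤ (1 - π * (2 * j + 3) / N) * (Gh ^ 2 / (2 * N) ^ 2) +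
      (16 * C / B + 4 * C / N) * (2 * j + 4) := by
    rw [sub_mul, one_mul, add_mul]
    linarith only [h10, h11, h6, h9]
  rw [div_le_iff₀ (by positivity), add_mul, div_mul_cancel₀ _ (by positivity)]
  exact h8

theorem choose_h {ε : ℝ} (hε : 0 < ε) (C : ℝ) (M : ℕ) : ∃ K₀ U₀ n₀ : ℕ, ∀ N : ℕ, n₀ ≤ N →
    ∀ _ : NeZero (2 * N), ∀ y : ZMod (2 * N) → ℝ, ∑ a, y a ^ 2 ≤ C * (2 * N) →
    ∃ h : ZMod (2 * N) → ℤ, Adm K₀ U₀ N h ∧
      (∑ a, (π ^ 2 / 2 * (h a : ℝ) ^ 2 - π * h a * y a)) / (2 * N) +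
      ∑ j ∈ range M, ‖Big.hat y ((2 * j + 3 : ℕ) : ZMod (2 * N))‖ ^ 2 / (2 * N) ^ 2 /
        (2 * j + 4) ≤ Jst + ε := by
  have hpi := pi_pos
  have hpi4 := pi_lt_four
  set C' : ℝ := max C 1 with hC'
  have hC1 : 1 ≤ C' := le_max_right _ _
  have hC0 : 0 < C' := by linarith
  -- the number of blocks
  obtain ⟨B, hB⟩ := exists_nat_gt (64 * (M + 1) * C' / ε)
  have hB0' : (0 : ℝ) < B := lt_of_le_of_lt (by positivity) hB
  have hB0 : 0 < B := by exact_mod_cast hB0'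
  set K₀ : ℕ := ⌈4 * B * C'⌉₊ + 1 with hK₀
  set D : ℕ := 4 * B * (K₀ + 1) with hD
  set η : ℝ := ε / (4 * π * K₀ * C') with hη
  have hK1 : (1 : ℝ) ≤ K₀ := by
    rw [hK₀]
    push_cast
    have : (0 : ℝ) ≤ (⌈4 * B * C'⌉₊ : ℝ) := Nat.cast_nonneg _
    linarith
  have hK0 : (0 : ℝ) < K₀ := by linarith
  have hη0 : 0 < η := by positivity
  set R : ℝ := D * (π ^ 2 / 2 * (K₀ : ℝ) ^ 2 + π * K₀ / η) with hR
  obtain ⟨n₁, hn₁⟩ := exists_nat_gt (4 * R / ε)
  obtain ⟨n₂, hn₂⟩ := exists_nat_gt (16 * (M + 1) * C' / ε)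
  refine ⟨K₀, D, n₁ + n₂ + 2 * B + B * (2 * K₀ + 2) + 1, fun N hN hne y hy => ?_⟩
  have hN1 : n₁ ≤ N := by omega
  have hN2 : n₂ ≤ N := by omega
  have hN3 : 2 * B ≤ N := by omega
  have hN4 : B * (2 * K₀ + 2) ≤ N := by omega
  have hNpos : 0 < N := by omega
  have hN0 : (0 : ℝ) < N := by exact_mod_cast hNpos
  have hy' : ∑ a, y a ^ 2 ≤ C' * (2 * N) :=
    hy.trans (mul_le_mul_of_nonneg_right (le_max_left _ _) (by positivity))
  obtain ⟨G, hGanti, hGblk, hGle, hGsum, hGsq, hGhat⟩ := block_avg hB0 hN3 hy'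
  set H : ZMod (2 * N) → ℤ := fun a => Y5_rd (G a / π) with hH
  have hHanti : ∀ a, H (a + (N : ZMod (2 * N))) = -H a := by
    intro a
    simp only [hH]
    rw [hGanti, neg_div, Y5_rd_neg]
  have hHblk : ∀ a b, blk B N a = blk B N b → H a = H b := by
    intro a b hab
    simp only [hH]
    rw [hGblk a b hab]
  have hHK : ∀ a, |H a| ≤ K₀ := by
    intro a
    have h1 := Y5_rd_abs (G a / π)
    have h2 : |G a| ≤ 1 + 4 * B * C' := by
      have h3 := hGle a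
      rw [← sq_abs] at h3
      nlinarith only [h3, sq_nonneg (|G a| - 1), abs_nonneg (G a)]
    have h3 : |G a / π| ≤ (1 + 4 * B * C') / 3 := by
      rw [abs_div, abs_of_pos hpi]
      have h4 : |G a| / π ≤ |G a| / 3 :=
        div_le_div_of_nonneg_left (abs_nonneg _) (by norm_num) pi_gt_three.le
      have h5 : |G a| / 3 ≤ (1 + 4 * B * C') / 3 := by linarith
      exact h4.trans h5
    have h4 : (4 * B * C' : ℝ) ≤ (⌈4 * B * C'⌉₊ : ℝ) := Nat.le_ceil _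
    have h5 : |(H a : ℝ)| ≤ ((K₀ : ℤ) : ℝ) := by
      have h6 : (0 : ℝ) ≤ 4 * B * C' := by positivity
      have h7 : |(H a : ℝ)| ≤ |G a / π| + 1 / 2 := h1
      rw [hK₀]
      push_cast
      linarith only [h1, h3, h4]
    have h8 : (((|H a| : ℤ)) : ℝ) ≤ ((K₀ : ℤ) : ℝ) := by
      rw [Int.cast_abs]
      exact h5
    exact_mod_cast h8
  obtain ⟨g, hganti, hgK, hgstep, hgfew, hgne⟩ := ramp hB0 hN4 H hHanti hHblk hHK
  refine ⟨g, ⟨hganti, hgK, hgstep, hgfew⟩, ?_⟩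
  -- the change from `H` to `g`
  have hch := Y5_change (y := y) hgK hHK hgne hη0
  -- the functional for `H`
  have hHfun : ∑ a, (π ^ 2 / 2 * (H a : ℝ) ^ 2 - π * H a * y a) =
      ∑ a, (Dist (G a) - G a ^ 2) / 2 := by
    have h1 := hGsum (fun a => (H a : ℝ)) (fun a => by
      rw [hHanti]
      push_cast
      ring) (fun a b hab => by rw [hHblk a b hab])
    have h2 : ∑ a, (π ^ 2 / 2 * (H a : ℝ) ^ 2 - π * H a * y a) =
        ∑ a, (π ^ 2 / 2 * (H a : ℝ) ^ 2 - π * H a * G a) := by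
      rw [sum_sub_distrib, sum_sub_distrib]
      congr 1
      simp only [mul_assoc]
      rw [← mul_sum, ← mul_sum, h1]
    rw [h2]
    refine sum_congr rfl fun a _ => ?_
    have h3 : Dist (G a) = (π * H a - G a) ^ 2 := by
      unfold Dist
      have h4 := Y5_rd_sq (G a / π)
      have h5 : G a - π * (round (G a / π) : ℝ) = π * (G a / π - round (G a / π)) := by
        field_simp
      have h6 : π * H a - G a = -(π * (G a / π - Y5_rd (G a / π))) := by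
        simp only [hH]
        field_simp
        ring
      rw [h5, h6, neg_sq, mul_pow, mul_pow, h4]
    rw [h3]
    ring
  have hJ := J_disc hNpos G hGanti M
  -- the Fourier side
  have hyle : ∀ p, ‖Big.hat y p‖ ≤ √C' * (2 * N) := fun p => by
    have := Y5_hat_le hC0.le (f := y) (n := 2 * N) (by push_cast; exact hy') p
    push_cast at this
    exact this
  have hGle' : ∀ p, ‖Big.hat G p‖ ≤ √C' * (2 * N) := fun p => by
    have := Y5_hat_le hC0.le (f := G) (n := 2 * N) (by push_cast; exact hGsq) p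
    push_cast at this
    exact this
  have hF : ∑ j ∈ range M, ‖Big.hat y ((2 * j + 3 : ℕ) : ZMod (2 * N))‖ ^ 2 / (2 * N) ^ 2 /
        (2 * (j : ℝ) + 4) ≤
      ∑ j ∈ range M, (1 - π * (2 * j + 3) / N) *
        (‖Big.hat G ((2 * j + 3 : ℕ) : ZMod (2 * N))‖ ^ 2 / (2 * N) ^ 2) / (2 * j + 4) +
        M * (16 * C' / B + 4 * C' / N) := by
    have h1 : (M : ℝ) * (16 * C' / B + 4 * C' / N) =
        ∑ _j ∈ range M, (16 * C' / B + 4 * C' / N) := by
      rw [sum_const, card_range, nsmul_eq_mul]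
    rw [h1, ← sum_add_distrib]
    refine sum_le_sum fun j _ => ?_
    have hj : (0 : ℝ) ≤ j := Nat.cast_nonneg j
    have h2 := hGhat (j + 1)
    rw [show 2 * (j + 1) + 1 = 2 * j + 3 by ring] at h2
    push_cast at h2
    set Yh := ‖Big.hat y ((2 * j + 3 : ℕ) : ZMod (2 * N))‖ with hYh
    set Gh := ‖Big.hat G ((2 * j + 3 : ℕ) : ZMod (2 * N))‖ with hGh
    have h3 : Yh - Gh ≤ 8 * (2 * j + 3) / B * √C' * (2 * N) := by
      have h4 := norm_sub_norm_le (Big.hat y ((2 * j + 3 : ℕ) : ZMod (2 * N)))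
        (Big.hat G ((2 * j + 3 : ℕ) : ZMod (2 * N)))
      refine h4.trans ?_
      refine le_trans ?_ (h2.trans (le_of_eq ?_))
      · push_cast
        exact le_refl _
      · ring
    exact Y5_mode (norm_nonneg _) (norm_nonneg _) hC0 hB0' hN0 hj h3 (hyle _) (hGle' _)
  -- the error terms
  have hE1 : (M : ℝ) * (16 * C' / B) ≤ ε / 4 := by
    rw [div_lt_iff₀ hε] at hB
    rw [← mul_div_assoc, div_le_iff₀ hB0']
    nlinarith only [hB, hC1]
  have hn₂' : (n₂ : ℝ) ≤ N := by exact_mod_cast hN2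
  have hE2 : (M : ℝ) * (4 * C' / N) ≤ ε / 4 := by
    rw [div_lt_iff₀ hε] at hn₂
    rw [← mul_div_assoc, div_le_iff₀ hN0]
    nlinarith only [hC1, hn₂, hn₂', hε]
  have hn₁' : (n₁ : ℝ) ≤ N := by exact_mod_cast hN1
  have hR0 : 0 ≤ R := by positivity
  have hE3 : R / (2 * N) ≤ ε / 4 := by
    rw [div_lt_iff₀ hε] at hn₁
    rw [div_le_iff₀ (by positivity)]
    nlinarith only [hN0, hn₁, hn₁', hε]
  have hE4 : π * K₀ * η * (∑ a, y a ^ 2) / (2 * N) ≤ ε / 4 := by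
    rw [div_le_iff₀ (by positivity)]
    calc π * K₀ * η * (∑ a, y a ^ 2) ≤ π * K₀ * η * (C' * (2 * N)) := by gcongr
      _ = ε / 4 * (2 * N) := by
        rw [hη]
        field_simp
  have hS : (∑ a, (π ^ 2 / 2 * (g a : ℝ) ^ 2 - π * g a * y a)) / (2 * N) ≤
      (∑ a, (Dist (G a) - G a ^ 2) / 2) / (2 * N) + R / (2 * N) +
        π * K₀ * η * (∑ a, y a ^ 2) / (2 * N) := by
    rw [← add_div, ← add_div]
    rw [hHfun] at hch
    gcongr
  have hM : (M : ℝ) * (16 * C' / B + 4 * C' / N) ≤ ε / 2 := by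
    rw [mul_add]
    linarith only [hE1, hE2]
  linarith only [hE1, hE2, hE3, hE4, hF, hJ, hS, hne]

end Pool.Agent.Lib.MP_e1dd62_co.Evn
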