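import Pool.Agent.Lib.MP_e1dd62_co.Evn.C1
import Pool.Agent.Lib.MP_e1dd62_co.Evn.Y5

/-!
# C2: the constraint inequality (analytic part)
-/

namespace Pool.Agent.Lib.MP_e1dd62_co.Evn

open Finset Real

private theorem c2_walk {n : ℕ} {h : ZMod n → ℤ} (a : ZMod n) (k : ℕ)
    (hk : h (a + k) ≠ h a) : ∃ i : ℕ, i < k ∧ h (a + i + 1) ≠ h (a + i) := by
  induction k with
  | zero => simp at hk
  | succ k ih =>
    by_cases h1 : h (a + k) = h a
    · refine ⟨k, Nat.lt_succ_self k, ?_⟩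
      rw [h1]
      push_cast at hk
      rwa [← add_assoc] at hk
    · obtain ⟨i, hi, h2⟩ := ih h1
      exact ⟨i, hi.trans (Nat.lt_succ_self k), h2⟩

private theorem c2_walk' {n : ℕ} {h : ZMod n → ℤ} (a : ZMod n) (k : ℕ)
    (hk : h (a - k) ≠ h a) : ∃ i : ℕ, 1 ≤ i ∧ i ≤ k ∧ h (a - i + 1) ≠ h (a - i) := by
  induction k with
  | zero => simp at hk
  | succ k ih =>
    by_cases h1 : h (a - k) = h a
    · refine ⟨k + 1, by omega, le_rfl, ?_⟩
      have : a - ((k + 1 : ℕ) : ZMod n) + 1 = a - k := by push_cast; ring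
      rw [this, h1]
      exact hk.symm
    · obtain ⟨i, hi, hi', h2⟩ := ih h1
      exact ⟨i, hi, hi'.trans (Nat.le_succ k), h2⟩

private theorem c2_walkz {n : ℕ} {h : ZMod n → ℤ} (a : ZMod n) (z : ℤ) (K : ℕ) (hz : |z| ≤ K)
    (hk : h (a + z) ≠ h a) : ∃ d : ℤ, -(K : ℤ) ≤ d ∧ d ≤ K ∧ h (a + d + 1) ≠ h (a + d) := by
  rw [abs_le] at hz
  rcases Int.le_total 0 z with h0 | h0
  · obtain ⟨k, rfl⟩ := Int.eq_ofNat_of_zero_le h0
    obtain ⟨i, hi, h2⟩ := c2_walk a k (by simpa using hk)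
    exact ⟨i, by omega, by omega, by simpa using h2⟩
  · obtain ⟨k, hk'⟩ := Int.eq_ofNat_of_zero_le (show 0 ≤ -z by omega)
    have hz' : z = -(k : ℤ) := by omega
    subst hz'
    obtain ⟨i, hi, hi', h2⟩ := c2_walk' a k (by
      push_cast at hk
      rwa [← sub_eq_add_neg] at hk)
    refine ⟨-(i : ℤ), by omega, by omega, ?_⟩
    push_cast
    rwa [← sub_eq_add_neg]

theorem bad_le {K₀ U₀ N : ℕ} [NeZero (2 * N)] {h : ZMod (2 * N) → ℤ} (hh : Adm K₀ U₀ N h) :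
    #{a | ¬(h (a - 1) = h a ∧ h (a + (h a : ZMod (2 * N))) = h a ∧
      h (a + (h a : ZMod (2 * N)) - 1) = h a)} ≤ (2 * K₀ + 7) * U₀ := by
  classical
  have hsub : (univ.filter fun a : ZMod (2 * N) => ¬(h (a - 1) = h a ∧
      h (a + (h a : ZMod (2 * N))) = h a ∧ h (a + (h a : ZMod (2 * N)) - 1) = h a)) ⊆
      (Icc (-((K₀ + 1 : ℕ) : ℤ)) ((K₀ + 1 : ℕ) : ℤ)).biUnion fun d =>
        (univ.filter fun b : ZMod (2 * N) => h (b + 1) ≠ h b).image fun b => b - d := by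
    intro a ha
    rw [mem_filter] at ha
    have key : ∃ d : ℤ, -((K₀ + 1 : ℕ) : ℤ) ≤ d ∧ d ≤ ((K₀ + 1 : ℕ) : ℤ) ∧
        h (a + d + 1) ≠ h (a + d) := by
      have hle := hh.le a
      rw [abs_le] at hle
      have h2 := ha.2
      rw [not_and_or, not_and_or] at h2
      rcases h2 with h2 | h2 | h2
      · refine c2_walkz a (-1) (K₀ + 1) (by rw [abs_neg, abs_one]; push_cast; omega) ?_
        push_cast
        rwa [← sub_eq_add_neg]
      · exact c2_walkz a (h a) (K₀ + 1) (abs_le.2 ⟨by push_cast; omega, by push_cast; omega⟩) h2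
      · refine c2_walkz a (h a - 1) (K₀ + 1)
          (abs_le.2 ⟨by push_cast; omega, by push_cast; omega⟩) ?_
        push_cast
        rwa [← add_sub_assoc]
    obtain ⟨d, h1, h2, h3⟩ := key
    rw [mem_biUnion]
    refine ⟨d, mem_Icc.2 ⟨h1, h2⟩, mem_image.2 ⟨a + d, mem_filter.2 ⟨mem_univ _, h3⟩, by ring⟩⟩
  refine (card_le_card hsub).trans (card_biUnion_le.trans ?_)
  calc ∑ d ∈ Icc (-((K₀ + 1 : ℕ) : ℤ)) ((K₀ + 1 : ℕ) : ℤ),
      #((univ.filter fun b : ZMod (2 * N) => h (b + 1) ≠ h b).image fun b => b - (d : ZMod (2 * N)))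
      ≤ ∑ d ∈ Icc (-((K₀ + 1 : ℕ) : ℤ)) ((K₀ + 1 : ℕ) : ℤ), U₀ :=
        sum_le_sum fun d _ => card_image_le.trans hh.few
    _ = (2 * K₀ + 3) * U₀ := by
        rw [sum_const, Int.card_Icc, smul_eq_mul]
        congr 1
        push_cast
        omega
    _ ≤ (2 * K₀ + 7) * U₀ := Nat.mul_le_mul_right _ (by omega)

private theorem c2_log {n Z E β D c S ε : ℝ} (hn : 4 ≤ n) (hc : 0 < c)
    (hS : n - Z / n ^ 2 - E ≤ S) (hcS : c * S ≤ n + β) (hZ : |Z| ≤ D * n) (hE0 : 0 ≤ E)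
    (hE : E * n * √n ≤ D) (hβ0 : 0 ≤ β) (hβ : β * n ^ 2 ≤ D) (hD : 1 ≤ D)
    (hbig : 3 * D + 8 * D ^ 2 ≤ ε * √n) (hbig2 : 4 * D ≤ n ^ 2) :
    n * (n - 1) * log c ≤ Z / n + ε := by
  have hn0 : 0 < n := by linarith
  set s := √n with hs
  have hs2 : s ^ 2 = n := Real.sq_sqrt hn0.le
  have hs1 : 1 ≤ s := by
    rw [hs]
    exact Real.one_le_sqrt.2 (by linarith)
  have hs0 : 0 < s := by linarith
  have hD0 : 0 < D := by linarith
  have hEn : E * n ≤ D := by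
    have : E * n * 1 ≤ E * n * s := mul_le_mul_of_nonneg_left hs1 (by positivity)
    linarith
  obtain ⟨hZ1, hZ2⟩ := abs_le.1 hZ
  set w := Z / n ^ 3 + E / n with hw
  have hwn : n * (1 - w) = n - Z / n ^ 2 - E := by
    rw [hw]
    field_simp
    ring
  have hw1 : w * n ^ 2 ≤ 2 * D := by
    have : w * n ^ 2 = Z / n + E * n := by
      rw [hw]; field_simp
    rw [this]
    have : Z / n ≤ D := by rw [div_le_iff₀ hn0]; linarith
    linarith
  have hw2 : -(2 * D) ≤ w * n ^ 2 := by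
    have : w * n ^ 2 = Z / n + E * n := by
      rw [hw]; field_simp
    rw [this]
    have : -D ≤ Z / n := by rw [le_div_iff₀ hn0]; linarith only [hZ1]
    have : 0 ≤ E * n := by positivity
    linarith
  have hn2 : 0 < n ^ 2 := by positivity
  have hwhalf : w ≤ 1 / 2 := by
    have : w * n ^ 2 ≤ 1 / 2 * n ^ 2 := by linarith only [hbig2, hw1]
    exact le_of_mul_le_mul_right this hn2
  have h1w : 0 < 1 - w := by linarith
  have hcw : c * (n * (1 - w)) ≤ n + β := by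
    rw [hwn]
    exact (mul_le_mul_of_nonneg_left hS hc.le).trans hcS
  have hcle : c ≤ (1 + β / n) * (1 / (1 - w)) := by
    rw [mul_one_div, le_div_iff₀ h1w]
    have : c * (1 - w) * n ≤ (1 + β / n) * n := by
      have e : (1 + β / n) * n = n + β := by field_simp
      rw [e]
      linarith only [hcw]
    exact le_of_mul_le_mul_right this hn0
  have hlog : log c ≤ β / n + w + 2 * w ^ 2 := by
    have h1 : log c ≤ log ((1 + β / n) * (1 / (1 - w))) := Real.log_le_log hc hcle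
    have hb : 0 ≤ β / n := by positivity
    rw [Real.log_mul (by positivity) (by positivity)] at h1
    have h2 : log (1 + β / n) ≤ β / n := by
      have := Real.log_le_sub_one_of_pos (show 0 < 1 + β / n by positivity)
      linarith only [this]
    have h3 : log (1 / (1 - w)) ≤ 1 / (1 - w) - 1 :=
      Real.log_le_sub_one_of_pos (by positivity)
    have h4 : 1 / (1 - w) - 1 ≤ w + 2 * w ^ 2 := by
      rw [sub_le_iff_le_add, div_le_iff₀ h1w]
      have : 0 ≤ w ^ 2 * (1 - 2 * w) := mul_nonneg (sq_nonneg _) (by linarith)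
      nlinarith only [this]
    linarith only [h1, h2, h3, h4]
  have hnn : 0 < n * (n - 1) := by nlinarith only [hn]
  have h5 : n * (n - 1) * log c ≤ n * (n - 1) * (β / n + w + 2 * w ^ 2) :=
    mul_le_mul_of_nonneg_left hlog hnn.le
  refine h5.trans ?_
  -- the three terms
  have t1 : n * (n - 1) * (β / n) ≤ D / s := by
    have e : n * (n - 1) * (β / n) = (n - 1) * β := by field_simp
    rw [e, le_div_iff₀ hs0]
    have h6 : (n - 1) * β * s ≤ n * β * n := by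
      have h7 : s ≤ n := by nlinarith only [hn, hs1, hs2]
      have h8 : (n - 1) * β ≤ n * β := by nlinarith only [hβ0]
      exact mul_le_mul h8 h7 hs0.le (by positivity)
    calc (n - 1) * β * s ≤ n * β * n := h6
      _ = β * n ^ 2 := by ring
      _ ≤ D := hβ
  have t2 : n * (n - 1) * w ≤ Z / n + D / s + D / s := by
    have e : n * (n - 1) * w = Z / n - Z / n ^ 2 + (n - 1) * E := by
      rw [hw]
      field_simp
    rw [e]
    have h6 : -(Z / n ^ 2) ≤ D / s := by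
      rw [← neg_div, div_le_div_iff₀ hn2 hs0]
      have h7 : s ≤ n := by nlinarith only [hn, hs1, hs2]
      calc -Z * s ≤ (D * n) * s := mul_le_mul_of_nonneg_right (by linarith) hs0.le
        _ ≤ (D * n) * n := mul_le_mul_of_nonneg_left h7 (by positivity)
        _ = D * n ^ 2 := by ring
    have h7 : (n - 1) * E ≤ D / s := by
      rw [le_div_iff₀ hs0]
      have h8 : (n - 1) * E * s ≤ n * E * s := by
        have : (n - 1) * E ≤ n * E := by nlinarith only [hE0]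
        exact mul_le_mul_of_nonneg_right this hs0.le
      linarith [show n * E * s = E * n * s by ring]
    linarith
  have t3 : n * (n - 1) * (2 * w ^ 2) ≤ 8 * D ^ 2 / s := by
    have h6 : (w * n ^ 2) ^ 2 ≤ (2 * D) ^ 2 := by
      rw [sq_le_sq, abs_of_pos (show (0 : ℝ) < 2 * D by linarith)]
      exact abs_le.2 ⟨hw2, hw1⟩
    have h7 : n * (n - 1) * (2 * w ^ 2) * n ^ 2 ≤ 8 * D ^ 2 := by
      have h8 : n * (n - 1) * (2 * w ^ 2) ≤ n ^ 2 * (2 * w ^ 2) := by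
        refine mul_le_mul_of_nonneg_right ?_ (by positivity)
        nlinarith only [hn]
      calc n * (n - 1) * (2 * w ^ 2) * n ^ 2 ≤ n ^ 2 * (2 * w ^ 2) * n ^ 2 :=
            mul_le_mul_of_nonneg_right h8 hn2.le
        _ = 2 * (w * n ^ 2) ^ 2 := by ring
        _ ≤ 2 * (2 * D) ^ 2 := by linarith
        _ = 8 * D ^ 2 := by ring
    rw [le_div_iff₀ hs0]
    have h9 : s ≤ n ^ 2 := by nlinarith only [hn, hs1, hs2]
    have h10 : 0 ≤ n * (n - 1) * (2 * w ^ 2) := by (clear * - hnn; positivity)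
    exact (mul_le_mul_of_nonneg_left h9 h10).trans h7
  have h6 : D / s + D / s + D / s + 8 * D ^ 2 / s ≤ ε := by
    rw [← add_div, ← add_div, ← add_div, div_le_iff₀ hs0]
    linarith
  calc n * (n - 1) * (β / n + w + 2 * w ^ 2)
      = n * (n - 1) * (β / n) + n * (n - 1) * w + n * (n - 1) * (2 * w ^ 2) := by ring
    _ ≤ Z / n + ε := by linarith only [h6, t1, t2, t3]

private theorem c2_sin {y : ℝ} (hy : |y| ≤ 1) : |sin y - y| ≤ |y| ^ 3 := by
  have h1 := Real.sin_bound hy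
  have h2 : |sin y - y| ≤ |sin y - (y - y ^ 3 / 6)| + |y ^ 3 / 6| := by
    have e : sin y - y = (sin y - (y - y ^ 3 / 6)) - y ^ 3 / 6 := by ring
    rw [e]
    exact abs_sub _ _
  have h3 : |y ^ 3 / 6| = |y| ^ 3 / 6 := by
    rw [abs_div, abs_pow, abs_of_pos (show (0 : ℝ) < 6 by norm_num)]
  have h4 : |y| ^ 5 ≤ |y| ^ 3 := pow_le_pow_of_le_one (abs_nonneg _) hy (by norm_num)
  have h5 : 0 ≤ |y| ^ 3 := by positivity
  rw [h3] at h2
  linarith only [h1, h2, h4, h5]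

private theorem c2_lower {ι : Type} [Fintype ι] (X Y h : ι → ℝ) (K x : ℝ) (hx0 : 0 ≤ x)
    (hk : ∀ a, |h a| ≤ K) (hxK : K * x ≤ 1) :
    ∑ a, X a - ∑ a, (x ^ 2 / 2 * h a ^ 2 - x * h a * Y a) -
        (K ^ 2 * x ^ 2 / 2 * ∑ a, |X a - 1| + (K * x) ^ 3 * ∑ a, |Y a|) ≤
      ∑ a, (X a * cos (h a * x) + Y a * sin (h a * x)) := by
  have hpt : ∀ a, X a - (x ^ 2 / 2 * h a ^ 2 - x * h a * Y a) -
      (K ^ 2 * x ^ 2 / 2 * |X a - 1| + (K * x) ^ 3 * |Y a|) ≤
      X a * cos (h a * x) + Y a * sin (h a * x) := by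
    intro a
    have hka := hk a
    generalize X a = X
    generalize Y a = Y
    generalize h a = h at hka ⊢
    have hk2 : h ^ 2 ≤ K ^ 2 := by
      rw [← sq_abs]
      exact pow_le_pow_left₀ (abs_nonneg _) hka 2
    have hc1 : 1 - (h * x) ^ 2 / 2 ≤ cos (h * x) := Real.one_sub_sq_div_two_le_cos
    have hc2 : cos (h * x) ≤ 1 := Real.cos_le_one _
    have hy1 : |h * x| ≤ K * x := by
      rw [abs_mul, abs_of_nonneg hx0]
      exact mul_le_mul_of_nonneg_right hka hx0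
    have hy2 : |h * x| ≤ 1 := hy1.trans hxK
    have hs1 := c2_sin hy2
    have hs2 : |h * x| ^ 3 ≤ (K * x) ^ 3 := pow_le_pow_left₀ (abs_nonneg _) hy1 3
    have p1 : X * (1 - cos (h * x)) ≤ x ^ 2 / 2 * h ^ 2 + K ^ 2 * x ^ 2 / 2 * |X - 1| := by
      have q1 : X ≤ 1 + |X - 1| := by linarith [le_abs_self (X - 1)]
      have q2 : 0 ≤ 1 - cos (h * x) := by linarith
      have q3 : 1 - cos (h * x) ≤ x ^ 2 / 2 * h ^ 2 := by
        have : (h * x) ^ 2 / 2 = x ^ 2 / 2 * h ^ 2 := by ring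
        linarith only [hc1]
      have q4 : x ^ 2 / 2 * h ^ 2 ≤ K ^ 2 * x ^ 2 / 2 := by
        have := mul_le_mul_of_nonneg_left hk2 (show 0 ≤ x ^ 2 / 2 by positivity)
        linarith only [this]
      have q5 := abs_nonneg (X - 1)
      calc X * (1 - cos (h * x)) ≤ (1 + |X - 1|) * (1 - cos (h * x)) :=
            mul_le_mul_of_nonneg_right q1 q2
        _ = (1 - cos (h * x)) + |X - 1| * (1 - cos (h * x)) := by ring
        _ ≤ x ^ 2 / 2 * h ^ 2 + |X - 1| * (K ^ 2 * x ^ 2 / 2) :=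
            add_le_add q3 (mul_le_mul_of_nonneg_left (q3.trans q4) q5)
        _ = _ := by ring
    have p2 : -((K * x) ^ 3 * |Y|) ≤ Y * (sin (h * x) - h * x) := by
      have r1 : |Y * (sin (h * x) - h * x)| ≤ |Y| * (K * x) ^ 3 := by
        rw [abs_mul]
        exact mul_le_mul_of_nonneg_left (hs1.trans hs2) (abs_nonneg _)
      have r2 := neg_abs_le (Y * (sin (h * x) - h * x))
      linarith
    linarith only [p1, p2]
  have hsum := sum_le_sum fun a (_ : a ∈ (univ : Finset ι)) => hpt a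
  rw [sum_sub_distrib, sum_sub_distrib, sum_add_distrib, ← mul_sum, ← mul_sum] at hsum
  exact hsum

private theorem c2_Z {ι : Type} [Fintype ι] (Y h : ι → ℝ) (K n : ℝ) (hn : 0 ≤ n)
    (hk : ∀ a, |h a| ≤ K) (hcard : (Fintype.card ι : ℝ) = n) :
    |∑ a, (π ^ 2 / 2 * h a ^ 2 - π * h a * (n * Y a))| ≤
      π ^ 2 / 2 * K ^ 2 * n + π * K * n * ∑ a, |Y a| := by
  have hpi := Real.pi_pos
  have h1 : ∀ a, |π ^ 2 / 2 * h a ^ 2 - π * h a * (n * Y a)| ≤
      π ^ 2 / 2 * K ^ 2 + π * K * n * |Y a| := by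
    intro a
    have hka := hk a
    generalize Y a = Y
    generalize h a = h at hka ⊢
    have hk2 : h ^ 2 ≤ K ^ 2 := by
      rw [← sq_abs]
      exact pow_le_pow_left₀ (abs_nonneg _) hka 2
    refine (abs_sub _ _).trans (add_le_add ?_ ?_)
    · rw [abs_of_nonneg (by positivity)]
      exact mul_le_mul_of_nonneg_left hk2 (by positivity)
    · rw [abs_mul, abs_mul, abs_mul, abs_of_pos hpi, abs_of_nonneg hn]
      have := mul_le_mul_of_nonneg_left hka hpi.le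
      have h2 : 0 ≤ n * |Y| := by positivity
      calc π * |h| * (n * |Y|) ≤ π * K * (n * |Y|) := mul_le_mul_of_nonneg_right this h2
        _ = _ := by ring
  refine (Finset.abs_sum_le_sum_abs _ _).trans ((sum_le_sum fun a _ => h1 a).trans ?_)
  rw [sum_add_distrib, sum_const, card_univ, nsmul_eq_mul, hcard, ← mul_sum]
  linarith

private theorem c2_E (K n C' s Sx Sy D : ℝ) (hK : 0 ≤ K) (hn : 4 ≤ n) (hC : 0 ≤ C') (hs : s = √n)
    (hSx : Sx ≤ C' * s) (hSy : Sy ≤ √C')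
    (hD : π ^ 2 * K ^ 2 * C' / 2 + (π * K) ^ 3 * √C' ≤ D) :
    (K ^ 2 * (π / n) ^ 2 / 2 * Sx + (K * (π / n)) ^ 3 * Sy) * n * s ≤ D := by
  have hpi := Real.pi_pos
  have hn0 : 0 < n := by linarith
  have hs0 : 0 ≤ s := by rw [hs]; exact Real.sqrt_nonneg _
  have hs2 : s * s = n := by rw [hs]; exact Real.mul_self_sqrt hn0.le
  have hs1 : 1 ≤ s := by rw [hs]; exact Real.one_le_sqrt.2 (by linarith)
  have hc0 : 0 ≤ √C' := Real.sqrt_nonneg _
  have h2 : K ^ 2 * (π / n) ^ 2 / 2 * Sx + (K * (π / n)) ^ 3 * Sy ≤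
      K ^ 2 * (π / n) ^ 2 / 2 * (C' * s) + (K * (π / n)) ^ 3 * √C' :=
    add_le_add (mul_le_mul_of_nonneg_left hSx (by positivity))
      (mul_le_mul_of_nonneg_left hSy (by positivity))
  have h3 := mul_le_mul_of_nonneg_right (mul_le_mul_of_nonneg_right h2 hn0.le) hs0
  refine h3.trans ?_
  have e1 : K ^ 2 * (π / n) ^ 2 / 2 * (C' * s) * n * s = π ^ 2 * K ^ 2 * C' / 2 := by
    calc K ^ 2 * (π / n) ^ 2 / 2 * (C' * s) * n * s =
          K ^ 2 * (π / n) ^ 2 / 2 * C' * n * (s * s) := by ring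
      _ = K ^ 2 * (π / n) ^ 2 / 2 * C' * n * n := by rw [hs2]
      _ = _ := by field_simp
  have e2 : (K * (π / n)) ^ 3 * √C' * n * s ≤ (π * K) ^ 3 * √C' := by
    have e3 : (K * (π / n)) ^ 3 * n ^ 3 = (π * K) ^ 3 := by field_simp
    have e4 : s ≤ n := by rw [← hs2]; exact le_mul_of_one_le_left hs0 hs1
    have e5 : n * s ≤ n ^ 3 := by
      have e6 : n * s ≤ n * n := mul_le_mul_of_nonneg_left e4 hn0.le
      have e7 : n * n * 1 ≤ n * n * n := mul_le_mul_of_nonneg_left (by linarith only [hn]) (by positivity)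
      calc n * s ≤ n * n := e6
        _ = n * n * 1 := by ring
        _ ≤ n * n * n := e7
        _ = n ^ 3 := by ring
    calc (K * (π / n)) ^ 3 * √C' * n * s = (K * (π / n)) ^ 3 * √C' * (n * s) := by ring
      _ ≤ (K * (π / n)) ^ 3 * √C' * n ^ 3 := mul_le_mul_of_nonneg_left e5 (by positivity)
      _ = (K * (π / n)) ^ 3 * n ^ 3 * √C' := by ring
      _ = _ := by rw [e3]
  calc (K ^ 2 * (π / n) ^ 2 / 2 * (C' * s) + (K * (π / n)) ^ 3 * √C') * n * s =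
      K ^ 2 * (π / n) ^ 2 / 2 * (C' * s) * n * s + (K * (π / n)) ^ 3 * √C' * n * s := by ring
    _ ≤ π ^ 2 * K ^ 2 * C' / 2 + (π * K) ^ 3 * √C' := by rw [e1]; linarith only [e2]
    _ ≤ D := hD

private theorem c2_all {ι : Type} [Fintype ι] (X Y h : ι → ℝ) (K U n C' D B c ε : ℝ)
    (hK : 0 ≤ K) (hU : 0 ≤ U) (hn : 4 ≤ n) (hC : 0 ≤ C')
    (hDdef : D = π ^ 2 * K ^ 2 / 2 + π * K * √C' + π ^ 2 * K ^ 2 * C' / 2 + (π * K) ^ 3 * √C' +
      (2 * K + 7) * U * π ^ 2 / 4 + 1) (hε : 0 < ε)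
    (hbig : ((3 * D + 8 * D ^ 2) / ε) ^ 2 + 4 * D + π * K ≤ n)
    (hc : 0 < c) (hk : ∀ a, |h a| ≤ K) (hcard : (Fintype.card ι : ℝ) = n)
    (hX : ∑ a, X a = n) (hX1 : ∑ a, |X a - 1| ≤ C' * √n) (hY : n * ∑ a, Y a ^ 2 ≤ C')
    (hB0 : 0 ≤ B) (hB : B ≤ (2 * K + 7) * U)
    (hcon : c * ∑ a, (X a * cos (h a * (π / n)) + Y a * sin (h a * (π / n))) ≤
      n + B * (π / n) ^ 2 / 4) :
    n * (n - 1) * log c ≤ (∑ a, (π ^ 2 / 2 * h a ^ 2 - π * h a * (n * Y a))) / n + ε := by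
  have hpi := Real.pi_pos
  have hn0 : 0 < n := by linarith
  have hsC : 0 ≤ √C' := Real.sqrt_nonneg _
  have d1 : 0 ≤ π ^ 2 * K ^ 2 / 2 := by positivity
  have d2 : 0 ≤ π * K * √C' := by positivity
  have d3 : 0 ≤ π ^ 2 * K ^ 2 * C' / 2 := by positivity
  have d4 : 0 ≤ (π * K) ^ 3 * √C' := by positivity
  have d5 : 0 ≤ (2 * K + 7) * U * π ^ 2 / 4 := by positivity
  have hD1 : 1 ≤ D := by rw [hDdef]; linarith only [d1, d2, d3, d4, d5]
  have hYabs : ∑ a, |Y a| ≤ √C' := by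
    apply Real.le_sqrt_of_sq_le
    have h1 := Finset.sum_mul_sq_le_sq_mul_sq univ (fun _ : ι => (1 : ℝ)) fun a => |Y a|
    simp only [one_mul, one_pow, sq_abs, sum_const, card_univ, nsmul_eq_mul, mul_one,
      hcard] at h1
    linarith only [h1, hY]
  have hpk : 0 ≤ π * K := by positivity
  have hsq0 : 0 ≤ ((3 * D + 8 * D ^ 2) / ε) ^ 2 := sq_nonneg _
  have hlow := c2_lower X Y h K (π / n) (by positivity) hk (by
    rw [mul_div_assoc', div_le_one hn0]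
    linarith only [d1, d2, d3, d4, d5, hDdef, hbig, hsq0])
  rw [hX] at hlow
  have hZn : (∑ a, (π ^ 2 / 2 * h a ^ 2 - π * h a * (n * Y a))) / n ^ 2 =
      ∑ a, ((π / n) ^ 2 / 2 * h a ^ 2 - (π / n) * h a * Y a) := by
    rw [Finset.sum_div]
    refine sum_congr rfl fun a _ => ?_
    field_simp
  rw [← hZn] at hlow
  have hZ := c2_Z Y h K n hn0.le hk hcard
  have hE := c2_E K n C' (√n) (∑ a, |X a - 1|) (∑ a, |Y a|) D hK hn hC rfl hX1 hYabs
    (by rw [hDdef]; linarith only [d1, d2, d5])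
  have hsx : 0 ≤ ∑ a, |X a - 1| := sum_nonneg fun _ _ => abs_nonneg _
  have hsy : 0 ≤ ∑ a, |Y a| := sum_nonneg fun _ _ => abs_nonneg _
  generalize ∑ a, (X a * cos (h a * (π / n)) + Y a * sin (h a * (π / n))) = S at *
  generalize ∑ a, (π ^ 2 / 2 * h a ^ 2 - π * h a * (n * Y a)) = Z at *
  generalize ∑ a, |X a - 1| = Sx at *
  generalize ∑ a, |Y a| = Sy at *
  refine c2_log (D := D) hn hc hlow hcon (hZ.trans ?_) ?_ hE (by positivity) ?_ hD1 ?_ ?_
  · have h3 : π * K * n * Sy ≤ π * K * n * √C' :=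
      mul_le_mul_of_nonneg_left hYabs (by positivity)
    have h4 : D * n = (π ^ 2 * K ^ 2 / 2 + π * K * √C') * n + (π ^ 2 * K ^ 2 * C' / 2 +
        (π * K) ^ 3 * √C' + (2 * K + 7) * U * π ^ 2 / 4 + 1) * n := by
      rw [hDdef]; ring
    have h5 : 0 ≤ (π ^ 2 * K ^ 2 * C' / 2 +
        (π * K) ^ 3 * √C' + (2 * K + 7) * U * π ^ 2 / 4 + 1) * n :=
      mul_nonneg (by linarith only [d3, d4, d5]) hn0.le
    rw [h4]
    linarith only [h3, h5]
  · (clear * - hK hn hsx hsy; positivity)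
  · have e1 : B * (π / n) ^ 2 / 4 * n ^ 2 = B * π ^ 2 / 4 := by field_simp
    rw [e1]
    have e2 : B * π ^ 2 / 4 ≤ (2 * K + 7) * U * π ^ 2 / 4 := by
      have := mul_le_mul_of_nonneg_right hB (show 0 ≤ π ^ 2 by positivity)
      linarith only [this]
    rw [hDdef]
    linarith only [d1, d2, d3, d4, e2]
  · have h1 : ((3 * D + 8 * D ^ 2) / ε) ^ 2 ≤ n := by linarith only [d1, d2, d3, d4, d5, hDdef, hbig, hpk]
    have h2 : (3 * D + 8 * D ^ 2) / ε ≤ √n := Real.le_sqrt_of_sq_le h1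
    rw [div_le_iff₀ hε] at h2
    linarith only [h2]
  · have : 4 * D ≤ n := by linarith only [hbig, hpk, hsq0]
    nlinarith only [hbig, hn, hpk]

theorem constraint_log {ε : ℝ} (hε : 0 < ε) (K₀ U₀ : ℕ) (C : ℝ) : ∃ n₀ : ℕ, ∀ N : ℕ, n₀ ≤ N →
    ∀ _ : NeZero (2 * N), ∀ (c : ℝ) (u t : ZMod (2 * N) → ℝ), 0 < c →
    (∀ i j : ℕ, ‖pt c u t i - pt c u t j‖ ≤ 2) → ∑ a, u a = 0 →
    2 * N * ∑ a, Big.Y u t a 1 ^ 2 ≤ C → ∑ a, |Big.X u t a 1 - 1| ≤ C * √(2 * N) →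
    ∀ h : ZMod (2 * N) → ℤ, Adm K₀ U₀ N h →
      (2 * N : ℝ) * (2 * N - 1) * log c ≤
        (∑ a, (π ^ 2 / 2 * (h a : ℝ) ^ 2 - π * h a * (2 * N * Big.Y u t a 1))) / (2 * N) + ε := by
  obtain ⟨D, hD⟩ : ∃ D : ℝ, D = π ^ 2 * (K₀ : ℝ) ^ 2 / 2 + π * K₀ * √|C| +
    π ^ 2 * (K₀ : ℝ) ^ 2 * |C| / 2 + (π * K₀) ^ 3 * √|C| +
    (2 * K₀ + 7) * U₀ * π ^ 2 / 4 + 1 := ⟨_, rfl⟩
  obtain ⟨n₀, hn₀⟩ := exists_nat_ge (((3 * D + 8 * D ^ 2) / ε) ^ 2 + |4 * D| + π * K₀ + 4)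
  refine ⟨n₀, fun N hN inst c u t hc hdiam hu hY hX h hh => ?_⟩
  have hpi := Real.pi_pos
  have hNr : ((3 * D + 8 * D ^ 2) / ε) ^ 2 + |4 * D| + π * K₀ + 4 ≤ N :=
    hn₀.trans (by exact_mod_cast hN)
  have hsq0 : 0 ≤ ((3 * D + 8 * D ^ 2) / ε) ^ 2 := sq_nonneg _
  have hpk : 0 ≤ π * (K₀ : ℝ) := by positivity
  have h4D := le_abs_self (4 * D)
  have h4D' := abs_nonneg (4 * D)
  have hN0 : (4 : ℝ) ≤ N := by linarith only [h4D', hNr, hpk, hsq0]
  have hN2 : 2 ≤ N := by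
    have : (2 : ℝ) ≤ N := by linarith only [h4D', hNr, hpk, hsq0]
    exact_mod_cast this
  have hcast : ((2 * N : ℕ) : ℝ) = 2 * N := by push_cast; ring
  have hcon := constraint hN2 hdiam h hh.anti (fun a => by
    have := hh.step a
    rw [abs_le] at this
    omega)
  have hbad := bad_le hh
  have hsX : ∑ a, Big.X u t a 1 = 2 * N := by rw [Big.sum_X hu, hcast]
  have hk : ∀ a, |(h a : ℝ)| ≤ K₀ := by
    intro a
    have := hh.le a
    have h2 : ((|h a| : ℤ) : ℝ) ≤ ((K₀ : ℤ) : ℝ) := by exact_mod_cast this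
    rw [Int.cast_abs] at h2
    exact_mod_cast h2
  exact c2_all (fun a => Big.X u t a 1) (fun a => Big.Y u t a 1) (fun a => (h a : ℝ)) K₀ U₀
    (2 * N) |C| D _ c ε (Nat.cast_nonneg _) (Nat.cast_nonneg _) (by linarith only [h4D', hNr, hpk, hsq0]) (abs_nonneg _) hD hε
    (by linarith only [h4D, h4D', hNr, hpk, hsq0]) hc hk (by rw [ZMod.card, hcast]) hsX
    (hX.trans (mul_le_mul_of_nonneg_right (le_abs_self C) (Real.sqrt_nonneg _)))
    (hY.trans (le_abs_self C)) (Nat.cast_nonneg _) (by exact_mod_cast hbad) hcon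

end Pool.Agent.Lib.MP_e1dd62_co.Evn
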