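import Pool.Agent.Lib.MP_e1dd62_co.Big.Defs
import Pool.Agent.Lib.MP_e1dd62_co.Big.F1

/-!
# Even `n`: definitions for the asymptotics of the maximum product of distances
-/

namespace Pool.Agent.Lib.MP_e1dd62_co.Evn

open Finset Real

/-- The limit of `log M(n) - n log n` along even `n`. -/
noncomputable def Jst : ℝ := π ^ 2 / 8 - √3 * π / 4 + 9 / 4 * log 3 - 3 * log 2

/-- The `m`-th Fourier coefficient of a real function on the circle. -/
noncomputable def fc (χ : ℝ → ℝ) (m : ℕ) : ℂ :=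
  ((1 / (2 * π) : ℝ) : ℂ) *
    ∫ θ in (0 : ℝ)..(2 * π), (χ θ : ℂ) * Complex.exp (((-(m * θ) : ℝ) : ℂ) * Complex.I)

/-- The squared distance of `y` to `π ℤ`. -/
noncomputable def Dist (y : ℝ) : ℝ := (y - π * round (y / π)) ^ 2

/-- The Blaschke factor `(x + c) / (1 + c x)` as a power series. -/
noncomputable def tau (c : ℝ) : PowerSeries ℝ :=
  (PowerSeries.X + PowerSeries.C c) * (1 + PowerSeries.C c * PowerSeries.X)⁻¹

/-- The coefficient of `x ^ k` in `((x + c) / (1 + c x)) ^ n`. -/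
noncomputable def tc (c : ℝ) (n k : ℕ) : ℝ := PowerSeries.coeff k (tau c ^ n)

/-- The inner cross sum of the inequality (I): frequencies `n` and `n + e`, shift `q`. -/
noncomputable def Icr (c : ℝ) (n e q : ℕ) : ℝ :=
  ∑' l : ℕ, tc c n (l + q) * tc c (n + e) l / ((n : ℝ) + e + 1 + 2 * l)

/-- The cross coefficient `E_{d,q}` (up to the sign `(-1)^d`). -/
noncomputable def Ebar (c : ℝ) (d q : ℕ) : ℝ :=
  ∑' i : ℕ, Icr c (2 * i + 1) (2 * d) q / ((2 * (i : ℝ) + 1) * (2 * i + 1 + 2 * d))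

/-- The main sum of the inequality (I). -/
noncomputable def Mn (c : ℝ) : ℝ :=
  ∑' p : ℕ × ℕ, tc c (2 * p.1 + 1) p.2 ^ 2 /
    ((2 * (p.1 : ℝ) + 1) ^ 2 * (2 * p.1 + 2 + 2 * p.2))

/-- The Blaschke factor as a function. -/
noncomputable def bl (c : ℝ) (x : ℂ) : ℂ := (x + c) / (1 + c * x)

/-- The vertices of a polygon near the regular one. -/
noncomputable def pt {n : ℕ} (c : ℝ) (u t : ZMod n → ℝ) (k : ℕ) : ℂ :=
  (c : ℂ) * Complex.exp (2 * π * Complex.I * k / n) * (1 + (u k : ℂ) + (t k : ℂ) * Complex.I)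

/-- An admissible configuration near the regular polygon of energy at least `n log n`. -/
structure Cfg {n : ℕ} [NeZero n] (δ c : ℝ) (u t : ZMod n → ℝ) : Prop where
  c0 : 0 < c
  near : Big.Near δ u t
  diam : ∀ i j : ℕ, ‖pt c u t i - pt c u t j‖ ≤ 2
  per : c * (n + Big.K u t) * cos (π / (2 * n)) ≤ n
  low : 0 ≤ (n : ℝ) * (n - 1) * log c + Big.SS u t

/-- The rotation `Y` of the sides. -/
noncomputable def yv {n : ℕ} (u t : ZMod n → ℝ) : ZMod n → ℝ := fun a => Big.Y u t a 1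

end Pool.Agent.Lib.MP_e1dd62_co.Evn
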