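import Pool.Agent.Lib.MP_e1dd62_co.Evn.Defs
import Pool.Agent.Lib.MP_e1dd62_co.Big.Z1
import Pool.Agent.Lib.MP_e1dd62_co.Big.B

/-!
# E0: the energy in terms of the windows
-/

namespace Pool.Agent.Lib.MP_e1dd62_co.Evn

open Finset Real

theorem energy_eq {n : ℕ} [NeZero n] (hn : 2 ≤ n) {W : ℕ → ℂ} {c : ℂ} (hc : c ≠ 0)
    {u t : ZMod n → ℝ} (hX : ∀ ℓ ∈ Ico 1 n, ∀ a : ZMod n, 0 < Big.X u t a ℓ)
    (h : ∀ k : ℕ, W k = c * Complex.exp (2 * π * Complex.I * k / n) *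
        (1 + (u k : ℂ) + (t k : ℂ) * Complex.I)) :
    ∑ ℓ ∈ Ico 1 n, ∑ a ∈ range n, log ‖W (a + ℓ) - W a‖ =
      n * log n + (n : ℝ) * (n - 1) * log ‖c‖ + Big.SS u t := by
  have hnpos : (0 : ℝ) < n := by
    have : 0 < n := by omega
    exact_mod_cast this
  have hpi := pi_pos
  have hcn : 0 < ‖c‖ := norm_pos_iff.2 hc
  have h1 : ∀ ℓ ∈ Ico 1 n, ∑ a ∈ range n, log ‖W (a + ℓ) - W a‖ =
      n * log ‖c‖ + n * log (2 * sin (ℓ * (π / n))) +
        ∑ a, log (Big.X u t a ℓ ^ 2 + Big.Y u t a ℓ ^ 2) / 2 := by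
    intro ℓ hℓ
    have hℓ' := mem_Ico.1 hℓ
    rw [← Big.Z1_sum_cast (fun a => log (Big.X u t a ℓ ^ 2 + Big.Y u t a ℓ ^ 2) / 2)]
    have h2 : ∀ a ∈ range n, log ‖W (a + ℓ) - W a‖ =
        (log ‖c‖ + log (2 * sin (ℓ * (π / n)))) +
          log (Big.X u t a ℓ ^ 2 + Big.Y u t a ℓ ^ 2) / 2 := by
      intro a _
      have h3 := hX ℓ hℓ a
      have h4 : 0 < sin (ℓ * (π / n)) := by
        refine sin_pos_of_pos_of_lt_pi ?_ ?_
        · have : (0 : ℝ) < ℓ := by exact_mod_cast hℓ'.1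
          positivity
        · have : (ℓ : ℝ) < n := by exact_mod_cast hℓ'.2
          calc (ℓ : ℝ) * (π / n) < n * (π / n) := by gcongr
            _ = π := by field_simp
      rw [Big.norm_chord h a ℓ (by omega) hℓ'.2, Real.log_mul (by positivity) (by positivity),
        Real.log_mul (by positivity) (by positivity), Real.log_sqrt (by positivity)]
    rw [sum_congr rfl h2, sum_add_distrib, sum_const, card_range, nsmul_eq_mul]
    ring
  rw [sum_congr rfl h1, sum_add_distrib, sum_add_distrib, sum_const, Nat.card_Ico,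
    nsmul_eq_mul, ← mul_sum, Big.sum_log_two_sin (by omega)]
  have h5 : ((n - 1 : ℕ) : ℝ) = (n : ℝ) - 1 := by
    rw [Nat.cast_sub (by omega)]
    simp
  rw [h5]
  unfold Big.SS
  ring

/-- All windows are positive near the regular polygon. -/
theorem X_pos_of_near {n : ℕ} [NeZero n] (hn : 10 ^ 12 ≤ n) {δ : ℝ} (hδ : δ ≤ 1 / 10 ^ 11)
    {u t : ZMod n → ℝ} (hnear : Big.Near δ u t) :
    ∀ ℓ ∈ Ico 1 n, ∀ a : ZMod n, 0 < Big.X u t a ℓ := by
  have hn0 : (10 ^ 12 : ℝ) ≤ n := by exact_mod_cast hn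
  have hnpos : (0 : ℝ) < n := by linarith
  have hpi := pi_pos
  have hpi4 := pi_lt_four
  set r : ℕ := ⌊(n : ℝ) / π / 10 ^ 8⌋₊ with hrdef
  have hr1 : (r : ℝ) * (π / n) ≤ 1 / 10 ^ 8 := by
    have h1 : (r : ℝ) ≤ (n : ℝ) / π / 10 ^ 8 := Nat.floor_le (by positivity)
    calc (r : ℝ) * (π / n) ≤ (n : ℝ) / π / 10 ^ 8 * (π / n) := by gcongr
      _ = 1 / 10 ^ 8 := by field_simp
  have hr2 : 1 / (2 * 10 ^ 8) ≤ (r : ℝ) * (π / n) := by
    have h1 : (n : ℝ) / π / 10 ^ 8 - 1 < r := Nat.sub_one_lt_floor _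
    have h2 : ((n : ℝ) / π / 10 ^ 8 - 1) * (π / n) ≤ (r : ℝ) * (π / n) := by
      gcongr
    refine le_trans ?_ h2
    have h3 : ((n : ℝ) / π / 10 ^ 8 - 1) * (π / n) = 1 / 10 ^ 8 - π / n := by
      field_simp
    rw [h3]
    have h4 : π / n ≤ 1 / (2 * 10 ^ 8) := by
      rw [div_le_div_iff₀ (by linarith) (by norm_num)]
      linarith
    linarith
  have hr0 : 0 < r := by
    rcases Nat.eq_zero_or_pos r with h0 | h0
    · rw [h0] at hr2
      norm_num at hr2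
    · exact h0
  have hδ2 : δ * (1 + 1 / (r * (π / n))) ≤ 1 / 100 := by
    have h1 : 1 / ((r : ℝ) * (π / n)) ≤ 2 * 10 ^ 8 := by
      rw [div_le_iff₀ (by linarith)]
      linarith
    have h2 : 0 ≤ 1 / ((r : ℝ) * (π / n)) := by positivity
    calc δ * (1 + 1 / (r * (π / n))) ≤ 1 / 10 ^ 11 * (1 + 1 / (r * (π / n))) := by gcongr
      _ ≤ 1 / 100 := by linarith
  intro ℓ hℓ a
  rw [mem_Ico] at hℓ
  exact (Big.B_window hnear (hδ.trans (by norm_num)) hr0 (hr1.trans (by norm_num)) hδ2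
    (by omega) hℓ.2 a).1

end Pool.Agent.Lib.MP_e1dd62_co.Evn
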