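import Pool.Agent.Lib.MP_e1dd62_co.Evn.Defs

/-!
# L1: the configurations of the lower bound, the diameter
-/

namespace Pool.Agent.Lib.MP_e1dd62_co.Evn

open Finset Real

/-- The rotation density: a trigonometric polynomial with the frequencies `6 i + 3`. -/
noncomputable def kap (J : ℕ) (q : ℕ → ℝ) (θ : ℝ) : ℝ :=
  2 * ∑ i ∈ range J, q i * cos ((6 * i + 3) * θ)

noncomputable def Tf (J : ℕ) (q : ℕ → ℝ) (θ : ℝ) : ℝ :=
  -(2 * ∑ i ∈ range J, q i / ((6 * (i : ℝ) + 3) ^ 2 - 1) * cos ((6 * i + 3) * θ))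

noncomputable def Rf (J : ℕ) (q : ℕ → ℝ) (θ : ℝ) : ℝ :=
  -(2 * ∑ i ∈ range J, q i * (6 * i + 3) / ((6 * (i : ℝ) + 3) ^ 2 - 1) * sin ((6 * i + 3) * θ))

noncomputable def ul (J : ℕ) (q : ℕ → ℝ) (n : ℕ) (a : ZMod n) : ℝ :=
  Rf J q (2 * π * a.val / n) / n

noncomputable def tl (J : ℕ) (q : ℕ → ℝ) (n : ℕ) (a : ZMod n) : ℝ :=
  Tf J q (2 * π * a.val / n) / n

/-- half of the coefficients -/
private noncomputable def L1a (q : ℕ → ℝ) (i : ℕ) : ℝ := q i / ((6 * (i : ℝ) + 3) ^ 2 - 1)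

private theorem L1_cos_int (i : ℕ) (θ : ℝ) (l : ℤ) :
    cos ((6 * (i : ℝ) + 3) * (θ + 2 * π * l)) = cos ((6 * i + 3) * θ) := by
  have : (6 * (i : ℝ) + 3) * (θ + 2 * π * l) =
      (6 * i + 3) * θ + ((6 * i + 3 : ℤ) * l : ℤ) * (2 * π) := by
    push_cast; ring
  rw [this, cos_add_int_mul_two_pi]

private theorem L1_sin_int (i : ℕ) (θ : ℝ) (l : ℤ) :
    sin ((6 * (i : ℝ) + 3) * (θ + 2 * π * l)) = sin ((6 * i + 3) * θ) := by
  have : (6 * (i : ℝ) + 3) * (θ + 2 * π * l) =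
      (6 * i + 3) * θ + ((6 * i + 3 : ℤ) * l : ℤ) * (2 * π) := by
    push_cast; ring
  rw [this, sin_add_int_mul_two_pi]

private theorem L1_cos_pi (i : ℕ) (θ : ℝ) :
    cos ((6 * (i : ℝ) + 3) * (θ + π)) = -cos ((6 * i + 3) * θ) := by
  have : (6 * (i : ℝ) + 3) * (θ + π) = ((6 * i + 3) * θ + π) + ((3 * i + 1 : ℤ) : ℝ) * (2 * π) := by
    push_cast; ring
  rw [this, cos_add_int_mul_two_pi, cos_add_pi]

private theorem L1_sin_pi (i : ℕ) (θ : ℝ) :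
    sin ((6 * (i : ℝ) + 3) * (θ + π)) = -sin ((6 * i + 3) * θ) := by
  have : (6 * (i : ℝ) + 3) * (θ + π) = ((6 * i + 3) * θ + π) + ((3 * i + 1 : ℤ) : ℝ) * (2 * π) := by
    push_cast; ring
  rw [this, sin_add_int_mul_two_pi, sin_add_pi]

private theorem L1_Tf_int (J : ℕ) (q : ℕ → ℝ) (θ : ℝ) (l : ℤ) :
    Tf J q (θ + 2 * π * l) = Tf J q θ := by
  unfold Tf; simp only [L1_cos_int]

private theorem L1_Rf_int (J : ℕ) (q : ℕ → ℝ) (θ : ℝ) (l : ℤ) :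
    Rf J q (θ + 2 * π * l) = Rf J q θ := by
  unfold Rf; simp only [L1_sin_int]

private theorem L1_Tf_pi (J : ℕ) (q : ℕ → ℝ) (θ : ℝ) : Tf J q (θ + π) = -Tf J q θ := by
  unfold Tf; simp only [L1_cos_pi, mul_neg, Finset.sum_neg_distrib]

private theorem L1_Rf_pi (J : ℕ) (q : ℕ → ℝ) (θ : ℝ) : Rf J q (θ + π) = -Rf J q θ := by
  unfold Rf; simp only [L1_sin_pi, mul_neg, Finset.sum_neg_distrib]

/-- the curve on which the vertices lie -/
private noncomputable def L1Z (J : ℕ) (q : ℕ → ℝ) (n : ℕ) (θ : ℝ) : ℂ :=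
  Complex.exp ((θ : ℂ) * Complex.I) *
    (1 + ((Rf J q θ / n : ℝ) : ℂ) + ((Tf J q θ / n : ℝ) : ℂ) * Complex.I)

private theorem L1Z_int (J : ℕ) (q : ℕ → ℝ) (n : ℕ) (θ : ℝ) (l : ℤ) :
    L1Z J q n (θ + 2 * π * l) = L1Z J q n θ := by
  unfold L1Z
  rw [L1_Tf_int, L1_Rf_int]
  congr 1
  have : ((θ + 2 * π * l : ℝ) : ℂ) * Complex.I = (θ : ℂ) * Complex.I + l * (2 * π * Complex.I) := by
    push_cast; ring
  rw [this, Complex.exp_add, Complex.exp_int_mul_two_pi_mul_I, mul_one]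

private theorem L1_pt (J : ℕ) (q : ℕ → ℝ) (n : ℕ) (hn : 0 < n) (i : ℕ) :
    pt 1 (ul J q n) (tl J q n) i = L1Z J q n (2 * π * i / n) := by
  have hn0 : (n : ℝ) ≠ 0 := by positivity
  have : NeZero n := ⟨hn.ne'⟩
  obtain ⟨l, hl⟩ : ∃ l : ℕ, l = i / n := ⟨_, rfl⟩
  have hval : (2 * π * i / n : ℝ) =
      2 * π * ((i : ZMod n).val : ℝ) / n + 2 * π * (((l : ℕ) : ℤ) : ℝ) := by
    rw [ZMod.val_natCast]
    have h1 : (i : ℝ) = ((i % n : ℕ) : ℝ) + n * (l : ℝ) := by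
      rw [hl]
      exact_mod_cast (Nat.mod_add_div i n).symm
    rw [Int.cast_natCast]
    conv_lhs => rw [h1]
    field_simp
  unfold pt ul tl
  rw [hval, L1Z_int]
  unfold L1Z
  have hexp : Complex.exp (((2 * π * ((i : ZMod n).val : ℝ) / n : ℝ) : ℂ) * Complex.I) =
      Complex.exp (2 * π * Complex.I * i / n) := by
    have h2 : (2 * π * Complex.I * i / n : ℂ) =
        ((2 * π * ((i : ZMod n).val : ℝ) / n : ℝ) : ℂ) * Complex.I +
          ((l : ℕ) : ℤ) * (2 * π * Complex.I) := by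
      have h3 : ((2 * π * i / n : ℝ) : ℂ) * Complex.I = ((2 * π * ((i : ZMod n).val : ℝ) / n +
        2 * π * (((l : ℕ) : ℤ) : ℝ) : ℝ) : ℂ) * Complex.I := by rw [hval]
      calc (2 * π * Complex.I * i / n : ℂ) = ((2 * π * i / n : ℝ) : ℂ) * Complex.I := by
            push_cast; ring
        _ = _ := by rw [h3]; push_cast; ring
    rw [h2, Complex.exp_add, Complex.exp_int_mul_two_pi_mul_I, mul_one]
  rw [hexp]
  push_cast
  ring

/-- real part of the chord -/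
private noncomputable def L1Re (J : ℕ) (q : ℕ → ℝ) (ψ y : ℝ) : ℝ :=
  ∑ i ∈ range J, 4 * L1a q i * cos ((6 * i + 3) * ψ) *
    ((6 * i + 3) * cos y * sin ((6 * i + 3) * y) - sin y * cos ((6 * i + 3) * y))

private noncomputable def L1Im (J : ℕ) (q : ℕ → ℝ) (ψ y : ℝ) : ℝ :=
  ∑ i ∈ range J, 4 * L1a q i * sin ((6 * i + 3) * ψ) *
    ((6 * i + 3) * sin y * cos ((6 * i + 3) * y) - cos y * sin ((6 * i + 3) * y))

private theorem L1_Re_eq (J : ℕ) (q : ℕ → ℝ) (ψ y : ℝ) :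
    cos y * (Rf J q (ψ - y) - Rf J q (ψ + y)) + sin y * (Tf J q (ψ - y) + Tf J q (ψ + y)) =
      L1Re J q ψ y := by
  unfold Rf Tf L1Re L1a
  simp only [Finset.mul_sum, ← Finset.sum_neg_distrib, ← Finset.sum_add_distrib,
    ← Finset.sum_sub_distrib]
  refine Finset.sum_congr rfl fun i _ => ?_
  have e1 : (6 * (i : ℝ) + 3) * (ψ - y) = (6 * i + 3) * ψ - (6 * i + 3) * y := by ring
  have e2 : (6 * (i : ℝ) + 3) * (ψ + y) = (6 * i + 3) * ψ + (6 * i + 3) * y := by ring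
  rw [e1, e2, sin_sub, sin_add, cos_sub, cos_add]
  ring

private theorem L1_Im_eq (J : ℕ) (q : ℕ → ℝ) (ψ y : ℝ) :
    cos y * (Tf J q (ψ - y) - Tf J q (ψ + y)) - sin y * (Rf J q (ψ - y) + Rf J q (ψ + y)) =
      L1Im J q ψ y := by
  unfold Rf Tf L1Im L1a
  simp only [Finset.mul_sum, ← Finset.sum_neg_distrib, ← Finset.sum_add_distrib,
    ← Finset.sum_sub_distrib]
  refine Finset.sum_congr rfl fun i _ => ?_
  have e1 : (6 * (i : ℝ) + 3) * (ψ - y) = (6 * i + 3) * ψ - (6 * i + 3) * y := by ring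
  have e2 : (6 * (i : ℝ) + 3) * (ψ + y) = (6 * i + 3) * ψ + (6 * i + 3) * y := by ring
  rw [e1, e2, sin_sub, sin_add, cos_sub, cos_add]
  ring

private theorem L1_chord (J : ℕ) (q : ℕ → ℝ) (n : ℕ) (ψ y : ℝ) :
    ‖L1Z J q n (ψ - y) - L1Z J q n (ψ + y + π)‖ =
      √((2 * cos y + L1Re J q ψ y / n) ^ 2 + (L1Im J q ψ y / n) ^ 2) := by
  have h1 : L1Z J q n (ψ - y) - L1Z J q n (ψ + y + π) = Complex.exp ((ψ : ℂ) * Complex.I) *
      (((2 * cos y + L1Re J q ψ y / n : ℝ) : ℂ) + ((L1Im J q ψ y / n : ℝ) : ℂ) * Complex.I) := by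
    rw [← L1_Re_eq, ← L1_Im_eq]
    unfold L1Z
    rw [L1_Tf_pi, L1_Rf_pi]
    have e1 : Complex.exp (((ψ - y : ℝ) : ℂ) * Complex.I) =
        Complex.exp ((ψ : ℂ) * Complex.I) * ((cos y : ℝ) - (sin y : ℝ) * Complex.I) := by
      have : ((ψ - y : ℝ) : ℂ) * Complex.I = (ψ : ℂ) * Complex.I + ((-y : ℝ) : ℂ) * Complex.I := by
        push_cast; ring
      rw [this, Complex.exp_add, Complex.exp_mul_I ((-y : ℝ) : ℂ), ← Complex.ofReal_cos,
        ← Complex.ofReal_sin, cos_neg, sin_neg]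
      push_cast
      ring
    have e2 : Complex.exp (((ψ + y + π : ℝ) : ℂ) * Complex.I) =
        -(Complex.exp ((ψ : ℂ) * Complex.I) * ((cos y : ℝ) + (sin y : ℝ) * Complex.I)) := by
      have : ((ψ + y + π : ℝ) : ℂ) * Complex.I =
          (ψ : ℂ) * Complex.I + (y : ℂ) * Complex.I + π * Complex.I := by
        push_cast; ring
      rw [this, Complex.exp_add, Complex.exp_add, Complex.exp_pi_mul_I, Complex.exp_mul_I y,
        ← Complex.ofReal_cos, ← Complex.ofReal_sin]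
      ring
    rw [e1, e2]
    push_cast
    linear_combination (-(Complex.exp ((ψ : ℂ) * Complex.I) *
      (Complex.sin (y : ℂ) * (((Tf J q (ψ - y) : ℝ) : ℂ) / n +
        ((Tf J q (ψ + y) : ℝ) : ℂ) / n)))) * Complex.I_sq
  rw [h1, norm_mul, Complex.norm_exp_ofReal_mul_I, one_mul]
  rw [Complex.norm_def, Complex.normSq_add_mul_I]

private theorem L1_mode (m y : ℝ) (hm : 1 ≤ m) (hy : |y| ≤ 2) :
    |m * cos y * sin (m * y) - sin y * cos (m * y) - (m ^ 2 - 1) * y| ≤ 4 * m ^ 4 * y ^ 2 := by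
  have hm0 : 0 < m := by linarith
  have hy2 : |y| ^ 2 = y ^ 2 := sq_abs y
  have h1 : |cos y - 1| ≤ |y| := by
    have := abs_cos_sub_cos_le y 0
    rwa [cos_zero, sub_zero] at this
  have h2 : |sin (m * y)| ≤ m * |y| := by
    have := abs_sin_le_abs (x := m * y)
    rwa [abs_mul, abs_of_pos hm0] at this
  have h3 : |m * y - sin (m * y)| ≤ m ^ 3 * y ^ 2 / 3 := by
    refine (abs_sub_sin_le (m * y)).trans ?_
    rw [abs_mul, abs_of_pos hm0, mul_pow]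
    have : |y| ^ 3 ≤ 2 * y ^ 2 := by
      calc |y| ^ 3 = |y| * |y| ^ 2 := by ring
        _ ≤ 2 * |y| ^ 2 := mul_le_mul_of_nonneg_right hy (by positivity)
        _ = 2 * y ^ 2 := by rw [hy2]
    have h4 : m ^ 3 * |y| ^ 3 ≤ m ^ 3 * (2 * y ^ 2) := mul_le_mul_of_nonneg_left this (by positivity)
    linarith
  have h4 : |y - sin y| ≤ y ^ 2 / 3 := by
    refine (abs_sub_sin_le y).trans ?_
    have : |y| ^ 3 ≤ 2 * y ^ 2 := by
      calc |y| ^ 3 = |y| * |y| ^ 2 := by ring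
        _ ≤ 2 * |y| ^ 2 := mul_le_mul_of_nonneg_right hy (by positivity)
        _ = 2 * y ^ 2 := by rw [hy2]
    linarith
  have h5 : |cos (m * y) - 1| ≤ m * |y| := by
    have := abs_cos_sub_cos_le (m * y) 0
    rwa [cos_zero, sub_zero, abs_mul, abs_of_pos hm0] at this
  have e1 : m * cos y * sin (m * y) - sin y * cos (m * y) - (m ^ 2 - 1) * y =
      m * ((cos y - 1) * sin (m * y)) + (-(m * (m * y - sin (m * y)))) +
        ((y - sin y) * cos (m * y) + (-(y * (cos (m * y) - 1)))) := by ring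
  have t1 : |m * ((cos y - 1) * sin (m * y))| ≤ m ^ 2 * y ^ 2 := by
    rw [abs_mul, abs_mul, abs_of_pos hm0]
    calc m * (|cos y - 1| * |sin (m * y)|) ≤ m * (|y| * (m * |y|)) := by gcongr
      _ = m ^ 2 * |y| ^ 2 := by ring
      _ = _ := by rw [hy2]
  have t2 : |-(m * (m * y - sin (m * y)))| ≤ m ^ 4 * y ^ 2 / 3 := by
    rw [abs_neg, abs_mul, abs_of_pos hm0]
    calc m * |m * y - sin (m * y)| ≤ m * (m ^ 3 * y ^ 2 / 3) := by gcongr
      _ = _ := by ring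
  have t3 : |(y - sin y) * cos (m * y)| ≤ y ^ 2 / 3 := by
    rw [abs_mul]
    calc |y - sin y| * |cos (m * y)| ≤ (y ^ 2 / 3) * 1 :=
          mul_le_mul h4 (abs_cos_le_one _) (abs_nonneg _) (by positivity)
      _ = _ := mul_one _
  have t4 : |-(y * (cos (m * y) - 1))| ≤ m * y ^ 2 := by
    rw [abs_neg, abs_mul]
    calc |y| * |cos (m * y) - 1| ≤ |y| * (m * |y|) := by gcongr
      _ = m * |y| ^ 2 := by ring
      _ = _ := by rw [hy2]
  have hm2 : m ^ 2 ≤ m ^ 4 := pow_le_pow_right₀ hm (by norm_num)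
  have hm1 : m ≤ m ^ 4 := le_self_pow₀ hm (by norm_num)
  have hm3 : 1 ≤ m ^ 4 := one_le_pow₀ hm
  have hY : 0 ≤ y ^ 2 := sq_nonneg y
  have u2 : m ^ 2 * y ^ 2 ≤ m ^ 4 * y ^ 2 := mul_le_mul_of_nonneg_right hm2 hY
  have u1 : m * y ^ 2 ≤ m ^ 4 * y ^ 2 := mul_le_mul_of_nonneg_right hm1 hY
  have u3 : 1 * y ^ 2 ≤ m ^ 4 * y ^ 2 := mul_le_mul_of_nonneg_right hm3 hY
  rw [e1]
  refine (abs_add_le _ _).trans ?_
  have w1 := abs_add_le (m * ((cos y - 1) * sin (m * y))) (-(m * (m * y - sin (m * y))))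
  have w2 := abs_add_le ((y - sin y) * cos (m * y)) (-(y * (cos (m * y) - 1)))
  linarith

/-- the constant of the error terms -/
private noncomputable def L1C (J : ℕ) (q : ℕ → ℝ) : ℝ :=
  ∑ i ∈ range J, 16 * |L1a q i| * (6 * (i : ℝ) + 3) ^ 4

private theorem L1C_nonneg (J : ℕ) (q : ℕ → ℝ) : 0 ≤ L1C J q :=
  Finset.sum_nonneg fun _ _ => by positivity

private theorem L1_Re_bound (J : ℕ) (q : ℕ → ℝ) (ψ y : ℝ) (hy : |y| ≤ 2) :
    |L1Re J q ψ y - 2 * y * kap J q ψ| ≤ L1C J q * y ^ 2 := by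
  have e1 : L1Re J q ψ y - 2 * y * kap J q ψ = ∑ i ∈ range J, 4 * L1a q i *
      cos ((6 * i + 3) * ψ) * ((6 * i + 3) * cos y * sin ((6 * i + 3) * y) -
        sin y * cos ((6 * i + 3) * y) - ((6 * (i : ℝ) + 3) ^ 2 - 1) * y) := by
    unfold L1Re kap
    rw [← mul_assoc, Finset.mul_sum, ← Finset.sum_sub_distrib]
    refine Finset.sum_congr rfl fun i _ => ?_
    have hm : (6 * (i : ℝ) + 3) ^ 2 - 1 ≠ 0 := by
      have : (0 : ℝ) ≤ i := Nat.cast_nonneg i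
      nlinarith
    have hq : q i = L1a q i * ((6 * (i : ℝ) + 3) ^ 2 - 1) := by
      unfold L1a; rw [div_mul_cancel₀ _ hm]
    rw [hq]
    ring
  rw [e1]
  unfold L1C
  rw [Finset.sum_mul]
  refine (Finset.abs_sum_le_sum_abs _ _).trans (Finset.sum_le_sum fun i _ => ?_)
  have hi : (0 : ℝ) ≤ i := Nat.cast_nonneg i
  rw [abs_mul, abs_mul, abs_mul, abs_of_pos (by norm_num : (0 : ℝ) < 4)]
  have h1 := L1_mode (6 * i + 3) y (by linarith) hy
  calc 4 * |L1a q i| * |cos ((6 * i + 3) * ψ)| * _ ≤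
        4 * |L1a q i| * 1 * (4 * (6 * (i : ℝ) + 3) ^ 4 * y ^ 2) :=
        mul_le_mul (mul_le_mul_of_nonneg_left (abs_cos_le_one _) (by positivity)) h1
          (abs_nonneg _) (by positivity)
    _ = 16 * |L1a q i| * (6 * (i : ℝ) + 3) ^ 4 * y ^ 2 := by ring

private theorem L1_Im_bound (J : ℕ) (q : ℕ → ℝ) (ψ y : ℝ) :
    |L1Im J q ψ y| ≤ L1C J q * |y| := by
  unfold L1Im L1C
  rw [Finset.sum_mul]
  refine (Finset.abs_sum_le_sum_abs _ _).trans (Finset.sum_le_sum fun i _ => ?_)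
  have hi : (0 : ℝ) ≤ i := Nat.cast_nonneg i
  obtain ⟨m, hm⟩ : ∃ m : ℝ, m = 6 * i + 3 := ⟨_, rfl⟩
  rw [← hm]
  have hm1 : 1 ≤ m := by rw [hm]; linarith
  have hm0 : 0 < m := by linarith
  rw [abs_mul, abs_mul, abs_mul, abs_of_pos (by norm_num : (0 : ℝ) < 4)]
  have h1 : |m * sin y * cos (m * y) - cos y * sin (m * y)| ≤ 2 * (m * |y|) := by
    refine (abs_sub _ _).trans ?_
    have k1 : |m * sin y * cos (m * y)| ≤ m * |y| := by
      rw [abs_mul, abs_mul, abs_of_pos hm0]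
      calc m * |sin y| * |cos (m * y)| ≤ m * |y| * 1 :=
            mul_le_mul (mul_le_mul_of_nonneg_left abs_sin_le_abs hm0.le) (abs_cos_le_one _)
              (abs_nonneg _) (by positivity)
        _ = _ := mul_one _
    have k2 : |cos y * sin (m * y)| ≤ m * |y| := by
      rw [abs_mul]
      have := abs_sin_le_abs (x := m * y)
      rw [abs_mul, abs_of_pos hm0] at this
      calc |cos y| * |sin (m * y)| ≤ 1 * (m * |y|) :=
            mul_le_mul (abs_cos_le_one _) this (abs_nonneg _) (by norm_num)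
        _ = _ := one_mul _
    linarith
  have hm4 : m ≤ m ^ 4 := le_self_pow₀ hm1 (by norm_num)
  calc 4 * |L1a q i| * |sin (m * ψ)| * _ ≤ 4 * |L1a q i| * 1 * (2 * (m * |y|)) :=
        mul_le_mul (mul_le_mul_of_nonneg_left (abs_sin_le_one _) (by positivity)) h1
          (abs_nonneg _) (by positivity)
    _ = 8 * |L1a q i| * |y| * m := by ring
    _ ≤ 8 * |L1a q i| * |y| * m ^ 4 := mul_le_mul_of_nonneg_left hm4 (by positivity)
    _ ≤ 16 * |L1a q i| * |y| * m ^ 4 := by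
        have : 0 ≤ |L1a q i| * |y| * m ^ 4 := by positivity
        linarith
    _ = _ := by ring

private theorem L1_sq_le {A b : ℝ} (h1 : A ≤ b) (h2 : -b ≤ A) : A ^ 2 ≤ b ^ 2 :=
  sq_le_sq' h2 h1

private theorem L1_pisq (h3 : 3 < π) (h4 : π < 3.15) : π ^ 2 ≤ 10 := by
  calc π ^ 2 ≤ 3.15 ^ 2 := pow_le_pow_left₀ (by linarith) h4.le 2
    _ ≤ 10 := by norm_num

private theorem L1_sqadd (η β : ℝ) (hη : 0 ≤ η) (hβ : 0 ≤ β) :
    (1 + η) ^ 2 + β ≤ (1 + (η + β)) ^ 2 := by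
  have h : (1 + (η + β)) ^ 2 = (1 + η) ^ 2 + β + (β + 2 * (η * β) + β ^ 2) := by ring
  rw [h]
  have h1 : 0 ≤ η * β := mul_nonneg hη hβ
  have h2 : 0 ≤ β ^ 2 := sq_nonneg β
  linarith only [h1, h2, hβ]

private theorem L1_sum (C ε n y : ℝ) (hC : 0 ≤ C) (hn0 : 0 < n) (hn1 : 25 ≤ n)
    (hεn : 6 + 5 * C + 3 * C ^ 2 ≤ ε * n) (hy10 : y ^ 2 ≤ 10 / n ^ 2) :
    5 / 96 * y ^ 2 * y ^ 2 + C * y ^ 2 / (2 * n) + C ^ 2 * y ^ 2 / (4 * n ^ 2) ≤ ε / n ^ 2 := by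
  have hn3 : 0 < n ^ 3 := pow_pos hn0 3
  have hn2 : 0 < n ^ 2 := pow_pos hn0 2
  have k1 : 5 / 96 * y ^ 2 * y ^ 2 ≤ 6 / n ^ 3 := by
    calc 5 / 96 * y ^ 2 * y ^ 2 ≤ 5 / 96 * (10 / n ^ 2) * (10 / n ^ 2) := by gcongr
      _ = (500 / 96 / n) / n ^ 3 := by field_simp; ring
      _ ≤ 6 / n ^ 3 := by
          refine div_le_div_of_nonneg_right ?_ hn3.le
          rw [div_le_iff₀ hn0]
          linarith
  have k2 : C * y ^ 2 / (2 * n) ≤ 5 * C / n ^ 3 := by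
    calc C * y ^ 2 / (2 * n) ≤ C * (10 / n ^ 2) / (2 * n) := by gcongr
      _ = 5 * C / n ^ 3 := by field_simp; ring
  have k3 : C ^ 2 * y ^ 2 / (4 * n ^ 2) ≤ 3 * C ^ 2 / n ^ 3 := by
    calc C ^ 2 * y ^ 2 / (4 * n ^ 2) ≤ C ^ 2 * (10 / n ^ 2) / (4 * n ^ 2) := by gcongr
      _ = (5 / 2 / n) * C ^ 2 / n ^ 3 := by field_simp; ring
      _ ≤ 3 * C ^ 2 / n ^ 3 := by
          refine div_le_div_of_nonneg_right ?_ hn3.le
          refine mul_le_mul_of_nonneg_right ?_ (sq_nonneg C)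
          rw [div_le_iff₀ hn0]
          linarith
  have k4 : (6 + 5 * C + 3 * C ^ 2) / n ^ 3 ≤ ε / n ^ 2 := by
    rw [div_le_div_iff₀ hn3 hn2]
    calc (6 + 5 * C + 3 * C ^ 2) * n ^ 2 ≤ (ε * n) * n ^ 2 :=
          mul_le_mul_of_nonneg_right hεn hn2.le
      _ = ε * n ^ 3 := by ring
  have k5 : (6 + 5 * C + 3 * C ^ 2) / n ^ 3 = 6 / n ^ 3 + 5 * C / n ^ 3 + 3 * C ^ 2 / n ^ 3 := by
    rw [add_div, add_div]
  linarith only [k1, k2, k3, k4, k5]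

private theorem L1_num (C ε n y re im : ℝ) (k : ℤ) (hC : 0 ≤ C) (hε : 0 < ε)
    (hn : 25 + 13 * C + (6 + 5 * C + 3 * C ^ 2) / ε ≤ n) (hy : y = k * (π / n))
    (hyπ : |y| ≤ π / 2) (h1 : |re| ≤ π * |y| + C * y ^ 2) (h2 : |im| ≤ C * |y|) :
    (2 * cos y + re / n) ^ 2 + (im / n) ^ 2 ≤ (2 * (1 + ε / n ^ 2)) ^ 2 := by
  have hπ3 : 3 < π := pi_gt_three
  have hπ4 : π < 3.15 := pi_lt_d2
  have hdiv : 0 ≤ (6 + 5 * C + 3 * C ^ 2) / ε := by positivity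
  have hn25 : 25 + 13 * C ≤ n := by linarith
  have hn0 : 0 < n := by linarith
  have hεn : (6 + 5 * C + 3 * C ^ 2) ≤ ε * n := by
    have : (6 + 5 * C + 3 * C ^ 2) / ε ≤ n := by linarith
    rw [div_le_iff₀ hε] at this
    linarith
  obtain ⟨A, hA⟩ : ∃ A : ℝ, A = cos y + re / (2 * n) := ⟨_, rfl⟩
  obtain ⟨B, hB⟩ : ∃ B : ℝ, B = im / (2 * n) := ⟨_, rfl⟩
  have e1 : 2 * cos y + re / n = 2 * A := by rw [hA]; field_simp
  have e2 : im / n = 2 * B := by rw [hB]; field_simp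
  rw [e1, e2]
  suffices h : A ^ 2 + B ^ 2 ≤ (1 + ε / n ^ 2) ^ 2 by
    calc (2 * A) ^ 2 + (2 * B) ^ 2 = 4 * (A ^ 2 + B ^ 2) := by ring
      _ ≤ 4 * (1 + ε / n ^ 2) ^ 2 := by linarith
      _ = _ := by ring
  have hy2 : |y| ^ 2 = y ^ 2 := sq_abs y
  have hy0 : 0 ≤ |y| := abs_nonneg y
  have hcos0 : 0 ≤ cos y := by
    rw [← cos_abs]
    exact cos_nonneg_of_mem_Icc ⟨by linarith, hyπ⟩
  have hre : |re / (2 * n)| ≤ (π * |y| + C * y ^ 2) / (2 * n) := by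
    rw [abs_div, abs_of_pos (by positivity : (0 : ℝ) < 2 * n)]
    exact div_le_div_of_nonneg_right h1 (by positivity)
  have hre1 := le_abs_self (re / (2 * n))
  have hre2 := neg_abs_le (re / (2 * n))
  have hB2 : B ^ 2 ≤ C ^ 2 * y ^ 2 / (4 * n ^ 2) := by
    rw [hB, div_pow, mul_pow]
    have : im ^ 2 ≤ C ^ 2 * y ^ 2 := by
      rw [← sq_abs im, ← hy2, ← mul_pow]
      exact pow_le_pow_left₀ (abs_nonneg _) h2 2
    have h4 : (2 : ℝ) ^ 2 * n ^ 2 = 4 * n ^ 2 := by ring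
    rw [h4]
    exact div_le_div_of_nonneg_right this (by positivity)
  have hone : (1 : ℝ) ≤ (1 + ε / n ^ 2) ^ 2 := one_le_pow₀ (by
    have : 0 ≤ ε / n ^ 2 := by positivity
    linarith)
  rcases le_or_gt |y| 1 with hy1 | hy1
  · have hysq1 : y ^ 2 ≤ 1 := by rw [← hy2]; exact pow_le_one₀ hy0 hy1
    have hcos : cos y ≤ 1 - y ^ 2 / 2 + 5 / 96 * y ^ 2 * y ^ 2 := by
      have h3 := (abs_le.1 (cos_bound hy1)).2
      have h4 : |y| ^ 4 = y ^ 2 * y ^ 2 := by rw [← hy2]; ring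
      rw [h4] at h3
      linarith
    have hAlow : -(1 / 2) ≤ A := by
      have h3 : (π * |y| + C * y ^ 2) / (2 * n) ≤ 1 / 2 := by
        rw [div_le_iff₀ (by positivity)]
        have h4 : π * |y| ≤ π * 1 := mul_le_mul_of_nonneg_left hy1 pi_pos.le
        have h5 : C * y ^ 2 ≤ C * 1 := mul_le_mul_of_nonneg_left hysq1 hC
        linarith
      rw [hA]
      linarith
    have hAup : A ≤ 1 - y ^ 2 / 2 + 5 / 96 * y ^ 2 * y ^ 2 + (π * |y| + C * y ^ 2) / (2 * n) := by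
      rw [hA]; linarith
    have hyk : |y| = |(k : ℝ)| * (π / n) := by
      rw [hy, abs_mul, abs_of_pos (by positivity : 0 < π / n)]
    have hyk2 : y ^ 2 = |(k : ℝ)| ^ 2 * (π / n) ^ 2 := by rw [← hy2, hyk]; ring
    have hmain : π * |y| / (2 * n) = |(k : ℝ)| * (π / n) ^ 2 / 2 := by
      rw [hyk]; field_simp
    have hsplit : (π * |y| + C * y ^ 2) / (2 * n) =
        |(k : ℝ)| * (π / n) ^ 2 / 2 + C * y ^ 2 / (2 * n) := by
      rw [add_div, hmain]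
    rw [hsplit] at hAup
    rcases le_or_gt |k| 1 with hk | hk
    · -- `|k| ≤ 1`
      have hk2 : |(k : ℝ)| ^ 2 = |(k : ℝ)| := by
        have h3 : |k| = 0 ∨ |k| = 1 := by
          have := abs_nonneg k
          omega
        have h4 : |(k : ℝ)| = ((|k| : ℤ) : ℝ) := by push_cast; rfl
        rcases h3 with h3 | h3 <;> rw [h4, h3] <;> norm_num
      have hk1 : |(k : ℝ)| ≤ 1 := by
        have h4 : |(k : ℝ)| = ((|k| : ℤ) : ℝ) := by push_cast; rfl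
        rw [h4]; exact_mod_cast hk
      have hyy : y ^ 2 = |(k : ℝ)| * (π / n) ^ 2 := by rw [hyk2, hk2]
      have hπn : (π / n) ^ 2 ≤ 10 / n ^ 2 := by
        rw [div_pow]
        exact div_le_div_of_nonneg_right (L1_pisq hπ3 hπ4) (by positivity)
      have hy10 : y ^ 2 ≤ 10 / n ^ 2 := by
        rw [hyy]
        calc |(k : ℝ)| * (π / n) ^ 2 ≤ 1 * (π / n) ^ 2 :=
              mul_le_mul_of_nonneg_right hk1 (by positivity)
          _ ≤ 10 / n ^ 2 := by rw [one_mul]; exact hπn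
      obtain ⟨η, hη⟩ : ∃ η : ℝ, η = 5 / 96 * y ^ 2 * y ^ 2 + C * y ^ 2 / (2 * n) := ⟨_, rfl⟩
      have hη0 : 0 ≤ η := by rw [hη]; positivity
      have hAη : A ≤ 1 + η := by
        rw [hη]
        rw [← hyy] at hAup
        linarith
      have hAsq : A ^ 2 ≤ (1 + η) ^ 2 := L1_sq_le hAη (by linarith)
      obtain ⟨β, hβ⟩ : ∃ β : ℝ, β = C ^ 2 * y ^ 2 / (4 * n ^ 2) := ⟨_, rfl⟩
      have hβ0 : 0 ≤ β := by rw [hβ]; positivity
      have hsum : η + β ≤ ε / n ^ 2 := by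
        rw [hη, hβ]
        exact L1_sum C ε n y hC hn0 (by linarith) hεn hy10
      calc A ^ 2 + B ^ 2 ≤ (1 + η) ^ 2 + β := add_le_add hAsq (hβ ▸ hB2)
        _ ≤ (1 + (η + β)) ^ 2 := L1_sqadd η β hη0 hβ0
        _ ≤ (1 + ε / n ^ 2) ^ 2 := pow_le_pow_left₀ (by linarith) (by linarith) 2
    · -- `|k| ≥ 2`
      have hk2 : |(k : ℝ)| ≤ |(k : ℝ)| ^ 2 / 2 := by
        have h3 : (2 : ℝ) ≤ |(k : ℝ)| := by
          have h4 : |(k : ℝ)| = ((|k| : ℤ) : ℝ) := by push_cast; rfl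
          rw [h4]
          have : 2 ≤ |k| := by omega
          exact_mod_cast this
        nlinarith
      have k1 : |(k : ℝ)| * (π / n) ^ 2 / 2 ≤ y ^ 2 / 4 := by
        rw [hyk2]
        have := mul_le_mul_of_nonneg_right hk2 (by positivity : 0 ≤ (π / n) ^ 2)
        linarith
      have k2 : 5 / 96 * y ^ 2 * y ^ 2 ≤ 5 / 96 * y ^ 2 := by
        calc 5 / 96 * y ^ 2 * y ^ 2 ≤ 5 / 96 * y ^ 2 * 1 :=
              mul_le_mul_of_nonneg_left hysq1 (by positivity)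
          _ = _ := mul_one _
      have k3 : C * y ^ 2 / (2 * n) ≤ y ^ 2 / 26 := by
        rw [div_le_div_iff₀ (by positivity) (by norm_num)]
        have : 26 * C ≤ 2 * n := by linarith
        calc C * y ^ 2 * 26 = (26 * C) * y ^ 2 := by ring
          _ ≤ (2 * n) * y ^ 2 := mul_le_mul_of_nonneg_right this (sq_nonneg y)
          _ = y ^ 2 * (2 * n) := by ring
      have hysq0 := sq_nonneg y
      have hA8 : A ≤ 1 - y ^ 2 / 8 := by linarith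
      have hAsq : A ^ 2 ≤ (1 - y ^ 2 / 8) ^ 2 := L1_sq_le hA8 (by linarith)
      have k4 : C ^ 2 * y ^ 2 / (4 * n ^ 2) ≤ y ^ 2 / 16 := by
        rw [div_le_div_iff₀ (by positivity) (by norm_num)]
        have h5 : C ≤ n / 2 := by linarith
        have h6 : C ^ 2 ≤ (n / 2) ^ 2 := pow_le_pow_left₀ hC h5 2
        calc C ^ 2 * y ^ 2 * 16 = C ^ 2 * (16 * y ^ 2) := by ring
          _ ≤ (n / 2) ^ 2 * (16 * y ^ 2) := mul_le_mul_of_nonneg_right h6 (by positivity)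
          _ = y ^ 2 * (4 * n ^ 2) := by ring
      have k5 : (1 - y ^ 2 / 8) ^ 2 ≤ 1 - y ^ 2 / 4 + y ^ 2 / 64 := by
        have h7 : y ^ 2 * y ^ 2 ≤ 1 * y ^ 2 := mul_le_mul_of_nonneg_right hysq1 hysq0
        calc (1 - y ^ 2 / 8) ^ 2 = 1 - y ^ 2 / 4 + y ^ 2 * y ^ 2 / 64 := by ring
          _ ≤ _ := by linarith
      refine le_trans ?_ hone
      linarith
  · -- `|y| > 1`
    have hcos : cos y ≤ 5 / 9 := by
      rw [← cos_abs]
      exact (cos_le_cos_of_nonneg_of_le_pi (by norm_num) (by linarith) hy1.le).trans cos_one_le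
    have hy158 : |y| ≤ 1.575 := by linarith
    have hysq : y ^ 2 ≤ 2.5 := by
      rw [← hy2]
      calc |y| ^ 2 ≤ 1.575 ^ 2 := pow_le_pow_left₀ hy0 hy158 2
        _ ≤ 2.5 := by norm_num
    have k1 : (π * |y| + C * y ^ 2) / (2 * n) ≤ 1 / 10 := by
      rw [div_le_iff₀ (by positivity)]
      have h4 : π * |y| ≤ 3.15 * 1.575 := mul_le_mul hπ4.le hy158 hy0 (by norm_num)
      have h5 : C * y ^ 2 ≤ C * 2.5 := mul_le_mul_of_nonneg_left hysq hC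
      have h6 : (3.15 : ℝ) * 1.575 ≤ 5 := by norm_num
      linarith
    have hA1 : A ≤ 7 / 10 := by rw [hA]; linarith
    have hA2 : -(7 / 10) ≤ A := by rw [hA]; linarith
    have hAsq : A ^ 2 ≤ (7 / 10) ^ 2 := L1_sq_le hA1 hA2
    have k4 : C ^ 2 * y ^ 2 / (4 * n ^ 2) ≤ 1 / 2 := by
      rw [div_le_div_iff₀ (by positivity) (by norm_num)]
      have h5 : C ≤ n / 2 := by linarith
      have h6 : C ^ 2 ≤ (n / 2) ^ 2 := pow_le_pow_left₀ hC h5 2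
      calc C ^ 2 * y ^ 2 * 2 ≤ (n / 2) ^ 2 * 2.5 * 2 := by gcongr
        _ ≤ 1 * (4 * n ^ 2) := by
            have : 0 ≤ n ^ 2 := by positivity
            linarith
    refine le_trans ?_ hone
    have h7 : ((7 : ℝ) / 10) ^ 2 ≤ 1 / 2 := by norm_num
    linarith

/-- reduction of the difference of the indices -/
private theorem L1_index (N : ℕ) (hN : 0 < N) (d : ℤ) : ∃ k l : ℤ, |k| ≤ N ∧
    d = N + k + 2 * N * l := by
  have hN' : (0 : ℤ) < 2 * N := by positivity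
  have h1 := Int.emod_nonneg (d - N) hN'.ne'
  have h2 := Int.emod_lt_of_pos (d - N) hN'
  have h3 := Int.emod_add_mul_ediv (d - N) (2 * N)
  by_cases h : (d - N) % (2 * N) ≤ N
  · refine ⟨(d - N) % (2 * N), (d - N) / (2 * N), ?_, by linarith⟩
    rw [abs_of_nonneg h1]; exact h
  · refine ⟨(d - N) % (2 * N) - 2 * N, (d - N) / (2 * N) + 1, ?_, by linarith⟩
    rw [abs_of_nonpos (by linarith)]
    push Not at h
    linarith

theorem low_diam {J : ℕ} {q : ℕ → ℝ} (hq : ∀ θ, |kap J q θ| ≤ π / 2) {ε : ℝ} (hε : 0 < ε) :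
    ∃ n₀ : ℕ, ∀ N : ℕ, n₀ ≤ N → ∀ i j : ℕ,
      ‖pt 1 (ul J q (2 * N)) (tl J q (2 * N)) i - pt 1 (ul J q (2 * N)) (tl J q (2 * N)) j‖ ≤
        2 * (1 + ε / (2 * N) ^ 2) := by
  obtain ⟨C, hC⟩ : ∃ C : ℝ, C = L1C J q := ⟨_, rfl⟩
  have hC0 : 0 ≤ C := by rw [hC]; exact L1C_nonneg J q
  refine ⟨⌈25 + 13 * C + (6 + 5 * C + 3 * C ^ 2) / ε⌉₊ + 1, fun N hN i j => ?_⟩
  have hN0 : 0 < N := by omega
  have hNr : (0 : ℝ) < N := by exact_mod_cast hN0
  have hbig : 25 + 13 * C + (6 + 5 * C + 3 * C ^ 2) / ε ≤ N := by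
    refine (Nat.le_ceil _).trans ?_
    exact_mod_cast (by omega : ⌈25 + 13 * C + (6 + 5 * C + 3 * C ^ 2) / ε⌉₊ ≤ N)
  obtain ⟨k, l, hk, hd⟩ := L1_index N hN0 ((j : ℤ) - i)
  obtain ⟨n, hn⟩ : ∃ n : ℝ, n = 2 * N := ⟨_, rfl⟩
  have hn0 : 0 < n := by rw [hn]; positivity
  obtain ⟨y, hy⟩ : ∃ y : ℝ, y = k * (π / n) := ⟨_, rfl⟩
  have hyπ : |y| ≤ π / 2 := by
    rw [hy, abs_mul, abs_of_pos (by positivity : 0 < π / n)]
    have h1 : |(k : ℝ)| ≤ N := by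
      have h4 : |(k : ℝ)| = ((|k| : ℤ) : ℝ) := by push_cast; rfl
      rw [h4]; exact_mod_cast hk
    calc |(k : ℝ)| * (π / n) ≤ N * (π / n) := mul_le_mul_of_nonneg_right h1 (by positivity)
      _ = π / 2 := by rw [hn]; field_simp
  obtain ⟨ψ, hψ⟩ : ∃ ψ : ℝ, ψ = 2 * π * i / n + y := ⟨_, rfl⟩
  have hi : 2 * π * i / ((2 * N : ℕ) : ℝ) = ψ - y := by
    rw [hψ, hn]; push_cast; ring
  have hj : 2 * π * j / ((2 * N : ℕ) : ℝ) = (ψ + y + π) + 2 * π * l := by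
    have h1 : (j : ℝ) = i + (N + k + 2 * N * l) := by
      have : (j : ℤ) = i + (N + k + 2 * N * l) := by linarith
      exact_mod_cast this
    rw [hψ, hy, hn, h1]
    push_cast
    field_simp
    ring
  rw [L1_pt J q (2 * N) (by omega) i, L1_pt J q (2 * N) (by omega) j, hi, hj, L1Z_int, L1_chord]
  have hcast : ((2 * N : ℕ) : ℝ) = n := by rw [hn]; push_cast; ring
  rw [hcast, ← hn]
  have hyy2 : |y| ≤ 2 := by linarith [pi_lt_d2]
  have hre := L1_Re_bound J q ψ y hyy2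
  have him := L1_Im_bound J q ψ y
  rw [← hC] at hre him
  have hre2 : |L1Re J q ψ y| ≤ π * |y| + C * y ^ 2 := by
    have h1 : |2 * y * kap J q ψ| ≤ π * |y| := by
      rw [abs_mul, abs_mul, abs_of_pos (by norm_num : (0 : ℝ) < 2)]
      calc 2 * |y| * |kap J q ψ| ≤ 2 * |y| * (π / 2) :=
            mul_le_mul_of_nonneg_left (hq ψ) (by positivity)
        _ = π * |y| := by ring
    have h2 : L1Re J q ψ y = (L1Re J q ψ y - 2 * y * kap J q ψ) + 2 * y * kap J q ψ := by ring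
    rw [h2]
    refine (abs_add_le _ _).trans ?_
    linarith
  have hnum := L1_num C ε n y (L1Re J q ψ y) (L1Im J q ψ y) k hC0 hε
    (by rw [hn]; linarith) hy hyπ hre2 him
  have hpos : 0 ≤ 2 * (1 + ε / n ^ 2) := by positivity
  calc √((2 * cos y + L1Re J q ψ y / n) ^ 2 + (L1Im J q ψ y / n) ^ 2) ≤
        √((2 * (1 + ε / n ^ 2)) ^ 2) := Real.sqrt_le_sqrt hnum
    _ = 2 * (1 + ε / n ^ 2) := Real.sqrt_sq hpos

end Pool.Agent.Lib.MP_e1dd62_co.Evn
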