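import Pool.Agent.Lib.MP_e1dd62_co.Evn.L1
import Pool.Agent.Lib.MP_e1dd62_co.Big.W1

/-!
# L2: the energy of the configurations of the lower bound
-/

namespace Pool.Agent.Lib.MP_e1dd62_co.Evn

open Finset Real

private theorem L2_sum_range {n : ℕ} [NeZero n] (f : ℕ → ℝ) :
    ∑ a : ZMod n, f a.val = ∑ j ∈ range n, f j := by
  refine Finset.sum_nbij' (fun a => a.val) (fun j => (j : ZMod n)) ?_ ?_ ?_ ?_ ?_
  · intro a _; exact Finset.mem_range.2 (ZMod.val_lt a)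
  · intro j _; exact Finset.mem_univ _
  · intro a _; exact ZMod.natCast_zmod_val a
  · intro j hj; exact ZMod.val_cast_of_lt (Finset.mem_range.1 hj)
  · intro a _; rfl

private theorem L2_n0 {n : ℕ} [NeZero n] : (0 : ℝ) < n := by
  have := NeZero.pos n
  exact_mod_cast this

private theorem L2_cos_sum {n : ℕ} [NeZero n] (k : ℤ) (hk : sin (k * (π / n)) ≠ 0) (φ : ℝ) :
    ∑ a : ZMod n, cos (k * (2 * π * a.val / n) + φ) = 0 := by
  rw [L2_sum_range (n := n) (fun j => cos (k * (2 * π * j / n) + φ))]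
  have hn : (n : ℝ) ≠ 0 := (L2_n0 (n := n)).ne'
  have h : ∀ j : ℕ, 2 * sin (k * (π / n)) * cos (k * (2 * π * j / n) + φ) =
      sin (k * ((2 * ((j + 1 : ℕ) : ℝ) - 1) * (π / n)) + φ) -
        sin (k * ((2 * (j : ℝ) - 1) * (π / n)) + φ) := by
    intro j
    have e1 : k * ((2 * ((j + 1 : ℕ) : ℝ) - 1) * (π / n)) + φ =
        (k * (2 * π * j / n) + φ) + k * (π / n) := by push_cast; ring
    have e2 : k * ((2 * (j : ℝ) - 1) * (π / n)) + φ =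
        (k * (2 * π * j / n) + φ) - k * (π / n) := by ring
    rw [e1, e2, sin_add, sin_sub]
    ring
  have h2 : 2 * sin (k * (π / n)) * ∑ j ∈ range n, cos (k * (2 * π * j / n) + φ) = 0 := by
    rw [Finset.mul_sum, Finset.sum_congr rfl (fun j _ => h j),
      Finset.sum_range_sub (fun j : ℕ => sin (k * ((2 * (j : ℝ) - 1) * (π / n)) + φ))]
    have e3 : k * ((2 * (n : ℝ) - 1) * (π / n)) + φ =
        (k * ((2 * ((0 : ℕ) : ℝ) - 1) * (π / n)) + φ) + k * (2 * π) := by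
      push_cast
      field_simp
      ring
    rw [e3, sin_add_int_mul_two_pi, sub_self]
  rcases mul_eq_zero.1 h2 with h3 | h3
  · exact absurd h3 (mul_ne_zero two_ne_zero hk)
  · exact h3

private theorem L2_sin_ne {n : ℕ} [NeZero n] (k : ℤ) (h0 : k ≠ 0) (h1 : |k| < n) :
    sin (k * (π / n)) ≠ 0 := by
  intro h
  obtain ⟨l, hl⟩ := sin_eq_zero_iff.1 h
  have hn : (n : ℝ) ≠ 0 := (L2_n0 (n := n)).ne'
  have h2 : (l : ℝ) * n = k := by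
    have h3 : (l : ℝ) * π * n = k * π := by
      rw [hl]; field_simp
    have h4 : ((l : ℝ) * n) * π = k * π := by linarith
    exact mul_right_cancel₀ pi_ne_zero h4
  have h5 : l * (n : ℤ) = k := by exact_mod_cast h2
  have h6 : l ≠ 0 := by
    rintro rfl
    exact h0 (by rw [← h5, zero_mul])
  have h7 : (n : ℤ) ≤ |k| := by
    rw [← h5, abs_mul, abs_of_nonneg (Int.natCast_nonneg n)]
    have h8 : 1 ≤ |l| := Int.one_le_abs h6
    have h9 : (0 : ℤ) ≤ n := Int.natCast_nonneg n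
    nlinarith
  omega

/-- the midpoint of the window -/
private noncomputable def L2ψ (n : ℕ) (x : ℝ) (a : ZMod n) : ℝ := 2 * π * a.val / n + x

private theorem L2_orth_sin {n : ℕ} [NeZero n] {J : ℕ} (hJ : 12 * J + 6 ≤ n) {i j : ℕ}
    (hi : i < J) (hj : j < J) (x : ℝ) :
    ∑ a : ZMod n, sin ((6 * i + 3) * L2ψ n x a) * sin ((6 * j + 3) * L2ψ n x a) =
      if i = j then (n : ℝ) / 2 else 0 := by
  have h1 : ∀ a : ZMod n, sin ((6 * i + 3) * L2ψ n x a) * sin ((6 * j + 3) * L2ψ n x a) =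
      1 / 2 * cos (((6 * (i : ℤ) - 6 * j : ℤ) : ℝ) * (2 * π * a.val / n) + (6 * i - 6 * j) * x) -
      1 / 2 * cos (((6 * (i : ℤ) + 6 * j + 6 : ℤ) : ℝ) * (2 * π * a.val / n) +
        (6 * i + 6 * j + 6) * x) := by
    intro a
    unfold L2ψ
    have e1 : (((6 * (i : ℤ) - 6 * j : ℤ) : ℝ) * (2 * π * a.val / n) + (6 * i - 6 * j) * x) =
        (6 * i + 3) * (2 * π * a.val / n + x) - (6 * j + 3) * (2 * π * a.val / n + x) := by
      push_cast; ring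
    have e2 : ((6 * (i : ℤ) + 6 * j + 6 : ℤ) : ℝ) * (2 * π * a.val / n) +
        (6 * i + 6 * j + 6) * x =
        (6 * i + 3) * (2 * π * a.val / n + x) + (6 * j + 3) * (2 * π * a.val / n + x) := by
      push_cast; ring
    rw [e1, e2, cos_sub, cos_add]
    ring
  rw [Finset.sum_congr rfl (fun a _ => h1 a), Finset.sum_sub_distrib, ← Finset.mul_sum,
    ← Finset.mul_sum, L2_cos_sum (6 * (i : ℤ) + 6 * j + 6) (L2_sin_ne _ (by omega) (by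
      rw [abs_of_nonneg (by positivity)]; omega))]
  split_ifs with hij
  · subst hij
    have h2 : ∀ a : ZMod n, cos (((6 * (i : ℤ) - 6 * i : ℤ) : ℝ) * (2 * π * a.val / n) +
        (6 * i - 6 * i) * x) = 1 := by
      intro a
      rw [sub_self, sub_self]
      simp
    rw [Finset.sum_congr rfl (fun a _ => h2 a)]
    simp
    ring
  · rw [L2_cos_sum (6 * (i : ℤ) - 6 * j) (L2_sin_ne _ (by omega) (by
      rw [abs_lt]; omega))]
    ring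

private theorem L2_orth_cos {n : ℕ} [NeZero n] {J : ℕ} (hJ : 12 * J + 6 ≤ n) {i j : ℕ}
    (hi : i < J) (hj : j < J) (x : ℝ) :
    ∑ a : ZMod n, cos ((6 * i + 3) * L2ψ n x a) * cos ((6 * j + 3) * L2ψ n x a) =
      if i = j then (n : ℝ) / 2 else 0 := by
  have h1 : ∀ a : ZMod n, cos ((6 * i + 3) * L2ψ n x a) * cos ((6 * j + 3) * L2ψ n x a) =
      1 / 2 * cos (((6 * (i : ℤ) - 6 * j : ℤ) : ℝ) * (2 * π * a.val / n) + (6 * i - 6 * j) * x) +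
      1 / 2 * cos (((6 * (i : ℤ) + 6 * j + 6 : ℤ) : ℝ) * (2 * π * a.val / n) +
        (6 * i + 6 * j + 6) * x) := by
    intro a
    unfold L2ψ
    have e1 : (((6 * (i : ℤ) - 6 * j : ℤ) : ℝ) * (2 * π * a.val / n) + (6 * i - 6 * j) * x) =
        (6 * i + 3) * (2 * π * a.val / n + x) - (6 * j + 3) * (2 * π * a.val / n + x) := by
      push_cast; ring
    have e2 : ((6 * (i : ℤ) + 6 * j + 6 : ℤ) : ℝ) * (2 * π * a.val / n) +
        (6 * i + 6 * j + 6) * x =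
        (6 * i + 3) * (2 * π * a.val / n + x) + (6 * j + 3) * (2 * π * a.val / n + x) := by
      push_cast; ring
    rw [e1, e2, cos_sub, cos_add]
    ring
  rw [Finset.sum_congr rfl (fun a _ => h1 a), Finset.sum_add_distrib, ← Finset.mul_sum,
    ← Finset.mul_sum, L2_cos_sum (6 * (i : ℤ) + 6 * j + 6) (L2_sin_ne _ (by omega) (by
      rw [abs_of_nonneg (by positivity)]; omega))]
  split_ifs with hij
  · subst hij
    have h2 : ∀ a : ZMod n, cos (((6 * (i : ℤ) - 6 * i : ℤ) : ℝ) * (2 * π * a.val / n) +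
        (6 * i - 6 * i) * x) = 1 := by
      intro a
      rw [sub_self, sub_self]
      simp
    rw [Finset.sum_congr rfl (fun a _ => h2 a)]
    simp
    ring
  · rw [L2_cos_sum (6 * (i : ℤ) - 6 * j) (L2_sin_ne _ (by omega) (by
      rw [abs_lt]; omega))]
    ring

private theorem L2_sq_sum {n : ℕ} [NeZero n] (J : ℕ) (c : ℕ → ℝ) (s : ℕ → ZMod n → ℝ)
    (h : ∀ i < J, ∀ j < J, ∑ a : ZMod n, s i a * s j a = if i = j then (n : ℝ) / 2 else 0) :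
    ∑ a : ZMod n, (∑ i ∈ range J, c i * s i a) ^ 2 = n / 2 * ∑ i ∈ range J, c i ^ 2 := by
  have h1 : ∀ a : ZMod n, (∑ i ∈ range J, c i * s i a) ^ 2 =
      ∑ i ∈ range J, ∑ j ∈ range J, (c i * c j) * (s i a * s j a) := by
    intro a
    rw [sq, Finset.sum_mul_sum]
    refine Finset.sum_congr rfl fun i _ => Finset.sum_congr rfl fun j _ => ?_
    ring
  rw [Finset.sum_congr rfl (fun a _ => h1 a), Finset.sum_comm, Finset.mul_sum]
  refine Finset.sum_congr rfl fun i hi => ?_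
  rw [Finset.sum_comm]
  have h2 : ∀ j ∈ range J, ∑ a : ZMod n, (c i * c j) * (s i a * s j a) =
      if i = j then (c i * c j) * ((n : ℝ) / 2) else 0 := by
    intro j hj
    rw [← Finset.mul_sum, h i (Finset.mem_range.1 hi) j (Finset.mem_range.1 hj)]
    split_ifs <;> simp
  rw [Finset.sum_congr rfl h2, Finset.sum_ite_eq, if_pos hi]
  ring

/-- half of the coefficients -/
private noncomputable def L2b (q : ℕ → ℝ) (i : ℕ) : ℝ := q i / ((6 * (i : ℝ) + 3) ^ 2 - 1)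

private theorem L2_Tf_int (J : ℕ) (q : ℕ → ℝ) (θ : ℝ) (l : ℤ) :
    Tf J q (θ + l * (2 * π)) = Tf J q θ := by
  unfold Tf
  congr 2
  refine Finset.sum_congr rfl fun i _ => ?_
  have : (6 * (i : ℝ) + 3) * (θ + l * (2 * π)) =
      (6 * i + 3) * θ + ((6 * i + 3 : ℤ) * l : ℤ) * (2 * π) := by
    push_cast; ring
  rw [this, cos_add_int_mul_two_pi]

private theorem L2_Rf_int (J : ℕ) (q : ℕ → ℝ) (θ : ℝ) (l : ℤ) :
    Rf J q (θ + l * (2 * π)) = Rf J q θ := by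
  unfold Rf
  congr 2
  refine Finset.sum_congr rfl fun i _ => ?_
  have : (6 * (i : ℝ) + 3) * (θ + l * (2 * π)) =
      (6 * i + 3) * θ + ((6 * i + 3 : ℤ) * l : ℤ) * (2 * π) := by
    push_cast; ring
  rw [this, sin_add_int_mul_two_pi]

private theorem L2_val {n : ℕ} [NeZero n] (a : ZMod n) (ℓ : ℕ) : ∃ l : ℤ,
    2 * π * ((a + (ℓ : ZMod n)).val : ℝ) / n =
      (L2ψ n (ℓ * (π / n)) a + ℓ * (π / n)) + l * (2 * π) := by
  have hn : (n : ℝ) ≠ 0 := (L2_n0 (n := n)).ne'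
  obtain ⟨k, hk⟩ : ∃ k : ℕ, k = (a.val + ℓ) / n := ⟨_, rfl⟩
  refine ⟨-(k : ℤ), ?_⟩
  have h1 : (a + (ℓ : ZMod n)).val = (a.val + ℓ) % n := by
    conv_lhs => rw [← ZMod.natCast_zmod_val a, ← Nat.cast_add]
    rw [ZMod.val_natCast]
  have h2 : (((a + (ℓ : ZMod n)).val : ℕ) : ℝ) + n * (k : ℝ) = a.val + ℓ := by
    rw [h1, hk]
    exact_mod_cast Nat.mod_add_div (a.val + ℓ) n
  have h3 : (((a + (ℓ : ZMod n)).val : ℕ) : ℝ) = a.val + ℓ - n * (k : ℝ) := by linarith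
  rw [h3]
  unfold L2ψ
  push_cast
  field_simp
  ring

private theorem L2_val0 {n : ℕ} [NeZero n] (a : ZMod n) (ℓ : ℕ) :
    2 * π * (a.val : ℝ) / n = L2ψ n (ℓ * (π / n)) a - ℓ * (π / n) := by
  unfold L2ψ; ring

private theorem L2_X {n : ℕ} [NeZero n] (J : ℕ) (q : ℕ → ℝ) (a : ZMod n) (ℓ : ℕ) :
    Big.X (ul J q n) (tl J q n) a ℓ - 1 = ∑ i ∈ range J, (2 / n * (L2b q i *
      (Big.ct n ℓ * sin ((6 * i + 3) * (ℓ * (π / n))) -
        (6 * i + 3) * cos ((6 * i + 3) * (ℓ * (π / n)))))) *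
        sin ((6 * i + 3) * L2ψ n (ℓ * (π / n)) a) := by
  obtain ⟨l, hl⟩ := L2_val a ℓ
  unfold Big.X ul tl
  rw [hl, L2_val0 a ℓ, L2_Tf_int, L2_Rf_int]
  obtain ⟨ψ, hψ⟩ : ∃ ψ, ψ = L2ψ n (ℓ * (π / n)) a := ⟨_, rfl⟩
  obtain ⟨x, hx⟩ : ∃ x : ℝ, x = ℓ * (π / n) := ⟨_, rfl⟩
  obtain ⟨c, hc⟩ : ∃ c : ℝ, c = Big.ct n ℓ := ⟨_, rfl⟩
  rw [← hψ, ← hx, ← hc]
  have e : 1 + (Rf J q (ψ - x) / n + Rf J q (ψ + x) / n) / 2 +
      c / 2 * (Tf J q (ψ + x) / n - Tf J q (ψ - x) / n) - 1 =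
      1 / (2 * n) * (Rf J q (ψ - x) + Rf J q (ψ + x) + c * (Tf J q (ψ + x) - Tf J q (ψ - x))) := by
    ring
  rw [e]
  unfold Rf Tf L2b
  simp only [Finset.mul_sum, ← Finset.sum_neg_distrib, ← Finset.sum_add_distrib,
    ← Finset.sum_sub_distrib]
  refine Finset.sum_congr rfl fun i _ => ?_
  have e1 : (6 * (i : ℝ) + 3) * (ψ - x) = (6 * i + 3) * ψ - (6 * i + 3) * x := by ring
  have e2 : (6 * (i : ℝ) + 3) * (ψ + x) = (6 * i + 3) * ψ + (6 * i + 3) * x := by ring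
  rw [e1, e2, sin_sub, sin_add, cos_sub, cos_add]
  ring

private theorem L2_Y {n : ℕ} [NeZero n] (J : ℕ) (q : ℕ → ℝ) (a : ZMod n) (ℓ : ℕ) :
    Big.Y (ul J q n) (tl J q n) a ℓ = ∑ i ∈ range J, (2 / n * (L2b q i *
      ((6 * i + 3) * (Big.ct n ℓ * sin ((6 * i + 3) * (ℓ * (π / n)))) -
        cos ((6 * i + 3) * (ℓ * (π / n)))))) *
        cos ((6 * i + 3) * L2ψ n (ℓ * (π / n)) a) := by
  obtain ⟨l, hl⟩ := L2_val a ℓ
  unfold Big.Y ul tl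
  rw [hl, L2_val0 a ℓ, L2_Tf_int, L2_Rf_int]
  obtain ⟨ψ, hψ⟩ : ∃ ψ, ψ = L2ψ n (ℓ * (π / n)) a := ⟨_, rfl⟩
  obtain ⟨x, hx⟩ : ∃ x : ℝ, x = ℓ * (π / n) := ⟨_, rfl⟩
  obtain ⟨c, hc⟩ : ∃ c : ℝ, c = Big.ct n ℓ := ⟨_, rfl⟩
  rw [← hψ, ← hx, ← hc]
  have e : (Tf J q (ψ - x) / n + Tf J q (ψ + x) / n) / 2 -
      c / 2 * (Rf J q (ψ + x) / n - Rf J q (ψ - x) / n) =
      1 / (2 * n) * (Tf J q (ψ - x) + Tf J q (ψ + x) - c * (Rf J q (ψ + x) - Rf J q (ψ - x))) := by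
    ring
  rw [e]
  unfold Rf Tf L2b
  simp only [Finset.mul_sum, ← Finset.sum_neg_distrib, ← Finset.sum_add_distrib,
    ← Finset.sum_sub_distrib]
  refine Finset.sum_congr rfl fun i _ => ?_
  have e1 : (6 * (i : ℝ) + 3) * (ψ - x) = (6 * i + 3) * ψ - (6 * i + 3) * x := by ring
  have e2 : (6 * (i : ℝ) + 3) * (ψ + x) = (6 * i + 3) * ψ + (6 * i + 3) * x := by ring
  rw [e1, e2, sin_sub, sin_add, cos_sub, cos_add]
  ring

private theorem L2_sin_mul (m : ℕ) (x : ℝ) : |sin (m * x)| ≤ m * |sin x| := by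
  induction m with
  | zero => simp
  | succ m ih =>
    have e : ((m + 1 : ℕ) : ℝ) * x = m * x + x := by push_cast; ring
    rw [e, sin_add]
    refine (abs_add_le _ _).trans ?_
    rw [abs_mul, abs_mul]
    have h1 : |sin (m * x)| * |cos x| ≤ (m * |sin x|) * 1 :=
      mul_le_mul ih (abs_cos_le_one _) (abs_nonneg _) (by positivity)
    have h2 : |cos (m * x)| * |sin x| ≤ 1 * |sin x| :=
      mul_le_mul_of_nonneg_right (abs_cos_le_one _) (abs_nonneg _)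
    push_cast
    linarith

private theorem L2_ct_sin {n : ℕ} [NeZero n] (i ℓ : ℕ) (h0 : 0 < ℓ) (h1 : ℓ < n) :
    |Big.ct n ℓ * sin ((6 * i + 3) * (ℓ * (π / n)))| ≤ 6 * i + 3 := by
  have hs := Big.W1_sin_pos (n := n) h0 h1
  unfold Big.ct
  obtain ⟨x, hx⟩ : ∃ x : ℝ, x = ℓ * (π / n) := ⟨_, rfl⟩
  rw [← hx] at hs ⊢
  have h2 := L2_sin_mul (6 * i + 3) x
  have e : ((6 * i + 3 : ℕ) : ℝ) = 6 * i + 3 := by push_cast; ring
  rw [e] at h2
  rw [abs_mul, abs_div, abs_of_pos hs]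
  rw [abs_of_pos hs] at h2
  have h3 : |cos x| / sin x * |sin ((6 * i + 3) * x)| = |cos x| * |sin ((6 * i + 3) * x)| / sin x := by
    ring
  rw [h3, div_le_iff₀ hs]
  calc |cos x| * |sin ((6 * i + 3) * x)| ≤ 1 * ((6 * i + 3) * sin x) :=
        mul_le_mul (abs_cos_le_one _) h2 (abs_nonneg _) (by norm_num)
    _ = _ := one_mul _

/-- the constant of the bounds -/
private noncomputable def L2C (J : ℕ) (q : ℕ → ℝ) : ℝ :=
  4 * ∑ i ∈ range J, |L2b q i| * (6 * (i : ℝ) + 3) ^ 2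

private theorem L2C_nonneg (J : ℕ) (q : ℕ → ℝ) : 0 ≤ L2C J q :=
  mul_nonneg (by norm_num) (Finset.sum_nonneg fun _ _ => by positivity)

private theorem L2_sum_bound {n : ℕ} [NeZero n] (J : ℕ) (q : ℕ → ℝ) (A s : ℕ → ℝ)
    (hA : ∀ i, |A i| ≤ 2 * (6 * (i : ℝ) + 3) ^ 2) (hs : ∀ i, |s i| ≤ 1) :
    |∑ i ∈ range J, (2 / (n : ℝ) * (L2b q i * A i)) * s i| ≤ L2C J q / n := by
  refine (Finset.abs_sum_le_sum_abs _ _).trans ?_
  have hn := L2_n0 (n := n)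
  unfold L2C
  rw [mul_div_right_comm, Finset.mul_sum]
  refine Finset.sum_le_sum fun i _ => ?_
  rw [abs_mul, abs_mul, abs_mul, abs_of_pos (by positivity : (0 : ℝ) < 2 / n)]
  calc 2 / (n : ℝ) * (|L2b q i| * |A i|) * |s i| ≤
        2 / (n : ℝ) * (|L2b q i| * (2 * (6 * (i : ℝ) + 3) ^ 2)) * 1 := by
        refine mul_le_mul ?_ (hs i) (abs_nonneg _) (by positivity)
        refine mul_le_mul_of_nonneg_left ?_ (by positivity)
        exact mul_le_mul_of_nonneg_left (hA i) (abs_nonneg _)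
    _ = _ := by ring

private theorem L2_X_bound {n : ℕ} [NeZero n] (J : ℕ) (q : ℕ → ℝ) (a : ZMod n) (ℓ : ℕ)
    (h0 : 0 < ℓ) (h1 : ℓ < n) : |Big.X (ul J q n) (tl J q n) a ℓ - 1| ≤ L2C J q / n := by
  rw [L2_X]
  refine L2_sum_bound J q _ _ (fun i => ?_) (fun i => abs_sin_le_one _)
  refine (abs_sub _ _).trans ?_
  have h2 := L2_ct_sin i ℓ h0 h1
  have hi : (0 : ℝ) ≤ i := Nat.cast_nonneg i
  have h3 : |(6 * (i : ℝ) + 3) * cos ((6 * i + 3) * (ℓ * (π / n)))| ≤ (6 * i + 3) * 1 := by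
    rw [abs_mul, abs_of_nonneg (by linarith : (0 : ℝ) ≤ 6 * i + 3)]
    exact mul_le_mul_of_nonneg_left (abs_cos_le_one _) (by linarith)
  have h4 : (6 * (i : ℝ) + 3) ≤ (6 * (i : ℝ) + 3) ^ 2 := le_self_pow₀ (by linarith) (by norm_num)
  linarith

private theorem L2_Y_bound {n : ℕ} [NeZero n] (J : ℕ) (q : ℕ → ℝ) (a : ZMod n) (ℓ : ℕ)
    (h0 : 0 < ℓ) (h1 : ℓ < n) : |Big.Y (ul J q n) (tl J q n) a ℓ| ≤ L2C J q / n := by
  rw [L2_Y]
  refine L2_sum_bound J q _ _ (fun i => ?_) (fun i => abs_cos_le_one _)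
  refine (abs_sub _ _).trans ?_
  have h2 := L2_ct_sin i ℓ h0 h1
  have hi : (0 : ℝ) ≤ i := Nat.cast_nonneg i
  have h3 : |(6 * (i : ℝ) + 3) * (Big.ct n ℓ * sin ((6 * i + 3) * (ℓ * (π / n))))| ≤
      (6 * i + 3) * (6 * i + 3) := by
    rw [abs_mul, abs_of_nonneg (by linarith : (0 : ℝ) ≤ 6 * i + 3)]
    exact mul_le_mul_of_nonneg_left h2 (by linarith)
  have h4 : (1 : ℝ) ≤ (6 * (i : ℝ) + 3) ^ 2 := one_le_pow₀ (by linarith)
  have h5 := abs_cos_le_one ((6 * (i : ℝ) + 3) * (ℓ * (π / n)))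
  linarith

private theorem L2_log (v y η : ℝ) (hη : η ≤ 1 / 10) (hv : |v| ≤ η) (hy : |y| ≤ η) :
    v - v ^ 2 / 2 + y ^ 2 / 2 - 10 * η ^ 3 ≤ log ((1 + v) ^ 2 + y ^ 2) / 2 := by
  have hη0 : 0 ≤ η := (abs_nonneg v).trans hv
  have hv2 : v ^ 2 ≤ η ^ 2 := by
    rw [← sq_abs]; exact pow_le_pow_left₀ (abs_nonneg _) hv 2
  have hy2 : y ^ 2 ≤ η ^ 2 := by
    rw [← sq_abs]; exact pow_le_pow_left₀ (abs_nonneg _) hy 2
  have hηη : η ^ 2 ≤ η / 10 := by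
    calc η ^ 2 = η * η := sq η
      _ ≤ η * (1 / 10) := mul_le_mul_of_nonneg_left hη hη0
      _ = _ := by ring
  obtain ⟨w, hw⟩ : ∃ w : ℝ, w = 2 * v + (v ^ 2 + y ^ 2) := ⟨_, rfl⟩
  obtain ⟨s, hs⟩ : ∃ s : ℝ, s = v ^ 2 + y ^ 2 := ⟨_, rfl⟩
  have hs0 : 0 ≤ s := by rw [hs]; positivity
  have hs1 : s ≤ 2 * η ^ 2 := by rw [hs]; linarith
  rw [← hs] at hw
  have hwabs : |w| ≤ 11 / 5 * η := by
    rw [hw]
    refine (abs_add_le _ _).trans ?_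
    rw [abs_mul, abs_of_pos (by norm_num : (0 : ℝ) < 2), abs_of_nonneg hs0]
    linarith
  have hw1 : |-w| < 1 := by rw [abs_neg]; linarith
  have hw4 : |-w| ≤ 1 / 4 := by rw [abs_neg]; linarith
  have h := Real.abs_log_sub_add_sum_range_le hw1 2
  rw [Finset.sum_range_succ, Finset.sum_range_one] at h
  norm_num at h
  have h3 : |w| ^ 3 / (1 - |w|) ≤ |w| ^ 3 * (4 / 3) := by
    rw [abs_neg] at hw4
    rw [div_le_iff₀ (by linarith)]
    have h5 : 0 ≤ |w| ^ 3 := by positivity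
    have h6 : (1 : ℝ) ≤ 4 / 3 * (1 - |w|) := by linarith
    calc |w| ^ 3 = |w| ^ 3 * 1 := (mul_one _).symm
      _ ≤ |w| ^ 3 * (4 / 3 * (1 - |w|)) := mul_le_mul_of_nonneg_left h6 h5
      _ = _ := by ring
  have h4 : |w| ^ 3 ≤ (11 / 5 * η) ^ 3 := pow_le_pow_left₀ (abs_nonneg _) hwabs 3
  have h5 := (abs_le.1 h).1
  have e1 : (1 + v) ^ 2 + y ^ 2 = 1 + w := by rw [hw, hs]; ring
  rw [e1]
  have e2 : w ^ 2 = 4 * v ^ 2 + 4 * (v * s) + s ^ 2 := by rw [hw]; ring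
  have e3 : v * s ≤ 2 * η ^ 3 := by
    calc v * s ≤ |v| * s := mul_le_mul_of_nonneg_right (le_abs_self v) hs0
      _ ≤ η * (2 * η ^ 2) := mul_le_mul hv hs1 hs0 hη0
      _ = _ := by ring
  have e4 : s ^ 2 ≤ 2 / 5 * η ^ 3 := by
    calc s ^ 2 ≤ (2 * η ^ 2) ^ 2 := pow_le_pow_left₀ hs0 hs1 2
      _ = 4 * η * η ^ 3 := by ring
      _ ≤ 4 * (1 / 10) * η ^ 3 := by
          refine mul_le_mul_of_nonneg_right ?_ (by positivity)
          linarith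
      _ = _ := by ring
  have e5 : (11 / 5 * η) ^ 3 = 1331 / 125 * η ^ 3 := by ring
  have hη3 : 0 ≤ η ^ 3 := by positivity
  linarith only [h3, h4, h5, e2, e3, e4, e5, hη3, hw, hs]

private theorem L2_diff {n : ℕ} [NeZero n] {J : ℕ} (hJ : 12 * J + 6 ≤ n) (q : ℕ → ℝ) (ℓ : ℕ)
    (h0 : 0 < ℓ) (h1 : ℓ < n) :
    (∑ a, Big.Y (ul J q n) (tl J q n) a ℓ ^ 2) -
      ∑ a, (Big.X (ul J q n) (tl J q n) a ℓ - 1) ^ 2 =
    2 / n * ∑ i ∈ range J, L2b q i ^ 2 * ((6 * (i : ℝ) + 3) ^ 2 - 1) *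
      (sin ((6 * i + 3 : ℕ) * (ℓ * (π / n))) ^ 2 / sin (ℓ * (π / n)) ^ 2 - 1) := by
  have hn := L2_n0 (n := n)
  have hs := (Big.W1_sin_pos (n := n) h0 h1).ne'
  simp only [L2_X, L2_Y]
  rw [L2_sq_sum J _ (fun i a => cos ((6 * (i : ℝ) + 3) * L2ψ n (ℓ * (π / n)) a))
      (fun i hi j hj => L2_orth_cos hJ hi hj _),
    L2_sq_sum J _ (fun i a => sin ((6 * (i : ℝ) + 3) * L2ψ n (ℓ * (π / n)) a))
      (fun i hi j hj => L2_orth_sin hJ hi hj _),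
    ← mul_sub, ← Finset.sum_sub_distrib, Finset.mul_sum, Finset.mul_sum]
  refine Finset.sum_congr rfl fun i _ => ?_
  unfold Big.ct
  obtain ⟨x, hx⟩ : ∃ x : ℝ, x = ℓ * (π / n) := ⟨_, rfl⟩
  obtain ⟨m, hm⟩ : ∃ m : ℝ, m = 6 * i + 3 := ⟨_, rfl⟩
  have e : ((6 * i + 3 : ℕ) : ℝ) = m := by rw [hm]; push_cast; ring
  rw [e, ← hm]
  rw [← hx] at hs ⊢
  have h2 := cos_sq' x
  have h3 := cos_sq' (m * x)
  have h4 : (cos x / sin x * sin (m * x)) ^ 2 = sin (m * x) ^ 2 / sin x ^ 2 - sin (m * x) ^ 2 := by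
    rw [mul_pow, div_pow, h2]
    field_simp
  obtain ⟨S, hS⟩ : ∃ S, S = cos x / sin x * sin (m * x) := ⟨_, rfl⟩
  rw [← hS] at h4 ⊢
  have h5 : n / 2 * ((2 / n * (L2b q i * (m * S - cos (m * x)))) ^ 2 -
      (2 / n * (L2b q i * (S - m * cos (m * x)))) ^ 2) =
      2 / n * (L2b q i ^ 2 * (m ^ 2 - 1) * (S ^ 2 - cos (m * x) ^ 2)) := by
    field_simp
    ring
  rw [h5, h4, h3]
  ring

private theorem L2_QP {n : ℕ} [NeZero n] {J : ℕ} (hJ : 12 * J + 6 ≤ n) (q : ℕ → ℝ) :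
    (Big.QQ (ul J q n) (tl J q n) - Big.PP (ul J q n) (tl J q n)) / 2 =
      ∑ i ∈ range J, q i ^ 2 / (6 * i + 4) - (∑ i ∈ range J, q i ^ 2) / n := by
  have hn := L2_n0 (n := n)
  unfold Big.QQ Big.PP
  rw [← Finset.sum_sub_distrib]
  have h1 : ∀ ℓ ∈ Ico 1 n, (∑ a, Big.Y (ul J q n) (tl J q n) a ℓ ^ 2) -
      ∑ a, (Big.X (ul J q n) (tl J q n) a ℓ - 1) ^ 2 =
      ∑ i ∈ range J, 2 / n * (L2b q i ^ 2 * ((6 * (i : ℝ) + 3) ^ 2 - 1)) *
      (sin ((6 * i + 3 : ℕ) * (ℓ * (π / n))) ^ 2 / sin (ℓ * (π / n)) ^ 2 - 1) := by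
    intro ℓ hℓ
    rw [Finset.mem_Ico] at hℓ
    rw [L2_diff hJ q ℓ (by omega) hℓ.2, Finset.mul_sum]
    refine Finset.sum_congr rfl fun i _ => ?_
    ring
  rw [Finset.sum_congr rfl h1, Finset.sum_comm, Finset.sum_div, Finset.sum_div,
    ← Finset.sum_sub_distrib]
  refine Finset.sum_congr rfl fun i hi => ?_
  have hi := Finset.mem_range.1 hi
  rw [← Finset.mul_sum, Finset.sum_sub_distrib, Big.fejer_sum (by omega : 6 * i + 3 ≤ n)]
  have h2 : ∑ _ℓ ∈ Ico 1 n, (1 : ℝ) = n - 1 := by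
    simp only [Finset.sum_const, Nat.card_Ico, nsmul_eq_mul, mul_one]
    rw [Nat.cast_sub (by omega : 1 ≤ n)]
    norm_num
  rw [h2]
  unfold L2b
  push_cast
  have hi0 : (0 : ℝ) ≤ i := Nat.cast_nonneg i
  have hm : (6 * (i : ℝ) + 3) ^ 2 - 1 = (6 * i + 2) * (6 * i + 4) := by ring
  rw [hm]
  have h3 : (6 * (i : ℝ) + 2) ≠ 0 := by positivity
  have h4 : (6 * (i : ℝ) + 4) ≠ 0 := by positivity
  field_simp
  ring

private theorem L2_sum_u {n : ℕ} [NeZero n] {J : ℕ} (hJ : 12 * J + 6 ≤ n) (q : ℕ → ℝ) :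
    ∑ a, ul J q n a = 0 := by
  have hn := L2_n0 (n := n)
  have h1 : ∀ a : ZMod n, ul J q n a = ∑ i ∈ range J,
      (-(2 / n * (q i * (6 * i + 3) / ((6 * (i : ℝ) + 3) ^ 2 - 1)))) *
      cos (((6 * (i : ℤ) + 3 : ℤ) : ℝ) * (2 * π * a.val / n) + (-(π / 2))) := by
    intro a
    unfold ul Rf
    rw [neg_div, mul_div_assoc, Finset.sum_div, Finset.mul_sum, ← Finset.sum_neg_distrib]
    refine Finset.sum_congr rfl fun i _ => ?_
    have e1 : ((6 * (i : ℤ) + 3 : ℤ) : ℝ) * (2 * π * a.val / n) + (-(π / 2)) =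
        (6 * i + 3) * (2 * π * a.val / n) - π / 2 := by push_cast; ring
    rw [e1, cos_sub_pi_div_two]
    ring
  rw [Finset.sum_congr rfl (fun a _ => h1 a), Finset.sum_comm]
  refine Finset.sum_eq_zero fun i hi => ?_
  have hi := Finset.mem_range.1 hi
  rw [← Finset.mul_sum, L2_cos_sum _ (L2_sin_ne _ (by omega) (by
    rw [abs_of_nonneg (by positivity)]; omega)), mul_zero]

private theorem L2_gen (J : ℕ) (q : ℕ → ℝ) {ε : ℝ} (hε : 0 < ε) :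
    ∃ n₀ : ℕ, ∀ n : ℕ, n₀ ≤ n → ∀ _ : NeZero n,
      ∑ i ∈ range J, q i ^ 2 / (6 * i + 4) - ε ≤ Big.SS (ul J q n) (tl J q n) ∧
      ∀ a : ZMod n, ∀ ℓ : ℕ, 0 < ℓ → ℓ < n → 0 < Big.X (ul J q n) (tl J q n) a ℓ := by
  obtain ⟨C, hC⟩ : ∃ C : ℝ, C = L2C J q := ⟨_, rfl⟩
  have hC0 : 0 ≤ C := by rw [hC]; exact L2C_nonneg J q
  obtain ⟨B, hB⟩ : ∃ B : ℝ, B = ∑ i ∈ range J, q i ^ 2 := ⟨_, rfl⟩
  have hB0 : 0 ≤ B := by rw [hB]; exact Finset.sum_nonneg fun _ _ => by positivity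
  refine ⟨12 * J + 6 + ⌈10 * C + (B + 10 * C ^ 3) / ε⌉₊, fun n hN _ => ?_⟩
  have hJ : 12 * J + 6 ≤ n := by omega
  have hdiv : 0 ≤ (B + 10 * C ^ 3) / ε := by positivity
  have hnr : 10 * C + (B + 10 * C ^ 3) / ε ≤ n := by
    have h1 := Nat.le_ceil (10 * C + (B + 10 * C ^ 3) / ε)
    have h2 : ⌈10 * C + (B + 10 * C ^ 3) / ε⌉₊ ≤ n := by omega
    exact h1.trans (by exact_mod_cast h2)
  have hn0 : (0 : ℝ) < n := L2_n0
  have hη : C / n ≤ 1 / 10 := by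
    rw [div_le_iff₀ hn0]; linarith
  have hfin : (B + 10 * C ^ 3) / n ≤ ε := by
    rw [div_le_iff₀ hn0]
    have : (B + 10 * C ^ 3) / ε ≤ n := by linarith
    rw [div_le_iff₀ hε] at this
    linarith
  have hX := fun a ℓ h0 h1 => L2_X_bound (n := n) J q a ℓ h0 h1
  have hY := fun a ℓ h0 h1 => L2_Y_bound (n := n) J q a ℓ h0 h1
  rw [← hC] at hX hY
  refine ⟨?_, fun a ℓ h0 h1 => ?_⟩
  · have key : ∀ ℓ ∈ Ico 1 n, ∀ a : ZMod n,
        (Big.X (ul J q n) (tl J q n) a ℓ - 1) - (Big.X (ul J q n) (tl J q n) a ℓ - 1) ^ 2 / 2 +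
          Big.Y (ul J q n) (tl J q n) a ℓ ^ 2 / 2 - 10 * (C / n) ^ 3 ≤
        log (Big.X (ul J q n) (tl J q n) a ℓ ^ 2 + Big.Y (ul J q n) (tl J q n) a ℓ ^ 2) / 2 := by
      intro ℓ hℓ a
      rw [Finset.mem_Ico] at hℓ
      have h := L2_log (Big.X (ul J q n) (tl J q n) a ℓ - 1) (Big.Y (ul J q n) (tl J q n) a ℓ)
        (C / n) hη (hX a ℓ (by omega) hℓ.2) (hY a ℓ (by omega) hℓ.2)
      rw [add_sub_cancel] at h
      exact h
    have h1 : ∑ ℓ ∈ Ico 1 n, ∑ a : ZMod n, ((Big.X (ul J q n) (tl J q n) a ℓ - 1) -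
        (Big.X (ul J q n) (tl J q n) a ℓ - 1) ^ 2 / 2 +
          Big.Y (ul J q n) (tl J q n) a ℓ ^ 2 / 2 - 10 * (C / n) ^ 3) ≤
        Big.SS (ul J q n) (tl J q n) :=
      Finset.sum_le_sum fun ℓ hℓ => Finset.sum_le_sum fun a _ => key ℓ hℓ a
    have h2 : ∀ ℓ ∈ Ico 1 n, ∑ a : ZMod n, ((Big.X (ul J q n) (tl J q n) a ℓ - 1) -
        (Big.X (ul J q n) (tl J q n) a ℓ - 1) ^ 2 / 2 +
          Big.Y (ul J q n) (tl J q n) a ℓ ^ 2 / 2 - 10 * (C / n) ^ 3) =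
        (∑ a : ZMod n, Big.Y (ul J q n) (tl J q n) a ℓ ^ 2) / 2 -
          (∑ a : ZMod n, (Big.X (ul J q n) (tl J q n) a ℓ - 1) ^ 2) / 2 -
          n * (10 * (C / n) ^ 3) := by
      intro ℓ _
      rw [Finset.sum_sub_distrib, Finset.sum_add_distrib, Finset.sum_sub_distrib,
        Finset.sum_sub_distrib, Big.sum_X (L2_sum_u hJ q), ← Finset.sum_div, ← Finset.sum_div]
      simp only [Finset.sum_const, Finset.card_univ, ZMod.card, nsmul_eq_mul]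
      ring
    rw [Finset.sum_congr rfl h2, Finset.sum_sub_distrib, Finset.sum_sub_distrib,
      ← Finset.sum_div, ← Finset.sum_div, Finset.sum_const, Nat.card_Ico, nsmul_eq_mul] at h1
    have h3 := L2_QP hJ q
    unfold Big.QQ Big.PP at h3
    have h4 : ((n - 1 : ℕ) : ℝ) * (n * (10 * (C / n) ^ 3)) ≤ 10 * C ^ 3 / n := by
      have h5 : ((n - 1 : ℕ) : ℝ) ≤ n := by exact_mod_cast Nat.sub_le n 1
      calc ((n - 1 : ℕ) : ℝ) * (n * (10 * (C / n) ^ 3)) ≤ n * (n * (10 * (C / n) ^ 3)) :=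
            mul_le_mul_of_nonneg_right h5 (by positivity)
        _ = 10 * C ^ 3 / n := by field_simp
    rw [add_div] at hfin
    rw [← hB] at h3
    linarith only [h1, h3, h4, hfin]
  · have h := (abs_le.1 (hX a ℓ h0 h1)).1
    linarith

theorem low_energy (J : ℕ) (q : ℕ → ℝ) {ε : ℝ} (hε : 0 < ε) :
    ∃ n₀ : ℕ, ∀ N : ℕ, n₀ ≤ N → ∀ _ : NeZero (2 * N),
      ∑ i ∈ range J, q i ^ 2 / (6 * i + 4) - ε ≤ Big.SS (ul J q (2 * N)) (tl J q (2 * N)) ∧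
      ∀ a : ZMod (2 * N), ∀ ℓ : ℕ, 0 < ℓ → ℓ < 2 * N →
        0 < Big.X (ul J q (2 * N)) (tl J q (2 * N)) a ℓ := by
  obtain ⟨n₀, h⟩ := L2_gen J q hε
  exact ⟨n₀, fun N hN hz => h (2 * N) (by omega) hz⟩

end Pool.Agent.Lib.MP_e1dd62_co.Evn
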