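import Pool.Agent.Lib.MP_e1dd62_co.Evn.Defs

/-!
# X08: the closed form of the constant
-/

namespace Pool.Agent.Lib.MP_e1dd62_co.Evn

open Finset Real Filter Topology

/-- The integrand. -/
private noncomputable def x08_h (y : ℝ) : ℝ := 3 * y ^ 2 / ((1 + y) * (1 + y ^ 2 + y ^ 4))

/-- Its primitive. -/
private noncomputable def x08_F (y : ℝ) : ℝ :=
  log (1 + y) - 3 / 2 * (1 / 2 * log (1 + y + y ^ 2) + 1 / √3 * arctan ((2 * y + 1) / √3)) +
    1 / 2 * (1 / 2 * log (1 - y + y ^ 2) + √3 * arctan ((2 * y - 1) / √3))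

private theorem x08_deriv {y : ℝ} (hy : 0 ≤ y) : HasDerivAt x08_F (x08_h y) y := by
  have h3 : √3 ≠ 0 := by positivity
  have h33 : √3 ^ 2 = 3 := Real.sq_sqrt (by norm_num)
  have p1 : (0 : ℝ) < 1 + y := by linarith
  have p2 : (0 : ℝ) < 1 + y + y ^ 2 := by positivity
  have p3 : (0 : ℝ) < 1 - y + y ^ 2 := by nlinarith [sq_nonneg (2 * y - 1)]
  have d1 : HasDerivAt (fun y : ℝ => log (1 + y)) (1 / (1 + y)) y :=
    ((hasDerivAt_id y).const_add 1).log p1.ne'
  have d2 : HasDerivAt (fun y : ℝ => log (1 + y + y ^ 2)) ((1 + 2 * y) / (1 + y + y ^ 2)) y := by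
    have := (((hasDerivAt_id y).const_add 1).add (hasDerivAt_pow 2 y)).log p2.ne'
    simpa using this
  have d3 : HasDerivAt (fun y : ℝ => log (1 - y + y ^ 2)) ((-1 + 2 * y) / (1 - y + y ^ 2)) y := by
    have := (((hasDerivAt_id y).const_sub 1).add (hasDerivAt_pow 2 y)).log p3.ne'
    simpa using this
  have d4 : HasDerivAt (fun y : ℝ => arctan ((2 * y + 1) / √3))
      (1 / (1 + ((2 * y + 1) / √3) ^ 2) * (2 / √3)) y := by
    have := ((((hasDerivAt_id y).const_mul 2).add_const 1).div_const √3).arctan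
    simpa using this
  have d5 : HasDerivAt (fun y : ℝ => arctan ((2 * y - 1) / √3))
      (1 / (1 + ((2 * y - 1) / √3) ^ 2) * (2 / √3)) y := by
    have := ((((hasDerivAt_id y).const_mul 2).sub_const 1).div_const √3).arctan
    simpa using this
  have := (d1.sub (((d2.const_mul (1 / 2)).add (d4.const_mul (1 / √3))).const_mul (3 / 2))).add
    (((d3.const_mul (1 / 2)).add (d5.const_mul √3)).const_mul (1 / 2))
  refine this.congr_deriv ?_
  have e4 : 1 / (1 + ((2 * y + 1) / √3) ^ 2) * (2 / √3) =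
      3 / (4 * (1 + y + y ^ 2)) * (2 / √3) := by
    congr 1
    rw [div_pow, h33]
    rw [div_eq_div_iff (by positivity) (by positivity)]
    ring
  have e5 : 1 / (1 + ((2 * y - 1) / √3) ^ 2) * (2 / √3) =
      3 / (4 * (1 - y + y ^ 2)) * (2 / √3) := by
    congr 1
    rw [div_pow, h33]
    rw [div_eq_div_iff (by positivity) (by positivity)]
    ring
  rw [e4, e5]
  have e6 : 1 / √3 * (3 / (4 * (1 + y + y ^ 2)) * (2 / √3)) = 1 / (2 * (1 + y + y ^ 2)) := by
    have : 1 / √3 * (3 / (4 * (1 + y + y ^ 2)) * (2 / √3)) =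
        6 / (4 * (1 + y + y ^ 2)) / √3 ^ 2 := by
      field_simp
      ring
    rw [this, h33]
    field_simp
    ring
  have e7 : √3 * (3 / (4 * (1 - y + y ^ 2)) * (2 / √3)) = 3 / (2 * (1 - y + y ^ 2)) := by
    field_simp
    ring
  rw [e6, e7, x08_h]
  have p4 : (0 : ℝ) < 1 + y ^ 2 + y ^ 4 := by positivity
  field_simp
  ring

private theorem x08_int : ∫ y in (0 : ℝ)..1, x08_h y =
    log 2 - 3 / 4 * log 3 + √3 * π / 12 := by
  have h3 : (0 : ℝ) < √3 := by positivity
  have h33 : √3 ^ 2 = 3 := Real.sq_sqrt (by norm_num)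
  have hcont : ContinuousOn x08_h (Set.uIcc 0 1) := by
    rw [Set.uIcc_of_le zero_le_one]
    unfold x08_h
    refine ContinuousOn.div (by fun_prop) (by fun_prop) fun y hy => ?_
    have : (0 : ℝ) ≤ y := hy.1
    positivity
  rw [intervalIntegral.integral_eq_sub_of_hasDerivAt (f := x08_F) (fun y hy => ?_)
    hcont.intervalIntegrable]
  · unfold x08_F
    have e1 : (2 * (1 : ℝ) + 1) / √3 = √3 := by
      rw [div_eq_iff h3.ne', ← sq, h33]; norm_num
    have e2 : (2 * (1 : ℝ) - 1) / √3 = (√3)⁻¹ := by norm_num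
    have e3 : (2 * (0 : ℝ) + 1) / √3 = (√3)⁻¹ := by norm_num
    have e4 : (2 * (0 : ℝ) - 1) / √3 = -(√3)⁻¹ := by
      rw [div_eq_mul_inv]; ring
    rw [e1, e2, e3, e4, arctan_neg, arctan_sqrt_three, arctan_inv_sqrt_three]
    have e5 : (1 : ℝ) + 1 + 1 ^ 2 = 3 := by norm_num
    have e6 : (1 : ℝ) - 1 + 1 ^ 2 = 1 := by norm_num
    have e7 : (1 : ℝ) + 0 + 0 ^ 2 = 1 := by norm_num
    have e8 : (1 : ℝ) - 0 + 0 ^ 2 = 1 := by norm_num
    have e9 : (1 : ℝ) + 1 = 2 := by norm_num
    rw [e5, e6, e7, e8, e9, add_zero, log_one]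
    have e10 : 1 / √3 = √3 / 3 := by
      rw [div_eq_div_iff h3.ne' (by norm_num), ← sq, h33]; norm_num
    rw [e10]
    ring
  · rw [Set.uIcc_of_le zero_le_one] at hy
    exact x08_deriv hy.1

private theorem x08_partial (N : ℕ) {y : ℝ} (hy : 0 ≤ y) :
    ∑ i ∈ range N, 3 * (y ^ (6 * i + 2) - y ^ (6 * i + 3)) = x08_h y * (1 - y ^ (6 * N)) := by
  induction N with
  | zero => simp
  | succ N ih =>
    rw [sum_range_succ, ih]
    have h1 : x08_h y * (1 - y ^ 6) = 3 * y ^ 2 * (1 - y) := by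
      unfold x08_h
      have : (0 : ℝ) < (1 + y) * (1 + y ^ 2 + y ^ 4) := by positivity
      field_simp
      ring
    have h2 : y ^ (6 * (N + 1)) = y ^ (6 * N) * y ^ 6 := by rw [← pow_add]; congr 1
    rw [h2, pow_add, pow_add]
    linear_combination (-(y ^ (6 * N))) * h1

private theorem x08_sum : HasSum (fun i : ℕ => 1 / (2 * (i : ℝ) + 1) - 3 / (6 * i + 4))
    (log 2 - 3 / 4 * log 3 + √3 * π / 12) := by
  have hnn : ∀ i : ℕ, 0 ≤ 1 / (2 * (i : ℝ) + 1) - 3 / (6 * i + 4) := by
    intro i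
    rw [sub_nonneg, div_le_div_iff₀ (by positivity) (by positivity)]
    linarith
  rw [hasSum_iff_tendsto_nat_of_nonneg hnn]
  have hcont : ContinuousOn x08_h (Set.uIcc 0 1) := by
    rw [Set.uIcc_of_le zero_le_one]
    unfold x08_h
    refine ContinuousOn.div (by fun_prop) (by fun_prop) fun y hy => ?_
    have : (0 : ℝ) ≤ y := hy.1
    positivity
  have hb : ∀ y ∈ Set.Icc (0 : ℝ) 1, 0 ≤ x08_h y ∧ x08_h y ≤ 3 := by
    intro y hy
    have h0 : (0 : ℝ) ≤ y := hy.1
    have h1 : y ≤ 1 := hy.2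
    unfold x08_h
    refine ⟨by positivity, ?_⟩
    rw [div_le_iff₀ (by positivity)]
    have h2 : y ^ 2 ≤ 1 := pow_le_one₀ h0 h1
    nlinarith [pow_nonneg h0 2, pow_nonneg h0 3, pow_nonneg h0 4, pow_nonneg h0 5]
  have hsum : ∀ N : ℕ, ∑ i ∈ range N, (1 / (2 * (i : ℝ) + 1) - 3 / (6 * i + 4)) =
      (log 2 - 3 / 4 * log 3 + √3 * π / 12) - ∫ y in (0 : ℝ)..1, x08_h y * y ^ (6 * N) := by
    intro N
    have hi2 : IntervalIntegrable (fun y => x08_h y * y ^ (6 * N)) MeasureTheory.volume 0 1 :=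
      (hcont.mul (continuous_pow _).continuousOn).intervalIntegrable
    rw [← x08_int, ← intervalIntegral.integral_sub hcont.intervalIntegrable hi2]
    have h1 : ∫ y in (0 : ℝ)..1, (x08_h y - x08_h y * y ^ (6 * N)) =
        ∫ y in (0 : ℝ)..1, ∑ i ∈ range N, 3 * (y ^ (6 * i + 2) - y ^ (6 * i + 3)) := by
      refine intervalIntegral.integral_congr fun y hy => ?_
      rw [Set.uIcc_of_le zero_le_one] at hy
      rw [x08_partial N hy.1]
      ring
    rw [h1, intervalIntegral.integral_finsetSum]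
    · refine sum_congr rfl fun i _ => ?_
      rw [intervalIntegral.integral_const_mul, intervalIntegral.integral_sub, integral_pow,
        integral_pow]
      · push_cast
        simp
        field_simp
        ring
      · exact (continuous_pow _).intervalIntegrable _ _
      · exact (continuous_pow _).intervalIntegrable _ _
    · intro i _
      exact (continuous_const.mul ((continuous_pow _).sub (continuous_pow _))).intervalIntegrable
        _ _
  simp only [hsum]
  have hrem : Tendsto (fun N : ℕ => ∫ y in (0 : ℝ)..1, x08_h y * y ^ (6 * N)) atTop (𝓝 0) := by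
    refine squeeze_zero (g := fun N : ℕ => 3 * (1 / ((N : ℝ) + 1))) (fun N => ?_) (fun N => ?_) ?_
    · exact intervalIntegral.integral_nonneg zero_le_one fun y hy =>
        mul_nonneg (hb y hy).1 (pow_nonneg hy.1 _)
    · calc ∫ y in (0 : ℝ)..1, x08_h y * y ^ (6 * N) ≤ ∫ y in (0 : ℝ)..1, 3 * y ^ (6 * N) := by
            refine intervalIntegral.integral_mono_on zero_le_one
              (hcont.mul (continuous_pow _).continuousOn).intervalIntegrable
              ((continuous_const.mul (continuous_pow _)).intervalIntegrable _ _) fun y hy => ?_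
            exact mul_le_mul_of_nonneg_right (hb y hy).2 (pow_nonneg hy.1 _)
        _ = 3 * (1 / (6 * (N : ℝ) + 1)) := by
            rw [intervalIntegral.integral_const_mul, integral_pow]
            simp
        _ ≤ 3 * (1 / ((N : ℝ) + 1)) := by
            have : (0 : ℝ) ≤ N := Nat.cast_nonneg N
            gcongr
            linarith
    · simpa using tendsto_one_div_add_atTop_nhds_zero_nat.const_mul (3 : ℝ)
  simpa using tendsto_const_nhds.sub hrem

private theorem x08_odd : HasSum (fun i : ℕ => 1 / (2 * (i : ℝ) + 1) ^ 2) (π ^ 2 / 8) := by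
  have h := hasSum_zeta_two
  set f : ℕ → ℝ := fun n => (1 : ℝ) / (n : ℝ) ^ 2 with hf
  have hodd : Summable fun k : ℕ => f (2 * k + 1) :=
    h.summable.comp_injective (i := fun k : ℕ => 2 * k + 1) (fun a b hab => by
      simp only at hab; omega)
  have heven : Summable fun k : ℕ => f (2 * k) :=
    h.summable.comp_injective (i := fun k : ℕ => 2 * k) (fun a b hab => by
      simp only at hab; omega)
  have hsplit := tsum_even_add_odd heven hodd
  rw [h.tsum_eq] at hsplit
  have he : ∑' k : ℕ, f (2 * k) = π ^ 2 / 24 := by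
    have : ∀ k : ℕ, f (2 * k) = 1 / 4 * f k := by
      intro k
      simp only [hf]
      push_cast
      rw [mul_pow]
      rw [one_div_mul_one_div_rev]
      ring
    simp only [this]
    rw [tsum_mul_left, h.tsum_eq]
    ring
  have ho : ∑' k : ℕ, f (2 * k + 1) = π ^ 2 / 8 := by linarith
  have h2 := hodd.hasSum
  rw [ho] at h2
  refine h2.congr_fun fun i => ?_
  simp only [hf]
  push_cast
  rfl

theorem Jst_hasSum :
    HasSum (fun i : ℕ => 1 / ((2 * (i : ℝ) + 1) ^ 2 * (6 * i + 4))) Jst := by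
  have h := x08_odd.sub (x08_sum.mul_left 3)
  have hJ : π ^ 2 / 8 - 3 * (log 2 - 3 / 4 * log 3 + √3 * π / 12) = Jst := by
    unfold Jst
    ring
  rw [hJ] at h
  refine h.congr_fun fun i => ?_
  have h1 : (0 : ℝ) < 2 * (i : ℝ) + 1 := by positivity
  have h2 : (0 : ℝ) < 6 * (i : ℝ) + 4 := by positivity
  field_simp
  ring

end Pool.Agent.Lib.MP_e1dd62_co.Evn
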