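import Pool.Agent.Lib.MP_e1dd62_co.Evn.L1
import Pool.Agent.Lib.MP_e1dd62_co.Evn.X08

/-!
# L3: the choice of the trigonometric polynomial
-/

namespace Pool.Agent.Lib.MP_e1dd62_co.Evn

open Finset Real

private lemma L3_re_arctan {w : ℂ} (hw : ‖w‖ < 1) : |(Complex.arctan w).re| ≤ π / 4 := by
  have h1 : 0 < ((1 + w * Complex.I) / (1 - w * Complex.I)).re := by
    have hne : (1 - w * Complex.I) ≠ 0 := by
      intro h
      have h2 : w * Complex.I = 1 := (sub_eq_zero.1 h).symm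
      have h3 : ‖w * Complex.I‖ = 1 := by rw [h2, norm_one]
      rw [norm_mul, Complex.norm_I, mul_one] at h3
      linarith
    have hn : 0 < Complex.normSq (1 - w * Complex.I) := Complex.normSq_pos.2 hne
    have h4 : ‖w‖ ^ 2 < 1 := by nlinarith [norm_nonneg w]
    rw [← Complex.normSq_eq_norm_sq, Complex.normSq_apply] at h4
    rw [Complex.div_re]
    have e1 : (1 + w * Complex.I).re = 1 - w.im := by simp; ring
    have e2 : (1 + w * Complex.I).im = w.re := by simp
    have e3 : (1 - w * Complex.I).re = 1 + w.im := by simp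
    have e4 : (1 - w * Complex.I).im = -w.re := by simp
    rw [e1, e2, e3, e4, ← add_div]
    apply div_pos _ hn
    nlinarith
  have h2 : |((1 + w * Complex.I) / (1 - w * Complex.I)).arg| < π / 2 :=
    Complex.abs_arg_lt_pi_div_two_iff.2 (Or.inl h1)
  have h3 : (Complex.arctan w).re = ((1 + w * Complex.I) / (1 - w * Complex.I)).arg / 2 := by
    unfold Complex.arctan
    rw [← Complex.log_im]
    generalize Complex.log ((1 + w * Complex.I) / (1 - w * Complex.I)) = z
    have : -Complex.I / 2 * z = ((-(1 / 2) : ℝ) : ℂ) * (Complex.I * z) := by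
      push_cast
      ring
    rw [this, Complex.re_ofReal_mul, Complex.I_mul_re]
    ring
  rw [h3, abs_div, abs_of_pos (by norm_num : (0 : ℝ) < 2)]
  linarith

private lemma L3_partial {r : ℝ} (hr0 : 0 < r) (hr1 : r < 1) (J : ℕ) (φ : ℝ) :
    |∑ i ∈ range J, (-1) ^ i * r ^ (2 * i + 1) / (2 * i + 1) * cos ((2 * i + 1) * φ)| ≤
      π / 4 + r ^ J / (1 - r) := by
  set w : ℂ := (r : ℂ) * Complex.exp ((φ : ℂ) * Complex.I) with hw
  have hwn : ‖w‖ = r := by
    rw [hw, norm_mul, Complex.norm_exp_ofReal_mul_I, mul_one, Complex.norm_real,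
      Real.norm_eq_abs, abs_of_pos hr0]
  have hs := Complex.hasSum_arctan (z := w) (by rw [hwn]; exact hr1)
  have hs2 := (hasSum_nat_add_iff' J).2 hs
  have hg : HasSum (fun i : ℕ => r ^ J * r ^ i) (r ^ J * (1 - r)⁻¹) :=
    (hasSum_geometric_of_lt_one hr0.le hr1).mul_left _
  have hle : ‖Complex.arctan w - ∑ i ∈ range J, (-1) ^ i * w ^ (2 * i + 1) / ((2 * i + 1 : ℕ) : ℂ)‖
      ≤ r ^ J * (1 - r)⁻¹ := by
    refine hs2.norm_le_of_bounded hg (fun i => ?_)
    rw [norm_div, norm_mul, norm_pow, norm_neg, norm_one, one_pow, one_mul, norm_pow, hwn,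
      Complex.norm_natCast]
    have h1 : r ^ (2 * (i + J) + 1) ≤ r ^ (J + i) :=
      pow_le_pow_of_le_one hr0.le hr1.le (by omega)
    have h2 : (1 : ℝ) ≤ ((2 * (i + J) + 1 : ℕ) : ℝ) := by
      have : 1 ≤ 2 * (i + J) + 1 := by omega
      exact_mod_cast this
    calc r ^ (2 * (i + J) + 1) / ((2 * (i + J) + 1 : ℕ) : ℝ) ≤ r ^ (2 * (i + J) + 1) :=
          div_le_self (by positivity) h2
      _ ≤ r ^ (J + i) := h1
      _ = r ^ J * r ^ i := pow_add r J i
  have hre : (∑ i ∈ range J, (-1) ^ i * w ^ (2 * i + 1) / ((2 * i + 1 : ℕ) : ℂ)).re =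
      ∑ i ∈ range J, (-1) ^ i * r ^ (2 * i + 1) / (2 * i + 1) * cos ((2 * i + 1) * φ) := by
    rw [Complex.re_sum]
    refine Finset.sum_congr rfl fun i _ => ?_
    have h1 : w ^ (2 * i + 1) = ((r ^ (2 * i + 1) : ℝ) : ℂ) *
        Complex.exp ((((2 * i + 1) * φ : ℝ) : ℂ) * Complex.I) := by
      rw [hw, mul_pow, ← Complex.exp_nat_mul]
      push_cast
      congr 2
      ring
    have h2 : (-1) ^ i * w ^ (2 * i + 1) / ((2 * i + 1 : ℕ) : ℂ) =
        (((-1) ^ i * r ^ (2 * i + 1) / (2 * i + 1) : ℝ) : ℂ) *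
          Complex.exp ((((2 * i + 1) * φ : ℝ) : ℂ) * Complex.I) := by
      rw [h1]
      push_cast
      ring
    rw [h2, Complex.re_ofReal_mul, Complex.exp_ofReal_mul_I_re]
  rw [← hre]
  set S := ∑ i ∈ range J, (-1) ^ i * w ^ (2 * i + 1) / ((2 * i + 1 : ℕ) : ℂ) with hS
  have h1 : S.re = (Complex.arctan w).re - (Complex.arctan w - S).re := by
    rw [Complex.sub_re]
    ring
  rw [h1]
  refine (abs_sub _ _).trans ?_
  have h2 := L3_re_arctan (w := w) (by rw [hwn]; exact hr1)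
  have h3 := (Complex.abs_re_le_norm (Complex.arctan w - S)).trans hle
  rw [div_eq_mul_inv (r ^ J)]
  linarith

theorem low_coef {ε : ℝ} (hε : 0 < ε) : ∃ (J : ℕ) (q : ℕ → ℝ), (∀ θ, |kap J q θ| ≤ π / 2) ∧
    Jst - ε ≤ ∑ i ∈ range J, q i ^ 2 / (6 * i + 4) := by
  have hlim := Jst_hasSum.tendsto_sum_nat
  have ev := hlim.eventually (lt_mem_nhds (by linarith : Jst - ε / 2 < Jst))
  obtain ⟨J0, hJ0⟩ := ev.exists
  set S0 : ℝ := ∑ i ∈ range J0, 1 / ((2 * (i : ℝ) + 1) ^ 2 * (6 * i + 4)) with hS0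
  have hS00 : 0 ≤ S0 := Finset.sum_nonneg fun i _ => by positivity
  -- choice of `s`
  have hcont : Filter.Tendsto (fun s : ℝ => s ^ (4 * J0 + 4) * S0) (nhdsWithin 1 (Set.Iio 1))
      (nhds (1 ^ (4 * J0 + 4) * S0)) := by
    apply Filter.Tendsto.mono_left _ nhdsWithin_le_nhds
    exact ((continuous_pow (4 * J0 + 4)).mul continuous_const).tendsto 1
  rw [one_pow, one_mul] at hcont
  have ev1 := hcont.eventually (lt_mem_nhds (by linarith : S0 - ε / 2 < S0))
  have ev2 : ∀ᶠ s : ℝ in nhdsWithin 1 (Set.Iio 1), s < 1 := eventually_mem_nhdsWithin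
  have ev3 : ∀ᶠ s : ℝ in nhdsWithin 1 (Set.Iio 1), 0 < s :=
    Filter.Eventually.filter_mono nhdsWithin_le_nhds (lt_mem_nhds one_pos)
  obtain ⟨s, h1, h2, h3⟩ := (ev1.and (ev2.and ev3)).exists
  -- choice of `J`
  have hpow := tendsto_pow_atTop_nhds_zero_of_lt_one h3.le h2
  have hpos : 0 < π / 4 * (1 - s) * (1 - s) := by
    have : 0 < 1 - s := by linarith
    positivity
  have ev4 := hpow.eventually (gt_mem_nhds hpos)
  obtain ⟨J, hJa, hJb⟩ := (ev4.and (Filter.eventually_ge_atTop J0)).exists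
  refine ⟨J, fun i => s * ((-1) ^ i * s ^ (2 * i + 1) / (2 * i + 1)), fun θ => ?_, ?_⟩
  · have e1 : kap J (fun i => s * ((-1) ^ i * s ^ (2 * i + 1) / (2 * i + 1))) θ =
        2 * (s * ∑ i ∈ range J, (-1) ^ i * s ^ (2 * i + 1) / (2 * i + 1) *
          cos ((2 * i + 1) * (3 * θ))) := by
      unfold kap
      congr 1
      rw [Finset.mul_sum]
      refine Finset.sum_congr rfl fun i _ => ?_
      have : (6 * (i : ℝ) + 3) * θ = (2 * i + 1) * (3 * θ) := by ring
      rw [this]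
      ring
    rw [e1, abs_mul, abs_mul, abs_of_pos h3, abs_of_pos (by norm_num : (0 : ℝ) < 2)]
    have h4 := L3_partial h3 h2 J (3 * θ)
    have h5 : s ^ J / (1 - s) ≤ π / 4 * (1 - s) := by
      rw [div_le_iff₀ (by linarith)]
      exact hJa.le
    have h6 : s * |∑ i ∈ range J, (-1) ^ i * s ^ (2 * i + 1) / (2 * (i : ℝ) + 1) *
        cos ((2 * i + 1) * (3 * θ))| ≤ s * (π / 4 + π / 4 * (1 - s)) :=
      mul_le_mul_of_nonneg_left (by linarith) h3.le
    have h7 : s * (π / 4 + π / 4 * (1 - s)) ≤ π / 4 := by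
      have : π / 4 - s * (π / 4 + π / 4 * (1 - s)) = π / 4 * (1 - s) ^ 2 := by ring
      have : 0 ≤ π / 4 * (1 - s) ^ 2 := by positivity
      linarith
    linarith
  · have h4 : Jst - ε ≤ s ^ (4 * J0 + 4) * S0 := by linarith
    refine h4.trans ?_
    rw [hS0, Finset.mul_sum]
    refine le_trans ?_ (Finset.sum_le_sum_of_subset_of_nonneg
      (Finset.range_subset_range.2 hJb) (fun i _ _ => by positivity))
    refine Finset.sum_le_sum fun i hi => ?_
    rw [Finset.mem_range] at hi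
    have h5 : (s * ((-1) ^ i * s ^ (2 * i + 1) / (2 * (i : ℝ) + 1))) ^ 2 =
        s ^ (4 * i + 4) / (2 * i + 1) ^ 2 := by
      have h6 : ((-1 : ℝ) ^ i) ^ 2 = 1 := by
        rw [← pow_mul, mul_comm, pow_mul, neg_one_sq, one_pow]
      rw [mul_pow, div_pow, mul_pow, h6, one_mul, ← pow_mul, mul_div_assoc', ← pow_add]
      congr 2
      ring
    rw [h5, div_div, mul_one_div]
    apply div_le_div_of_nonneg_right _ (by positivity)
    exact pow_le_pow_of_le_one h3.le h2.le (by omega)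

end Pool.Agent.Lib.MP_e1dd62_co.Evn
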