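import Pool.Agent.Lib.MP_e1dd62_co.Evn.E0
import Pool.Agent.Lib.MP_e1dd62_co.Evn.L2
import Pool.Agent.Lib.MP_e1dd62_co.Evn.L3
import Pool.Agent.Lib.MP_e1dd62_co.Big.Main

/-!
# The lower bound
-/

namespace Pool.Agent.Lib.MP_e1dd62_co.Evn

open Finset Real

theorem LO_per {n : ℕ} [NeZero n] (c : ℝ) (u t : ZMod n → ℝ) (k : ℕ) :
    pt c u t (k + n) = pt c u t k := by
  unfold pt
  have hn : (n : ℂ) ≠ 0 := Nat.cast_ne_zero.2 (NeZero.ne n)
  have h1 : 2 * (π : ℂ) * Complex.I * ((k + n : ℕ) : ℂ) / n =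
      2 * π * Complex.I * k / n + 2 * π * Complex.I := by
    push_cast
    field_simp
  rw [h1, Complex.exp_periodic]
  congr 4 <;> simp

theorem LO_smul {n : ℕ} (c : ℝ) (u t : ZMod n → ℝ) (k : ℕ) :
    pt c u t k = (c : ℂ) * pt 1 u t k := by
  unfold pt
  push_cast
  ring

/-- The energy of a polygon given by its relative displacements. -/
theorem LO_energy {n : ℕ} [NeZero n] (hn : 2 ≤ n) {c : ℝ} (hc : 0 < c) {u t : ZMod n → ℝ}
    (hX : ∀ a : ZMod n, ∀ ℓ : ℕ, 0 < ℓ → ℓ < n → 0 < Big.X u t a ℓ) :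
    0 < Delta (fun i : Fin n => pt c u t i) ∧ log (Delta (fun i : Fin n => pt c u t i)) =
      n * log n + (n : ℝ) * (n - 1) * log c + Big.SS u t := by
  obtain ⟨m, rfl⟩ : ∃ m, n = m + 1 := ⟨n - 1, by omega⟩
  have hW : ∀ k : ℕ, pt c u t k = (c : ℂ) * Complex.exp (2 * π * Complex.I * k / ((m + 1 : ℕ) : ℂ)) *
      (1 + (u k : ℂ) + (t k : ℂ) * Complex.I) := fun k => rfl
  have hne : ∀ a ℓ : ℕ, 0 < ℓ → ℓ < m + 1 → 0 < ‖pt c u t (a + ℓ) - pt c u t a‖ := by
    intro a ℓ h0 h1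
    rw [Big.norm_chord hW a ℓ h0 h1, Complex.norm_real, Real.norm_eq_abs, abs_of_pos hc]
    have h2 := hX a ℓ h0 h1
    have h3 : 0 < sin (ℓ * (π / ((m + 1 : ℕ) : ℝ))) := Big.W1_sin_pos h0 h1
    positivity
  have hinj : Function.Injective fun i : Fin (m + 1) => pt c u t i := by
    intro i j hij
    by_contra hne'
    rcases lt_or_gt_of_ne (fun h => hne' (Fin.ext h) : (i : ℕ) ≠ j) with h | h
    · have h4 := hne i (j - i) (by omega) (by omega)
      rw [show (i : ℕ) + (j - i) = j by omega] at h4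
      simp only at hij
      rw [hij, sub_self, norm_zero] at h4
      exact lt_irrefl _ h4
    · have h4 := hne j (i - j) (by omega) (by omega)
      rw [show (j : ℕ) + (i - j) = i by omega] at h4
      simp only at hij
      rw [hij, sub_self, norm_zero] at h4
      exact lt_irrefl _ h4
  have hpos : 0 < Delta (fun i : Fin (m + 1) => pt c u t i) := by
    unfold Delta
    refine prod_pos fun i _ => prod_pos fun j hj => ?_
    rw [norm_pos_iff, sub_ne_zero]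
    exact fun h => (mem_erase.1 hj).1 (hinj h).symm
  refine ⟨hpos, ?_⟩
  rw [Big.log_Delta_windows (W := pt c u t) (LO_per c u t) hinj,
    energy_eq hn (c := (c : ℂ)) (by exact_mod_cast hc.ne') (fun ℓ hℓ a => by
      rw [mem_Ico] at hℓ
      exact hX a ℓ (by omega) hℓ.2) hW, Complex.norm_real, Real.norm_eq_abs, abs_of_pos hc]

theorem lower {ε : ℝ} (hε : 0 < ε) : ∃ n₀ : ℕ, ∀ N : ℕ, n₀ ≤ N → ∃ z : Fin (2 * N) → ℂ,
    Admissible z ∧ ((2 * N : ℕ) : ℝ) ^ (2 * N) * exp (Jst - ε) ≤ Delta z := by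
  have hε3 : 0 < ε / 3 := by positivity
  obtain ⟨J, q, hq, hJ⟩ := low_coef hε3
  obtain ⟨n₁, h₁⟩ := low_diam hq hε3
  obtain ⟨n₂, h₂⟩ := low_energy J q hε3
  refine ⟨n₁ + n₂ + 1, fun N hN => ?_⟩
  have hne : NeZero (2 * N) := ⟨by omega⟩
  obtain ⟨hSS, hX⟩ := h₂ N (by omega) hne
  have hN0 : (0 : ℝ) < 2 * N := by
    have : 0 < N := by omega
    positivity
  set lam : ℝ := 1 / (1 + ε / 3 / (2 * N) ^ 2) with hlam
  have hden : (0 : ℝ) < 1 + ε / 3 / (2 * N) ^ 2 := by positivity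
  have hlam0 : 0 < lam := by positivity
  obtain ⟨hpos, hlog⟩ := LO_energy (n := 2 * N) (by omega) hlam0 hX
  refine ⟨fun i => pt lam (ul J q (2 * N)) (tl J q (2 * N)) i, fun i j => ?_, ?_⟩
  · beta_reduce
    rw [LO_smul lam _ _ (i : ℕ), LO_smul lam _ _ (j : ℕ), ← mul_sub, norm_mul, Complex.norm_real,
      Real.norm_eq_abs, abs_of_pos hlam0]
    calc lam * ‖pt 1 (ul J q (2 * N)) (tl J q (2 * N)) i - pt 1 (ul J q (2 * N)) (tl J q (2 * N)) j‖
        ≤ lam * (2 * (1 + ε / 3 / (2 * N) ^ 2)) :=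
          mul_le_mul_of_nonneg_left (h₁ N (by omega) i j) hlam0.le
      _ = 2 := by rw [hlam]; field_simp
  · have hnpos' : (0 : ℝ) < ((2 * N : ℕ) : ℝ) := by push_cast; exact hN0
    have hpow : (0 : ℝ) < ((2 * N : ℕ) : ℝ) ^ (2 * N) := pow_pos hnpos' _
    rw [← Real.log_le_log_iff (mul_pos hpow (exp_pos _)) hpos,
      Real.log_mul hpow.ne' (exp_pos _).ne', Real.log_pow, Real.log_exp, hlog]
    have h1 : log lam = -log (1 + ε / 3 / (2 * N) ^ 2) := by
      rw [hlam, one_div, Real.log_inv]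
    have h2 : log (1 + ε / 3 / (2 * (N : ℝ)) ^ 2) ≤ ε / 3 / (2 * N) ^ 2 := by
      have := Real.log_le_sub_one_of_pos hden
      linarith
    have h3 : ((2 * N : ℕ) : ℝ) * (((2 * N : ℕ) : ℝ) - 1) * log lam ≥ -(ε / 3) := by
      rw [h1]
      push_cast
      have h4 : (2 * (N : ℝ)) * (2 * N - 1) * log (1 + ε / 3 / (2 * (N : ℝ)) ^ 2) ≤
          (2 * (N : ℝ)) * (2 * N - 1) * (ε / 3 / (2 * N) ^ 2) := by
        refine mul_le_mul_of_nonneg_left h2 ?_
        have : (1 : ℝ) ≤ N := by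
          have : 1 ≤ N := by omega
          exact_mod_cast this
        nlinarith
      have h5 : (2 * (N : ℝ)) * (2 * N - 1) * (ε / 3 / (2 * N) ^ 2) ≤ ε / 3 := by
        have h6 : (2 * (N : ℝ)) * (2 * N - 1) * (ε / 3 / (2 * N) ^ 2) =
            ε / 3 * ((2 * N - 1) / (2 * N)) := by
          field_simp
        rw [h6]
        have h7 : ((2 * (N : ℝ)) - 1) / (2 * N) ≤ 1 := by
          rw [div_le_one hN0]
          linarith
        nlinarith
      linarith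
    linarith

end Pool.Agent.Lib.MP_e1dd62_co.Evn
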