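import Pool.Agent.Lib.MP_e1dd62_co.Evn.UP
import Pool.Agent.Lib.MP_e1dd62_co.Evn.LO

/-!
# The asymptotics for even `n`
-/

namespace Pool.Agent.Lib.MP_e1dd62_co.Evn

open Finset Real Filter

theorem exp_Jst : exp Jst = 3 ^ ((9 : ℝ) / 4) / 8 * exp (π ^ 2 / 8 - √3 * π / 4) := by
  unfold Jst
  rw [show π ^ 2 / 8 - √3 * π / 4 + 9 / 4 * log 3 - 3 * log 2 =
    log 3 * (9 / 4) - log 2 * 3 + (π ^ 2 / 8 - √3 * π / 4) by ring, exp_add, exp_sub,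
    ← rpow_def_of_pos (by norm_num : (0 : ℝ) < 3), ← rpow_def_of_pos (by norm_num : (0 : ℝ) < 2)]
  norm_num

theorem main {M : ℕ → ℝ}
    (hM : ∀ n, IsGreatest {x : ℝ | ∃ z : Fin n → ℂ, Admissible z ∧ x = Delta z} (M n)) :
    Tendsto (fun N : ℕ => M (2 * N) / ((2 * N : ℕ) : ℝ) ^ (2 * N)) atTop
      (nhds (3 ^ ((9 : ℝ) / 4) / 8 * exp (π ^ 2 / 8 - √3 * π / 4))) := by
  rw [← exp_Jst, Metric.tendsto_atTop]
  intro ε hε
  obtain ⟨δ, hδ, hδε⟩ : ∃ δ : ℝ, 0 < δ ∧ ∀ x, |x - Jst| ≤ δ → |exp x - exp Jst| < ε := by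
    have h := Metric.continuousAt_iff.1 (Real.continuous_exp.continuousAt (x := Jst)) ε hε
    obtain ⟨δ, h1, h2⟩ := h
    refine ⟨δ / 2, by positivity, fun x hx => ?_⟩
    have := h2 (x := x) (by rw [Real.dist_eq]; linarith)
    rwa [Real.dist_eq] at this
  obtain ⟨n₁, h₁⟩ := upper hδ
  obtain ⟨n₂, h₂⟩ := lower hδ
  refine ⟨n₁ + n₂ + 1, fun N hN => ?_⟩
  obtain ⟨⟨z, hz, hzM⟩, hub⟩ := hM (2 * N)
  have hpos : (0 : ℝ) < ((2 * N : ℕ) : ℝ) ^ (2 * N) := by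
    have : 0 < 2 * N := by omega
    positivity
  have hu : M (2 * N) / ((2 * N : ℕ) : ℝ) ^ (2 * N) ≤ exp (Jst + δ) := by
    rw [div_le_iff₀ hpos, hzM, mul_comm (exp (Jst + δ))]
    exact h₁ N (by omega) z hz
  have hl : exp (Jst - δ) ≤ M (2 * N) / ((2 * N : ℕ) : ℝ) ^ (2 * N) := by
    rw [le_div_iff₀ hpos, mul_comm (exp (Jst - δ))]
    obtain ⟨z', hz', hle⟩ := h₂ N (by omega)
    exact hle.trans (hub ⟨z', hz', rfl⟩)
  rw [Real.dist_eq, abs_sub_lt_iff]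
  have e1 := hδε (Jst + δ) (by rw [add_sub_cancel_left, abs_of_pos hδ])
  have e2 := hδε (Jst - δ) (by rw [sub_sub_cancel_left, abs_neg, abs_of_pos hδ])
  rw [abs_sub_lt_iff] at e1 e2
  constructor <;> linarith [e1.1, e2.2]

end Pool.Agent.Lib.MP_e1dd62_co.Evn
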