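import Pool.Agent.Lib.MP_e1dd62_co.Evn.E0
import Pool.Agent.Lib.MP_e1dd62_co.Big.Main

/-!
# U1: the structure of the maximisers for large `n`
-/

namespace Pool.Agent.Lib.MP_e1dd62_co.Evn

open Finset Real

theorem U1_centred {δ : ℝ} (hδ : 0 < δ) (hδ1 : δ ≤ 1 / 10 ^ 11) :
    ∃ n₀ : ℕ, ∀ m : ℕ, n₀ ≤ m → ∀ _ : NeZero (m + 1),
    ∀ z : Fin (m + 1) → ℂ, IsMaximiser z → ∑ i, z i = 0 →
    ∃ (c : ℝ) (u t : ZMod (m + 1) → ℝ), Cfg δ c u t ∧
      0 < Delta z ∧ log (Delta z) = ((m + 1 : ℕ) : ℝ) * log ((m + 1 : ℕ) : ℝ) +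
        (((m + 1 : ℕ) : ℝ)) * (((m + 1 : ℕ) : ℝ) - 1) * log c + Big.SS u t := by
  obtain ⟨ρ, hρ, n₁, hn₁⟩ := Big.exists_near δ hδ
  obtain ⟨n₂, hn₂⟩ := Big.supp_near ρ hρ
  refine ⟨n₁ + n₂ + 10 ^ 12, fun m hm hne z hz hc => ?_⟩
  have hinj := hz.injective
  have hm2 : 2 ≤ m := by omega
  obtain ⟨σ, hσ⟩ := exists_isPoly z fun i => hz.notMem_convexHull (by omega) i
  set W : ℕ → ℂ := fun k => z (σ ⟨k % (m + 1), Nat.mod_lt _ (Nat.succ_pos m)⟩) with hWdef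
  have hWfin : ∀ k : Fin (m + 1), W k = z (σ k) := by
    intro k
    simp only [hWdef]
    congr 2
    exact Fin.ext (Nat.mod_eq_of_lt k.2)
  have hWeq : (fun i : Fin (m + 1) => W i) = fun i => z (σ i) := funext hWfin
  have hDW : Delta (fun i : Fin (m + 1) => W i) = Delta z := by rw [hWeq, Delta_perm]
  have hWinj : Function.Injective fun i : Fin (m + 1) => W i := by
    rw [hWeq]
    exact hinj.comp σ.injective
  have hsumW : ∑ i ∈ range (m + 1), W i = 0 := by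
    rw [sum_range]
    rw [show (∑ i : Fin (m + 1), W i) = ∑ i, z (σ i) from sum_congr rfl fun i _ => hWfin i,
      Equiv.sum_comp σ z, hc]
  have hper := hσ.perimeter_le hm2 fun a b => hz.1 _ _
  have hper' : ∑ i ∈ range (m + 1), ‖W (i + 1) - W i‖ ≤ 2 * π := by
    have := Big.four_mul_sin_le (Nat.succ_pos m)
    push_cast at this
    exact hper.trans this
  have hE := Big.log_Delta_windows hσ.per hWinj
  rw [hDW] at hE
  have hpos := hz.pos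
  have hlow : ((m : ℝ) + 1) * log (m + 1) ≤ log (Delta z) := by
    have h1 := Real.log_le_log (by positivity) (Big.isMax_pow_le hz)
    rw [Real.log_pow] at h1
    push_cast at h1
    exact h1
  have hsupp := hn₂ m (by omega) z hinj hz.1 hc (by rw [← Big.log_Delta_pairs hinj]; exact hlow)
  have hh : ∀ θ : ℝ, (∀ i, (Complex.exp (-(θ * Complex.I)) * W i).re ≤ 1 + ρ) ∧
      ∃ i, 1 - ρ ≤ (Complex.exp (-(θ * Complex.I)) * W i).re := by
    intro θ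
    obtain ⟨h1, i, hi⟩ := hsupp θ
    refine ⟨fun j => h1 _, ((σ.symm i : Fin (m + 1)) : ℕ), ?_⟩
    rw [hWfin, Equiv.apply_symm_apply]
    exact hi
  obtain ⟨c, u, t, hc0, hnear, hWk⟩ := hn₁ (m + 1) (by omega) inferInstance W hσ hsumW hper'
    (by rw [← hE]; push_cast; exact hlow) hh
  have hcn : 0 < ‖c‖ := norm_pos_iff.2 hc0
  have hEn := energy_eq (by omega) hc0 (X_pos_of_near (by omega) hδ1 hnear) hWk
  rw [← hE] at hEn
  have hpt : ∀ k : ℕ, pt ‖c‖ u t k = ((‖c‖ : ℝ) : ℂ) / c * W k := by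
    intro k
    rw [hWk k]
    unfold pt
    field_simp
  have hn0 : (0 : ℝ) < ((m + 1 : ℕ) : ℝ) := by positivity
  have hcos := cos_half_pos (n := m + 1) (by omega)
  have hsin := sin_half_pos (n := m + 1) (by omega)
  have hhalf : sin (π / ((m + 1 : ℕ) : ℝ)) =
      2 * sin (π / (2 * ((m + 1 : ℕ) : ℝ))) * cos (π / (2 * ((m + 1 : ℕ) : ℝ))) := by
    rw [← sin_two_mul]
    congr 1
    field_simp
  refine ⟨‖c‖, u, t, ⟨hcn, hnear, fun i j => ?_, ?_, ?_⟩, hpos, hEn⟩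
  · rw [hpt, hpt, ← mul_sub, norm_mul, norm_div, Complex.norm_real, norm_norm, div_self hcn.ne',
      one_mul]
    exact hz.1 _ _
  · -- the perimeter
    have hL : ∑ i ∈ range (m + 1), ‖W (i + 1) - W i‖ =
        ‖c‖ * (2 * sin (π / ((m + 1 : ℕ) : ℝ))) *
          ∑ a, √(Big.X u t a 1 ^ 2 + Big.Y u t a 1 ^ 2) := by
      rw [← Big.Z1_sum_cast (fun a => √(Big.X u t a 1 ^ 2 + Big.Y u t a 1 ^ 2)), mul_sum]
      refine sum_congr rfl fun i _ => ?_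
      have h1 := Big.norm_chord hWk i 1 one_pos (by omega)
      rw [h1, Nat.cast_one, one_mul]
    have hK : ∑ a, √(Big.X u t a 1 ^ 2 + Big.Y u t a 1 ^ 2) =
        ((m + 1 : ℕ) : ℝ) + Big.K u t := by
      unfold Big.K
      rw [sum_sub_distrib, Big.sum_X hnear.su t 1]
      ring
    have h2 : ∑ i ∈ range (m + 1), ‖W (i + 1) - W i‖ ≤
        4 * ((m + 1 : ℕ) : ℝ) * sin (π / (2 * ((m + 1 : ℕ) : ℝ))) := by
      push_cast
      exact hper
    rw [hL, hK, hhalf] at h2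
    have h3 : ‖c‖ * (((m + 1 : ℕ) : ℝ) + Big.K u t) * cos (π / (2 * ((m + 1 : ℕ) : ℝ))) *
        (4 * sin (π / (2 * ((m + 1 : ℕ) : ℝ)))) ≤
        ((m + 1 : ℕ) : ℝ) * (4 * sin (π / (2 * ((m + 1 : ℕ) : ℝ)))) := by
      linarith
    exact le_of_mul_le_mul_right h3 (by positivity)
  · have h1 := hlow
    rw [hEn] at h1
    push_cast at h1 ⊢
    linarith

theorem setup {δ : ℝ} (hδ : 0 < δ) : ∃ n₀ : ℕ, ∀ n : ℕ, n₀ ≤ n → ∀ _ : NeZero n,
    ∀ z : Fin n → ℂ, IsMaximiser z → ∃ (c : ℝ) (u t : ZMod n → ℝ), Cfg δ c u t ∧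
      0 < Delta z ∧ log (Delta z) = n * log n + (n : ℝ) * (n - 1) * log c + Big.SS u t := by
  obtain ⟨n₀, hn₀⟩ := U1_centred (δ := min δ (1 / 10 ^ 11)) (by positivity) (min_le_right _ _)
  refine ⟨n₀ + 3, fun n hn hne z hz => ?_⟩
  obtain ⟨m, rfl⟩ : ∃ m, n = m + 1 := ⟨n - 1, by omega⟩
  set g : ℂ := (∑ i, z i) / ((m + 1 : ℕ) : ℂ) with hg
  have h0 : ∑ i, (z i - g) = 0 := by
    rw [sum_sub_distrib, sum_const, card_univ, Fintype.card_fin, nsmul_eq_mul, hg]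
    have : ((m + 1 : ℕ) : ℂ) ≠ 0 := Nat.cast_ne_zero.2 (Nat.succ_ne_zero m)
    field_simp
    ring
  obtain ⟨c, u, t, h1, h2, h3⟩ := hn₀ m (by omega) hne _ (Big.isMax_sub_const hz g) h0
  rw [Delta_sub_const] at h2 h3
  refine ⟨c, u, t, ⟨h1.c0, ⟨h1.near.toBal, fun a => (h1.near.hu a).trans (min_le_left _ _),
    fun a => (h1.near.ht a).trans (min_le_left _ _), h1.near.hX, fun a => (h1.near.hY a).trans
      (mul_le_mul_of_nonneg_right (min_le_left _ _) (h1.near.hX a).le)⟩, h1.diam, h1.per, h1.low⟩,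
    h2, h3⟩

end Pool.Agent.Lib.MP_e1dd62_co.Evn
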