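import Pool.Agent.Lib.MP_e1dd62_co.Evn.Defs
import Pool.Agent.Lib.MP_e1dd62_co.Big.B
import Pool.Agent.Lib.MP_e1dd62_co.Big.Z1

/-!
# U2: a priori bounds
-/

namespace Pool.Agent.Lib.MP_e1dd62_co.Evn

open Finset Real

/-- The a priori bounds. -/
structure Apr {n : ℕ} [NeZero n] (c : ℝ) (u t : ZMod n → ℝ) : Prop where
  FF : Big.FF u t ≤ 1300
  K : n * Big.K u t ≤ 1300
  NN : n * Big.NN u t ≤ 65000
  c : -((n : ℝ) * (n - 1) * log c) ≤ 1300
  X : ∀ a, 0 < Big.X u t a 1 ∧ Big.X u t a 1 ≤ 5000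
  Y : n * ∑ a, Big.Y u t a 1 ^ 2 ≤ 10 ^ 8
  X1 : ∑ a, |Big.X u t a 1 - 1| ≤ 10 ^ 4 * √n

private lemma U2_base {n : ℕ} [NeZero n] (hn : 10 ^ 12 ≤ n) {u t : ZMod n → ℝ}
    (h : Big.Near (1 / 10 ^ 11) u t) :
    Big.SS u t + 1 / 1000 * (Big.FF u t + n * Big.K u t) ≤
        n * (n - 1) * log (1 + Big.K u t / n) ∧
      n * Big.NN u t ≤ 50 * (Big.FF u t + n * Big.K u t) ∧
      ∀ ℓ ∈ Ico 1 n, ∀ a, 0 < Big.X u t a ℓ := by
  have hn0 : (10 ^ 12 : ℝ) ≤ n := by exact_mod_cast hn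
  have hpi := pi_gt_three
  have hpi4 := pi_lt_four
  set r : ℕ := ⌊(n : ℝ) / π / 10 ^ 8⌋₊ with hrdef
  have hr1 : (r : ℝ) * (π / n) ≤ 1 / 10 ^ 8 := by
    have h1 : (r : ℝ) ≤ (n : ℝ) / π / 10 ^ 8 := Nat.floor_le (by positivity)
    calc (r : ℝ) * (π / n) ≤ (n : ℝ) / π / 10 ^ 8 * (π / n) := by gcongr
      _ = 1 / 10 ^ 8 := by field_simp
  have hr2 : 1 / (2 * 10 ^ 8) ≤ (r : ℝ) * (π / n) := by
    have h1 : (n : ℝ) / π / 10 ^ 8 - 1 < r := Nat.sub_one_lt_floor _
    have h2 : ((n : ℝ) / π / 10 ^ 8 - 1) * (π / n) ≤ (r : ℝ) * (π / n) := by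
      gcongr
    refine le_trans ?_ h2
    have h3 : ((n : ℝ) / π / 10 ^ 8 - 1) * (π / n) = 1 / 10 ^ 8 - π / n := by
      field_simp
    rw [h3]
    have h4 : π / n ≤ 1 / (2 * 10 ^ 8) := by
      rw [div_le_div_iff₀ (by linarith) (by norm_num)]
      linarith
    linarith
  have hr0 : 0 < r := by
    rcases Nat.eq_zero_or_pos r with h0 | h0
    · rw [h0] at hr2
      norm_num at hr2
    · exact h0
  have hδ1 : (1 / 10 ^ 11 : ℝ) * (1 + 2 / (r * (π / n))) ≤ 1 / 100 := by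
    have h1 : 2 / ((r : ℝ) * (π / n)) ≤ 4 * 10 ^ 8 := by
      rw [div_le_iff₀ (by linarith)]
      linarith
    linarith
  have hs := Big.stepB h le_rfl hr0 hr1 hδ1 (by omega)
  have hpo := Big.poincare h (by norm_num) hr0 (hr1.trans (by norm_num)) hδ1 (by omega)
  have hδ2 : (1 / 10 ^ 11 : ℝ) * (1 + 1 / (r * (π / n))) ≤ 1 / 100 := by
    refine le_trans ?_ hδ1
    gcongr
    norm_num
  refine ⟨hs, hpo, fun ℓ hℓ a => ?_⟩
  rw [mem_Ico] at hℓ
  exact (Big.B_window h (by norm_num) hr0 (hr1.trans (by norm_num)) hδ2 (by omega) hℓ.2 a).1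

private lemma U2_cos {n : ℕ} (hn : 10 ^ 12 ≤ n) :
    0 < cos (π / (2 * n)) ∧ -((n : ℝ) * (n - 1) * log (cos (π / (2 * n)))) ≤ 13 / 10 := by
  have hn0 : (10 ^ 12 : ℝ) ≤ n := by exact_mod_cast hn
  have hpi := pi_gt_three
  have hpi4 := pi_lt_d4
  set y : ℝ := π / (2 * n) with hy
  have hy0 : 0 < y := by positivity
  have hyn : y * (2 * n) = π := by rw [hy]; field_simp
  set z : ℝ := y ^ 2 / 2 with hz
  have hz0 : 0 < z := by positivity
  have hzn : z * n ^ 2 ≤ 1234 / 1000 := by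
    have h1 : z * n ^ 2 = π ^ 2 / 8 := by
      rw [hz, ← hyn]
      ring
    rw [h1]
    nlinarith
  have hz1 : z ≤ 1 / 10 ^ 6 := by
    have h1 : (10 ^ 12 : ℝ) ^ 2 ≤ (n : ℝ) ^ 2 := pow_le_pow_left₀ (by norm_num) hn0 2
    have h2 : z * (10 ^ 12) ^ 2 ≤ z * n ^ 2 := mul_le_mul_of_nonneg_left h1 hz0.le
    have h3 : z * (10 ^ 12) ^ 2 ≤ 1234 / 1000 := h2.trans hzn
    norm_num at h3 ⊢
    linarith
  have hc : 1 - z ≤ cos y := Real.one_sub_sq_div_two_le_cos
  have hcpos : 0 < cos y := by linarith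
  refine ⟨hcpos, ?_⟩
  have hlog : -log (cos y) ≤ z / (1 - z) := by
    have h1 : log (1 - z) ≤ log (cos y) := Real.log_le_log (by linarith) hc
    have h2 : 1 - (1 - z)⁻¹ ≤ log (1 - z) := Real.one_sub_inv_le_log_of_pos (by linarith)
    have h3 : (1 - z)⁻¹ - 1 = z / (1 - z) := by
      have : (1 - z) ≠ 0 := by linarith
      field_simp
      ring
    linarith
  have hnn : 0 ≤ (n : ℝ) * (n - 1) := by
    apply mul_nonneg <;> linarith
  calc -((n : ℝ) * (n - 1) * log (cos y)) = (n : ℝ) * (n - 1) * (-log (cos y)) := by ring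
    _ ≤ (n : ℝ) * (n - 1) * (z / (1 - z)) := mul_le_mul_of_nonneg_left hlog hnn
    _ ≤ (n : ℝ) ^ 2 * (z / (1 - z)) := by
        apply mul_le_mul_of_nonneg_right _ (div_nonneg hz0.le (by linarith))
        nlinarith
    _ = (z * n ^ 2) / (1 - z) := by ring
    _ ≤ 13 / 10 := by
        rw [div_le_iff₀ (by linarith)]
        linarith

/-- The a priori bounds hold. -/
theorem apriori : ∃ n₀ : ℕ, ∀ n : ℕ, n₀ ≤ n → ∀ _ : NeZero n, ∀ (c : ℝ) (u t : ZMod n → ℝ),
    Cfg (1 / 10 ^ 11) c u t → Apr c u t := by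
  refine ⟨10 ^ 12, fun n hn _ c u t h => ?_⟩
  have hn0 : (10 ^ 12 : ℝ) ≤ n := by exact_mod_cast hn
  have hnpos : (0 : ℝ) < n := by linarith
  obtain ⟨hs, hpo, hXp⟩ := U2_base hn h.near
  obtain ⟨hc0, hcos⟩ := U2_cos hn
  have hK0 : 0 ≤ Big.K u t := Big.K_nonneg u t
  have hFF0 : 0 ≤ Big.FF u t :=
    sum_nonneg fun ℓ hℓ => sum_nonneg fun a _ => Big.Phi_nonneg (hXp ℓ hℓ a)
  have hnn : 0 ≤ (n : ℝ) * (n - 1) := mul_nonneg hnpos.le (by linarith)
  have hKn : 0 ≤ Big.K u t / n := by positivity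
  have hlog : log c + log (1 + Big.K u t / n) ≤ -log (cos (π / (2 * n))) := by
    have h1 : c * (1 + Big.K u t / n) * cos (π / (2 * n)) ≤ 1 := by
      have h2 := h.per
      have h3 : c * (n + Big.K u t) * cos (π / (2 * n)) =
          n * (c * (1 + Big.K u t / n) * cos (π / (2 * n))) := by
        field_simp
      rw [h3] at h2
      by_contra hcon
      push Not at hcon
      nlinarith
    have h4 : log (c * (1 + Big.K u t / n) * cos (π / (2 * n))) ≤ 0 := by
      apply Real.log_nonpos _ h1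
      have := h.c0
      positivity
    rw [Real.log_mul (by have := h.c0; positivity) hc0.ne',
      Real.log_mul h.c0.ne' (by positivity)] at h4
    linarith
  have hmain : Big.FF u t + n * Big.K u t ≤ 1300 := by
    have h1 := mul_le_mul_of_nonneg_left hlog hnn
    have h2 := h.low
    have h3 : (n : ℝ) * (n - 1) * (log c + log (1 + Big.K u t / n)) =
        n * (n - 1) * log c + n * (n - 1) * log (1 + Big.K u t / n) := by ring
    have h4 : (n : ℝ) * (n - 1) * -log (cos (π / (2 * n))) =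
        -((n : ℝ) * (n - 1) * log (cos (π / (2 * n)))) := by ring
    rw [h3, h4] at h1
    linarith
  have hnK0 : 0 ≤ (n : ℝ) * Big.K u t := by positivity
  have hFF : Big.FF u t ≤ 1300 := by linarith
  have hK : (n : ℝ) * Big.K u t ≤ 1300 := by linarith
  have h1mem : 1 ∈ Ico 1 n := by
    rw [mem_Ico]
    omega
  have hFF1 : ∑ a, Big.Phi (Big.X u t a 1) ≤ Big.FF u t := by
    unfold Big.FF
    exact Finset.single_le_sum (f := fun ℓ => ∑ a, Big.Phi (Big.X u t a ℓ))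
      (fun ℓ hℓ => sum_nonneg fun a _ => Big.Phi_nonneg (hXp ℓ hℓ a)) h1mem
  have hPhi : ∀ a, 0 ≤ Big.Phi (Big.X u t a 1) := fun a => Big.Phi_nonneg (hXp 1 h1mem a)
  have hXle : ∀ a, Big.X u t a 1 ≤ 5000 := by
    intro a
    by_contra hcon
    push Not at hcon
    have h1 : Big.Phi (Big.X u t a 1) ≤ ∑ a, Big.Phi (Big.X u t a 1) :=
      Finset.single_le_sum (f := fun a => Big.Phi (Big.X u t a 1)) (fun a _ => hPhi a)
        (mem_univ a)
    have h2 := Big.Phi_ge_of_two_le (y := Big.X u t a 1) (by linarith)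
    linarith
  refine ⟨hFF, hK, by linarith, ?_, fun a => ⟨h.near.hX a, hXle a⟩, ?_, ?_⟩
  · have h2 := h.low
    have h3 : log (1 + Big.K u t / n) ≤ Big.K u t / n := by
      have := Real.log_le_sub_one_of_pos (x := 1 + Big.K u t / n) (by positivity)
      linarith
    have h4 : (n : ℝ) * (n - 1) * log (1 + Big.K u t / n) ≤ n * Big.K u t := by
      calc (n : ℝ) * (n - 1) * log (1 + Big.K u t / n) ≤ n * (n - 1) * (Big.K u t / n) :=
            mul_le_mul_of_nonneg_left h3 hnn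
        _ = (n - 1) * Big.K u t := by field_simp
        _ ≤ n * Big.K u t := by nlinarith
    linarith
  · have h1 := Big.K_ge_quot (δ := 1 / 10 ^ 11) (by norm_num) h.near.hX h.near.hY
    have h2 : ∑ a, Big.Y u t a 1 ^ 2 ≤ 5000 * ∑ a, Big.Y u t a 1 ^ 2 / Big.X u t a 1 := by
      rw [mul_sum]
      refine sum_le_sum fun a _ => ?_
      have hXa := h.near.hX a
      rw [mul_div_assoc', le_div_iff₀ hXa]
      nlinarith [sq_nonneg (Big.Y u t a 1), hXle a]
    have h3 : (n : ℝ) * ∑ a, Big.Y u t a 1 ^ 2 ≤ n * (5000 * (21 / 10 * Big.K u t)) := by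
      apply mul_le_mul_of_nonneg_left _ hnpos.le
      linarith
    have h4 : (n : ℝ) * (5000 * (21 / 10 * Big.K u t)) = 10500 * (n * Big.K u t) := by ring
    rw [h4] at h3
    linarith
  · have hsq : 0 < √(n : ℝ) := Real.sqrt_pos.2 hnpos
    have hsq1 : (1 : ℝ) ≤ √(n : ℝ) := by
      rw [Real.one_le_sqrt]
      linarith
    have hsq2 : √(n : ℝ) * √(n : ℝ) = n := Real.mul_self_sqrt hnpos.le
    have h1 : ∀ a, |Big.X u t a 1 - 1| ≤ 4 * √(n : ℝ) * Big.Phi (Big.X u t a 1) +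
        1 / (2 * √(n : ℝ)) := by
      intro a
      have hXa := h.near.hX a
      rcases le_total (Big.X u t a 1) 2 with h2 | h2
      · have h3 := Big.Phi_ge_of_le_two hXa h2
        have h4 : |Big.X u t a 1 - 1| ≤ (√(n : ℝ) * (Big.X u t a 1 - 1) ^ 2 +
            1 / √(n : ℝ)) / 2 := by
          have h5 : √(n : ℝ) * (Big.X u t a 1 - 1) ^ 2 + 1 / √(n : ℝ) -
              2 * |Big.X u t a 1 - 1| =
              (√(n : ℝ) * |Big.X u t a 1 - 1| - 1) ^ 2 / √(n : ℝ) := by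
            rw [← sq_abs (Big.X u t a 1 - 1)]
            field_simp
            ring
          have h6 : 0 ≤ (√(n : ℝ) * |Big.X u t a 1 - 1| - 1) ^ 2 / √(n : ℝ) := by positivity
          linarith
        have h7 : √(n : ℝ) * (Big.X u t a 1 - 1) ^ 2 ≤ √(n : ℝ) *
            (4 * Big.Phi (Big.X u t a 1)) := mul_le_mul_of_nonneg_left (by linarith) hsq.le
        have h8 : 1 / (2 * √(n : ℝ)) = (1 / √(n : ℝ)) / 2 := by field_simp
        have h9 : 0 ≤ √(n : ℝ) * Big.Phi (Big.X u t a 1) := mul_nonneg hsq.le (hPhi a)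
        rw [h8]
        linarith
      · have h3 := Big.Phi_ge_of_two_le h2
        have h4 : |Big.X u t a 1 - 1| = Big.X u t a 1 - 1 := abs_of_nonneg (by linarith)
        have h5 : Big.Phi (Big.X u t a 1) ≤ √(n : ℝ) * Big.Phi (Big.X u t a 1) := by
          nlinarith [hPhi a]
        have h6 : 0 ≤ 1 / (2 * √(n : ℝ)) := by positivity
        rw [h4]
        linarith [hPhi a]
    calc ∑ a, |Big.X u t a 1 - 1| ≤ ∑ a, (4 * √(n : ℝ) * Big.Phi (Big.X u t a 1) +
          1 / (2 * √(n : ℝ))) := sum_le_sum fun a _ => h1 a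
      _ = 4 * √(n : ℝ) * ∑ a, Big.Phi (Big.X u t a 1) + n * (1 / (2 * √(n : ℝ))) := by
          rw [sum_add_distrib, ← mul_sum, sum_const, card_univ, ZMod.card, nsmul_eq_mul]
      _ ≤ 4 * √(n : ℝ) * 1300 + √(n : ℝ) := by
          have h2 : 4 * √(n : ℝ) * ∑ a, Big.Phi (Big.X u t a 1) ≤ 4 * √(n : ℝ) * 1300 :=
            mul_le_mul_of_nonneg_left (by linarith) (by positivity)
          have h3 : (n : ℝ) * (1 / (2 * √(n : ℝ))) = √(n : ℝ) / 2 := by
            rw [mul_one_div, div_eq_div_iff (by positivity) (by norm_num)]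
            linarith
          rw [h3]
          linarith
      _ ≤ 10 ^ 4 * √(n : ℝ) := by nlinarith

/-- The even part of `u` is small. -/
theorem even_part : ∃ n₀ : ℕ, ∀ N : ℕ, n₀ ≤ N → ∀ _ : NeZero (2 * N),
    ∀ (c : ℝ) (u t : ZMod (2 * N) → ℝ), Cfg (1 / 10 ^ 11) c u t → Apr c u t →
    ∑ a, |u a + u (a + (N : ZMod (2 * N)))| ≤ 10 ^ 4 / (2 * N) := by
  refine ⟨10 ^ 12, fun N hN _ c u t h hA => ?_⟩
  have hN0 : (10 ^ 12 : ℝ) ≤ N := by exact_mod_cast hN
  have hNpos : (0 : ℝ) < N := by linarith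
  have hNne : (N : ℝ) ≠ 0 := hNpos.ne'
  have hang : (N : ℝ) * (π / ((2 * N : ℕ) : ℝ)) = π / 2 := by
    push_cast
    field_simp
  have hct : Big.ct (2 * N) N = 0 := by
    unfold Big.ct
    rw [hang, cos_pi_div_two, zero_div]
  have hX : ∀ a : ZMod (2 * N), u a + u (a + (N : ZMod (2 * N))) = 2 * (Big.X u t a N - 1) := by
    intro a
    unfold Big.X
    rw [hct]
    ring
  have hcX : ∀ a : ZMod (2 * N), c * Big.X u t a N ≤ 1 := by
    intro a
    have h1 := Big.norm_chord (W := pt c u t) (c := (c : ℂ)) (u := u) (t := t)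
      (fun k => by unfold pt; rfl) a.val N (by omega) (by omega)
    rw [hang, sin_pi_div_two, Complex.norm_real, Real.norm_eq_abs, abs_of_pos h.c0,
      ZMod.natCast_zmod_val] at h1
    have h2 := h.diam (a.val + N) a.val
    rw [h1] at h2
    have h3 : Big.X u t a N ≤ √(Big.X u t a N ^ 2 + Big.Y u t a N ^ 2) :=
      Real.le_sqrt_of_sq_le (by nlinarith [sq_nonneg (Big.Y u t a N)])
    have h4 : c * Big.X u t a N ≤ c * √(Big.X u t a N ^ 2 + Big.Y u t a N ^ 2) :=
      mul_le_mul_of_nonneg_left h3 h.c0.le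
    linarith
  have hsum : ∑ a, (Big.X u t a N - 1) = 0 := by
    rw [sum_sub_distrib, Big.sum_X h.near.su, sum_const, card_univ, ZMod.card, nsmul_eq_mul,
      mul_one, sub_self]
  have hc1 : c ≤ 1 := by
    have h1 : ∑ a, c * Big.X u t a N ≤ ∑ _a : ZMod (2 * N), (1 : ℝ) :=
      sum_le_sum fun a _ => hcX a
    rw [← mul_sum, Big.sum_X h.near.su, sum_const, card_univ, ZMod.card, nsmul_eq_mul,
      mul_one] at h1
    have h2 : (0 : ℝ) < ((2 * N : ℕ) : ℝ) := by push_cast; linarith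
    by_contra hcon
    push Not at hcon
    nlinarith
  -- the size of `1/c - 1`
  set n : ℝ := ((2 * N : ℕ) : ℝ) with hn
  have hnN : n = 2 * N := by rw [hn]; push_cast; ring
  have hn0 : (10 ^ 12 : ℝ) ≤ n := by rw [hnN]; linarith
  have hnn : 0 < n * (n - 1) := mul_pos (by linarith) (by linarith)
  set x : ℝ := 1300 / (n * (n - 1)) with hx
  have hx0 : 0 < x := by positivity
  have hxn : x * (n * (n - 1)) = 1300 := by rw [hx, div_mul_cancel₀ _ hnn.ne']
  have hx1 : x ≤ 1 / 100 := by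
    rw [hx, div_le_iff₀ hnn]
    nlinarith
  have hlogc : -x ≤ log c := by
    have h1 := hA.c
    by_contra hcon
    push Not at hcon
    nlinarith
  have hcx : 1 - x ≤ c := by
    have h1 : exp (-x) ≤ c := by
      rw [← Real.exp_log h.c0]
      exact Real.exp_le_exp.2 hlogc
    have h2 := Real.add_one_le_exp (-x)
    linarith
  have hci : 1 / c - 1 ≤ 11 / 10 * x := by
    have hc0 := h.c0
    rw [sub_le_iff_le_add, div_le_iff₀ hc0]
    nlinarith
  have hci0 : 0 ≤ 1 / c - 1 := by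
    rw [sub_nonneg, le_div_iff₀ h.c0]
    linarith
  have habs : ∀ a : ZMod (2 * N), |Big.X u t a N - 1| ≤ 2 * (1 / c - 1) -
      (Big.X u t a N - 1) := by
    intro a
    have h1 : Big.X u t a N ≤ 1 / c := by
      rw [le_div_iff₀ h.c0, mul_comm]
      exact hcX a
    rw [abs_le]
    constructor <;> linarith
  calc ∑ a, |u a + u (a + (N : ZMod (2 * N)))| = ∑ a, 2 * |Big.X u t a N - 1| := by
        refine sum_congr rfl fun a _ => ?_
        rw [hX a, abs_mul, abs_of_pos (by norm_num : (0 : ℝ) < 2)]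
    _ ≤ ∑ a : ZMod (2 * N), 2 * (2 * (1 / c - 1) - (Big.X u t a N - 1)) :=
        sum_le_sum fun a _ => mul_le_mul_of_nonneg_left (habs a) (by norm_num)
    _ = 4 * n * (1 / c - 1) := by
        rw [← mul_sum, sum_sub_distrib, hsum, sum_const, card_univ, ZMod.card, nsmul_eq_mul]
        ring
    _ ≤ 4 * n * (11 / 10 * x) := mul_le_mul_of_nonneg_left hci (by linarith)
    _ ≤ 10 ^ 4 / (2 * N) := by
        rw [← hnN, le_div_iff₀ (by linarith)]
        have h1 : x * (n * (n - 1)) = 1300 := hxn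
        have h2 : x * n ≤ 1300 / (n - 1) := by
          rw [le_div_iff₀ (by linarith)]
          linarith
        have h3 : 1300 / (n - 1) ≤ 1 := by
          rw [div_le_one (by linarith)]
          linarith
        nlinarith

end Pool.Agent.Lib.MP_e1dd62_co.Evn
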