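import Pool.Agent.Lib.MP_e1dd62_co.Evn.U2

/-!
# U3: smoothing
-/

namespace Pool.Agent.Lib.MP_e1dd62_co.Evn

open Finset Real

private theorem U3_Phi {y d : ℝ} (hd : d ≤ 1 / 100) (hy : |y - 1| ≤ d) :
    (1 / 2 - 2 * d) * (y - 1) ^ 2 ≤ Big.Phi y := by
  obtain ⟨x, hx⟩ : ∃ x : ℝ, x = 1 - y := ⟨_, rfl⟩
  have hxy : |x| = |y - 1| := by rw [hx, abs_sub_comm]
  have hx1 : |x| < 1 := by rw [hxy]; linarith
  have h := Real.abs_log_sub_add_sum_range_le hx1 2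
  rw [Finset.sum_range_succ, Finset.sum_range_one] at h
  norm_num at h
  have h2 := (abs_le.1 h).2
  have e1 : 1 - x = y := by rw [hx]; ring
  rw [e1] at h2
  have h3 : |x| ^ 3 / (1 - |x|) ≤ 2 * d * x ^ 2 := by
    have h4 : |x| ≤ d := by rw [hxy]; exact hy
    have h5 : x ^ 2 = |x| ^ 2 := (sq_abs x).symm
    have h6 : 0 ≤ |x| := abs_nonneg x
    rw [div_le_iff₀ (by linarith), h5]
    have h7 : |x| ^ 3 = |x| * |x| ^ 2 := by ring
    have h8 : |x| ≤ 2 * d * (1 - |x|) := by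
      have h9 : 1 / 2 ≤ 1 - |x| := by linarith
      have h10 : 0 ≤ d := h6.trans h4
      calc |x| ≤ d := h4
        _ = 2 * d * (1 / 2) := by ring
        _ ≤ 2 * d * (1 - |x|) := mul_le_mul_of_nonneg_left h9 (by linarith)
    rw [h7]
    calc |x| * |x| ^ 2 ≤ (2 * d * (1 - |x|)) * |x| ^ 2 :=
          mul_le_mul_of_nonneg_right h8 (by positivity)
      _ = _ := by ring
  have h4 : (y - 1) ^ 2 = x ^ 2 := by rw [hx]; ring
  unfold Big.Phi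
  rw [h4]
  have h5 : y - 1 = -x := by rw [hx]; ring
  linarith

private theorem U3_far {y d : ℝ} (hd0 : 0 < d) (hd : d ≤ 1 / 100) (hy0 : 0 < y)
    (hy : d < |y - 1|) : d ^ 2 / 4 ≤ Big.Phi y := by
  rcases le_total y 2 with h2 | h2
  · have h3 := Big.Phi_ge_of_le_two hy0 h2
    have h4 : d ^ 2 ≤ (y - 1) ^ 2 := by
      rw [← sq_abs (y - 1)]
      exact pow_le_pow_left₀ hd0.le hy.le 2
    linarith
  · have h3 := Big.Phi_ge_of_two_le h2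
    have h4 : d ^ 2 ≤ 1 ^ 2 := pow_le_pow_left₀ hd0.le (by linarith) 2
    linarith

private theorem U3_one {d e x y : ℝ} (hd0 : 0 < d) (hd : d ≤ 1 / 100) (_he : 0 ≤ e) (hx : 0 < x)
    (h : |x - 1| ≤ d ∨ |y| ≤ e * x) :
    log (x ^ 2 + y ^ 2) / 2 ≤ (x - 1) - (1 - 2 * e ^ 2 / d ^ 2) * Big.Phi x +
      (if |x - 1| ≤ d then (1 + 3 * d) / 2 * y ^ 2 else 0) := by
  have h1 := Big.B_log_le (Y := y) hx
  have h2 := Big.Phi_nonneg hx
  have hκ : 0 ≤ 2 * e ^ 2 / d ^ 2 * Big.Phi x := by positivity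
  split_ifs with hg
  · have h3 : y ^ 2 / (2 * x ^ 2) ≤ (1 + 3 * d) / 2 * y ^ 2 := by
      have h6 : 1 - d ≤ x := by linarith [(abs_le.1 hg).1]
      rw [div_le_iff₀ (by positivity)]
      have h7 : (1 - d) ^ 2 ≤ x ^ 2 := pow_le_pow_left₀ (by linarith) h6 2
      have h8 : 1 ≤ (1 + 3 * d) * (1 - d) ^ 2 := by
        have : (1 + 3 * d) * (1 - d) ^ 2 = 1 + d * (1 - 5 * d) + 3 * d ^ 3 := by ring
        rw [this]
        have h9 : 0 ≤ d * (1 - 5 * d) := mul_nonneg hd0.le (by linarith)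
        have h10 : 0 ≤ d ^ 3 := by positivity
        linarith
      have h9 : 1 ≤ (1 + 3 * d) * x ^ 2 :=
        h8.trans (mul_le_mul_of_nonneg_left h7 (by linarith))
      calc y ^ 2 = 1 * y ^ 2 := (one_mul _).symm
        _ ≤ ((1 + 3 * d) * x ^ 2) * y ^ 2 := mul_le_mul_of_nonneg_right h9 (sq_nonneg y)
        _ = _ := by ring
    linarith
  · have hg' := not_le.1 hg
    have h3 : |y| ≤ e * x := by
      rcases h with h | h
      · exact absurd h hg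
      · exact h
    have h4 := U3_far hd0 hd hx hg'
    have h5 : y ^ 2 / (2 * x ^ 2) ≤ e ^ 2 / 2 := by
      rw [div_le_iff₀ (by positivity), ← sq_abs y]
      calc |y| ^ 2 ≤ (e * x) ^ 2 := pow_le_pow_left₀ (abs_nonneg _) h3 2
        _ = _ := by ring
    have h6 : e ^ 2 / 2 ≤ 2 * e ^ 2 / d ^ 2 * Big.Phi x := by
      calc e ^ 2 / 2 = 2 * e ^ 2 / d ^ 2 * (d ^ 2 / 4) := by field_simp; ring
        _ ≤ _ := mul_le_mul_of_nonneg_left h4 (by positivity)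
    linarith

variable {n : ℕ} [NeZero n]

private theorem U3_window {δ d : ℝ} {u t : ZMod n → ℝ} (h : Big.Near δ u t) (hδ : δ ≤ 1 / 100)
    (hd : d ≤ 1 / 100) {r : ℕ} (hr : 0 < r) (hr1 : r * (π / n) ≤ 1 / 100)
    (hδ1 : δ * (1 + 1 / (r * (π / n))) ≤ d) {ℓ : ℕ} (h0 : 0 < ℓ) (h1 : ℓ < n)
    (a : ZMod n) :
    0 < Big.X u t a ℓ ∧ (|Big.X u t a ℓ - 1| ≤ d ∨
      |Big.Y u t a ℓ| ≤ 2 * (r * (π / n) + δ) * Big.X u t a ℓ) := by
  have hn : (0 : ℝ) < n := by exact_mod_cast (NeZero.pos n)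
  have hx : 0 < π / n := by positivity
  have short : ∀ (ℓ : ℕ) (a : ZMod n), 0 < ℓ → ℓ ≤ r → 0 < Big.X u t a ℓ ∧
      |Big.Y u t a ℓ| ≤ 2 * (r * (π / n) + δ) * Big.X u t a ℓ := by
    intro ℓ a h0 hl
    have hlr : (ℓ : ℝ) ≤ r := by exact_mod_cast hl
    have hle : (ℓ : ℝ) * (π / n) ≤ r * (π / n) := mul_le_mul_of_nonneg_right hlr hx.le
    obtain ⟨h2, h3, -⟩ := Big.short_window hδ h.hX h.hY h0 (hle.trans hr1) a
    refine ⟨h2, h3.trans ?_⟩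
    refine mul_le_mul_of_nonneg_right ?_ h2.le
    linarith
  rcases le_or_gt ℓ r with hl | hl
  · obtain ⟨h2, h3⟩ := short ℓ a h0 hl
    exact ⟨h2, Or.inr h3⟩
  rcases le_or_gt (ℓ + r) n with hl2 | hl2
  · have h2 := (Big.long_window h.hu h.ht hr hl.le hl2 a).1.trans hδ1
    refine ⟨?_, Or.inl h2⟩
    have := (abs_le.1 h2).1
    linarith
  · have h4 := short (n - ℓ) (a + (ℓ : ZMod n)) (by omega) (by omega)
    rw [Big.X_symm h0 h1, Big.Y_symm h0 h1] at h4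
    exact ⟨h4.1, Or.inr h4.2⟩

/-- the energy against the good windows -/
private theorem U3_S1 {d e : ℝ} {u t : ZMod n → ℝ} (hd0 : 0 < d) (hd : d ≤ 1 / 100) (he : 0 ≤ e)
    (hu : ∑ a, u a = 0)
    (hwin : ∀ ℓ ∈ Ico 1 n, ∀ a, 0 < Big.X u t a ℓ ∧ (|Big.X u t a ℓ - 1| ≤ d ∨
      |Big.Y u t a ℓ| ≤ e * Big.X u t a ℓ)) :
    Big.SS u t ≤ -(1 - 2 * e ^ 2 / d ^ 2) * Big.FF u t + (1 + 3 * d) / 2 *
      ∑ ℓ ∈ Ico 1 n, ∑ a with |Big.X u t a ℓ - 1| ≤ d, Big.Y u t a ℓ ^ 2 := by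
  obtain ⟨k, hk⟩ : ∃ k, k = 1 - 2 * e ^ 2 / d ^ 2 := ⟨_, rfl⟩
  have h1 : Big.SS u t ≤ ∑ ℓ ∈ Ico 1 n, ∑ a, ((Big.X u t a ℓ - 1) - k * Big.Phi (Big.X u t a ℓ) +
      (if |Big.X u t a ℓ - 1| ≤ d then (1 + 3 * d) / 2 * Big.Y u t a ℓ ^ 2 else 0)) := by
    refine sum_le_sum fun ℓ hℓ => sum_le_sum fun a _ => ?_
    rw [hk]
    exact U3_one hd0 hd he (hwin ℓ hℓ a).1 (hwin ℓ hℓ a).2
  refine h1.trans (le_of_eq ?_)
  rw [← hk]
  unfold Big.FF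
  rw [mul_sum, mul_sum, ← sum_add_distrib]
  refine sum_congr rfl fun ℓ _ => ?_
  rw [sum_add_distrib, sum_sub_distrib, ← mul_sum, ← sum_filter, ← mul_sum,
    sum_sub_distrib, Big.sum_X hu]
  simp only [sum_const, card_univ, ZMod.card, nsmul_eq_mul, mul_one, sub_self, zero_sub]
  ring

/-- good windows against smoothed windows -/
private theorem U3_S2 {d : ℝ} {r : ℕ} {u t : ZMod n → ℝ} (hd0 : 0 < d) (hd : d ≤ 1 / 100) :
    ∑ ℓ ∈ Ico 1 n, ∑ a with |Big.X u t a ℓ - 1| ≤ d, Big.Y u t a ℓ ^ 2 ≤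
      (1 + d) * Big.QQ (Big.sm r u) (Big.sm r t) + (1 + 1 / d) * Big.Err r u t := by
  unfold Big.QQ Big.Err
  rw [mul_sum, mul_sum, ← sum_add_distrib]
  refine sum_le_sum fun ℓ _ => ?_
  have h1 : ∑ a with |Big.X u t a ℓ - 1| ≤ d, Big.Y (Big.sm r u) (Big.sm r t) a ℓ ^ 2 ≤
      ∑ a, Big.Y (Big.sm r u) (Big.sm r t) a ℓ ^ 2 :=
    sum_le_sum_of_subset_of_nonneg (filter_subset _ _) fun _ _ _ => sq_nonneg _
  have h3 : ∑ a with |Big.X u t a ℓ - 1| ≤ d,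
      (Big.Y u t a ℓ - Big.Y (Big.sm r u) (Big.sm r t) a ℓ) ^ 2 ≤
      ∑ a with |Big.X u t a ℓ - 1| ≤ 1 / 100,
      (Big.Y u t a ℓ - Big.Y (Big.sm r u) (Big.sm r t) a ℓ) ^ 2 := by
    refine sum_le_sum_of_subset_of_nonneg ?_ fun _ _ _ => sq_nonneg _
    intro a ha
    rw [mem_filter] at ha ⊢
    exact ⟨ha.1, ha.2.trans hd⟩
  have h2 : ∑ a with |Big.X u t a ℓ - 1| ≤ d, Big.Y u t a ℓ ^ 2 ≤
      (1 + d) * ∑ a with |Big.X u t a ℓ - 1| ≤ d, Big.Y (Big.sm r u) (Big.sm r t) a ℓ ^ 2 +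
      (1 + 1 / d) * ∑ a with |Big.X u t a ℓ - 1| ≤ d,
        (Big.Y u t a ℓ - Big.Y (Big.sm r u) (Big.sm r t) a ℓ) ^ 2 := by
    rw [mul_sum, mul_sum, ← sum_add_distrib]
    refine sum_le_sum fun a _ => ?_
    obtain ⟨y, hy⟩ : ∃ y, y = Big.Y u t a ℓ := ⟨_, rfl⟩
    obtain ⟨z, hz⟩ : ∃ z, z = Big.Y (Big.sm r u) (Big.sm r t) a ℓ := ⟨_, rfl⟩
    rw [← hy, ← hz]
    have h4 : (1 + d) * z ^ 2 + (1 + 1 / d) * (y - z) ^ 2 - y ^ 2 =
        (d * z - (y - z)) ^ 2 / d := by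
      field_simp
      ring
    have h5 : 0 ≤ (d * z - (y - z)) ^ 2 / d := by positivity
    linarith
  refine h2.trans (add_le_add ?_ ?_)
  · exact mul_le_mul_of_nonneg_left h1 (by linarith)
  · exact mul_le_mul_of_nonneg_left h3 (by positivity)

/-- the final arithmetic -/
private theorem U3_arith {ε d e S F F' Q P R Er : ℝ} (hε : 0 < ε) (hε1 : ε ≤ 1)
    (hd : d = ε / 40000) (he0 : 0 ≤ e) (he : e ≤ 4 * (d * ε / 10 ^ 8))
    (hF0 : 0 ≤ F) (hF : F ≤ 1300)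
    (hS : S ≤ -(1 - 2 * e ^ 2 / d ^ 2) * F + (1 + 3 * d) / 2 * ((1 + d) * Q + (1 + 1 / d) * Er))
    (hEr : Er ≤ 10 ^ 7 * e / 2) (hP0 : 0 ≤ P) (hQ0 : 0 ≤ Q) (hP : (1 / 2 - 2 * d) * P ≤ F')
    (hF' : F' ≤ F) (hQ : Q ≤ 9 / 10 * (P + R)) (hR : 49 / 100 * R ≤ 1300) :
    S ≤ (Q - P) / 2 + ε := by
  have hd0 : 0 < d := by rw [hd]; positivity
  have hd1 : d ≤ 1 / 40000 := by rw [hd]; linarith
  have hP1 : P ≤ 3000 := by
    have h1 : 49 / 100 * P ≤ (1 / 2 - 2 * d) * P := mul_le_mul_of_nonneg_right (by linarith) hP0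
    linarith
  have hQ1 : Q ≤ 5200 := by linarith
  -- the bad windows
  have hed : e / d ≤ 4 * (ε / 10 ^ 8) := by
    rw [div_le_iff₀ hd0]
    calc e ≤ 4 * (d * ε / 10 ^ 8) := he
      _ = _ := by ring
  have hed0 : 0 ≤ e / d := by positivity
  have h1 : 2 * e ^ 2 / d ^ 2 * F ≤ ε / 8 := by
    have h2 : 2 * e ^ 2 / d ^ 2 = 2 * (e / d) ^ 2 := by rw [div_pow]; ring
    rw [h2]
    have h3 : (e / d) ^ 2 ≤ (4 * (ε / 10 ^ 8)) * 1 := by
      rw [sq]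
      refine mul_le_mul hed ?_ hed0 (by positivity)
      refine hed.trans ?_
      norm_num
      linarith
    calc 2 * (e / d) ^ 2 * F ≤ 2 * ((4 * (ε / 10 ^ 8)) * 1) * 1300 :=
          mul_le_mul (mul_le_mul_of_nonneg_left h3 (by norm_num)) hF hF0 (by positivity)
      _ ≤ ε / 8 := by
          norm_num
          linarith
  have h2 : (1 + 3 * d) / 2 * ((1 + 1 / d) * Er) ≤ ε / 4 := by
    have k1 : (1 + 3 * d) / 2 ≤ 6 / 10 := by linarith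
    have k2 : (1 + 1 / d) * Er ≤ (2 / d) * (10 ^ 7 * e / 2) := by
      have k3 : 1 + 1 / d ≤ 2 / d := by
        have : 1 ≤ 1 / d := by
          rw [le_div_iff₀ hd0]; linarith
        have k4 : 2 / d = 1 / d + 1 / d := by ring
        linarith
      have k4 : (1 + 1 / d) * Er ≤ (1 + 1 / d) * (10 ^ 7 * e / 2) :=
        mul_le_mul_of_nonneg_left hEr (by positivity)
      exact k4.trans (mul_le_mul_of_nonneg_right k3 (by positivity))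
    have k5 : (2 / d) * (10 ^ 7 * e / 2) = 10 ^ 7 * (e / d) := by field_simp
    rw [k5] at k2
    have k6 : (10 : ℝ) ^ 7 * (e / d) ≤ 10 ^ 7 * (4 * (ε / 10 ^ 8)) :=
      mul_le_mul_of_nonneg_left hed (by positivity)
    have k7 : (10 : ℝ) ^ 7 * (4 * (ε / 10 ^ 8)) = 4 / 10 * ε := by ring
    rw [k7] at k6
    have k8 : (1 + 3 * d) / 2 * ((1 + 1 / d) * Er) ≤ (1 + 3 * d) / 2 * (4 / 10 * ε) :=
      mul_le_mul_of_nonneg_left (k2.trans k6) (by linarith)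
    have k9 : (1 + 3 * d) / 2 * (4 / 10 * ε) ≤ 6 / 10 * (4 / 10 * ε) :=
      mul_le_mul_of_nonneg_right k1 (by linarith)
    linarith
  have h3 : (1 + 3 * d) / 2 * ((1 + d) * Q) ≤ Q / 2 + ε / 3 := by
    have k1 : (1 + 3 * d) / 2 * (1 + d) ≤ 1 / 2 + 5 / 2 * d := by
      have : (1 + 3 * d) / 2 * (1 + d) = 1 / 2 + 2 * d + 3 / 2 * (d * d) := by ring
      rw [this]
      have : d * d ≤ d * (1 / 40000) := mul_le_mul_of_nonneg_left hd1 hd0.le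
      linarith
    calc (1 + 3 * d) / 2 * ((1 + d) * Q) = ((1 + 3 * d) / 2 * (1 + d)) * Q := by ring
      _ ≤ (1 / 2 + 5 / 2 * d) * Q := mul_le_mul_of_nonneg_right k1 hQ0
      _ = Q / 2 + 5 / 2 * d * Q := by ring
      _ ≤ Q / 2 + 5 / 2 * d * 5200 := by
          have : 5 / 2 * d * Q ≤ 5 / 2 * d * 5200 := mul_le_mul_of_nonneg_left hQ1 (by linarith)
          linarith
      _ ≤ Q / 2 + ε / 3 := by rw [hd]; linarith
  have h4 : 2 * d * P ≤ ε / 6 := by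
    calc 2 * d * P ≤ 2 * d * 3000 := mul_le_mul_of_nonneg_left hP1 (by linarith)
      _ ≤ ε / 6 := by rw [hd]; linarith
  have h5 : (1 / 2 - 2 * d) * P = P / 2 - 2 * d * P := by ring
  have h6 : -(1 - 2 * e ^ 2 / d ^ 2) * F = -F + 2 * e ^ 2 / d ^ 2 * F := by ring
  have h7 : (1 + 3 * d) / 2 * ((1 + d) * Q + (1 + 1 / d) * Er) =
      (1 + 3 * d) / 2 * ((1 + d) * Q) + (1 + 3 * d) / 2 * ((1 + 1 / d) * Er) := by ring
  rw [h6, h7] at hS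
  rw [h5] at hP
  linarith only [hS, hP, hF', h1, h2, h3, h4, hε]

private theorem U3_main {ε d η δ c : ℝ} {u t : ZMod n → ℝ} (hε : 0 < ε) (hε1 : ε ≤ 1)
    (hd : d = ε / 40000) (hη : η = d * ε / 10 ^ 8) (hδ : δ = d * η / 8) (hn : 1000 ≤ n)
    (hnη : π / n ≤ η / 2) (h : Big.Near δ u t) (hA : Apr c u t) :
    ∃ r : ℕ, 0 < r ∧ Big.SS u t ≤
      (Big.QQ (Big.sm r u) (Big.sm r t) - Big.PP (Big.sm r u) (Big.sm r t)) / 2 + ε := by
  have hn0 : (1000 : ℝ) ≤ n := by exact_mod_cast hn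
  have hpi := pi_gt_three
  have hpi0 := pi_pos
  have hd0 : 0 < d := by rw [hd]; positivity
  have hd1 : d ≤ 1 / 40000 := by rw [hd]; linarith
  have hη0 : 0 < η := by rw [hη]; positivity
  have hη1 : η ≤ 1 / 10 ^ 8 := by
    rw [hη]
    refine div_le_div_of_nonneg_right ?_ (by norm_num)
    calc d * ε ≤ 1 * 1 := mul_le_mul (by linarith) hε1 hε.le (by norm_num)
      _ = 1 := by norm_num
  have hδ0 : 0 < δ := by rw [hδ]; positivity
  have hδη : δ ≤ η := by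
    rw [hδ]
    have : d * η ≤ 1 * η := mul_le_mul_of_nonneg_right (by linarith) hη0.le
    linarith
  obtain ⟨r, hrdef⟩ : ∃ r : ℕ, r = ⌊η * n / π⌋₊ := ⟨_, rfl⟩
  have hr1 : (r : ℝ) * (π / n) ≤ η := by
    have h1 : (r : ℝ) ≤ η * n / π := by rw [hrdef]; exact Nat.floor_le (by positivity)
    calc (r : ℝ) * (π / n) ≤ η * n / π * (π / n) := by gcongr
      _ = η := by field_simp
  have hr2 : η / 2 ≤ (r : ℝ) * (π / n) := by
    have h1 : η * n / π - 1 < r := by rw [hrdef]; exact Nat.sub_one_lt_floor _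
    have h2 : (η * n / π - 1) * (π / n) ≤ (r : ℝ) * (π / n) := by gcongr
    refine le_trans ?_ h2
    have h3 : (η * n / π - 1) * (π / n) = η - π / n := by field_simp
    rw [h3]
    linarith
  have hr0 : 0 < r := by
    rcases Nat.eq_zero_or_pos r with h0 | h0
    · rw [h0] at hr2
      norm_num at hr2
      linarith
    · exact h0
  have hδ1 : δ * (1 + 2 / (r * (π / n))) ≤ d := by
    have h1 : 2 / ((r : ℝ) * (π / n)) ≤ 4 / η := by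
      rw [div_le_div_iff₀ (by linarith) hη0]
      linarith
    have h2 : 1 ≤ 4 / η := by
      rw [le_div_iff₀ hη0]; linarith
    calc δ * (1 + 2 / (r * (π / n))) ≤ δ * (4 / η + 4 / η) := by gcongr
      _ = d := by rw [hδ]; field_simp; ring
  have hδ2 : δ * (1 + 1 / (r * (π / n))) ≤ d := by
    refine le_trans ?_ hδ1
    gcongr
    norm_num
  have hδ100 : δ ≤ 1 / 100 := by linarith
  have hd100 : d ≤ 1 / 100 := by linarith
  have hr100 : (r : ℝ) * (π / n) ≤ 1 / 1000 := by linarith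
  refine ⟨r, hr0, ?_⟩
  have hwin : ∀ ℓ ∈ Ico 1 n, ∀ a, 0 < Big.X u t a ℓ ∧ (|Big.X u t a ℓ - 1| ≤ d ∨
      |Big.Y u t a ℓ| ≤ (2 * (r * (π / n) + δ)) * Big.X u t a ℓ) := by
    intro ℓ hℓ a
    rw [mem_Ico] at hℓ
    exact U3_window h hδ100 hd100 hr0 (by linarith) hδ2 (by omega) hℓ.2 a
  have hpos : ∀ ℓ ∈ Ico 1 n, ∀ a, 0 < Big.X u t a ℓ := fun ℓ hℓ a => (hwin ℓ hℓ a).1
  have hFF0 : 0 ≤ Big.FF u t :=
    sum_nonneg fun ℓ hℓ => sum_nonneg fun a _ => Big.Phi_nonneg (hpos ℓ hℓ a)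
  have hK0 : 0 ≤ Big.K u t := Big.K_nonneg u t
  have he0 : 0 ≤ 2 * (r * (π / n) + δ) := by positivity
  have hS1 := U3_S1 hd0 hd100 he0 h.su hwin
  have hS2 := U3_S2 (n := n) (r := r) (u := u) (t := t) hd0 hd100
  have hXs : ∀ ℓ ∈ Ico 1 n, ∀ a, |Big.X (Big.sm r u) (Big.sm r t) a ℓ - 1| ≤ d := by
    intro ℓ hℓ a
    rw [mem_Ico] at hℓ
    exact ((Big.smooth_window h.hu h.ht hr0 (by omega) hℓ.2 a).1).trans hδ1
  have h1n : 1 ∈ Ico 1 n := mem_Ico.2 ⟨le_rfl, by omega⟩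
  have hPP : (1 / 2 - 2 * d) * Big.PP (Big.sm r u) (Big.sm r t) ≤
      Big.FF (Big.sm r u) (Big.sm r t) := by
    unfold Big.PP Big.FF
    rw [mul_sum]
    refine sum_le_sum fun ℓ hℓ => ?_
    rw [mul_sum]
    exact sum_le_sum fun a _ => U3_Phi hd100 (hXs ℓ hℓ a)
  have hFs := Big.FF_sm hr0 hpos
  have hYs : ∀ a, |Big.Y (Big.sm r u) (Big.sm r t) a 1| ≤ 1 / 100 := fun a =>
    ((Big.smooth_window h.hu h.ht hr0 one_pos (by omega) a).2).trans (hδ1.trans hd100)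
  have hRR : 49 / 100 * Big.RR (Big.sm r u) (Big.sm r t) ≤ 1300 := by
    have h1 := Big.K_ge_near (fun a => (hXs 1 h1n a).trans hd100) hYs
    have h2 := Big.K_sm hr0 u t
    unfold Big.RR
    calc 49 / 100 * (((n : ℝ) - 1) * ∑ a, Big.Y (Big.sm r u) (Big.sm r t) a 1 ^ 2) =
        ((n : ℝ) - 1) * (49 / 100 * ∑ a, Big.Y (Big.sm r u) (Big.sm r t) a 1 ^ 2) := by ring
      _ ≤ (n - 1) * Big.K u t := mul_le_mul_of_nonneg_left (h1.trans h2) (by linarith)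
      _ ≤ n * Big.K u t := mul_le_mul_of_nonneg_right (by linarith) hK0
      _ ≤ 1300 := hA.K
  obtain ⟨hQ, -⟩ := Big.fourier hn (h.toBal.sm hr0)
  have hErr := Big.Err_le h hδ100 hr0 hr100 (hδ2.trans hd100) hn
  have hEr : Big.Err r u t ≤ 10 ^ 7 * (2 * (r * (π / n) + δ)) / 2 := by
    obtain ⟨e, he⟩ : ∃ e : ℝ, e = r * (π / n) := ⟨_, rfl⟩
    rw [← he] at hErr ⊢
    have he0 : 0 ≤ e := by rw [he]; positivity
    have k1 : 400 * (e + δ) * Big.FF u t ≤ 400 * (e + δ) * 1300 :=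
      mul_le_mul_of_nonneg_left hA.FF (by positivity)
    have k2 : 200 * e * (n * Big.K u t) ≤ 200 * e * 1300 :=
      mul_le_mul_of_nonneg_left hA.K (by positivity)
    have k3 : 100 * e * (n * Big.NN u t) ≤ 100 * e * 65000 :=
      mul_le_mul_of_nonneg_left hA.NN (by positivity)
    linarith
  have hP0 : 0 ≤ Big.PP (Big.sm r u) (Big.sm r t) :=
    sum_nonneg fun _ _ => sum_nonneg fun _ _ => sq_nonneg _
  have hQ0 : 0 ≤ Big.QQ (Big.sm r u) (Big.sm r t) :=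
    sum_nonneg fun _ _ => sum_nonneg fun _ _ => sq_nonneg _
  refine U3_arith hε hε1 hd he0 ?_ hFF0 hA.FF ?_ hEr hP0 hQ0 hPP hFs hQ hRR
  · rw [← hη]; linarith
  · refine hS1.trans ?_
    have := mul_le_mul_of_nonneg_left hS2 (by linarith : (0 : ℝ) ≤ (1 + 3 * d) / 2)
    linarith

theorem smoothing {ε : ℝ} (hε : 0 < ε) : ∃ δ : ℝ, 0 < δ ∧ δ ≤ 1 / 10 ^ 11 ∧ ∃ n₀ : ℕ,
    ∀ n : ℕ, n₀ ≤ n → ∀ _ : NeZero n, ∀ (c : ℝ) (u t : ZMod n → ℝ), Cfg δ c u t → Apr c u t →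
    ∃ r : ℕ, 0 < r ∧ Big.SS u t ≤
      (Big.QQ (Big.sm r u) (Big.sm r t) - Big.PP (Big.sm r u) (Big.sm r t)) / 2 + ε := by
  obtain ⟨ε', hε'⟩ : ∃ ε' : ℝ, ε' = min ε 1 := ⟨_, rfl⟩
  have h0 : 0 < ε' := by rw [hε']; exact lt_min hε one_pos
  have h1 : ε' ≤ 1 := by rw [hε']; exact min_le_right _ _
  have h2 : ε' ≤ ε := by rw [hε']; exact min_le_left _ _
  obtain ⟨d, hd⟩ : ∃ d : ℝ, d = ε' / 40000 := ⟨_, rfl⟩
  obtain ⟨η, hη⟩ : ∃ η : ℝ, η = d * ε' / 10 ^ 8 := ⟨_, rfl⟩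
  obtain ⟨δ, hδ⟩ : ∃ δ : ℝ, δ = d * η / 8 := ⟨_, rfl⟩
  have hd0 : 0 < d := by rw [hd]; positivity
  have hd1 : d ≤ 1 / 40000 := by rw [hd]; linarith
  have hη0 : 0 < η := by rw [hη]; positivity
  have hη1 : η ≤ 1 / 10 ^ 8 := by
    rw [hη]
    refine div_le_div_of_nonneg_right ?_ (by norm_num)
    calc d * ε' ≤ 1 * 1 := mul_le_mul (by linarith) h1 h0.le (by norm_num)
      _ = 1 := by norm_num
  refine ⟨δ, by rw [hδ]; positivity, ?_, max 1000 ⌈8 / η⌉₊, ?_⟩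
  · rw [hδ]
    have : d * η ≤ 1 / 40000 * (1 / 10 ^ 8) := mul_le_mul hd1 hη1 hη0.le (by norm_num)
    calc d * η / 8 ≤ 1 / 40000 * (1 / 10 ^ 8) / 8 := div_le_div_of_nonneg_right this (by norm_num)
      _ ≤ 1 / 10 ^ 11 := by norm_num
  · intro n hn _ c u t hC hA
    have hn1 : 1000 ≤ n := (le_max_left _ _).trans hn
    have hn2 : (8 / η : ℝ) ≤ n := (Nat.le_ceil _).trans (by exact_mod_cast (le_max_right _ _).trans hn)
    have hn0 : (0 : ℝ) < n := by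
      have : 0 < n := by omega
      exact_mod_cast this
    have hnη : π / n ≤ η / 2 := by
      rw [div_le_iff₀ hη0] at hn2
      rw [div_le_iff₀ hn0]
      linarith [pi_lt_four]
    obtain ⟨r, hr, h⟩ := U3_main h0 h1 hd hη hδ hn1 hnη hC.near hA
    exact ⟨r, hr, by linarith⟩

end Pool.Agent.Lib.MP_e1dd62_co.Evn
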