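import Pool.Agent.Lib.MP_e1dd62_co.Evn.Defs
import Pool.Agent.Lib.MP_e1dd62_co.Big.F2
import Pool.Agent.Lib.MP_e1dd62_co.Big.W1

/-!
# U4: the Fourier side, one mode
-/

namespace Pool.Agent.Lib.MP_e1dd62_co.Evn

open Finset Real

/-- Optimisation in one mode. -/
theorem mode_opt (α β : ℝ) (T U : ℂ) :
    (β ^ 2 - α ^ 2) * (‖U‖ ^ 2 - ‖T‖ ^ 2) ≤ ‖(α : ℂ) * T - Complex.I * (β : ℂ) * U‖ ^ 2 := by
  rw [← Complex.normSq_eq_norm_sq, ← Complex.normSq_eq_norm_sq, ← Complex.normSq_eq_norm_sq]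
  simp only [Complex.normSq_apply, Complex.sub_re, Complex.sub_im, Complex.mul_re, Complex.mul_im,
    Complex.ofReal_re, Complex.ofReal_im, Complex.I_re, Complex.I_im]
  nlinarith [sq_nonneg (β * T.re + α * U.im), sq_nonneg (β * T.im - α * U.re)]

private lemma U4_x {n : ℕ} (hn : 1000 ≤ n) : 0 < π / n ∧ π / (n : ℝ) ≤ 315 / 100000 := by
  have hn' : (1000 : ℝ) ≤ n := by exact_mod_cast hn
  have hpi := Real.pi_lt_d2
  refine ⟨by positivity, ?_⟩
  rw [div_le_iff₀ (by linarith)]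
  nlinarith

/-- lower bound of the cotangent -/
private lemma U4_cot {x : ℝ} (h0 : 0 < x) (h1 : x ≤ 315 / 100000) :
    (9999 / 10000) / x ≤ cos x / sin x := by
  have hs : 0 < sin x := Real.sin_pos_of_pos_of_lt_pi h0 (by linarith [Real.pi_gt_three])
  have hs' : sin x < x := Real.sin_lt h0
  have hc : 1 - x ^ 2 / 2 ≤ cos x := Real.one_sub_sq_div_two_le_cos
  have hx2 : x ^ 2 ≤ (315 / 100000) ^ 2 := by nlinarith
  rw [div_le_div_iff₀ h0 hs]
  nlinarith

private lemma U4_s {n p : ℕ} (hn : 1000 ≤ n) (h0 : 2 ≤ p) (h1 : 2 * p ≤ n) :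
    (636 / 1000) * (p : ℝ) ≤ cos (π / n) / sin (π / n) * sin (p * (π / n)) := by
  obtain ⟨hx0, hx1⟩ := U4_x hn
  have hn' : (1000 : ℝ) ≤ n := by exact_mod_cast hn
  have hp : (2 : ℝ) ≤ p := by exact_mod_cast h0
  have hpn : 2 * (p : ℝ) ≤ n := by exact_mod_cast h1
  have hcot := U4_cot hx0 hx1
  set x : ℝ := π / n with hx
  have hcotpos : 0 < (9999 / 10000) / x := by positivity
  have hpx : (p : ℝ) * x ≤ π / 2 := by
    rw [hx]
    have : (p : ℝ) * (π / n) = π * (p / n) := by ring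
    rw [this]
    have h2 : (p : ℝ) / n ≤ 1 / 2 := by
      rw [div_le_iff₀ (by linarith)]; linarith
    nlinarith [Real.pi_pos]
  have hpx0 : 0 < (p : ℝ) * x := by positivity
  have hsin : 2 / π * ((p : ℝ) * x) ≤ sin (p * x) := Real.mul_le_sin hpx0.le hpx
  calc (636 / 1000) * (p : ℝ) ≤ (9999 / 10000) / x * (2 / π * ((p : ℝ) * x)) := by
        have : (9999 / 10000) / x * (2 / π * ((p : ℝ) * x))
            = (9999 / 10000) * (2 / π) * p := by
          field_simp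
        rw [this]
        have hpi : (6364 / 10000 : ℝ) ≤ 2 / π := by
          rw [le_div_iff₀ Real.pi_pos]
          nlinarith [Real.pi_lt_d4]
        have h4 : (636 / 1000 : ℝ) ≤ (9999 / 10000) * (2 / π) := by nlinarith
        nlinarith
    _ ≤ cos x / sin x * sin (p * x) :=
        mul_le_mul hcot hsin (by positivity) (le_trans hcotpos.le hcot)

/-- The coefficient of all modes. -/
theorem coef_all {n p : ℕ} (hn : 1000 ≤ n) (h0 : 2 ≤ p) (h1 : 2 * p ≤ n) :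
    0 < (cos (π / n) / sin (π / n) * sin (p * (π / n))) ^ 2 - cos (p * (π / n)) ^ 2 ∧
    ((p : ℝ) - 1) * (n - p - 1) ≤ 10 * n / p *
      ((cos (π / n) / sin (π / n) * sin (p * (π / n))) ^ 2 - cos (p * (π / n)) ^ 2) := by
  have hs := U4_s hn h0 h1
  have hp : (2 : ℝ) ≤ p := by exact_mod_cast h0
  have hn' : (1000 : ℝ) ≤ n := by exact_mod_cast hn
  set s : ℝ := cos (π / n) / sin (π / n) * sin (p * (π / n)) with hsd
  have hc : cos (p * (π / n)) ^ 2 ≤ 1 := by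
    rw [sq_le_one_iff_abs_le_one]
    exact abs_cos_le_one _
  have hs2 : (404 / 1000) * (p : ℝ) ^ 2 ≤ s ^ 2 := by nlinarith
  have h3 : (404 / 1000) * (p : ℝ) ^ 2 - 1 ≤ s ^ 2 - cos (p * (π / n)) ^ 2 := by linarith
  constructor
  · nlinarith
  · have h4 : (10 * n / p) * ((404 / 1000) * (p : ℝ) ^ 2 - 1) ≤ 10 * n / p *
        (s ^ 2 - cos (p * (π / n)) ^ 2) := mul_le_mul_of_nonneg_left h3 (by positivity)
    refine le_trans ?_ h4
    have h5 : (10 * n / p) * ((404 / 1000) * (p : ℝ) ^ 2 - 1) = n * ((404 / 100) * p - 10 / p) := by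
      field_simp
      ring
    rw [h5]
    have h6 : 10 / (p : ℝ) ≤ 5 := by
      rw [div_le_iff₀ (by linarith)]
      linarith
    have h7 : (p : ℝ) - 1 ≤ (404 / 100) * p - 10 / p := by linarith
    calc ((p : ℝ) - 1) * (n - p - 1) ≤ ((p : ℝ) - 1) * n := by
          apply mul_le_mul_of_nonneg_left <;> linarith
      _ = n * ((p : ℝ) - 1) := by ring
      _ ≤ n * ((404 / 100) * p - 10 / p) := mul_le_mul_of_nonneg_left h7 (by linarith)

/-- The coefficient of a fixed mode. -/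
theorem coef_fix {ε : ℝ} (hε : 0 < ε) {p : ℕ} (hp : 2 ≤ p) : ∃ n₀ : ℕ, ∀ n : ℕ, n₀ ≤ n →
    ((p : ℝ) - 1) * (n - p - 1) ≤ (1 / (p + 1) + ε) * n *
      ((cos (π / n) / sin (π / n) * sin (p * (π / n))) ^ 2 - cos (p * (π / n)) ^ 2) := by
  have hp2 : (2 : ℝ) ≤ p := by exact_mod_cast hp
  set g : ℝ → ℝ := fun x => (1 / ((p : ℝ) + 1) + ε) *
    (((1 - x ^ 2 / 2) * (p - p ^ 3 * x ^ 2 / 6)) ^ 2 - 1) with hg
  have hg0 : (p : ℝ) - 1 < g 0 := by
    have h1 : g 0 = (p - 1) + ε * (p ^ 2 - 1) := by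
      simp only [hg]
      field_simp
      ring
    rw [h1]
    have : 0 < ε * ((p : ℝ) ^ 2 - 1) := by
      apply mul_pos hε
      nlinarith
    linarith
  have hgc : Continuous g := by
    simp only [hg]
    fun_prop
  have hxt : Filter.Tendsto (fun n : ℕ => π / (n : ℝ)) Filter.atTop (nhds 0) :=
    tendsto_const_div_atTop_nhds_zero_nat π
  have ev1 : ∀ᶠ n : ℕ in Filter.atTop, (p : ℝ) - 1 < g (π / n) := by
    have h2 : Filter.Tendsto (fun n : ℕ => g (π / (n : ℝ))) Filter.atTop (nhds (g 0)) :=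
      (hgc.tendsto 0).comp hxt
    exact h2.eventually (lt_mem_nhds hg0)
  have ev2 : ∀ᶠ n : ℕ in Filter.atTop, π / (n : ℝ) < 1 / p :=
    hxt.eventually (gt_mem_nhds (by positivity))
  obtain ⟨n₀, hn₀⟩ := (ev1.and ev2).exists_forall_of_atTop
  refine ⟨max n₀ 1, fun n hn => ?_⟩
  obtain ⟨h1, h2⟩ := hn₀ n ((le_max_left _ _).trans hn)
  have hn1 : 1 ≤ n := (le_max_right _ _).trans hn
  have hn1' : (1 : ℝ) ≤ n := by exact_mod_cast hn1
  have hx0 : 0 < π / (n : ℝ) := by positivity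
  set x : ℝ := π / n with hx
  have hpx : (p : ℝ) * x < 1 := by
    rw [lt_div_iff₀ (by positivity)] at h2
    linarith
  have hpx0 : 0 < (p : ℝ) * x := by positivity
  have hx1 : x < 1 := by nlinarith
  have hsinx : 0 < sin x := Real.sin_pos_of_pos_of_lt_pi hx0 (by linarith [Real.pi_gt_three])
  have hsx : sin x ≤ x := (Real.sin_lt hx0).le
  have hcx : 1 - x ^ 2 / 2 ≤ cos x := Real.one_sub_sq_div_two_le_cos
  have hc0 : 0 ≤ 1 - x ^ 2 / 2 := by nlinarith
  have hsp : (p : ℝ) * x - ((p : ℝ) * x) ^ 3 / 6 ≤ sin (p * x) :=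
    (Real.sin_gt_sub_cube hpx0).le
  have hsp0 : 0 ≤ (p : ℝ) * x - ((p : ℝ) * x) ^ 3 / 6 := by
    have : ((p : ℝ) * x) ^ 2 ≤ 1 := by nlinarith
    nlinarith
  have hs : (1 - x ^ 2 / 2) * (p - p ^ 3 * x ^ 2 / 6) ≤ cos x / sin x * sin (p * x) := by
    have e1 : (1 - x ^ 2 / 2) * (p - p ^ 3 * x ^ 2 / 6) =
        (1 - x ^ 2 / 2) / x * ((p : ℝ) * x - ((p : ℝ) * x) ^ 3 / 6) := by
      field_simp
    rw [e1]
    have e2 : (1 - x ^ 2 / 2) / x ≤ cos x / sin x := by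
      rw [div_le_div_iff₀ hx0 hsinx]
      calc (1 - x ^ 2 / 2) * sin x ≤ (1 - x ^ 2 / 2) * x := mul_le_mul_of_nonneg_left hsx hc0
        _ ≤ cos x * x := mul_le_mul_of_nonneg_right hcx hx0.le
    exact mul_le_mul e2 hsp hsp0 (le_trans (by positivity) e2)
  have hlow0 : 0 ≤ (1 - x ^ 2 / 2) * (p - p ^ 3 * x ^ 2 / 6) := by
    apply mul_nonneg hc0
    have h3 : ((p : ℝ) * x) ^ 2 ≤ 1 := by nlinarith
    have h4 : (p : ℝ) - p ^ 3 * x ^ 2 / 6 = p * (1 - ((p : ℝ) * x) ^ 2 / 6) := by ring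
    rw [h4]
    apply mul_nonneg (by linarith)
    linarith
  have hs2 := pow_le_pow_left₀ hlow0 hs 2
  have hc : cos (p * x) ^ 2 ≤ 1 := by
    rw [sq_le_one_iff_abs_le_one]
    exact abs_cos_le_one _
  have hE : 0 < 1 / ((p : ℝ) + 1) + ε := by positivity
  have h5 : (p : ℝ) - 1 ≤ (1 / ((p : ℝ) + 1) + ε) *
      ((cos x / sin x * sin (p * x)) ^ 2 - cos (p * x) ^ 2) := by
    refine h1.le.trans ?_
    simp only [hg]
    apply mul_le_mul_of_nonneg_left _ hE.le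
    linarith
  calc ((p : ℝ) - 1) * (n - p - 1) ≤ ((p : ℝ) - 1) * n := by
        apply mul_le_mul_of_nonneg_left <;> linarith
    _ ≤ ((1 / ((p : ℝ) + 1) + ε) *
      ((cos x / sin x * sin (p * x)) ^ 2 - cos (p * x) ^ 2)) * n :=
        mul_le_mul_of_nonneg_right h5 (by linarith)
    _ = (1 / (p + 1) + ε) * n * ((cos x / sin x * sin (p * x)) ^ 2 - cos (p * x) ^ 2) := by ring

variable {n : ℕ} [NeZero n]

private theorem U4_conj_e (a : ZMod n) :
    (starRingEnd ℂ) (ZMod.stdAddChar a : ℂ) = ZMod.stdAddChar (-a) := by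
  rw [AddChar.map_neg_eq_conj]

private theorem U4_char_sum (c : ZMod n) :
    ∑ p : ZMod n, (ZMod.stdAddChar (p * c) : ℂ) = if c = 0 then (n : ℂ) else 0 := by
  have := AddChar.sum_mulShift (R := ZMod n) (R' := ℂ) c (ZMod.isPrimitive_stdAddChar n)
  rw [this]
  simp [ZMod.card]

private theorem U4_e_eq (l : ℕ) (p : ZMod n) :
    (ZMod.stdAddChar ((l : ZMod n) * p) : ℂ)
      = Complex.exp (((2 * (p.val * (l * (π / n))) : ℝ) : ℂ) * Complex.I) := by
  have h1 : ((l : ZMod n) * p) = (((l * p.val : ℕ) : ℤ) : ZMod n) := by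
    push_cast
    rw [ZMod.natCast_zmod_val]
  rw [h1, ZMod.stdAddChar_coe]
  congr 1
  push_cast
  ring

private theorem U4_hat_shift (f : ZMod n → ℝ) (l : ℕ) (p : ZMod n) :
    ∑ a, (f (a + (l : ZMod n)) : ℂ) * ZMod.stdAddChar (-(a * p))
      = ZMod.stdAddChar ((l : ZMod n) * p) * Big.hat f p := by
  unfold Big.hat
  rw [Finset.mul_sum]
  refine Fintype.sum_equiv (Equiv.addRight (l : ZMod n)) _ _ (fun a => ?_)
  rw [Equiv.coe_addRight]
  have h1 : (ZMod.stdAddChar (-(a * p)) : ℂ) = ZMod.stdAddChar ((l : ZMod n) * p) *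
      ZMod.stdAddChar (-((a + (l : ZMod n)) * p)) := by
    rw [← AddChar.map_add_eq_mul]
    congr 1
    ring
  rw [h1]
  ring

private theorem U4_hat_window (f g : ZMod n → ℝ) (κ : ℝ) (l : ℕ) (p : ZMod n) :
    Big.hat (fun a => (f a + f (a + (l : ZMod n))) / 2 + κ / 2 * (g (a + (l : ZMod n)) - g a)) p
      = Complex.exp (((p.val * (l * (π / n)) : ℝ) : ℂ) * Complex.I) *
        ((cos (p.val * (l * (π / n))) : ℝ) * Big.hat f p +
          Complex.I * ((κ * sin (p.val * (l * (π / n))) : ℝ) : ℂ) * Big.hat g p) := by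
  set θ : ℝ := p.val * (l * (π / n)) with hθ
  have h1 : Big.hat (fun a => (f a + f (a + (l : ZMod n))) / 2 +
        κ / 2 * (g (a + (l : ZMod n)) - g a)) p
      = (Big.hat f p + ∑ a, (f (a + (l : ZMod n)) : ℂ) * ZMod.stdAddChar (-(a * p))) / 2 +
        (κ : ℂ) / 2 * ((∑ a, (g (a + (l : ZMod n)) : ℂ) * ZMod.stdAddChar (-(a * p))) -
          Big.hat g p) := by
    unfold Big.hat
    rw [← Finset.sum_add_distrib, ← Finset.sum_sub_distrib, Finset.sum_div, Finset.mul_sum,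
      ← Finset.sum_add_distrib]
    refine Finset.sum_congr rfl (fun a _ => ?_)
    push_cast
    ring
  rw [h1, U4_hat_shift, U4_hat_shift, U4_e_eq]
  have h2 : Complex.exp (((2 * θ : ℝ) : ℂ) * Complex.I)
      = Complex.exp ((θ : ℂ) * Complex.I) * Complex.exp ((θ : ℂ) * Complex.I) := by
    rw [← Complex.exp_add]
    congr 1
    push_cast
    ring
  have h3 : Complex.exp ((θ : ℂ) * Complex.I) = (cos θ : ℂ) + (sin θ : ℂ) * Complex.I := by
    rw [Complex.exp_mul_I, Complex.ofReal_cos, Complex.ofReal_sin]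
  have h4 : ((cos θ : ℝ) : ℂ) ^ 2 + ((sin θ : ℝ) : ℂ) ^ 2 = 1 := by
    rw [← Complex.ofReal_pow, ← Complex.ofReal_pow, ← Complex.ofReal_add, Real.cos_sq_add_sin_sq,
      Complex.ofReal_one]
  have hI : Complex.I ^ 2 = -1 := Complex.I_sq
  rw [h2, h3]
  set c : ℂ := ((cos θ : ℝ) : ℂ) with hc
  set s : ℂ := ((sin θ : ℝ) : ℂ) with hs
  have h5 : (1 : ℂ) + (c + s * Complex.I) * (c + s * Complex.I)
      = 2 * (c + s * Complex.I) * c := by
    linear_combination (-1 : ℂ) * h4 + s ^ 2 * hI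
  have h6 : (c + s * Complex.I) * (c + s * Complex.I) - 1
      = 2 * (c + s * Complex.I) * (s * Complex.I) := by
    linear_combination (1 : ℂ) * h4 - s ^ 2 * hI
  rw [Complex.ofReal_mul, ← hs]
  linear_combination (Big.hat f p / 2) * h5 + ((κ : ℂ) / 2 * Big.hat g p) * h6

theorem hat_yv (u t : ZMod n → ℝ) (p : ZMod n) :
    ‖Big.hat (yv u t) p‖ = ‖(cos (p.val * (π / n)) : ℂ) * Big.hat t p -
      Complex.I * (cos (π / n) / sin (π / n) * sin (p.val * (π / n)) : ℝ) * Big.hat u p‖ := by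
  have h1 : yv u t = fun a => (t a + t (a + ((1 : ℕ) : ZMod n))) / 2 +
      (-Big.ct n 1) / 2 * (u (a + ((1 : ℕ) : ZMod n)) - u a) := by
    ext a
    unfold yv Big.Y
    ring
  rw [h1, U4_hat_window, norm_mul, Complex.norm_exp_ofReal_mul_I, one_mul]
  congr 1
  unfold Big.ct
  rw [Nat.cast_one, one_mul]
  push_cast
  ring

theorem hat_sm_le {r : ℕ} (hr : 0 < r) (f : ZMod n → ℝ) (p : ZMod n) :
    ‖Big.hat (Big.sm r f) p‖ ≤ ‖Big.hat f p‖ := by
  have hr0 : (r : ℂ) ≠ 0 := by exact_mod_cast hr.ne'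
  have h1 : Big.hat (Big.sm r f) p =
      ((∑ m ∈ range r, (ZMod.stdAddChar ((m : ZMod n) * p) : ℂ)) / r) * Big.hat f p := by
    have h2 : Big.hat (Big.sm r f) p = (∑ m ∈ range r, ∑ a, (f (a + (m : ZMod n)) : ℂ) *
        ZMod.stdAddChar (-(a * p))) / r := by
      unfold Big.hat Big.sm
      rw [Finset.sum_comm, Finset.sum_div]
      refine Finset.sum_congr rfl (fun a _ => ?_)
      rw [← Finset.sum_mul]
      push_cast
      ring
    rw [h2, Finset.sum_congr rfl (fun m _ => U4_hat_shift f m p), ← Finset.sum_mul]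
    ring
  rw [h1, norm_mul]
  have h3 : ‖(∑ m ∈ range r, (ZMod.stdAddChar ((m : ZMod n) * p) : ℂ)) / r‖ ≤ 1 := by
    rw [norm_div, Complex.norm_natCast]
    apply div_le_one_of_le₀ _ (Nat.cast_nonneg r)
    refine (norm_sum_le _ _).trans ?_
    rw [Finset.sum_congr rfl (fun m _ => by
      rw [U4_e_eq, Complex.norm_exp_ofReal_mul_I] :
        ∀ m ∈ range r, ‖(ZMod.stdAddChar ((m : ZMod n) * p) : ℂ)‖ = 1)]
    simp
  calc ‖(∑ m ∈ range r, (ZMod.stdAddChar ((m : ZMod n) * p) : ℂ)) / r‖ * ‖Big.hat f p‖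
      ≤ 1 * ‖Big.hat f p‖ := mul_le_mul_of_nonneg_right h3 (norm_nonneg _)
    _ = ‖Big.hat f p‖ := one_mul _

theorem yv_sm {r : ℕ} (hr : 0 < r) (u t : ZMod n → ℝ) :
    yv (Big.sm r u) (Big.sm r t) = Big.sm r (yv u t) := by
  have hr0 : (r : ℝ) ≠ 0 := by exact_mod_cast hr.ne'
  ext a
  unfold yv Big.Y Big.sm
  have h1 : ∀ f : ZMod n → ℝ, ∑ m ∈ range r, f (a + ((1 : ℕ) : ZMod n) + (m : ZMod n)) =
      ∑ m ∈ range r, f (a + (m : ZMod n) + ((1 : ℕ) : ZMod n)) := by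
    intro f
    refine Finset.sum_congr rfl (fun m _ => ?_)
    congr 1
    ring
  rw [h1, h1, Finset.sum_sub_distrib, ← Finset.mul_sum, Finset.sum_sub_distrib, ← Finset.sum_div,
    Finset.sum_add_distrib]
  field_simp

theorem hat_neg (f : ZMod n → ℝ) (p : ZMod n) : ‖Big.hat f (-p)‖ = ‖Big.hat f p‖ := by
  have h1 : Big.hat f (-p) = (starRingEnd ℂ) (Big.hat f p) := by
    unfold Big.hat
    rw [map_sum]
    refine Finset.sum_congr rfl (fun a _ => ?_)
    rw [map_mul, Complex.conj_ofReal, U4_conj_e]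
    congr 2
    ring
  rw [h1, Complex.norm_conj]

theorem parseval (f : ZMod n → ℝ) : ∑ p, ‖Big.hat f p‖ ^ 2 = n * ∑ a, f a ^ 2 := by
  have h0 : ∀ p : ZMod n, ((‖Big.hat f p‖ ^ 2 : ℝ) : ℂ)
      = ∑ a : ZMod n, ∑ b : ZMod n, ((f a * f b : ℝ) : ℂ) * ZMod.stdAddChar (p * (b - a)) := by
    intro p
    have h1 : ((‖Big.hat f p‖ ^ 2 : ℝ) : ℂ) = Big.hat f p * (starRingEnd ℂ) (Big.hat f p) := by
      rw [Complex.mul_conj, Complex.normSq_eq_norm_sq]
    rw [h1]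
    unfold Big.hat
    rw [map_sum, Finset.sum_mul_sum]
    refine Finset.sum_congr rfl (fun a _ => Finset.sum_congr rfl (fun b _ => ?_))
    rw [map_mul, Complex.conj_ofReal, U4_conj_e, neg_neg]
    have h2 : (ZMod.stdAddChar (p * (b - a)) : ℂ)
        = ZMod.stdAddChar (-(a * p)) * ZMod.stdAddChar (b * p) := by
      rw [← AddChar.map_add_eq_mul]
      congr 1
      ring
    rw [h2]
    push_cast
    ring
  have h3 : ((∑ p, ‖Big.hat f p‖ ^ 2 : ℝ) : ℂ) = (((n : ℝ) * ∑ a, f a ^ 2 : ℝ) : ℂ) := by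
    rw [Complex.ofReal_sum, Finset.sum_congr rfl (fun p _ => h0 p), Finset.sum_comm]
    have h4 : ∀ a : ZMod n, ∑ p : ZMod n, ∑ b : ZMod n,
        ((f a * f b : ℝ) : ℂ) * ZMod.stdAddChar (p * (b - a)) = (n : ℂ) * ((f a ^ 2 : ℝ) : ℂ) := by
      intro a
      rw [Finset.sum_comm]
      have h5 : ∀ b : ZMod n, ∑ p : ZMod n,
          ((f a * f b : ℝ) : ℂ) * (ZMod.stdAddChar (p * (b - a)) : ℂ)
          = if b = a then (n : ℂ) * ((f a ^ 2 : ℝ) : ℂ) else 0 := by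
        intro b
        rw [← Finset.mul_sum, U4_char_sum]
        by_cases hb : b = a
        · subst hb
          simp
          ring
        · rw [if_neg (sub_ne_zero.2 hb), if_neg hb, mul_zero]
      rw [Finset.sum_congr rfl (fun b _ => h5 b)]
      simp
    rw [Finset.sum_congr rfl (fun a _ => h4 a), ← Finset.mul_sum]
    push_cast
    rfl
  exact Complex.ofReal_injective h3

end Pool.Agent.Lib.MP_e1dd62_co.Evn
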