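import Pool.Agent.Lib.MP_e1dd62_co.Evn.U2
import Pool.Agent.Lib.MP_e1dd62_co.Evn.U4

/-!
# U5: the Fourier side
-/

namespace Pool.Agent.Lib.MP_e1dd62_co.Evn

open Finset Real

/-- The even modes of `u` are small. -/
private theorem U5_even {n N : ℕ} [NeZero n] (hn : n = 2 * N) (u : ZMod n → ℝ) {E : ℝ}
    (h : ∑ a, |u a + u (a + (N : ZMod n))| ≤ E) (k : ℕ) (hk : Even k) :
    ‖Big.hat u ((k : ℕ) : ZMod n)‖ ≤ E / 2 := by
  obtain ⟨m, hm⟩ := hk
  have hNk : ((N : ZMod n) * ((k : ℕ) : ZMod n)) = 0 := by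
    have h1 : ((N : ZMod n) * ((k : ℕ) : ZMod n)) = ((2 * N * m : ℕ) : ZMod n) := by
      rw [hm]
      push_cast
      ring
    rw [h1, ZMod.natCast_eq_zero_iff, hn]
    exact Dvd.intro _ rfl
  have hshift : Big.hat u ((k : ℕ) : ZMod n) =
      ∑ a, (u (a + (N : ZMod n)) : ℂ) *
        ZMod.stdAddChar (-(a * ((k : ℕ) : ZMod n))) := by
    unfold Big.hat
    symm
    refine Fintype.sum_equiv (Equiv.addRight (N : ZMod n)) _ _ (fun a => ?_)
    rw [Equiv.coe_addRight]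
    congr 2
    rw [add_mul, hNk, add_zero]
  have h2 : Big.hat u ((k : ℕ) : ZMod n) + Big.hat u ((k : ℕ) : ZMod n) =
      ∑ a, ((u a + u (a + (N : ZMod n)) : ℝ) : ℂ) *
        ZMod.stdAddChar (-(a * ((k : ℕ) : ZMod n))) := by
    nth_rw 2 [hshift]
    unfold Big.hat
    rw [← sum_add_distrib]
    refine sum_congr rfl fun a _ => ?_
    push_cast
    ring
  have h3 : ‖Big.hat u ((k : ℕ) : ZMod n) + Big.hat u ((k : ℕ) : ZMod n)‖ ≤ E := by
    rw [h2]
    refine (norm_sum_le _ _).trans (le_trans (sum_le_sum fun a _ => ?_) h)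
    rw [norm_mul, Complex.norm_real, Real.norm_eq_abs, AddChar.norm_apply, mul_one]
  rw [← two_mul, norm_mul, Complex.norm_ofNat] at h3
  linarith

/-- Folding the sum over the frequencies. -/
private theorem U5_fold {N : ℕ} (hN : 2 ≤ N) (G b : ℕ → ℝ) (h0 : G 0 = 0) (h1 : G 1 = 0)
    (hsym : ∀ k, 1 ≤ k → k < 2 * N → G (2 * N - k) = G k)
    (hb : ∀ k ∈ Ico 2 (N + 1), G k ≤ b k) (hb0 : 0 ≤ b N) :
    ∑ k ∈ range (2 * N), G k ≤ 2 * ∑ k ∈ Ico 2 (N + 1), b k := by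
  have e1 : ∑ k ∈ range (2 * N), G k = ∑ k ∈ Ico 2 N, G k + G N + ∑ k ∈ Ico (N + 1) (2 * N), G k := by
    rw [range_eq_Ico, ← sum_Ico_consecutive G (show 0 ≤ 2 by omega) (show 2 ≤ 2 * N by omega),
      ← sum_Ico_consecutive G (show 2 ≤ N by omega) (show N ≤ 2 * N by omega),
      ← sum_Ico_consecutive G (show N ≤ N + 1 by omega) (show N + 1 ≤ 2 * N by omega)]
    have e2 : ∑ k ∈ Ico 0 2, G k = 0 := by
      rw [← range_eq_Ico, sum_range_succ, sum_range_one, h0, h1, add_zero]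
    rw [e2, Nat.Ico_succ_singleton, sum_singleton]
    ring
  have e3 : ∑ k ∈ Ico (N + 1) (2 * N), G k = ∑ k ∈ Ico 2 N, G k := by
    have h2 : ∑ j ∈ Ico 1 N, G (2 * N - j) = ∑ j ∈ Ico (2 * N + 1 - N) (2 * N + 1 - 1), G j :=
      sum_Ico_reflect G 1 (by omega)
    have h3 : ∑ j ∈ Ico 1 N, G (2 * N - j) = ∑ j ∈ Ico 1 N, G j := by
      refine sum_congr rfl fun j hj => ?_
      rw [mem_Ico] at hj
      exact hsym j hj.1 (by omega)
    have h4 : ∑ j ∈ Ico 1 N, G j = ∑ j ∈ Ico 2 N, G j := by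
      rw [← sum_Ico_consecutive G (show 1 ≤ 2 by omega) (show 2 ≤ N by omega),
        Nat.Ico_succ_singleton, sum_singleton, h1, zero_add]
    rw [show 2 * N + 1 - N = N + 1 by omega, show 2 * N + 1 - 1 = 2 * N by omega] at h2
    rw [← h2, h3, h4]
  have e4 : ∑ k ∈ Ico 2 (N + 1), b k = ∑ k ∈ Ico 2 N, b k + b N := sum_Ico_succ_top (by omega) _
  have e5 : ∑ k ∈ Ico 2 N, G k ≤ ∑ k ∈ Ico 2 N, b k :=
    sum_le_sum fun k hk => hb k (by rw [mem_Ico] at hk ⊢; omega)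
  have e6 : G N ≤ b N := hb N (by rw [mem_Ico]; omega)
  rw [e1, e3, e4]
  linarith

private theorem U5_term {n k : ℕ} (κ V Uh Th y : ℝ) (D : ℝ)
    (hκ : ((k : ℝ) - 1) * (n - k - 1) ≤ κ * D) (hD : 0 ≤ D) (hV : 0 ≤ ((k : ℝ) - 1) * (n - k - 1))
    (hκ0 : 0 ≤ κ) (h : D * (Uh - Th) ≤ V) (hy : V ≤ y) (hV0 : 0 ≤ V) :
    ((k : ℝ) - 1) * (n - k - 1) * (Uh - Th) ≤ κ * y := by
  rcases le_total (Uh - Th) 0 with h1 | h1
  · have h2 : ((k : ℝ) - 1) * (n - k - 1) * (Uh - Th) ≤ 0 := mul_nonpos_of_nonneg_of_nonpos hV h1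
    have h3 : 0 ≤ κ * y := mul_nonneg hκ0 (hV0.trans hy)
    linarith
  · calc ((k : ℝ) - 1) * (n - k - 1) * (Uh - Th) ≤ κ * D * (Uh - Th) :=
          mul_le_mul_of_nonneg_right hκ h1
      _ = κ * (D * (Uh - Th)) := by ring
      _ ≤ κ * V := mul_le_mul_of_nonneg_left h hκ0
      _ ≤ κ * y := mul_le_mul_of_nonneg_left hy hκ0

private theorem U5_core {ε : ℝ} (hε : 0 < ε) (M : ℕ) (hM : 10 ^ 9 / (ε / 3) < (M : ℝ))
    (ε' : ℝ) (hε' : ε' = ε / 3 / 10 ^ 8) (nf : ℕ → ℕ)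
    (hnf : ∀ j n : ℕ, nf j ≤ n →
      (((2 * j + 3 : ℕ) : ℝ) - 1) * (n - ((2 * j + 3 : ℕ) : ℝ) - 1) ≤
      (1 / (((2 * j + 3 : ℕ) : ℝ) + 1) + ε') * n *
      ((cos (π / n) / sin (π / n) * sin (((2 * j + 3 : ℕ) : ℝ) * (π / n))) ^ 2 -
        cos (((2 * j + 3 : ℕ) : ℝ) * (π / n)) ^ 2))
    (E0c : ℝ) (hE0c : E0c = (2 * M + 3) * ((2 * M + 2) * (25 * 10 ^ 6))) (n1 : ℕ)
    (hn1 : E0c / (ε / 3) < n1) {n : ℕ} [NeZero n] (N : ℕ) (hn : n = 2 * N)
    (hN : n1 + 2 * M + 1000 + ∑ j ∈ range M, nf j ≤ N) (c : ℝ) (u t : ZMod n → ℝ)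
    (hbal : Big.Bal u t) (hapr : Apr c u t)
    (hev : ∑ a, |u a + u (a + (N : ZMod n))| ≤ 10 ^ 4 / (2 * N)) (r : ℕ) (hr : 0 < r) :
    (Big.QQ (Big.sm r u) (Big.sm r t) - Big.PP (Big.sm r u) (Big.sm r t)) / 2 ≤
      ∑ j ∈ range M, ‖Big.hat (yv u t) ((2 * j + 3 : ℕ) : ZMod n)‖ ^ 2 / (2 * j + 4) + ε := by
  classical
  have hε'0 : 0 < ε' := by rw [hε']; positivity
  have hMε : 10 / (2 * (M : ℝ) + 3) * 10 ^ 8 ≤ ε / 3 := by
    rw [div_lt_iff₀ (by positivity)] at hM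
    rw [div_mul_eq_mul_div, div_le_iff₀ (by positivity)]
    nlinarith only [hM, hε]
  have hNn1 : n1 ≤ N := by omega
  have hN1000 : 1000 ≤ N := by omega
  have hNM : 2 * M + 3 ≤ N := by omega
  have hN2 : 2 ≤ N := by omega
  have hNpos : (0 : ℝ) < N := by exact_mod_cast (by omega : 0 < N)
  have hnR : (n : ℝ) = 2 * N := by rw [hn]; push_cast; ring
  have hnpos : (0 : ℝ) < n := by rw [hnR]; positivity
  set U := Big.sm r u with hU
  set T := Big.sm r t with hT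
  have hbs := hbal.sm hr
  -- notation
  set y : ℕ → ℝ := fun k => ‖Big.hat (yv u t) ((k : ℕ) : ZMod n)‖ ^ 2 with hy
  have hy0 : ∀ k, 0 ≤ y k := fun k => sq_nonneg _
  set G : ℕ → ℝ := fun k => ((k : ℝ) - 1) * (n - k - 1) *
    (‖Big.hat U ((k : ℕ) : ZMod n)‖ ^ 2 - ‖Big.hat T ((k : ℕ) : ZMod n)‖ ^ 2) with hG
  have hval : ∀ k < n, ((k : ℕ) : ZMod n).val = k := fun k hk => ZMod.val_cast_of_lt hk
  -- the total
  have htot : (n : ℝ) * (Big.QQ U T - Big.PP U T) = ∑ k ∈ range n, G k := by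
    have h1 := Big.PP_sub_QQ_hat hbs.su hbs.st
    have h2 : (n : ℝ) * (Big.QQ U T - Big.PP U T) = ∑ p : ZMod n,
        (((p.val : ℝ) - 1) * (n - p.val - 1)) * (‖Big.hat U p‖ ^ 2 - ‖Big.hat T p‖ ^ 2) := by
      have h3 : (n : ℝ) * (Big.QQ U T - Big.PP U T) = -((n : ℝ) * (Big.PP U T - Big.QQ U T)) := by
        ring
      rw [h3, h1, ← sum_neg_distrib]
      refine sum_congr rfl fun p _ => ?_
      ring
    rw [h2, ← Big.Z1_sum_cast]
    refine sum_congr rfl fun k hk => ?_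
    rw [hval k (mem_range.1 hk)]
  -- the modes
  have hmode : ∀ k, k < n →
      ((cos (π / n) / sin (π / n) * sin (k * (π / n))) ^ 2 - cos (k * (π / n)) ^ 2) *
        (‖Big.hat U ((k : ℕ) : ZMod n)‖ ^ 2 - ‖Big.hat T ((k : ℕ) : ZMod n)‖ ^ 2) ≤
        ‖Big.hat (yv U T) ((k : ℕ) : ZMod n)‖ ^ 2 := by
    intro k hk
    have h1 := hat_yv U T ((k : ℕ) : ZMod n)
    rw [hval k hk] at h1
    rw [h1]
    exact mode_opt _ _ _ _
  have hyk : ∀ k : ℕ, ‖Big.hat (yv U T) ((k : ℕ) : ZMod n)‖ ^ 2 ≤ y k := by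
    intro k
    rw [hU, hT, yv_sm hr]
    exact pow_le_pow_left₀ (norm_nonneg _) (hat_sm_le hr _ _) 2
  -- Parseval
  have hpars : ∑ k ∈ Ico 2 (N + 1), y k ≤ 10 ^ 8 := by
    have h1 : ∑ k ∈ range n, y k ≤ 10 ^ 8 := by
      rw [hy, Big.Z1_sum_cast (fun p => ‖Big.hat (yv u t) p‖ ^ 2), parseval]
      exact hapr.Y
    refine le_trans (sum_le_sum_of_subset_of_nonneg ?_ (fun k _ _ => hy0 k)) h1
    intro k hk
    rw [mem_Ico] at hk
    rw [mem_range]
    omega
  -- the bounds of the modes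
  set E0 : ℝ := (2 * M + 2) * (25 * 10 ^ 6) / (n : ℝ) ^ 2 with hE0
  have hE00 : 0 ≤ E0 := by positivity
  set b : ℕ → ℝ := fun k => n * ((if k ≤ 2 * M + 2 then E0 else 0) +
    (if k ≤ 2 * M + 2 ∧ Odd k then y k / (k + 1) else 0) + (ε' + 10 / (2 * M + 3)) * y k) with hb
  have hb0 : ∀ k, 0 ≤ b k := by
    intro k
    simp only [hb]
    have h1 : 0 ≤ (if k ≤ 2 * M + 2 then E0 else 0) := by split_ifs <;> [exact hE00; exact le_rfl]
    have h2 : 0 ≤ (if k ≤ 2 * M + 2 ∧ Odd k then y k / (k + 1) else 0) := by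
      split_ifs
      · exact div_nonneg (hy0 k) (by positivity)
      · exact le_rfl
    have h3 : 0 ≤ (ε' + 10 / (2 * M + 3)) * y k := mul_nonneg (by positivity) (hy0 k)
    (clear * - hnpos hε'0; positivity)
  have hcoef0 : ∀ k, 2 ≤ k → k ≤ N → 0 ≤ ((k : ℝ) - 1) * (n - k - 1) := by
    intro k h2 hk
    have h3 : (2 : ℝ) ≤ k := by exact_mod_cast h2
    have h4 : (k : ℝ) ≤ N := by exact_mod_cast hk
    have h5 : (1000 : ℝ) ≤ N := by exact_mod_cast hN1000
    apply mul_nonneg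
    · linarith only [h3]
    · rw [hnR]
      linarith only [h4, h5]
  have hGb : ∀ k ∈ Ico 2 (N + 1), G k ≤ b k := by
    intro k hk
    rw [mem_Ico] at hk
    have hkN : k ≤ N := by omega
    have hkn : k < n := by omega
    have hc0 := hcoef0 k hk.1 hkN
    have hk2 : (2 : ℝ) ≤ k := by exact_mod_cast hk.1
    obtain ⟨hD, hCA⟩ := coef_all (n := n) (p := k) (by omega) hk.1 (by omega)
    by_cases hkM : k ≤ 2 * M + 2
    · by_cases hodd : Odd k
      · -- odd small modes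
        obtain ⟨j', hj'⟩ := hodd
        obtain ⟨j, rfl⟩ : ∃ j, j' = j + 1 := ⟨j' - 1, by omega⟩
        have hkj : k = 2 * j + 3 := by omega
        have hjM : j < M := by omega
        have hnfj : nf j ≤ n := by
          have := single_le_sum (f := nf) (fun _ _ => Nat.zero_le _) (mem_range.2 hjM)
          omega
        have h1 := hnf j n hnfj
        rw [← hkj] at h1
        have h2 : G k ≤ (1 / ((k : ℝ) + 1) + ε') * n * y k :=
          U5_term ((1 / ((k : ℝ) + 1) + ε') * n) _ _ _ _ _ h1 hD.le hc0 (by positivity)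
            (hmode k hkn) (hyk k) (sq_nonneg _)
        refine h2.trans ?_
        simp only [hb]
        rw [if_pos hkM, if_pos ⟨hkM, ⟨j + 1, by omega⟩⟩]
        have h3 : 0 ≤ (n : ℝ) * E0 := by positivity
        have h4 : 0 ≤ (n : ℝ) * (10 / (2 * M + 3) * y k) := by
          have := hy0 k
          positivity
        have h5 : (1 / ((k : ℝ) + 1) + ε') * n * y k = n * (y k / (k + 1)) + n * (ε' * y k) := by
          ring
        rw [h5]
        nlinarith only [h3, h4]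
      · -- even small modes
        rw [Nat.not_odd_iff_even] at hodd
        have h1 : ‖Big.hat U ((k : ℕ) : ZMod n)‖ ≤ 10 ^ 4 / (2 * N) / 2 :=
          (hat_sm_le hr u _).trans (U5_even hn u hev k hodd)
        have h2 : G k ≤ n * E0 := by
          have h3 : ‖Big.hat U ((k : ℕ) : ZMod n)‖ ^ 2 - ‖Big.hat T ((k : ℕ) : ZMod n)‖ ^ 2 ≤
              (10 ^ 4 / (2 * N) / 2) ^ 2 := by
            have := pow_le_pow_left₀ (norm_nonneg _) h1 2
            have h4 := sq_nonneg ‖Big.hat T ((k : ℕ) : ZMod n)‖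
            linarith only [h4, this]
          have h5 : ((k : ℝ) - 1) * (n - k - 1) ≤ (2 * M + 2) * n := by
            have h6 : (k : ℝ) ≤ 2 * M + 2 := by exact_mod_cast hkM
            apply mul_le_mul _ _ _ (by positivity)
            · linarith only [h6]
            · linarith only [hk2]
            · have h4 : (k : ℝ) ≤ N := by exact_mod_cast hkN
              have h7 : (1000 : ℝ) ≤ N := by exact_mod_cast hN1000
              rw [hnR]
              linarith only [h4, h7]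
          calc G k ≤ ((k : ℝ) - 1) * (n - k - 1) * (10 ^ 4 / (2 * N) / 2) ^ 2 :=
                mul_le_mul_of_nonneg_left h3 hc0
            _ ≤ (2 * M + 2) * n * (10 ^ 4 / (2 * N) / 2) ^ 2 :=
                mul_le_mul_of_nonneg_right h5 (sq_nonneg _)
            _ = n * E0 := by
                rw [hE0, hnR]
                ring
        refine h2.trans ?_
        simp only [hb]
        rw [if_pos hkM]
        apply mul_le_mul_of_nonneg_left _ hnpos.le
        have h3 : 0 ≤ (if k ≤ 2 * M + 2 ∧ Odd k then y k / ((k : ℝ) + 1) else 0) := by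
          split_ifs
          · exact div_nonneg (hy0 k) (by positivity)
          · exact le_rfl
        have h4 : 0 ≤ (ε' + 10 / (2 * M + 3)) * y k := mul_nonneg (by positivity) (hy0 k)
        linarith only [h3, h4]
    · -- large modes
      push Not at hkM
      have h2 : G k ≤ 10 * n / k * y k :=
        U5_term (10 * n / k) _ _ _ _ _ hCA hD.le hc0 (by positivity)
          (hmode k hkn) (hyk k) (sq_nonneg _)
      refine h2.trans ?_
      simp only [hb]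
      rw [if_neg (by omega), if_neg (by omega), add_zero, zero_add]
      have h3 : (2 * (M : ℝ) + 3) ≤ k := by exact_mod_cast (by omega : 2 * M + 3 ≤ k)
      have h4 : 10 * (n : ℝ) / k ≤ n * (10 / (2 * M + 3)) := by
        rw [mul_div_assoc', mul_comm (n : ℝ) 10]
        exact div_le_div_of_nonneg_left (by positivity) (by positivity) h3
      have h5 := mul_le_mul_of_nonneg_right h4 (hy0 k)
      have h6 : 0 ≤ n * (ε' * y k) := by
        have := hy0 k
        positivity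
      linarith only [h5, h6]
  have hsym : ∀ k, 1 ≤ k → k < 2 * N → G (2 * N - k) = G k := by
    intro k hk1 hk2
    have h1 : ((2 * N - k : ℕ) : ZMod n) = -((k : ℕ) : ZMod n) := by
      rw [← hn, Nat.cast_sub (by omega), ZMod.natCast_self, zero_sub]
    have h2 : ((2 * N - k : ℕ) : ℝ) = n - k := by
      rw [← hn, Nat.cast_sub (by omega)]
    simp only [hG]
    rw [h1, h2, hat_neg, hat_neg]
    ring
  have hG0 : G 0 = 0 := by
    simp only [hG]
    have h1 : ((0 : ℕ) : ZMod n) = 0 := Nat.cast_zero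
    rw [h1, Big.hat_zero hbs.su, Big.hat_zero hbs.st]
    simp
  have hG1 : G 1 = 0 := by
    simp only [hG]
    rw [Nat.cast_one, sub_self, zero_mul, zero_mul]
  have hfold := U5_fold hN2 G b hG0 hG1 hsym hGb (hb0 N)
  -- the sum of the bounds
  have hsumb : ∑ k ∈ Ico 2 (N + 1), b k ≤
      n * (∑ j ∈ range M, y (2 * j + 3) / (2 * j + 4) + ε) := by
    simp only [hb]
    rw [← mul_sum]
    apply mul_le_mul_of_nonneg_left _ hnpos.le
    rw [sum_add_distrib, sum_add_distrib, ← mul_sum]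
    have s1 : ∑ k ∈ Ico 2 (N + 1), (if k ≤ 2 * M + 2 then E0 else 0) ≤ ε / 3 := by
      rw [← sum_filter, sum_const, nsmul_eq_mul]
      have h1 : (((Ico 2 (N + 1)).filter (fun k => k ≤ 2 * M + 2)).card : ℝ) ≤ 2 * M + 3 := by
        have h2 : ((Ico 2 (N + 1)).filter (fun k => k ≤ 2 * M + 2)).card ≤ (range (2 * M + 3)).card := by
          apply card_le_card
          intro k hk
          rw [mem_filter] at hk
          rw [mem_range]
          omega
        rw [card_range] at h2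
        exact_mod_cast h2
      have h3 : (2 * (M : ℝ) + 3) * E0 ≤ ε / 3 := by
        have h4 : (n1 : ℝ) ≤ n := by exact_mod_cast (by omega : n1 ≤ n)
        have h5 : E0c / (ε / 3) < n := lt_of_lt_of_le hn1 h4
        rw [div_lt_iff₀ (by positivity)] at h5
        have h6 : (1 : ℝ) ≤ n := by exact_mod_cast (by omega : 1 ≤ n)
        rw [hE0, mul_div_assoc', div_le_iff₀ (by positivity)]
        have h7 : (2 * (M : ℝ) + 3) * ((2 * M + 2) * (25 * 10 ^ 6)) = E0c := by rw [hE0c]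
        rw [h7]
        have h8 : (n : ℝ) * (ε / 3) ≤ ε / 3 * n ^ 2 := by
          have : (n : ℝ) ≤ n ^ 2 := by nlinarith only [h6]
          nlinarith only [hε, this]
        linarith
      exact (mul_le_mul_of_nonneg_right h1 hE00).trans h3
    have s2 : ∑ k ∈ Ico 2 (N + 1), (if k ≤ 2 * M + 2 ∧ Odd k then y k / ((k : ℝ) + 1) else 0) ≤
        ∑ j ∈ range M, y (2 * j + 3) / (2 * j + 4) := by
      rw [← sum_filter]
      have h1 : (Ico 2 (N + 1)).filter (fun k => k ≤ 2 * M + 2 ∧ Odd k) ⊆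
          (range M).image (fun j => 2 * j + 3) := by
        intro k hk
        rw [mem_filter, mem_Ico] at hk
        obtain ⟨j', hj'⟩ := hk.2.2
        rw [mem_image]
        exact ⟨j' - 1, by rw [mem_range]; omega, by omega⟩
      refine (sum_le_sum_of_subset_of_nonneg h1 (fun k _ _ => ?_)).trans (le_of_eq ?_)
      · exact div_nonneg (hy0 k) (by positivity)
      · rw [sum_image (fun a _ b _ h => by simpa using h)]
        refine sum_congr rfl fun j _ => ?_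
        congr 1
        push_cast
        ring
    have s3 : (ε' + 10 / (2 * M + 3)) * ∑ k ∈ Ico 2 (N + 1), y k ≤ ε / 3 + ε / 3 := by
      have h1 : (ε' + 10 / (2 * M + 3)) * ∑ k ∈ Ico 2 (N + 1), y k ≤
          (ε' + 10 / (2 * M + 3)) * 10 ^ 8 := mul_le_mul_of_nonneg_left hpars (by positivity)
      have h2 : ε' * 10 ^ 8 = ε / 3 := by rw [hε']; field_simp
      refine h1.trans ?_
      rw [add_mul, h2]
      linarith only [hMε]
    refine (add_le_add (add_le_add s1 s2) s3).trans (le_of_eq ?_)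
    ring
  have hfinal : (n : ℝ) * (Big.QQ U T - Big.PP U T) ≤
      2 * (n * (∑ j ∈ range M, y (2 * j + 3) / (2 * j + 4) + ε)) := by
    have e : range n = range (2 * N) := by rw [hn]
    rw [htot, e]
    exact hfold.trans (mul_le_mul_of_nonneg_left hsumb (by norm_num))
  have h9 : (Big.QQ U T - Big.PP U T) / 2 ≤ ∑ j ∈ range M, y (2 * j + 3) / (2 * j + 4) + ε := by
    have h10 : (n : ℝ) * ((Big.QQ U T - Big.PP U T) / 2) ≤
        n * (∑ j ∈ range M, y (2 * j + 3) / (2 * j + 4) + ε) := by linarith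
    exact le_of_mul_le_mul_left h10 hnpos
  exact h9

theorem fourier_upper {ε : ℝ} (hε : 0 < ε) : ∃ M n₀ : ℕ, ∀ N : ℕ, n₀ ≤ N →
    ∀ _ : NeZero (2 * N), ∀ (c : ℝ) (u t : ZMod (2 * N) → ℝ), Big.Bal u t → Apr c u t →
    ∑ a, |u a + u (a + (N : ZMod (2 * N)))| ≤ 10 ^ 4 / (2 * N) → ∀ r : ℕ, 0 < r →
    (Big.QQ (Big.sm r u) (Big.sm r t) - Big.PP (Big.sm r u) (Big.sm r t)) / 2 ≤
      ∑ j ∈ range M, ‖Big.hat (yv u t) ((2 * j + 3 : ℕ) : ZMod (2 * N))‖ ^ 2 / (2 * j + 4) + ε := by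
  classical
  -- the choice of `M`
  obtain ⟨M, hM⟩ := exists_nat_gt (10 ^ 9 / (ε / 3))
  obtain ⟨ε', hε'⟩ : ∃ ε' : ℝ, ε' = ε / 3 / 10 ^ 8 := ⟨_, rfl⟩
  have hε'0 : 0 < ε' := by rw [hε']; positivity
  have hfix : ∀ j : ℕ, ∃ n₀ : ℕ, ∀ n : ℕ, n₀ ≤ n →
      (((2 * j + 3 : ℕ) : ℝ) - 1) * (n - ((2 * j + 3 : ℕ) : ℝ) - 1) ≤
      (1 / (((2 * j + 3 : ℕ) : ℝ) + 1) + ε') * n *
      ((cos (π / n) / sin (π / n) * sin (((2 * j + 3 : ℕ) : ℝ) * (π / n))) ^ 2 -
        cos (((2 * j + 3 : ℕ) : ℝ) * (π / n)) ^ 2) := fun j => coef_fix hε'0 (by omega)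
  choose nf hnf using hfix
  obtain ⟨n1, hn1⟩ := exists_nat_gt ((2 * (M : ℝ) + 3) * ((2 * M + 2) * (25 * 10 ^ 6)) / (ε / 3))
  exact ⟨M, n1 + 2 * M + 1000 + ∑ j ∈ range M, nf j, fun N hN hne c u t hbal hapr hev r hr =>
    U5_core hε M hM ε' hε' nf hnf _ rfl n1 hn1 N rfl hN c u t hbal hapr hev r hr⟩

end Pool.Agent.Lib.MP_e1dd62_co.Evn
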