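import Pool.Agent.Lib.MP_e1dd62_co.Evn.U1
import Pool.Agent.Lib.MP_e1dd62_co.Evn.U3
import Pool.Agent.Lib.MP_e1dd62_co.Evn.U5
import Pool.Agent.Lib.MP_e1dd62_co.Evn.C2

/-!
# The upper bound
-/

namespace Pool.Agent.Lib.MP_e1dd62_co.Evn

open Finset Real

theorem UP_near_mono {n : ℕ} [NeZero n] {δ δ' : ℝ} (h : δ ≤ δ') {u t : ZMod n → ℝ}
    (hn : Big.Near δ u t) : Big.Near δ' u t where
  su := hn.su
  st := hn.st
  cen := hn.cen
  hu a := (hn.hu a).trans h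
  ht a := (hn.ht a).trans h
  hX := hn.hX
  hY a := (hn.hY a).trans (mul_le_mul_of_nonneg_right h (hn.hX a).le)

theorem upper {ε : ℝ} (hε : 0 < ε) : ∃ n₀ : ℕ, ∀ N : ℕ, n₀ ≤ N → ∀ z : Fin (2 * N) → ℂ,
    Admissible z → Delta z ≤ ((2 * N : ℕ) : ℝ) ^ (2 * N) * exp (Jst + ε) := by
  have hε4 : 0 < ε / 4 := by positivity
  obtain ⟨δ, hδ, hδ1, n₁, h₁⟩ := smoothing hε4
  obtain ⟨n₂, h₂⟩ := setup hδ
  obtain ⟨M, n₃, h₃⟩ := fourier_upper hε4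
  obtain ⟨K₀, U₀, n₄, h₄⟩ := choose_h hε4 (10 ^ 8) M
  obtain ⟨n₅, h₅⟩ := constraint_log hε4 K₀ U₀ (10 ^ 8)
  obtain ⟨n₆, h₆⟩ := apriori
  obtain ⟨n₇, h₇⟩ := even_part
  refine ⟨n₁ + n₂ + n₃ + n₄ + n₅ + n₆ + n₇ + 1, fun N hN z hz => ?_⟩
  have hne : NeZero (2 * N) := ⟨by omega⟩
  obtain ⟨z₀, hz₀⟩ := exists_maximiser (2 * N)
  refine (hz₀.2 z hz).trans ?_
  obtain ⟨c, u, t, hcfg, hpos, hlog⟩ := h₂ (2 * N) (by omega) hne z₀ hz₀
  have hcfg' : Cfg (1 / 10 ^ 11) c u t :=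
    ⟨hcfg.c0, UP_near_mono hδ1 hcfg.near, hcfg.diam, hcfg.per, hcfg.low⟩
  have hapr := h₆ (2 * N) (by omega) hne c u t hcfg'
  have hev := h₇ N (by omega) hne c u t hcfg' hapr
  obtain ⟨r, hr, hSS⟩ := h₁ (2 * N) (by omega) hne c u t hcfg hapr
  have hF := h₃ N (by omega) hne c u t hcfg.near.toBal hapr hev r hr
  have hnpos : (0 : ℝ) < 2 * N := by
    have : 0 < N := by omega
    positivity
  have hY := hapr.Y
  push_cast at hY
  have hY2 : ∑ a, ((2 * (N : ℝ)) * Big.Y u t a 1) ^ 2 ≤ (10 : ℝ) ^ 8 * (2 * (N : ℝ)) := by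
    have : ∑ a, ((2 * (N : ℝ)) * Big.Y u t a 1) ^ 2 =
        (2 * N) * ((2 * N) * ∑ a, Big.Y u t a 1 ^ 2) := by
      simp only [mul_pow]
      rw [← mul_sum]
      ring
    rw [this, mul_comm]
    exact mul_le_mul_of_nonneg_right hY hnpos.le
  obtain ⟨h, hadm, hh⟩ := h₄ N (by omega) hne (fun a => 2 * N * Big.Y u t a 1) hY2
  have hX1 := hapr.X1
  push_cast at hX1
  have hC := h₅ N (by omega) hne c u t hcfg.c0 hcfg.diam hcfg.near.su hY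
    (hX1.trans (mul_le_mul_of_nonneg_right (by norm_num) (Real.sqrt_nonneg _))) h hadm
  have hhat : ∀ p : ZMod (2 * N), ‖Big.hat (fun a => 2 * N * Big.Y u t a 1) p‖ ^ 2 / (2 * N) ^ 2 =
      ‖Big.hat (yv u t) p‖ ^ 2 := by
    intro p
    have h1 : Big.hat (fun a => 2 * N * Big.Y u t a 1) p = ((2 * N : ℝ) : ℂ) *
        Big.hat (yv u t) p := by
      unfold Big.hat yv
      rw [mul_sum]
      refine sum_congr rfl fun a _ => ?_
      push_cast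
      ring
    rw [h1, norm_mul, Complex.norm_real, Real.norm_eq_abs, abs_of_pos hnpos, mul_pow,
      mul_div_cancel_left₀ _ (by positivity)]
  simp only [hhat] at hh
  have hfin : log (Delta z₀) ≤ (2 * N : ℕ) * log (2 * N : ℕ) + (Jst + ε) := by
    rw [hlog]
    push_cast
    linarith
  have hnpos' : (0 : ℝ) < ((2 * N : ℕ) : ℝ) := by push_cast; exact hnpos
  have hpow : (0 : ℝ) < ((2 * N : ℕ) : ℝ) ^ (2 * N) := pow_pos hnpos' _
  rw [← Real.log_le_log_iff hpos (mul_pos hpow (exp_pos _)),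
    Real.log_mul hpow.ne' (exp_pos _).ne', Real.log_pow, Real.log_exp]
  exact hfin

end Pool.Agent.Lib.MP_e1dd62_co.Evn
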