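import Pool.Agent.Lib.MP_e1dd62_co.Evn.Defs

/-!
# X01: the coefficients of the powers of a Blaschke factor
-/

namespace Pool.Agent.Lib.MP_e1dd62_co.Evn

open Finset Real

/-- the geometric series `1 / (1 + c x)` -/
noncomputable def X01_u (c : ℝ) : PowerSeries ℝ := PowerSeries.mk fun k => (-c) ^ k

theorem X01_u_coeff (c : ℝ) (k : ℕ) : PowerSeries.coeff k (X01_u c) = (-c) ^ k := by
  simp [X01_u]

theorem X01_u_mul (c : ℝ) :
    X01_u c * (1 + PowerSeries.C c * PowerSeries.X) = 1 := by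
  have e1 : X01_u c * (1 + PowerSeries.C c * PowerSeries.X) =
      X01_u c + (X01_u c * PowerSeries.C c) * PowerSeries.X := by ring
  rw [e1]
  ext k
  rw [map_add]
  rcases k with _ | k
  · rw [PowerSeries.coeff_zero_mul_X, X01_u_coeff]
    simp
  · rw [PowerSeries.coeff_succ_mul_X, PowerSeries.coeff_mul_C, X01_u_coeff, X01_u_coeff,
      PowerSeries.coeff_one, if_neg (Nat.succ_ne_zero k), pow_succ]
    ring

theorem X01_tau (c : ℝ) : tau c = (PowerSeries.X + PowerSeries.C c) * X01_u c := by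
  unfold tau
  congr 1
  symm
  rw [PowerSeries.eq_inv_iff_mul_eq_one]
  · exact X01_u_mul c
  · simp

theorem tc_one_zero (c : ℝ) : tc c 1 0 = c := by
  unfold tc
  rw [pow_one, X01_tau, add_mul, map_add, PowerSeries.coeff_zero_X_mul, PowerSeries.coeff_C_mul,
    X01_u_coeff]
  simp

theorem tc_one_succ (c : ℝ) (k : ℕ) : tc c 1 (k + 1) = (1 - c ^ 2) * (-c) ^ k := by
  unfold tc
  rw [pow_one, X01_tau, add_mul, map_add, PowerSeries.coeff_succ_X_mul, PowerSeries.coeff_C_mul,
    X01_u_coeff, X01_u_coeff, pow_succ]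
  ring

theorem X01_tc_zero (c : ℝ) (k : ℕ) : tc c 0 k = if k = 0 then 1 else 0 := by
  unfold tc
  rw [pow_zero, PowerSeries.coeff_one]

/-- absolute convergence of a product -/
theorem X01_mul_summable (f g : PowerSeries ℝ) {R : ℝ} (hR : 0 ≤ R)
    (hf : Summable fun k => |PowerSeries.coeff k f| * R ^ k)
    (hg : Summable fun k => |PowerSeries.coeff k g| * R ^ k) :
    Summable fun k => |PowerSeries.coeff k (f * g)| * R ^ k := by
  have h1 : Summable fun k => ‖PowerSeries.coeff k f * R ^ k‖ := by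
    refine hf.congr fun k => ?_
    rw [Real.norm_eq_abs, abs_mul, abs_of_nonneg (pow_nonneg hR k)]
  have h2 : Summable fun k => ‖PowerSeries.coeff k g * R ^ k‖ := by
    refine hg.congr fun k => ?_
    rw [Real.norm_eq_abs, abs_mul, abs_of_nonneg (pow_nonneg hR k)]
  have h3 := summable_norm_sum_mul_antidiagonal_of_summable_norm h1 h2
  refine h3.congr fun k => ?_
  have h4 : (∑ kl ∈ Finset.HasAntidiagonal.antidiagonal k, PowerSeries.coeff kl.1 f * R ^ kl.1 *
      (PowerSeries.coeff kl.2 g * R ^ kl.2)) = PowerSeries.coeff k (f * g) * R ^ k := by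
    rw [PowerSeries.coeff_mul, Finset.sum_mul]
    apply Finset.sum_congr rfl
    intro p hp
    rw [← Finset.HasAntidiagonal.mem_antidiagonal.mp hp, pow_add]
    ring
  rw [h4, Real.norm_eq_abs, abs_mul, abs_of_nonneg (pow_nonneg hR k)]

theorem X01_u_summable {c : ℝ} (h0 : 0 ≤ c) {R : ℝ} (hR0 : 0 ≤ R) (hR : R * c < 1) :
    Summable fun k => |PowerSeries.coeff k (X01_u c)| * R ^ k := by
  have h1 : Summable fun k : ℕ => (R * c) ^ k :=
    summable_geometric_of_lt_one (mul_nonneg hR0 h0) hR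
  refine h1.congr fun k => ?_
  rw [X01_u_coeff, abs_pow, abs_neg, abs_of_nonneg h0, mul_pow, mul_comm]

theorem X01_X_summable (R : ℝ) :
    Summable fun k => |PowerSeries.coeff k (PowerSeries.X : PowerSeries ℝ)| * R ^ k := by
  apply summable_of_ne_finset_zero (s := {1})
  intro k hk
  rw [PowerSeries.coeff_X, if_neg (by simpa using hk)]
  simp

theorem X01_C_summable (a R : ℝ) :
    Summable fun k => |PowerSeries.coeff k (PowerSeries.C a : PowerSeries ℝ)| * R ^ k := by
  apply summable_of_ne_finset_zero (s := {0})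
  intro k hk
  rw [PowerSeries.coeff_C, if_neg (by simpa using hk)]
  simp

theorem X01_add_summable (f g : PowerSeries ℝ) {R : ℝ} (hR : 0 ≤ R)
    (hf : Summable fun k => |PowerSeries.coeff k f| * R ^ k)
    (hg : Summable fun k => |PowerSeries.coeff k g| * R ^ k) :
    Summable fun k => |PowerSeries.coeff k (f + g)| * R ^ k := by
  refine Summable.of_nonneg_of_le (fun k => mul_nonneg (abs_nonneg _) (pow_nonneg hR k))
    (fun k => ?_) (hf.add hg)
  rw [map_add, ← add_mul]
  exact mul_le_mul_of_nonneg_right (abs_add_le _ _) (pow_nonneg hR k)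

theorem X01_tau_summable {c : ℝ} (h0 : 0 ≤ c) {R : ℝ} (hR0 : 0 ≤ R) (hR : R * c < 1) :
    Summable fun k => |PowerSeries.coeff k (tau c)| * R ^ k := by
  rw [X01_tau]
  exact X01_mul_summable _ _ hR0
    (X01_add_summable _ _ hR0 (X01_X_summable R) (X01_C_summable c R))
    (X01_u_summable h0 hR0 hR)

theorem tc_summable {c : ℝ} (h0 : 0 ≤ c) (h1 : c < 1) (n : ℕ) {R : ℝ} (hR0 : 0 ≤ R)
    (hR : R * c < 1) : Summable fun k => |tc c n k| * R ^ k := by
  induction n with
  | zero =>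
    have := X01_C_summable 1 R
    refine this.congr fun k => ?_
    unfold tc
    rw [pow_zero, map_one]
  | succ n ih =>
    have := X01_mul_summable (tau c ^ n) (tau c) hR0 ih (X01_tau_summable h0 hR0 hR)
    refine this.congr fun k => ?_
    unfold tc
    rw [pow_succ]

theorem X01_hasSum_one {c : ℝ} {x : ℂ} (hx : ‖x‖ * |c| < 1) :
    HasSum (fun k => (tc c 1 k : ℂ) * x ^ k) (bl c x) := by
  have hx' : ‖-(c : ℂ) * x‖ < 1 := by
    rw [norm_mul, norm_neg, Complex.norm_real, Real.norm_eq_abs, mul_comm]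
    exact hx
  have hne : (1 : ℂ) + c * x ≠ 0 := by
    intro h
    have h2 : -(c : ℂ) * x = 1 := by linear_combination -h
    rw [h2] at hx'
    simp at hx'
  have h1 := (hasSum_geometric_of_norm_lt_one hx').mul_left ((1 - (c : ℂ) ^ 2) * x)
  rw [← hasSum_nat_add_iff' 1]
  have e1 : bl c x - ∑ i ∈ range 1, (tc c 1 i : ℂ) * x ^ i =
      (1 - (c : ℂ) ^ 2) * x * (1 - -(c : ℂ) * x)⁻¹ := by
    rw [Finset.sum_range_one, tc_one_zero, pow_zero, mul_one]
    unfold bl
    have e2 : (1 : ℂ) - -(c : ℂ) * x = 1 + c * x := by ring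
    rw [e2, div_eq_mul_inv]
    have e3 : ((1 : ℂ) + c * x) * (1 + c * x)⁻¹ = 1 := mul_inv_cancel₀ hne
    linear_combination (c : ℂ) * e3
  rw [e1]
  refine h1.congr_fun ?_ |> fun h => h
  intro k
  rw [tc_one_succ]
  push_cast
  ring

theorem tc_hasSum {c : ℝ} (h0 : 0 ≤ c) (h1 : c < 1) (n : ℕ) {x : ℂ} (hx : ‖x‖ * c < 1) :
    HasSum (fun k => (tc c n k : ℂ) * x ^ k) (bl c x ^ n) := by
  have hs : ∀ m, Summable fun k => ‖(tc c m k : ℂ) * x ^ k‖ := by
    intro m
    refine (tc_summable h0 h1 m (norm_nonneg x) hx).congr fun k => ?_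
    rw [norm_mul, norm_pow, Complex.norm_real, Real.norm_eq_abs]
  induction n with
  | zero =>
    have := hasSum_ite_eq (0 : ℕ) (1 : ℂ)
    rw [pow_zero]
    refine this.congr_fun ?_ |> fun h => h
    intro k
    rw [X01_tc_zero]
    by_cases hk : k = 0
    · simp [hk]
    · simp [hk]
  | succ n ih =>
    have h2 := X01_hasSum_one (c := c) (x := x) (by rwa [abs_of_nonneg h0])
    have h3 := tsum_mul_tsum_eq_tsum_sum_antidiagonal_of_summable_norm (hs n) (hs 1)
    rw [ih.tsum_eq, h2.tsum_eq, ← pow_succ] at h3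
    rw [h3]
    have h4 : ∀ k, (∑ kl ∈ Finset.HasAntidiagonal.antidiagonal k, (tc c n kl.1 : ℂ) * x ^ kl.1 *
        ((tc c 1 kl.2 : ℂ) * x ^ kl.2)) = (tc c (n + 1) k : ℂ) * x ^ k := by
      intro k
      have : tc c (n + 1) k = ∑ kl ∈ Finset.HasAntidiagonal.antidiagonal k, tc c n kl.1 * tc c 1 kl.2 := by
        unfold tc
        rw [pow_succ, pow_one, PowerSeries.coeff_mul]
      rw [this, Complex.ofReal_sum, Finset.sum_mul]
      apply Finset.sum_congr rfl
      intro p hp
      rw [← Finset.HasAntidiagonal.mem_antidiagonal.mp hp, pow_add]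
      push_cast
      ring
    simp only [h4]
    exact ((hs (n + 1)).of_norm).hasSum

/-! ### series with exponentially decaying coefficients -/

/-- exponential decay of the coefficients -/
def X01_Dec (f : PowerSeries ℝ) : Prop :=
  ∃ R : ℝ, 1 < R ∧ Summable fun k => |PowerSeries.coeff k f| * R ^ k

theorem X01_mono (f : PowerSeries ℝ) {R R' : ℝ} (h0 : 0 ≤ R') (h : R' ≤ R)
    (hf : Summable fun k => |PowerSeries.coeff k f| * R ^ k) :
    Summable fun k => |PowerSeries.coeff k f| * R' ^ k :=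
  Summable.of_nonneg_of_le (fun k => mul_nonneg (abs_nonneg _) (pow_nonneg h0 k))
    (fun k => mul_le_mul_of_nonneg_left (pow_le_pow_left₀ h0 h k) (abs_nonneg _)) hf

theorem X01_Dec.summable_abs {f : PowerSeries ℝ} (hf : X01_Dec f) :
    Summable fun k => |PowerSeries.coeff k f| := by
  obtain ⟨R, hR, h⟩ := hf
  have := X01_mono f zero_le_one hR.le h
  simpa using this

theorem X01_Dec.add {f g : PowerSeries ℝ} (hf : X01_Dec f) (hg : X01_Dec g) :
    X01_Dec (f + g) := by
  obtain ⟨R, hR, h⟩ := hf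
  obtain ⟨R', hR', h'⟩ := hg
  have h0 : 0 ≤ min R R' := le_min (by linarith) (by linarith)
  exact ⟨min R R', lt_min hR hR', X01_add_summable f g h0 (X01_mono f h0 (min_le_left _ _) h)
    (X01_mono g h0 (min_le_right _ _) h')⟩

theorem X01_Dec.mul {f g : PowerSeries ℝ} (hf : X01_Dec f) (hg : X01_Dec g) :
    X01_Dec (f * g) := by
  obtain ⟨R, hR, h⟩ := hf
  obtain ⟨R', hR', h'⟩ := hg
  have h0 : 0 ≤ min R R' := le_min (by linarith) (by linarith)
  exact ⟨min R R', lt_min hR hR', X01_mul_summable f g h0 (X01_mono f h0 (min_le_left _ _) h)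
    (X01_mono g h0 (min_le_right _ _) h')⟩

theorem X01_Dec_C (a : ℝ) : X01_Dec (PowerSeries.C a) := ⟨2, by norm_num, X01_C_summable a 2⟩

theorem X01_Dec_one : X01_Dec 1 := by
  have := X01_Dec_C 1
  rwa [map_one] at this

theorem X01_Dec_X : X01_Dec PowerSeries.X := ⟨2, by norm_num, X01_X_summable 2⟩

theorem X01_Dec.pow {f : PowerSeries ℝ} (hf : X01_Dec f) (n : ℕ) : X01_Dec (f ^ n) := by
  induction n with
  | zero => rw [pow_zero]; exact X01_Dec_one
  | succ n ih => rw [pow_succ]; exact ih.mul hf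

theorem X01_Dec_u {c : ℝ} (h0 : 0 ≤ c) (h1 : c < 1) : X01_Dec (X01_u c) := by
  have hc : 0 < 1 + c := by linarith
  refine ⟨2 / (1 + c), ?_, X01_u_summable h0 (by positivity) ?_⟩
  · rw [lt_div_iff₀ hc]; linarith
  · rw [div_mul_eq_mul_div, div_lt_one hc]; linarith

theorem X01_Dec_tau {c : ℝ} (h0 : 0 ≤ c) (h1 : c < 1) : X01_Dec (tau c) := by
  rw [X01_tau]
  exact (X01_Dec_X.add (X01_Dec_C c)).mul (X01_Dec_u h0 h1)

/-- the operator `x d/dx` -/
noncomputable def X01_D (f : PowerSeries ℝ) : PowerSeries ℝ :=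
  PowerSeries.X * PowerSeries.derivative ℝ f

theorem X01_D_coeff (f : PowerSeries ℝ) (k : ℕ) :
    PowerSeries.coeff k (X01_D f) = k * PowerSeries.coeff k f := by
  unfold X01_D
  rcases k with _ | k
  · rw [PowerSeries.coeff_zero_X_mul]; simp
  · rw [PowerSeries.coeff_succ_X_mul, PowerSeries.coeff_derivative]
    push_cast
    ring

theorem X01_D_mul (f g : PowerSeries ℝ) : X01_D (f * g) = X01_D f * g + f * X01_D g := by
  unfold X01_D
  rw [Derivation.leibniz, smul_eq_mul, smul_eq_mul]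
  ring

theorem X01_D_add (f g : PowerSeries ℝ) : X01_D (f + g) = X01_D f + X01_D g := by
  unfold X01_D
  rw [map_add, mul_add]

theorem X01_D_C (a : ℝ) : X01_D (PowerSeries.C a) = 0 := by
  unfold X01_D
  rw [PowerSeries.derivative_C, mul_zero]

theorem X01_D_X : X01_D PowerSeries.X = PowerSeries.X := by
  unfold X01_D
  rw [PowerSeries.derivative_X, mul_one]

theorem X01_D_pow (f : PowerSeries ℝ) (n : ℕ) :
    X01_D (f ^ n) = PowerSeries.C (n : ℝ) * f ^ (n - 1) * X01_D f := by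
  induction n with
  | zero =>
    rw [pow_zero, Nat.cast_zero, map_zero, zero_mul, zero_mul, ← map_one PowerSeries.C, X01_D_C]
  | succ n ih =>
    rw [pow_succ, X01_D_mul, ih]
    rcases n with _ | n
    · simp
    · simp only [Nat.add_sub_cancel]
      have : (PowerSeries.C (((n + 1 + 1 : ℕ) : ℝ)) : PowerSeries ℝ) =
          PowerSeries.C (((n + 1 : ℕ) : ℝ)) + 1 := by
        rw [← map_one PowerSeries.C, ← map_add]
        push_cast
        rfl
      rw [this, pow_succ f n]
      ring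

theorem X01_Dec.D {f : PowerSeries ℝ} (hf : X01_Dec f) : X01_Dec (X01_D f) := by
  obtain ⟨R, hR, h⟩ := hf
  have hR0 : 0 ≤ R := by linarith
  have hs : 1 < √R := by
    rw [show (1 : ℝ) = √1 by simp]
    exact Real.sqrt_lt_sqrt zero_le_one hR
  have hss : √R * √R = R := Real.mul_self_sqrt hR0
  refine ⟨√R, hs, ?_⟩
  refine Summable.of_nonneg_of_le (fun k => mul_nonneg (abs_nonneg _)
    (pow_nonneg (by linarith) k)) (fun k => ?_) (h.mul_left (√R - 1)⁻¹)
  rw [X01_D_coeff, abs_mul, Nat.abs_cast]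
  have h1 : (k : ℝ) * (√R - 1) ≤ √R ^ k := by
    have := one_add_mul_le_pow (show (-2 : ℝ) ≤ √R - 1 by linarith) k
    have e : 1 + (√R - 1) = √R := by ring
    rw [e] at this
    linarith
  have h2 : (k : ℝ) ≤ (√R - 1)⁻¹ * √R ^ k := by
    rw [inv_mul_eq_div, le_div_iff₀ (by linarith)]
    exact h1
  have h3 : R ^ k = √R ^ k * √R ^ k := by rw [← mul_pow, hss]
  rw [h3]
  have h4 : 0 ≤ |PowerSeries.coeff k f| * √R ^ k :=
    mul_nonneg (abs_nonneg _) (pow_nonneg (by linarith) k)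
  have h5 := mul_le_mul_of_nonneg_right h2 h4
  linarith

/-- the inner product of the sequences of coefficients -/
noncomputable def X01_ip (f g : PowerSeries ℝ) : ℝ :=
  ∑' k, PowerSeries.coeff k f * PowerSeries.coeff k g

theorem X01_ip_hasSum {f g : PowerSeries ℝ} (hf : X01_Dec f) (hg : X01_Dec g) :
    HasSum (fun k => PowerSeries.coeff k f * PowerSeries.coeff k g) (X01_ip f g) := by
  apply Summable.hasSum
  have h1 := hf.summable_abs
  have h2 := hg.summable_abs
  refine Summable.of_norm_bounded (h1.mul_right (∑' j, |PowerSeries.coeff j g|)) (fun k => ?_)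
  rw [Real.norm_eq_abs, abs_mul]
  exact mul_le_mul_of_nonneg_left (h2.le_tsum k (fun j _ => abs_nonneg _)) (abs_nonneg _)

theorem X01_ip_comm (f g : PowerSeries ℝ) : X01_ip f g = X01_ip g f := by
  unfold X01_ip
  simp only [mul_comm]

theorem X01_ip_add_left {f g h : PowerSeries ℝ} (hf : X01_Dec f) (hg : X01_Dec g)
    (hh : X01_Dec h) : X01_ip (f + g) h = X01_ip f h + X01_ip g h := by
  have h1 := (X01_ip_hasSum hf hh).add (X01_ip_hasSum hg hh)
  rw [← h1.tsum_eq]
  unfold X01_ip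
  apply tsum_congr
  intro k
  rw [map_add]
  ring

theorem X01_ip_add_right {f g h : PowerSeries ℝ} (hf : X01_Dec f) (hg : X01_Dec g)
    (hh : X01_Dec h) : X01_ip h (f + g) = X01_ip h f + X01_ip h g := by
  rw [X01_ip_comm, X01_ip_add_left hf hg hh, X01_ip_comm f, X01_ip_comm g]

theorem X01_ip_C_left (a : ℝ) (f g : PowerSeries ℝ) :
    X01_ip (PowerSeries.C a * f) g = a * X01_ip f g := by
  unfold X01_ip
  rw [← tsum_mul_left]
  apply tsum_congr
  intro k
  rw [PowerSeries.coeff_C_mul]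
  ring

theorem X01_ip_C_right (a : ℝ) (f g : PowerSeries ℝ) :
    X01_ip f (PowerSeries.C a * g) = a * X01_ip f g := by
  rw [X01_ip_comm, X01_ip_C_left, X01_ip_comm]

theorem X01_ip_X {f g : PowerSeries ℝ} (hf : X01_Dec f) (hg : X01_Dec g) :
    X01_ip (PowerSeries.X * f) (PowerSeries.X * g) = X01_ip f g := by
  have h1 := (X01_ip_hasSum (X01_Dec_X.mul hf) (X01_Dec_X.mul hg)).summable
  unfold X01_ip
  rw [h1.tsum_eq_zero_add]
  simp only [PowerSeries.coeff_zero_X_mul, PowerSeries.coeff_succ_X_mul, zero_mul, zero_add]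

theorem X01_ip_one_left (f : PowerSeries ℝ) : X01_ip 1 f = PowerSeries.coeff 0 f := by
  unfold X01_ip
  rw [tsum_eq_single 0]
  · simp
  · intro k hk
    rw [PowerSeries.coeff_one, if_neg hk, zero_mul]

theorem X01_ip_one_right (f : PowerSeries ℝ) : X01_ip f 1 = PowerSeries.coeff 0 f := by
  rw [X01_ip_comm, X01_ip_one_left]

theorem X01_u_rel (c : ℝ) (f : PowerSeries ℝ) :
    X01_u c * f + PowerSeries.C c * (PowerSeries.X * (X01_u c * f)) = f := by
  have := X01_u_mul c
  linear_combination f * this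

/-- multiplication by the Blaschke factor is an isometry -/
theorem X01_isom {c : ℝ} (h0 : 0 ≤ c) (h1 : c < 1) {f g : PowerSeries ℝ} (hf : X01_Dec f)
    (hg : X01_Dec g) : X01_ip (tau c * f) (tau c * g) = X01_ip f g := by
  have hF := (X01_Dec_u h0 h1).mul hf
  have hG := (X01_Dec_u h0 h1).mul hg
  have hXF := X01_Dec_X.mul hF
  have hXG := X01_Dec_X.mul hG
  have hC := X01_Dec_C c
  have e1 : ∀ f : PowerSeries ℝ, tau c * f =
      PowerSeries.X * (X01_u c * f) + PowerSeries.C c * (X01_u c * f) := by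
    intro f
    rw [X01_tau]
    ring
  conv_rhs => rw [← X01_u_rel c f, ← X01_u_rel c g]
  rw [e1 f, e1 g]
  rw [X01_ip_add_left hXF (hC.mul hF) (hXG.add (hC.mul hG)),
    X01_ip_add_right hXG (hC.mul hG) hXF, X01_ip_add_right hXG (hC.mul hG) (hC.mul hF),
    X01_ip_add_left hF (hC.mul hXF) (hG.add (hC.mul hXG)),
    X01_ip_add_right hG (hC.mul hXG) hF, X01_ip_add_right hG (hC.mul hXG) (hC.mul hXF)]
  simp only [X01_ip_C_left, X01_ip_C_right]
  rw [X01_ip_X hF hG]
  ring

theorem X01_isom_pow {c : ℝ} (h0 : 0 ≤ c) (h1 : c < 1) (n : ℕ) {f g : PowerSeries ℝ}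
    (hf : X01_Dec f) (hg : X01_Dec g) : X01_ip (tau c ^ n * f) (tau c ^ n * g) = X01_ip f g := by
  induction n with
  | zero => rw [pow_zero, one_mul, one_mul]
  | succ n ih =>
    have ht := (X01_Dec_tau h0 h1).pow n
    have e : ∀ f, tau c ^ (n + 1) * f = tau c * (tau c ^ n * f) := by
      intro f; ring
    rw [e f, e g, X01_isom h0 h1 (ht.mul hf) (ht.mul hg), ih]

theorem X01_u_eq (c : ℝ) :
    PowerSeries.C (1 - c ^ 2) * X01_u c = 1 - PowerSeries.C c * tau c := by
  have h := X01_u_mul c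
  rw [X01_tau, map_sub, map_one, map_pow]
  linear_combination h

theorem X01_ip_neg_left (f g : PowerSeries ℝ) : X01_ip (-f) g = -X01_ip f g := by
  have := X01_ip_C_left (-1) f g
  rw [map_neg, map_one, neg_one_mul, neg_one_mul] at this
  exact this

theorem X01_Dec.neg {f : PowerSeries ℝ} (hf : X01_Dec f) : X01_Dec (-f) := by
  have := (X01_Dec_C (-1)).mul hf
  rw [map_neg, map_one, neg_one_mul] at this
  exact this

theorem X01_Dec.sub {f g : PowerSeries ℝ} (hf : X01_Dec f) (hg : X01_Dec g) :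
    X01_Dec (f - g) := by
  rw [sub_eq_add_neg]
  exact hf.add hg.neg

theorem X01_ip_sub_left {f g h : PowerSeries ℝ} (hf : X01_Dec f) (hg : X01_Dec g)
    (hh : X01_Dec h) : X01_ip (f - g) h = X01_ip f h - X01_ip g h := by
  rw [sub_eq_add_neg, X01_ip_add_left hf hg.neg hh, X01_ip_neg_left, ← sub_eq_add_neg]

theorem X01_ip_sub_right {f g h : PowerSeries ℝ} (hf : X01_Dec f) (hg : X01_Dec g)
    (hh : X01_Dec h) : X01_ip h (f - g) = X01_ip h f - X01_ip h g := by
  rw [X01_ip_comm, X01_ip_sub_left hf hg hh, X01_ip_comm f, X01_ip_comm g]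

theorem X01_coeff_zero_tau (c : ℝ) (f : PowerSeries ℝ) :
    PowerSeries.coeff 0 (tau c * f) = c * PowerSeries.coeff 0 f := by
  have h := tc_one_zero c
  unfold tc at h
  rw [pow_one] at h
  rw [PowerSeries.coeff_zero_eq_constantCoeff_apply] at h ⊢
  rw [map_mul, h, PowerSeries.coeff_zero_eq_constantCoeff_apply]

/-- the geometric series is the reproducing kernel of the zero of the Blaschke factor -/
theorem X01_ip_tau_u {c : ℝ} (h0 : 0 ≤ c) (h1 : c < 1) {f : PowerSeries ℝ} (hf : X01_Dec f) :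
    X01_ip (tau c * f) (X01_u c) = 0 := by
  have ht := X01_Dec_tau h0 h1
  have h2 : X01_ip (tau c * f) (PowerSeries.C (1 - c ^ 2) * X01_u c) = 0 := by
    rw [X01_u_eq, X01_ip_sub_right X01_Dec_one ((X01_Dec_C c).mul ht) (ht.mul hf),
      X01_ip_C_right, X01_ip_one_right, X01_coeff_zero_tau]
    have := X01_isom h0 h1 hf X01_Dec_one
    rw [mul_one, X01_ip_one_right] at this
    rw [this]
    ring
  rw [X01_ip_C_right] at h2
  rcases mul_eq_zero.mp h2 with h | h
  · exfalso; nlinarith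
  · exact h

theorem X01_ip_u_u {c : ℝ} (h0 : 0 ≤ c) (h1 : c < 1) :
    (1 - c ^ 2) * X01_ip (X01_u c) (X01_u c) = 1 := by
  have hu := X01_Dec_u h0 h1
  have ht := X01_Dec_tau h0 h1
  rw [← X01_ip_C_left, X01_u_eq, X01_ip_sub_left X01_Dec_one ((X01_Dec_C c).mul ht) hu,
    X01_ip_C_left, X01_ip_one_left, X01_u_coeff]
  have := X01_ip_tau_u h0 h1 X01_Dec_one
  rw [mul_one] at this
  rw [this]
  ring

theorem X01_D_u (c : ℝ) :
    X01_D (X01_u c) = -(PowerSeries.C c * PowerSeries.X * X01_u c ^ 2) := by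
  have h := X01_u_mul c
  have h2 := congrArg X01_D h
  rw [← map_one PowerSeries.C, X01_D_C, X01_D_mul, X01_D_add, X01_D_C, X01_D_mul, X01_D_C,
    X01_D_X, zero_mul, zero_add, zero_add, map_one] at h2
  linear_combination X01_u c * h2 - X01_D (X01_u c) * h

/-- `(D - 1) τ` -/
noncomputable def X01_w (c : ℝ) : PowerSeries ℝ :=
  -(PowerSeries.C c * (tau c * (PowerSeries.X * X01_u c))) - PowerSeries.C c * X01_u c

theorem X01_D_tau (c : ℝ) : X01_D (tau c) = tau c + X01_w c := by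
  have h1 : X01_D (tau c) =
      PowerSeries.X * X01_u c + (PowerSeries.X + PowerSeries.C c) * X01_D (X01_u c) := by
    rw [X01_tau, X01_D_mul, X01_D_add, X01_D_C, X01_D_X, add_zero]
  rw [h1, X01_D_u]
  unfold X01_w
  rw [X01_tau]
  ring

theorem X01_Dec_w {c : ℝ} (h0 : 0 ≤ c) (h1 : c < 1) : X01_Dec (X01_w c) :=
  ((X01_Dec_C c).mul ((X01_Dec_tau h0 h1).mul (X01_Dec_X.mul (X01_Dec_u h0 h1)))).neg.sub
    ((X01_Dec_C c).mul (X01_Dec_u h0 h1))

/-- `(D - n) τ ^ n` -/
theorem X01_D_sub (c : ℝ) (m : ℕ) :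
    X01_D (tau c ^ (m + 1)) - PowerSeries.C ((m : ℝ) + 1) * tau c ^ (m + 1) =
      PowerSeries.C ((m : ℝ) + 1) * (tau c ^ m * X01_w c) := by
  rw [X01_D_pow, X01_D_tau, Nat.add_sub_cancel]
  push_cast
  ring

end Pool.Agent.Lib.MP_e1dd62_co.Evn
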