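import Pool.Agent.Lib.MP_e1dd62_co.Evn.X01

/-!
# X02: multiplication by a Blaschke factor is an isometry; the second moment
-/

namespace Pool.Agent.Lib.MP_e1dd62_co.Evn

open Finset Real

theorem tc_sq {c : ℝ} (h0 : 0 ≤ c) (h1 : c < 1) (n : ℕ) :
    HasSum (fun k => tc c n k ^ 2) 1 := by
  have ht := (X01_Dec_tau h0 h1).pow n
  have h2 := X01_ip_hasSum ht ht
  have h3 := X01_isom_pow h0 h1 n X01_Dec_one X01_Dec_one
  rw [mul_one, X01_ip_one_left, PowerSeries.coeff_zero_one] at h3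
  rw [h3] at h2
  simp only [tc, pow_two]
  exact h2

theorem X02_coeff (c : ℝ) (m k : ℕ) :
    PowerSeries.coeff k (PowerSeries.C ((m : ℝ) + 1) * (tau c ^ m * X01_w c)) =
      ((k : ℝ) - (m + 1 : ℕ)) * tc c (m + 1) k := by
  rw [← X01_D_sub, map_sub, X01_D_coeff, PowerSeries.coeff_C_mul]
  unfold tc
  push_cast
  ring

theorem X02_ip_w_tau {c : ℝ} (h0 : 0 ≤ c) (h1 : c < 1) :
    X01_ip (X01_w c) (tau c) = 0 := by
  have hu := X01_Dec_u h0 h1
  have ht := X01_Dec_tau h0 h1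
  have hXu := X01_Dec_X.mul hu
  have hC := X01_Dec_C c
  unfold X01_w
  rw [X01_ip_sub_left (hC.mul (ht.mul hXu)).neg (hC.mul hu) ht, X01_ip_neg_left, X01_ip_C_left,
    X01_ip_C_left]
  have e1 := X01_isom h0 h1 hXu X01_Dec_one
  rw [mul_one, X01_ip_one_right, PowerSeries.coeff_zero_X_mul] at e1
  have e2 := X01_ip_tau_u h0 h1 X01_Dec_one
  rw [mul_one, X01_ip_comm] at e2
  rw [e1, e2]
  ring

theorem X02_ip_w_w {c : ℝ} (h0 : 0 ≤ c) (h1 : c < 1) :
    X01_ip (X01_w c) (X01_w c) = 2 * c ^ 2 / (1 - c ^ 2) := by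
  have hu := X01_Dec_u h0 h1
  have ht := X01_Dec_tau h0 h1
  have hXu := X01_Dec_X.mul hu
  have hC := X01_Dec_C c
  have hA := (hC.mul (ht.mul hXu)).neg
  have hB := hC.mul hu
  have hw := X01_Dec_w h0 h1
  have hc : (1 - c ^ 2) ≠ 0 := by nlinarith
  have e0 : X01_ip (X01_u c) (X01_u c) = 1 / (1 - c ^ 2) := by
    rw [eq_div_iff hc, mul_comm]
    exact X01_ip_u_u h0 h1
  have e1 : X01_ip (tau c * (PowerSeries.X * X01_u c)) (tau c * (PowerSeries.X * X01_u c)) =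
      1 / (1 - c ^ 2) := by
    rw [X01_isom h0 h1 hXu hXu, X01_ip_X hu hu, e0]
  have e2 : X01_ip (tau c * (PowerSeries.X * X01_u c)) (X01_u c) = 0 :=
    X01_ip_tau_u h0 h1 hXu
  have e3 : X01_ip (X01_u c) (tau c * (PowerSeries.X * X01_u c)) = 0 := by
    rw [X01_ip_comm, e2]
  have e4 : ∀ f, X01_Dec f → X01_ip f (X01_w c) =
      -(c * X01_ip f (tau c * (PowerSeries.X * X01_u c))) - c * X01_ip f (X01_u c) := by
    intro f hf
    unfold X01_w
    rw [X01_ip_sub_right hA hB hf, X01_ip_C_right, X01_ip_comm f (-_), X01_ip_neg_left,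
      X01_ip_C_left, X01_ip_comm f (tau c * _)]
  rw [e4 _ hw, X01_ip_comm (X01_w c) (tau c * _), X01_ip_comm (X01_w c) (X01_u c),
    e4 _ (ht.mul hXu), e4 _ hu, e0, e1, e2, e3]
  field_simp
  ring

theorem tc_m1 {c : ℝ} (h0 : 0 ≤ c) (h1 : c < 1) (n : ℕ) :
    HasSum (fun k : ℕ => ((k : ℝ) - n) * tc c n k ^ 2) 0 := by
  rcases n with _ | m
  · have : (fun k : ℕ => ((k : ℝ) - (0 : ℕ)) * tc c 0 k ^ 2) = fun _ => 0 := by
      funext k
      rw [X01_tc_zero]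
      rcases k with _ | k
      · simp
      · simp
    rw [this]
    exact hasSum_zero
  · have ht := X01_Dec_tau h0 h1
    have hw := X01_Dec_w h0 h1
    have h2 := X01_ip_hasSum ((X01_Dec_C ((m : ℝ) + 1)).mul ((ht.pow m).mul hw))
      (ht.pow (m + 1))
    have h3 : X01_ip (PowerSeries.C ((m : ℝ) + 1) * (tau c ^ m * X01_w c))
        (tau c ^ (m + 1)) = 0 := by
      rw [X01_ip_C_left, pow_succ, X01_isom_pow h0 h1 m hw ht, X02_ip_w_tau h0 h1, mul_zero]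
    rw [h3] at h2
    refine h2.congr_fun ?_ |> fun h => h
    intro k
    rw [X02_coeff]
    unfold tc
    ring

theorem tc_m2 {c : ℝ} (h0 : 0 ≤ c) (h1 : c < 1) (n : ℕ) :
    HasSum (fun k : ℕ => ((k : ℝ) - n) ^ 2 * tc c n k ^ 2)
      (2 * (n : ℝ) ^ 2 * c ^ 2 / (1 - c ^ 2)) := by
  rcases n with _ | m
  · have : (fun k : ℕ => ((k : ℝ) - (0 : ℕ)) ^ 2 * tc c 0 k ^ 2) = fun _ => 0 := by
      funext k
      rw [X01_tc_zero]
      rcases k with _ | k
      · simp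
      · simp
    rw [this]
    have e : 2 * (((0 : ℕ) : ℝ)) ^ 2 * c ^ 2 / (1 - c ^ 2) = 0 := by simp
    rw [e]
    exact hasSum_zero
  · have ht := X01_Dec_tau h0 h1
    have hw := X01_Dec_w h0 h1
    have hd := (X01_Dec_C ((m : ℝ) + 1)).mul ((ht.pow m).mul hw)
    have h2 := X01_ip_hasSum hd hd
    have h3 : X01_ip (PowerSeries.C ((m : ℝ) + 1) * (tau c ^ m * X01_w c))
        (PowerSeries.C ((m : ℝ) + 1) * (tau c ^ m * X01_w c)) =
        2 * (((m + 1 : ℕ)) : ℝ) ^ 2 * c ^ 2 / (1 - c ^ 2) := by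
      rw [X01_ip_C_left, X01_ip_C_right, X01_isom_pow h0 h1 m hw hw, X02_ip_w_w h0 h1]
      push_cast
      ring
    rw [h3] at h2
    refine h2.congr_fun ?_ |> fun h => h
    intro k
    rw [X02_coeff]
    ring

end Pool.Agent.Lib.MP_e1dd62_co.Evn
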