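import Pool.Agent.Lib.MP_e1dd62_co.Evn.X01

/-!
# X03: the fourth moment
-/

namespace Pool.Agent.Lib.MP_e1dd62_co.Evn

open Finset Real

/-- expansion of the inner product, two terms -/
theorem X03_ip2 (a b : ℝ) {f g h : PowerSeries ℝ} (hf : X01_Dec f) (hg : X01_Dec g)
    (hh : X01_Dec h) :
    X01_ip (PowerSeries.C a * f + PowerSeries.C b * g) h = a * X01_ip f h + b * X01_ip g h := by
  rw [X01_ip_add_left ((X01_Dec_C a).mul hf) ((X01_Dec_C b).mul hg) hh, X01_ip_C_left,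
    X01_ip_C_left]

/-- `u²` in terms of `τ` -/
theorem X03_u2 (c : ℝ) :
    PowerSeries.C ((1 - c ^ 2) ^ 2) * X01_u c ^ 2 =
      1 - PowerSeries.C (2 * c) * tau c + PowerSeries.C (c ^ 2) * tau c ^ 2 := by
  have h := X01_u_eq c
  have e1 : PowerSeries.C ((1 - c ^ 2) ^ 2) * X01_u c ^ 2 =
      (PowerSeries.C (1 - c ^ 2) * X01_u c) ^ 2 := by
    rw [map_pow]
    ring
  rw [e1, h, map_mul, map_pow]
  have e2 : (PowerSeries.C (2 : ℝ)) = 2 := map_ofNat PowerSeries.C 2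
  rw [e2]
  ring

theorem X03_ip_u2 {c : ℝ} (h0 : 0 ≤ c) (h1 : c < 1) {f : PowerSeries ℝ} (hf : X01_Dec f) :
    (1 - c ^ 2) ^ 2 * X01_ip f (X01_u c ^ 2) =
      PowerSeries.coeff 0 f - 2 * c * X01_ip f (tau c) + c ^ 2 * X01_ip f (tau c ^ 2) := by
  have ht := X01_Dec_tau h0 h1
  rw [← X01_ip_C_right, X03_u2,
    X01_ip_add_right (X01_Dec_one.sub ((X01_Dec_C _).mul ht)) ((X01_Dec_C _).mul (ht.pow 2)) hf,
    X01_ip_sub_right X01_Dec_one ((X01_Dec_C _).mul ht) hf, X01_ip_C_right, X01_ip_C_right,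
    X01_ip_one_right]

theorem X03_double_zero {c : ℝ} (h0 : 0 ≤ c) (h1 : c < 1) {f : PowerSeries ℝ}
    (hf : X01_Dec f) : X01_ip (tau c ^ 2 * f) (X01_u c ^ 2) = 0 := by
  have ht := X01_Dec_tau h0 h1
  have h2 := X03_ip_u2 h0 h1 ((ht.pow 2).mul hf)
  have e1 : X01_ip (tau c ^ 2 * f) (tau c) = c * PowerSeries.coeff 0 f := by
    have := X01_isom h0 h1 (ht.mul hf) X01_Dec_one
    rw [mul_one, X01_ip_one_right, X01_coeff_zero_tau, ← mul_assoc, ← pow_two] at this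
    exact this
  have e2 : X01_ip (tau c ^ 2 * f) (tau c ^ 2) = PowerSeries.coeff 0 f := by
    have := X01_isom_pow h0 h1 2 hf X01_Dec_one
    rw [mul_one, X01_ip_one_right] at this
    exact this
  have e3 : PowerSeries.coeff 0 (tau c ^ 2 * f) = c ^ 2 * PowerSeries.coeff 0 f := by
    rw [pow_two, mul_assoc, X01_coeff_zero_tau, X01_coeff_zero_tau]
    ring
  rw [e1, e2, e3] at h2
  have h3 : (1 - c ^ 2) ^ 2 * X01_ip (tau c ^ 2 * f) (X01_u c ^ 2) = 0 := by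
    rw [h2]; ring
  rcases mul_eq_zero.mp h3 with h | h
  · exfalso
    have : 0 < 1 - c ^ 2 := by nlinarith
    have := pow_pos this 2
    linarith
  · exact h

/-- basic inner products of the series `u`, `u²` -/
theorem X03_basic {c : ℝ} (h0 : 0 ≤ c) (h1 : c < 1) :
    X01_ip (X01_u c ^ 2) (tau c) = -c / (1 - c ^ 2) ∧
    X01_ip (PowerSeries.X * X01_u c ^ 2) (tau c) = 1 / (1 - c ^ 2) := by
  have hu := X01_Dec_u h0 h1
  have hu2 := hu.pow 2
  have ht := X01_Dec_tau h0 h1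
  have hX := X01_Dec_X
  have hC := X01_Dec_C c
  have hc : (1 - c ^ 2) ≠ 0 := by nlinarith
  have euu : X01_ip (X01_u c) (X01_u c) = 1 / (1 - c ^ 2) := by
    rw [eq_div_iff hc, mul_comm]
    exact X01_ip_u_u h0 h1
  -- `τ = X u + c u`
  have etau : ∀ f, X01_Dec f → X01_ip f (tau c) =
      X01_ip f (PowerSeries.X * X01_u c) + c * X01_ip f (X01_u c) := by
    intro f hf
    rw [X01_tau, add_mul, X01_ip_add_right (hX.mul hu) (hC.mul hu) hf, X01_ip_C_right]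
  -- `(1 - t) ip f u = f 0 - c ip f τ`
  have eu : ∀ f, X01_Dec f → (1 - c ^ 2) * X01_ip f (X01_u c) =
      PowerSeries.coeff 0 f - c * X01_ip f (tau c) := by
    intro f hf
    rw [← X01_ip_C_right, X01_u_eq, X01_ip_sub_right X01_Dec_one (hC.mul ht) hf,
      X01_ip_C_right, X01_ip_one_right]
  -- `u² = u - c X u²`
  have erel : X01_u c ^ 2 = X01_u c - PowerSeries.C c * (PowerSeries.X * X01_u c ^ 2) := by
    have := X01_u_mul c
    linear_combination X01_u c * this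
  have k1 := eu (PowerSeries.X * X01_u c) (hX.mul hu)
  have k2 := etau (PowerSeries.X * X01_u c) (hX.mul hu)
  rw [X01_ip_X hu hu, euu] at k2
  rw [k2, PowerSeries.coeff_zero_X_mul] at k1
  -- k1 : (1 - t) ip (X u) u = 0 - c (1/(1-t) + c ip (X u) u)
  have k3 : X01_ip (PowerSeries.X * X01_u c) (X01_u c) = -c / (1 - c ^ 2) := by
    have : X01_ip (PowerSeries.X * X01_u c) (X01_u c) = -c * (1 / (1 - c ^ 2)) := by
      linear_combination k1
    rw [this]
    ring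
  -- ip u² (X u)
  have k4 : X01_ip (X01_u c ^ 2) (PowerSeries.X * X01_u c) =
      -c / (1 - c ^ 2) - c * X01_ip (X01_u c ^ 2) (X01_u c) := by
    conv_lhs => rw [erel]
    rw [X01_ip_sub_left hu (hC.mul (hX.mul hu2)) (hX.mul hu), X01_ip_C_left,
      X01_ip_X hu2 hu, X01_ip_comm (X01_u c), k3]
  have k5 : X01_ip (X01_u c ^ 2) (tau c) = -c / (1 - c ^ 2) := by
    rw [etau _ hu2, k4]
    ring
  refine ⟨k5, ?_⟩
  -- ip u² u
  have k6 := eu _ hu2
  rw [k5] at k6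
  have k6' : PowerSeries.coeff 0 (X01_u c ^ 2) = 1 := by
    rw [PowerSeries.coeff_zero_eq_constantCoeff_apply, map_pow,
      ← PowerSeries.coeff_zero_eq_constantCoeff_apply, X01_u_coeff]
    simp
  rw [k6'] at k6
  -- ip u u = ip u² u + c ip (X u²) u
  have k7 : X01_ip (X01_u c ^ 2) (X01_u c) =
      X01_ip (X01_u c) (X01_u c) - c * X01_ip (PowerSeries.X * X01_u c ^ 2) (X01_u c) := by
    conv_lhs => rw [erel]
    rw [X01_ip_sub_left hu (hC.mul (hX.mul hu2)) hu, X01_ip_C_left]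
  rw [etau _ (hX.mul hu2), X01_ip_X hu2 hu]
  rw [euu] at k7
  linarith

theorem X03_U {c : ℝ} (h0 : 0 ≤ c) (h1 : c < 1) :
    X01_ip (X01_u c ^ 2) (X01_u c ^ 2) = (1 + c ^ 2) / (1 - c ^ 2) ^ 3 := by
  have hu2 := (X01_Dec_u h0 h1).pow 2
  have hc : 0 < (1 - c ^ 2) := by nlinarith
  have k6' : PowerSeries.coeff 0 (X01_u c ^ 2) = 1 := by
    rw [PowerSeries.coeff_zero_eq_constantCoeff_apply, map_pow,
      ← PowerSeries.coeff_zero_eq_constantCoeff_apply, X01_u_coeff]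
    simp
  have h2 := X03_ip_u2 h0 h1 hu2
  have h3 := X03_double_zero h0 h1 X01_Dec_one
  rw [mul_one, X01_ip_comm] at h3
  rw [(X03_basic h0 h1).1, h3, k6'] at h2
  rw [eq_div_iff (pow_pos hc 3).ne']
  have h4 : X01_ip (X01_u c ^ 2) (X01_u c ^ 2) * (1 - c ^ 2) ^ 3 =
      (1 - c ^ 2) * ((1 - c ^ 2) ^ 2 * X01_ip (X01_u c ^ 2) (X01_u c ^ 2)) := by ring
  rw [h4, h2]
  field_simp
  ring

theorem X03_beta {c : ℝ} (h0 : 0 ≤ c) (h1 : c < 1) :
    X01_ip (tau c * (PowerSeries.X * X01_u c ^ 2)) (X01_u c ^ 2) =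
      c ^ 2 / (1 - c ^ 2) ^ 3 := by
  have hu2 := (X01_Dec_u h0 h1).pow 2
  have ht := X01_Dec_tau h0 h1
  have hXu := X01_Dec_X.mul hu2
  have hc : 0 < (1 - c ^ 2) := by nlinarith
  have h2 := X03_ip_u2 h0 h1 (ht.mul hXu)
  have e1 : X01_ip (tau c * (PowerSeries.X * X01_u c ^ 2)) (tau c) = 0 := by
    have := X01_isom h0 h1 hXu X01_Dec_one
    rw [mul_one, X01_ip_one_right, PowerSeries.coeff_zero_X_mul] at this
    exact this
  have e2 : X01_ip (tau c * (PowerSeries.X * X01_u c ^ 2)) (tau c ^ 2) = 1 / (1 - c ^ 2) := by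
    rw [pow_two (tau c), X01_isom h0 h1 hXu ht, (X03_basic h0 h1).2]
  rw [e1, e2, X01_coeff_zero_tau, PowerSeries.coeff_zero_X_mul] at h2
  rw [eq_div_iff (pow_pos hc 3).ne']
  have h4 : X01_ip (tau c * (PowerSeries.X * X01_u c ^ 2)) (X01_u c ^ 2) * (1 - c ^ 2) ^ 3 =
      (1 - c ^ 2) * ((1 - c ^ 2) ^ 2 *
        X01_ip (tau c * (PowerSeries.X * X01_u c ^ 2)) (X01_u c ^ 2)) := by ring
  rw [h4, h2]
  field_simp
  ring

/-- `τ² (P - 1)² / t` -/
noncomputable def X03_p (c : ℝ) : PowerSeries ℝ :=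
  tau c ^ 2 * (PowerSeries.X * (PowerSeries.X * X01_u c ^ 2)) +
    2 * (tau c * (PowerSeries.X * X01_u c ^ 2)) + X01_u c ^ 2

/-- `τ² D P / c` -/
noncomputable def X03_v (c : ℝ) : PowerSeries ℝ :=
  PowerSeries.X * X01_u c ^ 2 - tau c ^ 2 * (PowerSeries.X * X01_u c ^ 2)

theorem X03_w_sq (c : ℝ) : X01_w c ^ 2 = PowerSeries.C (c ^ 2) * X03_p c := by
  unfold X01_w X03_p
  rw [map_pow]
  ring

theorem X03_Dw (c : ℝ) :
    tau c * (X01_D (X01_w c) - X01_w c) - X01_w c ^ 2 = PowerSeries.C c * X03_v c := by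
  have h := X01_u_mul c
  have e1 : X01_D (X01_w c) = -(PowerSeries.C c * ((tau c + X01_w c) *
      (PowerSeries.X * X01_u c) + tau c * (PowerSeries.X * X01_u c +
      PowerSeries.X * X01_D (X01_u c)))) - PowerSeries.C c * X01_D (X01_u c) := by
    conv_lhs => unfold X01_w
    have e2 : ∀ f g : PowerSeries ℝ, X01_D (-f - g) = -X01_D f - X01_D g := by
      intro f g
      unfold X01_D
      rw [map_sub, map_neg]
      ring
    have e3 : ∀ f : PowerSeries ℝ, X01_D (PowerSeries.C c * f) = PowerSeries.C c * X01_D f := by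
      intro f
      rw [X01_D_mul, X01_D_C]
      ring
    rw [e2, e3, e3, X01_D_mul, X01_D_tau, X01_D_mul, X01_D_X]
  rw [e1, X01_D_u]
  unfold X03_v
  unfold X01_w
  have ht := X01_tau c
  set T := tau c
  set C := (PowerSeries.C c : PowerSeries ℝ)
  set U := X01_u c
  set X := (PowerSeries.X : PowerSeries ℝ)
  linear_combination (C * X * U * T ^ 2) * h + C * U * ht

theorem X03_key {c : ℝ} (h0 : 0 ≤ c) (h1 : c < 1) :
    X01_ip (X03_p c) (X03_p c) = (6 + 14 * c ^ 2) / (1 - c ^ 2) ^ 3 ∧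
    X01_ip (X03_p c) (X03_v c) = 0 ∧
    X01_ip (X03_v c) (X03_v c) = 2 * (1 + c ^ 2) / (1 - c ^ 2) ^ 3 := by
  have hu2 := (X01_Dec_u h0 h1).pow 2
  have ht := X01_Dec_tau h0 h1
  have ht2 := ht.pow 2
  have hX := X01_Dec_X
  have hXu := hX.mul hu2
  have hXXu := hX.mul hXu
  have hc : 0 < (1 - c ^ 2) := by nlinarith
  have hU := X03_U h0 h1
  have hβ := X03_beta h0 h1
  have hA := ht2.mul hXXu
  have hB := ht.mul hXu
  have hQ := ht2.mul hXu
  set G := X01_u c ^ 2 with hG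
  set P := PowerSeries.X * G with hP
  set A := tau c ^ 2 * (PowerSeries.X * P) with hAd
  set B := tau c * P with hBd
  set Q := tau c ^ 2 * P with hQd
  have hPP : X01_ip P P = X01_ip G G := X01_ip_X hu2 hu2
  have hAA : X01_ip A A = X01_ip G G := by
    rw [hAd, X01_isom_pow h0 h1 2 hXXu hXXu, X01_ip_X hXu hXu, hPP]
  have hBB : X01_ip B B = X01_ip G G := by
    rw [hBd, X01_isom h0 h1 hXu hXu, hPP]
  have hQQ : X01_ip Q Q = X01_ip G G := by
    rw [hQd, X01_isom_pow h0 h1 2 hXu hXu, hPP]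
  have hAB : X01_ip A B = X01_ip B G := by
    have e1 : A = tau c * (PowerSeries.X * (tau c * P)) := by rw [hAd]; ring
    have e2 : B = tau c * P := hBd
    rw [e1, e2, X01_isom h0 h1 (hX.mul hB) hXu, hP, X01_ip_X (ht.mul hXu) hu2]
  have hAG : X01_ip A G = 0 := X03_double_zero h0 h1 hXXu
  have hAP : X01_ip A P = 0 := by
    have e1 : A = PowerSeries.X * (tau c ^ 2 * P) := by rw [hAd]; ring
    have e2 : P = PowerSeries.X * G := hP
    rw [e1]
    conv_lhs => rw [e2]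
    rw [X01_ip_X (ht2.mul (hX.mul hu2)) hu2]
    exact X03_double_zero h0 h1 hXu
  have hAQ : X01_ip A Q = X01_ip P G := by
    rw [hAd, hQd, X01_isom_pow h0 h1 2 (hX.mul hXu) hXu, hP, X01_ip_X hXu hu2]
  have hBP : X01_ip B P = X01_ip (tau c * G) G := by
    have e1 : B = PowerSeries.X * (tau c * G) := by rw [hBd, hP]; ring
    rw [e1, hP, X01_ip_X (ht.mul hu2) hu2]
  have hBQ : X01_ip B Q = X01_ip (tau c * G) G := by
    have e1 : Q = tau c * (PowerSeries.X * (tau c * G)) := by rw [hQd, hP]; ring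
    rw [e1, hBd, X01_isom h0 h1 hXu (hX.mul (ht.mul hu2)), hP, X01_ip_X hu2 (ht.mul hu2),
      X01_ip_comm]
  have hGP : X01_ip G P = X01_ip P G := X01_ip_comm _ _
  have hGQ : X01_ip G Q = 0 := by
    rw [X01_ip_comm]
    exact X03_double_zero h0 h1 hXu
  have hPQ : X01_ip P Q = 0 := by
    have e1 : Q = PowerSeries.X * (tau c ^ 2 * G) := by rw [hQd, hP]; ring
    rw [e1, hP, X01_ip_X hu2 (ht2.mul hu2), X01_ip_comm]
    exact X03_double_zero h0 h1 hu2
  have ep : X03_p c = PowerSeries.C 1 * A + PowerSeries.C 2 * B + PowerSeries.C 1 * G := by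
    unfold X03_p
    have e2 : (PowerSeries.C (2 : ℝ)) = 2 := map_ofNat PowerSeries.C 2
    rw [e2, map_one]
    ring
  have hpd : X01_Dec (X03_p c) := by
    rw [ep]
    exact (((X01_Dec_C 1).mul hA).add ((X01_Dec_C 2).mul hB)).add ((X01_Dec_C 1).mul hu2)
  have ev : X03_v c = P - Q := rfl
  have hvd : X01_Dec (X03_v c) := hXu.sub hQ
  have expp : ∀ f, X01_Dec f → X01_ip (X03_p c) f =
      X01_ip A f + 2 * X01_ip B f + X01_ip G f := by
    intro f hf
    rw [ep, X01_ip_add_left (((X01_Dec_C 1).mul hA).add ((X01_Dec_C 2).mul hB))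
      ((X01_Dec_C 1).mul hu2) hf, X03_ip2 1 2 hA hB hf, X01_ip_C_left]
    ring
  have expv : ∀ f, X01_Dec f → X01_ip f (X03_v c) = X01_ip f P - X01_ip f Q := by
    intro f hf
    rw [ev, X01_ip_sub_right hXu hQ hf]
  refine ⟨?_, ?_, ?_⟩
  · rw [expp _ hpd, X01_ip_comm A, X01_ip_comm B, X01_ip_comm G, expp _ hA, expp _ hB,
      expp _ hu2, hAA, X01_ip_comm B A, hAB, X01_ip_comm G A, hAG, hBB, X01_ip_comm G B, hβ, hU]
    field_simp
    ring
  · rw [expv _ hpd, expp _ hXu, expp _ hQ, hAP, hAQ, hBP, hBQ, hGP, hGQ]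
    ring
  · have e1 : X01_ip (X03_v c) (X03_v c) = X01_ip (X03_v c) P - X01_ip (X03_v c) Q :=
      expv _ hvd
    rw [e1, X01_ip_comm _ P, X01_ip_comm _ Q, expv _ hXu, expv _ hQ, hPP, hPQ,
      X01_ip_comm Q P, hPQ, hQQ, hU]
    field_simp
    ring

theorem X03_E2 (c : ℝ) (m : ℕ) :
    tau c * (X01_D (PowerSeries.C ((m : ℝ) + 1) * (tau c ^ m * X01_w c)) -
      PowerSeries.C ((m : ℝ) + 1) * (PowerSeries.C ((m : ℝ) + 1) * (tau c ^ m * X01_w c))) =
    PowerSeries.C ((m : ℝ) + 1) * (tau c ^ m *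
      (PowerSeries.C (((m : ℝ) + 1) * c ^ 2) * X03_p c + PowerSeries.C c * X03_v c)) := by
  have h1 : tau c * X01_D (tau c ^ m) = PowerSeries.C (m : ℝ) * tau c ^ m * X01_D (tau c) := by
    rw [X01_D_pow]
    rcases m with _ | m
    · simp
    · rw [Nat.add_sub_cancel, pow_succ]
      ring
  have h2 := X03_Dw c
  have h3 := X03_w_sq c
  have h4 := X01_D_tau c
  rw [X01_D_mul, X01_D_C, X01_D_mul, map_mul]
  have e1 : (PowerSeries.C ((m : ℝ) + 1)) = PowerSeries.C (m : ℝ) + 1 := by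
    rw [map_add, map_one]
  rw [e1]
  linear_combination (PowerSeries.C (m : ℝ) + 1) * X01_w c * h1 +
    (PowerSeries.C (m : ℝ) + 1) * tau c ^ m * h2 +
    (PowerSeries.C (m : ℝ) + 1) ^ 2 * tau c ^ m * h3 +
    (PowerSeries.C (m : ℝ) + 1) * PowerSeries.C (m : ℝ) * tau c ^ m * X01_w c * h4

theorem tc_m4 {c : ℝ} (h0 : 0 ≤ c) (h1 : c < 1) (n : ℕ) :
    HasSum (fun k : ℕ => ((k : ℝ) - n) ^ 4 * tc c n k ^ 2)
      (2 * (n : ℝ) ^ 2 * c ^ 2 / (1 - c ^ 2) ^ 3 *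
        (1 + c ^ 2 + (n : ℝ) ^ 2 * (3 * c ^ 2 + 7 * c ^ 4))) := by
  rcases n with _ | m
  · have : (fun k : ℕ => ((k : ℝ) - (0 : ℕ)) ^ 4 * tc c 0 k ^ 2) = fun _ => 0 := by
      funext k
      rw [X01_tc_zero]
      rcases k with _ | k
      · simp
      · simp
    rw [this]
    have e : 2 * (((0 : ℕ) : ℝ)) ^ 2 * c ^ 2 / (1 - c ^ 2) ^ 3 *
        (1 + c ^ 2 + (((0 : ℕ) : ℝ)) ^ 2 * (3 * c ^ 2 + 7 * c ^ 4)) = 0 := by simp
    rw [e]
    exact hasSum_zero
  · have ht := X01_Dec_tau h0 h1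
    have hw := X01_Dec_w h0 h1
    have hu2 := (X01_Dec_u h0 h1).pow 2
    have hX := X01_Dec_X
    have hXu := hX.mul hu2
    have hc : 0 < (1 - c ^ 2) := by nlinarith
    have hpd : X01_Dec (X03_p c) := by
      unfold X03_p
      have e2 : (2 : PowerSeries ℝ) = (PowerSeries.C (2 : ℝ)) := (map_ofNat PowerSeries.C 2).symm
      rw [e2]
      exact (((ht.pow 2).mul (hX.mul hXu)).add ((X01_Dec_C 2).mul (ht.mul hXu))).add hu2
    have hvd : X01_Dec (X03_v c) := hXu.sub ((ht.pow 2).mul hXu)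
    set E := PowerSeries.C ((m : ℝ) + 1) * (tau c ^ m * X01_w c) with hE
    have hEd : X01_Dec E := (X01_Dec_C _).mul ((ht.pow m).mul hw)
    set F := X01_D E - PowerSeries.C ((m : ℝ) + 1) * E with hF
    have hFd : X01_Dec F := hEd.D.sub ((X01_Dec_C _).mul hEd)
    have hs := X01_ip_hasSum hFd hFd
    obtain ⟨k1, k2, k3⟩ := X03_key h0 h1
    have hV : X01_Dec (PowerSeries.C (((m : ℝ) + 1) * c ^ 2) * X03_p c +
        PowerSeries.C c * X03_v c) := ((X01_Dec_C _).mul hpd).add ((X01_Dec_C _).mul hvd)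
    have hip : X01_ip F F = 2 * (((m + 1 : ℕ)) : ℝ) ^ 2 * c ^ 2 / (1 - c ^ 2) ^ 3 *
        (1 + c ^ 2 + (((m + 1 : ℕ)) : ℝ) ^ 2 * (3 * c ^ 2 + 7 * c ^ 4)) := by
      rw [← X01_isom h0 h1 hFd hFd, hF, hE, X03_E2, X01_ip_C_left, X01_ip_C_right,
        X01_isom_pow h0 h1 m hV hV, X03_ip2 _ _ hpd hvd hV, X01_ip_comm (X03_p c),
        X01_ip_comm (X03_v c), X03_ip2 _ _ hpd hvd hpd, X03_ip2 _ _ hpd hvd hvd, k1, k2, k3,
        X01_ip_comm, k2]
      push_cast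
      field_simp
      ring
    rw [hip] at hs
    refine hs.congr_fun ?_ |> fun h => h
    intro k
    have hco : PowerSeries.coeff k F = ((k : ℝ) - (m + 1 : ℕ)) ^ 2 * tc c (m + 1) k := by
      have hcE : PowerSeries.coeff k E = ((k : ℝ) - (m + 1 : ℕ)) * tc c (m + 1) k := by
        rw [hE, ← X01_D_sub, map_sub, X01_D_coeff, PowerSeries.coeff_C_mul]
        unfold tc
        push_cast
        ring
      have e5 : PowerSeries.coeff k (PowerSeries.C ((m : ℝ) + 1) * E) =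
          ((m : ℝ) + 1) * PowerSeries.coeff k E := PowerSeries.coeff_C_mul ..
      rw [hF, map_sub, X01_D_coeff, e5, hcE]
      push_cast
      ring
    rw [hco]
    ring

end Pool.Agent.Lib.MP_e1dd62_co.Evn
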