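import Pool.Agent.Lib.MP_e1dd62_co.Evn.X01

/-!
# X04: vanishing moments
-/

namespace Pool.Agent.Lib.MP_e1dd62_co.Evn

open Finset Real

theorem X04_iter_coeff (f : PowerSeries ℝ) (i l : ℕ) :
    PowerSeries.coeff l (X01_D^[i] f) = (l : ℝ) ^ i * PowerSeries.coeff l f := by
  induction i with
  | zero => simp
  | succ i ih =>
    rw [Function.iterate_succ_apply', X01_D_coeff, ih, pow_succ]
    ring

theorem X04_iter {c : ℝ} (h0 : 0 ≤ c) (h1 : c < 1) (n e i : ℕ) :
    ∀ j, i + j = e → ∃ G, X01_Dec G ∧ X01_D^[i] (tau c ^ (n + e)) = tau c ^ (n + j) * G := by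
  have ht := X01_Dec_tau h0 h1
  induction i with
  | zero =>
    intro j hj
    refine ⟨1, X01_Dec_one, ?_⟩
    rw [Function.iterate_zero, id, mul_one, ← hj, zero_add]
  | succ i ih =>
    intro j hj
    obtain ⟨G, hG, h⟩ := ih (j + 1) (by omega)
    refine ⟨PowerSeries.C (((n + j + 1 : ℕ) : ℝ)) * X01_D (tau c) * G + tau c * X01_D G,
      (((X01_Dec_C _).mul ht.D).mul hG).add (ht.mul hG.D), ?_⟩
    rw [Function.iterate_succ_apply', h, X01_D_mul, ← add_assoc, X01_D_pow, Nat.add_sub_cancel]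
    ring

theorem X04_pol {c : ℝ} (h0 : 0 ≤ c) (h1 : c < 1) (n e : ℕ) (P : Polynomial ℝ)
    (hP : P.natDegree ≤ e) :
    ∃ G, X01_Dec G ∧ ∀ l : ℕ,
      PowerSeries.coeff l (tau c ^ n * G) = tc c (n + e) l * P.eval (l : ℝ) := by
  have ht := X01_Dec_tau h0 h1
  have key : ∀ m, m ≤ e + 1 → ∃ G, X01_Dec G ∧ ∀ l : ℕ,
      PowerSeries.coeff l (tau c ^ n * G) =
        tc c (n + e) l * ∑ i ∈ range m, P.coeff i * (l : ℝ) ^ i := by
    intro m
    induction m with
    | zero =>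
      intro _
      refine ⟨PowerSeries.C 0, X01_Dec_C 0, fun l => ?_⟩
      simp
    | succ m ih =>
      intro hm
      obtain ⟨G, hG, h⟩ := ih (by omega)
      obtain ⟨G', hG', h'⟩ := X04_iter h0 h1 n e m (e - m) (by omega)
      refine ⟨G + PowerSeries.C (P.coeff m) * (tau c ^ (e - m) * G'),
        hG.add ((X01_Dec_C _).mul ((ht.pow _).mul hG')), fun l => ?_⟩
      have e1 : tau c ^ n * (G + PowerSeries.C (P.coeff m) * (tau c ^ (e - m) * G')) =
          tau c ^ n * G + PowerSeries.C (P.coeff m) * (tau c ^ (n + (e - m)) * G') := by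
        rw [pow_add]
        ring
      rw [e1, ← h', map_add, h, PowerSeries.coeff_C_mul, X04_iter_coeff, sum_range_succ]
      unfold tc
      ring
  obtain ⟨G, hG, h⟩ := key (e + 1) le_rfl
  refine ⟨G, hG, fun l => ?_⟩
  rw [h, Polynomial.eval_eq_sum_range' (Nat.lt_succ_of_le hP)]

theorem tc_vanish {c : ℝ} (h0 : 0 ≤ c) (h1 : c < 1) (n e q : ℕ) (hq : 1 ≤ q)
    (P : Polynomial ℝ) (hP : P.natDegree ≤ e) :
    HasSum (fun l : ℕ => tc c n (l + q) * tc c (n + e) l * P.eval (l : ℝ)) 0 := by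
  obtain ⟨G, hG, h⟩ := X04_pol h0 h1 n e P hP
  have ht := (X01_Dec_tau h0 h1).pow n
  have hX := (X01_Dec_X.pow q).mul hG
  have h2 := X01_ip_hasSum ht (ht.mul hX)
  have h3 := X01_isom_pow h0 h1 n X01_Dec_one hX
  rw [mul_one] at h3
  have h4 : X01_ip 1 ((PowerSeries.X : PowerSeries ℝ) ^ q * G) = 0 := by
    rw [X01_ip_one_left, PowerSeries.coeff_X_pow_mul', if_neg (by omega)]
  rw [h3, h4, ← hasSum_nat_add_iff' q] at h2
  have e1 : tau c ^ n * (PowerSeries.X ^ q * G) = PowerSeries.X ^ q * (tau c ^ n * G) := by ring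
  rw [e1] at h2
  have h5 : ∑ i ∈ range q, PowerSeries.coeff i (tau c ^ n) *
      PowerSeries.coeff i ((PowerSeries.X : PowerSeries ℝ) ^ q * (tau c ^ n * G)) = 0 := by
    apply Finset.sum_eq_zero
    intro i hi
    rw [PowerSeries.coeff_X_pow_mul', if_neg (by simpa using hi), mul_zero]
  rw [h5, sub_zero] at h2
  refine h2.congr_fun ?_ |> fun h => h
  intro l
  rw [PowerSeries.coeff_X_pow_mul, h, mul_assoc]
  rfl

end Pool.Agent.Lib.MP_e1dd62_co.Evn
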