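import Pool.Agent.Lib.MP_e1dd62_co.Evn.X02
import Pool.Agent.Lib.MP_e1dd62_co.Evn.X03
import Pool.Agent.Lib.MP_e1dd62_co.Evn.X04

/-!
# X05: the cross sums with small difference of frequencies
-/

namespace Pool.Agent.Lib.MP_e1dd62_co.Evn

open Finset Real

/-- `√(1 + t + n² (3 t + 7 t²))` with `t = c²`. -/
noncomputable def rt (c : ℝ) (n : ℕ) : ℝ :=
  √(1 + c ^ 2 + (n : ℝ) ^ 2 * (3 * c ^ 2 + 7 * c ^ 4))

/-- The weight may be replaced by its difference with a polynomial of small degree. -/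
private theorem x05_gen {c : ℝ} (h0 : 0 ≤ c) (h1 : c < 1) (n e q : ℕ) (hq : 1 ≤ q)
    (P : Polynomial ℝ) (hP : P.natDegree ≤ e) {B : ℝ} (hB : 0 ≤ B) {F G : ℕ → ℝ} {S T : ℝ}
    (hF : HasSum (fun k => (F k * tc c n k) ^ 2) S)
    (hG : HasSum (fun l => (G l * tc c (n + e) l) ^ 2) T)
    (hw : ∀ l : ℕ, |1 / ((n : ℝ) + e + 1 + 2 * l) - P.eval (l : ℝ)| ≤
      B * (|F (l + q)| * |G l|)) :
    |Icr c n e q| ≤ B * (√S * √T) := by
  have hvan := tc_vanish h0 h1 n e q hq P hP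
  have hST : ∀ s : Finset ℕ, ∑ l ∈ s, |F (l + q) * tc c n (l + q)| * |G l * tc c (n + e) l| ≤
      √S * √T := by
    intro s
    refine (Real.sum_mul_le_sqrt_mul_sqrt s _ _).trans ?_
    have hS' : ∑ l ∈ s, |F (l + q) * tc c n (l + q)| ^ 2 ≤ S := by
      have : ∑ l ∈ s, |F (l + q) * tc c n (l + q)| ^ 2 =
          ∑ k ∈ s.map (addRightEmbedding q), (F k * tc c n k) ^ 2 := by
        rw [Finset.sum_map]
        refine Finset.sum_congr rfl fun l _ => ?_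
        rw [sq_abs]
        rfl
      rw [this]
      exact sum_le_hasSum _ (fun i _ => sq_nonneg _) hF
    have hT' : ∑ l ∈ s, |G l * tc c (n + e) l| ^ 2 ≤ T := by
      simp only [sq_abs]
      exact sum_le_hasSum _ (fun i _ => sq_nonneg _) hG
    exact mul_le_mul (Real.sqrt_le_sqrt hS') (Real.sqrt_le_sqrt hT') (Real.sqrt_nonneg _)
      (Real.sqrt_nonneg _)
  have hdiff : ∀ l : ℕ, |tc c n (l + q) * tc c (n + e) l *
      (1 / ((n : ℝ) + e + 1 + 2 * l) - P.eval (l : ℝ))| ≤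
      B * (|F (l + q) * tc c n (l + q)| * |G l * tc c (n + e) l|) := by
    intro l
    rw [abs_mul]
    have h2 := mul_le_mul_of_nonneg_left (hw l) (abs_nonneg (tc c n (l + q) * tc c (n + e) l))
    refine h2.trans (le_of_eq ?_)
    simp only [abs_mul]
    ring
  have hsumm : Summable fun l : ℕ => |F (l + q) * tc c n (l + q)| * |G l * tc c (n + e) l| :=
    summable_of_sum_le (fun _ => by positivity) hST
  have hs1 : Summable fun l : ℕ => |tc c n (l + q) * tc c (n + e) l *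
      (1 / ((n : ℝ) + e + 1 + 2 * l) - P.eval (l : ℝ))| :=
    Summable.of_nonneg_of_le (fun _ => abs_nonneg _) hdiff (hsumm.mul_left B)
  have hs2 : Summable fun l : ℕ => tc c n (l + q) * tc c (n + e) l *
      (1 / ((n : ℝ) + e + 1 + 2 * l) - P.eval (l : ℝ)) := hs1.of_abs
  have hI : Icr c n e q = ∑' l : ℕ, tc c n (l + q) * tc c (n + e) l *
      (1 / ((n : ℝ) + e + 1 + 2 * l) - P.eval (l : ℝ)) := by
    have h3 := (hs2.hasSum.add hvan).tsum_eq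
    rw [add_zero] at h3
    rw [← h3]
    unfold Icr
    refine tsum_congr fun l => ?_
    ring
  rw [hI]
  calc |∑' l : ℕ, tc c n (l + q) * tc c (n + e) l *
      (1 / ((n : ℝ) + e + 1 + 2 * l) - P.eval (l : ℝ))|
      ≤ ∑' l : ℕ, |tc c n (l + q) * tc c (n + e) l *
      (1 / ((n : ℝ) + e + 1 + 2 * l) - P.eval (l : ℝ))| := by
        have := norm_tsum_le_tsum_norm (f := fun l : ℕ => tc c n (l + q) * tc c (n + e) l *
          (1 / ((n : ℝ) + e + 1 + 2 * l) - P.eval (l : ℝ))) (by simpa using hs1)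
        simpa [Real.norm_eq_abs] using this
    _ ≤ ∑' l : ℕ, B * (|F (l + q) * tc c n (l + q)| * |G l * tc c (n + e) l|) :=
        hs1.tsum_le_tsum hdiff (hsumm.mul_left B)
    _ = B * ∑' l : ℕ, (|F (l + q) * tc c n (l + q)| * |G l * tc c (n + e) l|) := tsum_mul_left
    _ ≤ B * (√S * √T) :=
        mul_le_mul_of_nonneg_left (hsumm.tsum_le_of_sum_le hST) hB

private theorem x05_F {c : ℝ} (h0 : 0 ≤ c) (h1 : c < 1) (n : ℕ) :
    HasSum (fun k : ℕ => (((k : ℝ) - n) ^ 2 * tc c n k) ^ 2)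
      (2 * (n : ℝ) ^ 2 * c ^ 2 / (1 - c ^ 2) ^ 3 *
        (1 + c ^ 2 + (n : ℝ) ^ 2 * (3 * c ^ 2 + 7 * c ^ 4))) := by
  refine (tc_m4 h0 h1 n).congr_fun ?_
  intro k
  ring

theorem Icr_one {c : ℝ} (h0 : 0 ≤ c) (h1 : c < 1) (n : ℕ) (hn : 1 ≤ n) :
    |Icr c n 2 1| ≤ n * (n + 2) * (16 * c ^ 2 / (1 - c ^ 2) ^ 2 * rt c n) /
      (((n : ℝ) + 3) * (3 * n + 1) ^ 2 * (3 * n + 7)) := by
  have hn1 : (1 : ℝ) ≤ n := by exact_mod_cast hn
  have ht : 0 < 1 - c ^ 2 := by nlinarith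
  have hF := x05_F h0 h1 n
  have hG : HasSum (fun k : ℕ => (((k : ℝ) - (n + 2)) * tc c (n + 2) k) ^ 2)
      (2 * ((n : ℝ) + 2) ^ 2 * c ^ 2 / (1 - c ^ 2)) := by
    have hm2 := tc_m2 h0 h1 (n + 2)
    push_cast at hm2
    refine hm2.congr_fun ?_
    intro k
    ring
  set P : Polynomial ℝ := Polynomial.C (1 / (3 * (n : ℝ) + 1)) +
    (Polynomial.C (2 * ((n : ℝ) - 1) / (3 * n + 1)) -
      Polynomial.C (2 / (3 * (n : ℝ) + 1)) * Polynomial.X) *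
      Polynomial.C (1 / (3 * (n : ℝ) + 1)) +
    (Polynomial.C (2 * ((n : ℝ) - 1) / (3 * n + 1)) -
      Polynomial.C (2 / (3 * (n : ℝ) + 1)) * Polynomial.X) ^ 2 *
      Polynomial.C (1 / (3 * (n : ℝ) + 7)) with hPdef
  have hP : P.natDegree ≤ 2 := by
    rw [hPdef]
    compute_degree
  have key := x05_gen h0 h1 n 2 1 le_rfl P hP
    (B := 8 / (((n : ℝ) + 3) * (3 * n + 1) ^ 2 * (3 * n + 7))) (by positivity) hF hG ?_
  · refine key.trans (le_of_eq ?_)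
    rw [← Real.sqrt_mul (by positivity)]
    have : 2 * (n : ℝ) ^ 2 * c ^ 2 / (1 - c ^ 2) ^ 3 *
        (1 + c ^ 2 + (n : ℝ) ^ 2 * (3 * c ^ 2 + 7 * c ^ 4)) *
        (2 * ((n : ℝ) + 2) ^ 2 * c ^ 2 / (1 - c ^ 2)) =
        (2 * n * (n + 2) * c ^ 2 / (1 - c ^ 2) ^ 2) ^ 2 *
        (1 + c ^ 2 + (n : ℝ) ^ 2 * (3 * c ^ 2 + 7 * c ^ 4)) := by
      field_simp
    rw [this, Real.sqrt_mul (by positivity), Real.sqrt_sq (by positivity), ← rt]
    field_simp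
    ring
  · intro l
    have hl : (0 : ℝ) ≤ l := Nat.cast_nonneg l
    have hPe : P.eval (l : ℝ) = 1 / (3 * (n : ℝ) + 1) +
        (2 * ((n : ℝ) - 1) / (3 * n + 1) - 2 / (3 * (n : ℝ) + 1) * l) * (1 / (3 * (n : ℝ) + 1)) +
        (2 * ((n : ℝ) - 1) / (3 * n + 1) - 2 / (3 * (n : ℝ) + 1) * l) ^ 2 *
          (1 / (3 * (n : ℝ) + 7)) := by
      rw [hPdef]
      simp
    have hne : ((n : ℝ) + 2 + 1 + 2 * l) ≠ 0 := by positivity
    have e1 : 1 / ((n : ℝ) + 2 + 1 + 2 * l) - P.eval (l : ℝ) =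
        -(8 * ((l : ℝ) + 1 - n) ^ 2 * ((l : ℝ) - (n + 2)) /
          (((n : ℝ) + 2 + 1 + 2 * l) * (3 * n + 1) ^ 2 * (3 * n + 7))) := by
      rw [hPe]
      field_simp
      ring
    push_cast
    rw [e1, abs_neg, abs_div, abs_mul, abs_mul, abs_of_nonneg (show (0 : ℝ) ≤ 8 by norm_num)]
    rw [abs_of_pos (show (0 : ℝ) < ((n : ℝ) + 2 + 1 + 2 * l) * (3 * n + 1) ^ 2 * (3 * n + 7) by
      positivity)]
    rw [div_mul_eq_mul_div, ← mul_assoc]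
    refine div_le_div_of_nonneg_left (by positivity) (by positivity) ?_
    have : (n : ℝ) + 3 ≤ (n : ℝ) + 2 + 1 + 2 * l := by linarith
    gcongr

theorem Icr_two {c : ℝ} (h0 : 0 ≤ c) (h1 : c < 1) (n q : ℕ) (hn : 1 ≤ n) (hq : 1 ≤ q)
    (hq2 : q ≤ 2) :
    |Icr c n 4 q| ≤ n * (n + 4) * (32 * c ^ 2 / (1 - c ^ 2) ^ 3 * (rt c n * rt c (n + 4))) /
      (((n : ℝ) + 5) * (3 * n + 5 - 2 * q) ^ 2 * (3 * n + 13) ^ 2) := by
  have hn1 : (1 : ℝ) ≤ n := by exact_mod_cast hn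
  have hqr : (q : ℝ) ≤ 2 := by exact_mod_cast hq2
  have ht : 0 < 1 - c ^ 2 := by nlinarith
  have hD : (0 : ℝ) < 3 * n + 5 - 2 * q := by linarith
  have hF := x05_F h0 h1 n
  have hG := x05_F h0 h1 (n + 4)
  set P : Polynomial ℝ := Polynomial.C (1 / (3 * (n : ℝ) + 5 - 2 * q)) +
    (Polynomial.C (2 * ((n : ℝ) - q) / (3 * n + 5 - 2 * q)) -
      Polynomial.C (2 / (3 * (n : ℝ) + 5 - 2 * q)) * Polynomial.X) *
      Polynomial.C (1 / (3 * (n : ℝ) + 5 - 2 * q)) +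
    (Polynomial.C (2 * ((n : ℝ) - q) / (3 * n + 5 - 2 * q)) -
      Polynomial.C (2 / (3 * (n : ℝ) + 5 - 2 * q)) * Polynomial.X) ^ 2 *
      Polynomial.C (1 / (3 * (n : ℝ) + 13)) +
    (Polynomial.C (2 * ((n : ℝ) - q) / (3 * n + 5 - 2 * q)) -
      Polynomial.C (2 / (3 * (n : ℝ) + 5 - 2 * q)) * Polynomial.X) ^ 2 *
      (Polynomial.C (2 * ((n : ℝ) + 4) / (3 * n + 13)) -
      Polynomial.C (2 / (3 * (n : ℝ) + 13)) * Polynomial.X) *
      Polynomial.C (1 / (3 * (n : ℝ) + 13)) with hPdef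
  have hP : P.natDegree ≤ 4 := by
    rw [hPdef]
    compute_degree
    norm_num
  have key := x05_gen h0 h1 n 4 q hq P hP
    (B := 16 / (((n : ℝ) + 5) * (3 * n + 5 - 2 * q) ^ 2 * (3 * n + 13) ^ 2)) (by positivity)
    hF hG ?_
  · refine key.trans (le_of_eq ?_)
    push_cast
    rw [← Real.sqrt_mul (by positivity)]
    have : 2 * (n : ℝ) ^ 2 * c ^ 2 / (1 - c ^ 2) ^ 3 *
        (1 + c ^ 2 + (n : ℝ) ^ 2 * (3 * c ^ 2 + 7 * c ^ 4)) *
        (2 * ((n : ℝ) + 4) ^ 2 * c ^ 2 / (1 - c ^ 2) ^ 3 *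
        (1 + c ^ 2 + ((n : ℝ) + 4) ^ 2 * (3 * c ^ 2 + 7 * c ^ 4))) =
        (2 * n * (n + 4) * c ^ 2 / (1 - c ^ 2) ^ 3) ^ 2 *
        ((1 + c ^ 2 + (n : ℝ) ^ 2 * (3 * c ^ 2 + 7 * c ^ 4)) *
        (1 + c ^ 2 + ((n : ℝ) + 4) ^ 2 * (3 * c ^ 2 + 7 * c ^ 4))) := by
      field_simp
    rw [this, Real.sqrt_mul (by positivity), Real.sqrt_sq (by positivity),
      Real.sqrt_mul (by positivity)]
    rw [rt, rt]
    push_cast
    field_simp
    ring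
  · intro l
    have hl : (0 : ℝ) ≤ l := Nat.cast_nonneg l
    have hPe : P.eval (l : ℝ) = 1 / (3 * (n : ℝ) + 5 - 2 * q) +
        (2 * ((n : ℝ) - q) / (3 * n + 5 - 2 * q) - 2 / (3 * (n : ℝ) + 5 - 2 * q) * l) *
          (1 / (3 * (n : ℝ) + 5 - 2 * q)) +
        (2 * ((n : ℝ) - q) / (3 * n + 5 - 2 * q) - 2 / (3 * (n : ℝ) + 5 - 2 * q) * l) ^ 2 *
          (1 / (3 * (n : ℝ) + 13)) +
        (2 * ((n : ℝ) - q) / (3 * n + 5 - 2 * q) - 2 / (3 * (n : ℝ) + 5 - 2 * q) * l) ^ 2 *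
          (2 * ((n : ℝ) + 4) / (3 * n + 13) - 2 / (3 * (n : ℝ) + 13) * l) *
          (1 / (3 * (n : ℝ) + 13)) := by
      rw [hPdef]
      simp
    have hne : ((n : ℝ) + 4 + 1 + 2 * l) ≠ 0 := by positivity
    have hne2 : (3 * (n : ℝ) + 5 - 2 * q) ≠ 0 := hD.ne'
    have e1 : 1 / ((n : ℝ) + 4 + 1 + 2 * l) - P.eval (l : ℝ) =
        16 * ((l : ℝ) + q - n) ^ 2 * ((l : ℝ) - (n + 4)) ^ 2 /
          (((n : ℝ) + 4 + 1 + 2 * l) * (3 * n + 5 - 2 * q) ^ 2 * (3 * n + 13) ^ 2) := by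
      rw [hPe]
      obtain ⟨D, hDD⟩ : ∃ D : ℝ, D = 3 * (n : ℝ) + 5 - 2 * q := ⟨_, rfl⟩
      have hqD : (q : ℝ) = (3 * n + 5 - D) / 2 := by rw [hDD]; ring
      rw [← hDD] at hne2
      rw [← hDD, hqD]
      field_simp
      ring
    push_cast
    rw [e1, abs_of_nonneg (by positivity), abs_of_nonneg (sq_nonneg _),
      abs_of_nonneg (sq_nonneg _)]
    rw [div_mul_eq_mul_div, ← mul_assoc]
    refine div_le_div_of_nonneg_left (by positivity) (by positivity) ?_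
    have : (n : ℝ) + 5 ≤ (n : ℝ) + 4 + 1 + 2 * l := by linarith
    gcongr

end Pool.Agent.Lib.MP_e1dd62_co.Evn
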