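import Mathlib

/-!
# X11A: averages of absolutely convergent trigonometric series
-/

namespace Pool.Agent.Lib.MP_e1dd62_co.Evn

open Finset Real

private theorem x11a_int (m : ℤ) :
    ∫ θ in (0 : ℝ)..(2 * π), Complex.exp (((m * θ : ℝ) : ℂ) * Complex.I) =
      if m = 0 then ((2 * π : ℝ) : ℂ) else 0 := by
  by_cases hm : m = 0
  · simp [hm]
  · rw [if_neg hm]
    have hc : ((m : ℂ) * Complex.I) ≠ 0 := by
      simp [hm]
    have h1 : ∀ θ : ℝ, Complex.exp (((m * θ : ℝ) : ℂ) * Complex.I) =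
        Complex.exp ((m : ℂ) * Complex.I * θ) := by
      intro θ
      push_cast
      congr 1
      ring
    simp only [h1]
    rw [integral_exp_mul_complex hc]
    have h2 : Complex.exp ((m : ℂ) * Complex.I * ((2 * π : ℝ) : ℂ)) = 1 := by
      rw [← Complex.exp_int_mul_two_pi_mul_I m]
      congr 1
      push_cast
      ring
    rw [h2]
    simp

theorem avg_exp {ι : Type*} [Countable ι] {g : ι → ℂ} (hg : Summable fun α => ‖g α‖)
    (e : ι → ℤ) :
    Continuous (fun θ : ℝ => ∑' α, g α * Complex.exp (((e α * θ : ℝ) : ℂ) * Complex.I)) ∧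
      ((1 / (2 * π) : ℝ) : ℂ) * (∫ θ in (0 : ℝ)..(2 * π),
        ∑' α, g α * Complex.exp (((e α * θ : ℝ) : ℂ) * Complex.I)) =
        ∑' α, if e α = 0 then g α else 0 := by
  have hnorm : ∀ α (θ : ℝ), ‖g α * Complex.exp (((e α * θ : ℝ) : ℂ) * Complex.I)‖ = ‖g α‖ := by
    intro α θ
    rw [norm_mul, Complex.norm_exp_ofReal_mul_I, mul_one]
  have hcont : ∀ α, Continuous fun θ : ℝ =>
      g α * Complex.exp (((e α * θ : ℝ) : ℂ) * Complex.I) := by
    intro α
    fun_prop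
  refine ⟨continuous_tsum hcont hg fun α θ => (hnorm α θ).le, ?_⟩
  have hsum : ∀ θ : ℝ, Summable fun α => g α * Complex.exp (((e α * θ : ℝ) : ℂ) * Complex.I) :=
    fun θ => Summable.of_norm_bounded hg fun α => (hnorm α θ).le
  have h := intervalIntegral.hasSum_integral_of_dominated_convergence
    (μ := MeasureTheory.volume) (a := 0) (b := 2 * π)
    (F := fun α θ => g α * Complex.exp (((e α * θ : ℝ) : ℂ) * Complex.I))
    (f := fun θ => ∑' α, g α * Complex.exp (((e α * θ : ℝ) : ℂ) * Complex.I))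
    (fun α _ => ‖g α‖) (fun α => (hcont α).aestronglyMeasurable)
    (fun α => Filter.Eventually.of_forall fun θ _ => (hnorm α θ).le)
    (Filter.Eventually.of_forall fun θ _ => hg)
    (by simp) (Filter.Eventually.of_forall fun θ _ => (hsum θ).hasSum)
  rw [← h.tsum_eq, ← tsum_mul_left]
  refine tsum_congr fun α => ?_
  rw [intervalIntegral.integral_const_mul, x11a_int]
  split_ifs with h0
  · rw [mul_left_comm, ← Complex.ofReal_mul, one_div_mul_cancel (by positivity)]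
    simp
  · simp

/-- Bessel's inequality (Parseval) on the circle of radius `r`. -/
theorem bessel {b : ℕ → ℂ} {F : ℂ → ℂ}
    (hF : ∀ z, ‖z‖ < 1 → HasSum (fun j => b j * z ^ (2 * j + 1)) (F z)) {r : ℝ} (hr0 : 0 < r)
    (hr1 : r < 1) :
    Continuous (fun θ : ℝ => F (r * Complex.exp (θ * Complex.I))) ∧
      HasSum (fun j => ‖b j‖ ^ 2 * r ^ (4 * j + 2))
        (1 / (2 * π) * ∫ θ in (0 : ℝ)..(2 * π), ‖F (r * Complex.exp (θ * Complex.I))‖ ^ 2) := by
  have hz : ∀ θ : ℝ, ‖(r : ℂ) * Complex.exp (θ * Complex.I)‖ = r := by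
    intro θ
    rw [norm_mul, Complex.norm_exp_ofReal_mul_I, mul_one, Complex.norm_real, Real.norm_eq_abs,
      abs_of_pos hr0]
  have hpow : ∀ (θ : ℝ) (j : ℕ), b j * ((r : ℂ) * Complex.exp (θ * Complex.I)) ^ (2 * j + 1) =
      (b j * (r : ℂ) ^ (2 * j + 1)) *
        Complex.exp ((((((2 * j + 1 : ℕ) : ℤ) : ℝ) * θ : ℝ) : ℂ) * Complex.I) := by
    intro θ j
    rw [mul_pow, ← Complex.exp_nat_mul, ← mul_assoc]
    congr 2
    push_cast
    ring
  have hs0 : Summable fun j : ℕ => ‖b j * (r : ℂ) ^ (2 * j + 1)‖ := by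
    have := (hF (r : ℂ) (by rw [Complex.norm_real, Real.norm_eq_abs, abs_of_pos hr0]; exact hr1))
    exact this.summable.norm
  have hFs : ∀ θ : ℝ, F ((r : ℂ) * Complex.exp (θ * Complex.I)) =
      ∑' j : ℕ, (b j * (r : ℂ) ^ (2 * j + 1)) *
        Complex.exp ((((((2 * j + 1 : ℕ) : ℤ) : ℝ) * θ : ℝ) : ℂ) * Complex.I) := by
    intro θ
    rw [← (hF _ (by rw [hz]; exact hr1)).tsum_eq]
    exact tsum_congr fun j => hpow θ j
  have hc1 := (avg_exp hs0 fun j => ((2 * j + 1 : ℕ) : ℤ)).1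
  have hcF : Continuous fun θ : ℝ => F ((r : ℂ) * Complex.exp (θ * Complex.I)) := by
    refine hc1.congr fun θ => ?_
    rw [hFs θ]
  refine ⟨hcF, ?_⟩
  -- the product
  set g : ℕ × ℕ → ℂ := fun p => (b p.1 * (r : ℂ) ^ (2 * p.1 + 1)) *
    (starRingEnd ℂ) (b p.2 * (r : ℂ) ^ (2 * p.2 + 1)) with hg
  have hgs : Summable fun p => ‖g p‖ := by
    have := hs0.mul_of_nonneg hs0 (fun _ => norm_nonneg _) (fun _ => norm_nonneg _)
    refine this.congr fun p => ?_
    simp only [hg]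
    rw [norm_mul (b p.1 * (r : ℂ) ^ (2 * p.1 + 1)), RCLike.norm_conj]
  have hprod : ∀ θ : ℝ, ((‖F ((r : ℂ) * Complex.exp (θ * Complex.I))‖ ^ 2 : ℝ) : ℂ) =
      ∑' p : ℕ × ℕ, g p * Complex.exp ((((((2 * p.1 : ℕ) : ℤ) - ((2 * p.2 : ℕ) : ℤ) : ℤ) * θ :
        ℝ) : ℂ) * Complex.I) := by
    intro θ
    have hn : ∀ j : ℕ, ‖(b j * (r : ℂ) ^ (2 * j + 1)) *
        Complex.exp ((((((2 * j + 1 : ℕ) : ℤ) : ℝ) * θ : ℝ) : ℂ) * Complex.I)‖ =
        ‖b j * (r : ℂ) ^ (2 * j + 1)‖ := by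
      intro j
      rw [norm_mul, Complex.norm_exp_ofReal_mul_I, mul_one]
    have hs1 : Summable fun j : ℕ => ‖(b j * (r : ℂ) ^ (2 * j + 1)) *
        Complex.exp ((((((2 * j + 1 : ℕ) : ℤ) : ℝ) * θ : ℝ) : ℂ) * Complex.I)‖ :=
      hs0.congr fun j => (hn j).symm
    have hs2 : Summable fun j : ℕ => ‖(starRingEnd ℂ) ((b j * (r : ℂ) ^ (2 * j + 1)) *
        Complex.exp ((((((2 * j + 1 : ℕ) : ℤ) : ℝ) * θ : ℝ) : ℂ) * Complex.I))‖ := by
      refine hs1.congr fun j => ?_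
      rw [RCLike.norm_conj]
    rw [← Complex.normSq_eq_norm_sq, Complex.normSq_eq_conj_mul_self, mul_comm, hFs θ,
      Complex.conj_tsum, tsum_mul_tsum_of_summable_norm hs1 hs2]
    refine tsum_congr fun p => ?_
    simp only [hg]
    rw [map_mul, map_mul, ← Complex.exp_conj]
    have : Complex.exp ((((((2 * p.1 : ℕ) : ℤ) - ((2 * p.2 : ℕ) : ℤ) : ℤ) * θ : ℝ) : ℂ) *
        Complex.I) = Complex.exp ((((((2 * p.1 + 1 : ℕ) : ℤ) : ℝ) * θ : ℝ) : ℂ) * Complex.I) *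
        Complex.exp ((starRingEnd ℂ) ((((((2 * p.2 + 1 : ℕ) : ℤ) : ℝ) * θ : ℝ) : ℂ) *
          Complex.I)) := by
      rw [← Complex.exp_add, map_mul, Complex.conj_ofReal, Complex.conj_I]
      congr 1
      push_cast
      ring
    rw [this]
    ring
  have havg := (avg_exp hgs fun p => (((2 * p.1 : ℕ) : ℤ) - ((2 * p.2 : ℕ) : ℤ))).2
  have hdiag : Summable fun j : ℕ => ‖b j‖ ^ 2 * r ^ (4 * j + 2) := by
    have := hgs.comp_injective (i := fun k : ℕ => ((k, k) : ℕ × ℕ)) (fun a b h => by simpa using h)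
    refine this.congr fun k => ?_
    simp only [Function.comp, hg]
    rw [norm_mul, RCLike.norm_conj, norm_mul, norm_pow, Complex.norm_real, Real.norm_eq_abs,
      abs_of_pos hr0]
    ring
  rw [Summable.hasSum_iff hdiag]
  have hR : ∑' p : ℕ × ℕ, (if (((2 * p.1 : ℕ) : ℤ) - ((2 * p.2 : ℕ) : ℤ)) = 0 then g p else 0) =
      ((∑' j : ℕ, ‖b j‖ ^ 2 * r ^ (4 * j + 2) : ℝ) : ℂ) := by
    rw [Complex.ofReal_tsum]
    have hinj : Function.Injective fun k : ℕ => ((k, k) : ℕ × ℕ) := fun a b h => by simpa using h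
    rw [← hinj.tsum_eq (f := fun p : ℕ × ℕ =>
      if (((2 * p.1 : ℕ) : ℤ) - ((2 * p.2 : ℕ) : ℤ)) = 0 then g p else 0)]
    · refine tsum_congr fun k => ?_
      rw [if_pos (by simp)]
      simp only [hg]
      rw [Complex.mul_conj, Complex.normSq_eq_norm_sq, norm_mul, norm_pow, Complex.norm_real,
        Real.norm_eq_abs, abs_of_pos hr0]
      congr 1
      ring
    · rintro ⟨a, c⟩ hp
      rw [Function.mem_support] at hp
      by_cases h : (((2 * a : ℕ) : ℤ) - ((2 * c : ℕ) : ℤ)) = 0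
      · have : a = c := by omega
        exact ⟨a, by simp [this]⟩
      · exact absurd (if_neg h) hp
  rw [hR] at havg
  have hint : (∫ θ in (0 : ℝ)..(2 * π), ∑' p : ℕ × ℕ, g p *
      Complex.exp ((((((2 * p.1 : ℕ) : ℤ) - ((2 * p.2 : ℕ) : ℤ) : ℤ) * θ : ℝ) : ℂ) *
        Complex.I)) =
      ((∫ θ in (0 : ℝ)..(2 * π), ‖F ((r : ℂ) * Complex.exp (θ * Complex.I))‖ ^ 2 : ℝ) : ℂ) := by
    rw [← intervalIntegral.integral_ofReal]
    refine intervalIntegral.integral_congr fun θ _ => ?_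
    exact (hprod θ).symm
  rw [hint, ← Complex.ofReal_mul] at havg
  exact (Complex.ofReal_injective havg).symm

end Pool.Agent.Lib.MP_e1dd62_co.Evn
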