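import Pool.Agent.Lib.MP_e1dd62_co.Evn.X01
import Pool.Agent.Lib.MP_e1dd62_co.Evn.X11A

/-!
# X06: the cross sums with large difference of frequencies
-/

namespace Pool.Agent.Lib.MP_e1dd62_co.Evn

open Finset Real Filter Topology

private theorem x06_tau0 : tau 0 = PowerSeries.X := by
  unfold tau
  simp

private theorem x06_tc0 (n k : ℕ) : tc 0 n k = if k = n then 1 else 0 := by
  unfold tc
  rw [x06_tau0, PowerSeries.coeff_X_pow]

/-- `|bl c y| ≤ K` for `|y| ≤ 2 c / (1 + c²)`. -/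
private theorem x06_bl_small {c : ℝ} (h0 : 0 ≤ c) (h1 : c < 1) {y : ℂ}
    (hy : ‖y‖ ≤ 2 * c / (1 + c ^ 2)) :
    ‖bl c y‖ ≤ c * (3 + c ^ 2) / (1 + 3 * c ^ 2) := by
  set K := c * (3 + c ^ 2) / (1 + 3 * c ^ 2) with hK
  have hK0 : 0 ≤ K := by positivity
  have hK1 : K ≤ 1 := by
    rw [hK, div_le_one (by positivity)]
    nlinarith [pow_pos (sub_pos.mpr h1) 3]
  have hKeq : K - c = 2 * c / (1 + c ^ 2) * (1 - c * K) := by
    rw [hK]
    field_simp
    ring
  set r := ‖y‖ with hr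
  have hr0 : 0 ≤ r := norm_nonneg y
  have hcK : 0 ≤ 1 - c * K := by nlinarith
  have hlin : r + c ≤ K * (1 + c * r) := by nlinarith [mul_le_mul_of_nonneg_right hy hcK]
  have hre : y.re ≤ r := Complex.re_le_norm y
  have hns : y.re * y.re + y.im * y.im = r ^ 2 := by
    rw [hr, ← Complex.normSq_eq_norm_sq, Complex.normSq_apply]
  have hA : ‖y + c‖ ^ 2 = r ^ 2 + 2 * c * y.re + c ^ 2 := by
    rw [← Complex.normSq_eq_norm_sq, Complex.normSq_apply]
    simp only [Complex.add_re, Complex.add_im, Complex.ofReal_re, Complex.ofReal_im]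
    nlinarith
  have hB : ‖1 + c * y‖ ^ 2 = 1 + 2 * c * y.re + c ^ 2 * r ^ 2 := by
    rw [← Complex.normSq_eq_norm_sq, Complex.normSq_apply]
    simp only [Complex.add_re, Complex.add_im, Complex.mul_re, Complex.mul_im,
      Complex.ofReal_re, Complex.ofReal_im, Complex.one_re, Complex.one_im]
    nlinarith
  have hsq : ‖y + c‖ ^ 2 ≤ (K * ‖1 + c * y‖) ^ 2 := by
    rw [mul_pow, hA, hB]
    have h2 : (r + c) ^ 2 ≤ (K * (1 + c * r)) ^ 2 := pow_le_pow_left₀ (by positivity) hlin 2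
    have h3 : 0 ≤ 1 - K ^ 2 := by nlinarith
    nlinarith [mul_nonneg (mul_nonneg h0 h3) (sub_nonneg.mpr hre)]
  have hle : ‖y + c‖ ≤ K * ‖1 + c * y‖ :=
    le_of_sq_le_sq hsq (by positivity)
  unfold bl
  rw [norm_div]
  rcases eq_or_lt_of_le (norm_nonneg (1 + (c : ℂ) * y)) with h | h
  · rw [← h, div_zero]; exact hK0
  · rw [div_le_iff₀ h]; exact hle

/-- `|bl c x| |bl c (s / x)| ≤ 1` on the circle. -/
private theorem x06_bl_prod {c : ℝ} (h0 : 0 < c) (h1 : c < 1) {x : ℂ}
    (hx : ‖x‖ = (1 + c ^ 2) / (2 * c)) {s : ℝ} (hs0 : 0 ≤ s) (hs1 : s ≤ 1) :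
    ‖bl c x‖ * ‖bl c (s / x)‖ ≤ 1 := by
  set X := ‖x‖ with hX
  have hXpos : 0 < X := by rw [hx]; positivity
  have hx0 : x ≠ 0 := norm_pos_iff.mp hXpos
  have hcX : 2 * c * X = 1 + c ^ 2 := by rw [hx]; field_simp
  have hns : x.re * x.re + x.im * x.im = X ^ 2 := by
    rw [hX, ← Complex.normSq_eq_norm_sq, Complex.normSq_apply]
  have hre : -X ≤ x.re := by
    have := Complex.abs_re_le_norm x
    exact (abs_le.mp this).1
  have h2 : bl c (s / x) = (s + c * x) / (x + c * s) := by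
    unfold bl
    rw [← mul_div_mul_right (s / x + (c : ℂ)) (1 + c * (s / x)) hx0]
    congr 1
    · field_simp
    · field_simp
  have e1 : ‖x + c‖ ^ 2 = X ^ 2 + 2 * c * x.re + c ^ 2 := by
    rw [← Complex.normSq_eq_norm_sq, Complex.normSq_apply]
    simp only [Complex.add_re, Complex.add_im, Complex.ofReal_re, Complex.ofReal_im]
    nlinarith
  have e2 : ‖(s : ℂ) + c * x‖ ^ 2 = s ^ 2 + 2 * c * s * x.re + c ^ 2 * X ^ 2 := by
    rw [← Complex.normSq_eq_norm_sq, Complex.normSq_apply]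
    simp only [Complex.add_re, Complex.add_im, Complex.mul_re, Complex.mul_im,
      Complex.ofReal_re, Complex.ofReal_im]
    nlinarith
  have e3 : ‖1 + (c : ℂ) * x‖ ^ 2 = 1 + 2 * c * x.re + c ^ 2 * X ^ 2 := by
    rw [← Complex.normSq_eq_norm_sq, Complex.normSq_apply]
    simp only [Complex.add_re, Complex.add_im, Complex.mul_re, Complex.mul_im,
      Complex.ofReal_re, Complex.ofReal_im, Complex.one_re, Complex.one_im]
    nlinarith
  have e4 : ‖x + c * s‖ ^ 2 = X ^ 2 + 2 * c * s * x.re + c ^ 2 * s ^ 2 := by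
    rw [← Complex.normSq_eq_norm_sq, Complex.normSq_apply]
    simp only [Complex.add_re, Complex.add_im, Complex.mul_re, Complex.mul_im,
      Complex.ofReal_re, Complex.ofReal_im]
    nlinarith
  have hdiff : (1 + 2 * c * x.re + c ^ 2 * X ^ 2) * (X ^ 2 + 2 * c * s * x.re + c ^ 2 * s ^ 2) -
      (X ^ 2 + 2 * c * x.re + c ^ 2) * (s ^ 2 + 2 * c * s * x.re + c ^ 2 * X ^ 2) =
      (1 - s) * (1 - c ^ 2) * (X ^ 2 * (1 + s) * (1 + c ^ 2) + 2 * c * x.re * (X ^ 2 + s)) := by
    ring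
  have hbr : 0 ≤ X ^ 2 * (1 + s) * (1 + c ^ 2) + 2 * c * x.re * (X ^ 2 + s) := by
    have hge : X ^ 2 * (1 + s) * (1 + c ^ 2) + 2 * c * x.re * (X ^ 2 + s) ≥
        X ^ 2 * (1 + s) * (1 + c ^ 2) - 2 * c * X * (X ^ 2 + s) := by
      have := mul_le_mul_of_nonneg_left hre (show 0 ≤ 2 * c * (X ^ 2 + s) by positivity)
      nlinarith
    have heq : X ^ 2 * (1 + s) * (1 + c ^ 2) - 2 * c * X * (X ^ 2 + s) =
        s * (1 + c ^ 2) * (X ^ 2 - 1) := by
      rw [hcX]; ring
    have hX1 : 1 ≤ X := by nlinarith [sq_nonneg (1 - c)]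
    rw [heq] at hge
    have : 0 ≤ s * (1 + c ^ 2) * (X ^ 2 - 1) :=
      mul_nonneg (by positivity) (by nlinarith)
    linarith
  have hsq : (‖x + c‖ * ‖(s : ℂ) + c * x‖) ^ 2 ≤ (‖1 + (c : ℂ) * x‖ * ‖x + c * s‖) ^ 2 := by
    rw [mul_pow, mul_pow, e1, e2, e3, e4]
    have := mul_nonneg (mul_nonneg (sub_nonneg.mpr hs1)
      (show (0 : ℝ) ≤ 1 - c ^ 2 by nlinarith)) hbr
    linarith
  have hle := le_of_sq_le_sq hsq (by positivity)
  rw [h2]
  unfold bl
  rw [norm_div, norm_div, div_mul_div_comm]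
  exact div_le_one_of_le₀ hle (by positivity)

private theorem x06_summable {c : ℝ} (h0 : 0 ≤ c) (h1 : c < 1) (n m q : ℕ) :
    Summable fun l : ℕ => |tc c n (l + q) * tc c m l| := by
  have ha := tc_summable h0 h1 n (R := 1) zero_le_one (by simpa using h1)
  have hb := tc_summable h0 h1 m (R := 1) zero_le_one (by simpa using h1)
  simp only [one_pow, mul_one] at ha hb
  have hprod := ha.mul_of_nonneg hb (fun _ => abs_nonneg _) (fun _ => abs_nonneg _)
  have := hprod.comp_injective (i := fun l : ℕ => ((l + q, l) : ℕ × ℕ))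
    (fun a b h => by simp at h; exact h)
  refine this.congr fun l => ?_
  simp [Function.comp, abs_mul]

/-- The bound for `∑ tc(n, l+q) tc(n+e, l) s^l`. -/
private theorem x06_G {c : ℝ} (h0 : 0 < c) (h1 : c < 1) (n e q : ℕ) {s : ℝ} (hs0 : 0 ≤ s)
    (hs1 : s ≤ 1) :
    |∑' l : ℕ, tc c n (l + q) * tc c (n + e) l * s ^ l| ≤
      (2 * c / (1 + c ^ 2)) ^ q * (c * (3 + c ^ 2) / (1 + 3 * c ^ 2)) ^ e := by
  set X : ℝ := (1 + c ^ 2) / (2 * c) with hXdef
  have hX : 0 < X := by positivity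
  have hXc : X * c < 1 := by
    rw [hXdef]
    field_simp
    nlinarith
  have hXinv : X⁻¹ = 2 * c / (1 + c ^ 2) := by rw [hXdef, inv_div]
  have hXinv1 : X⁻¹ * c < 1 := by
    rw [hXinv]
    have : 0 < 1 + c ^ 2 := by positivity
    rw [div_mul_eq_mul_div, div_lt_one this]
    nlinarith
  have hsX : s / X * c < 1 := by
    have : s / X ≤ X⁻¹ := by
      rw [div_eq_mul_inv]
      exact mul_le_of_le_one_left (by positivity) hs1
    nlinarith
  have ha := tc_summable h0.le h1 n hX.le hXc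
  have hb := tc_summable h0.le h1 (n + e) (R := s / X) (by positivity) hsX
  -- the family
  set g : ℕ × ℕ → ℂ := fun p => ((tc c n p.1 * X ^ p.1 : ℝ) : ℂ) *
    ((tc c (n + e) p.2 * (s / X) ^ p.2 : ℝ) : ℂ) * ((X⁻¹ ^ q : ℝ) : ℂ) with hg
  set ee : ℕ × ℕ → ℤ := fun p => (p.1 : ℤ) - p.2 - q with hee
  have hgs : Summable fun p => ‖g p‖ := by
    have := (ha.mul_of_nonneg hb (fun _ => by positivity) (fun _ => by positivity)).mul_right
      (X⁻¹ ^ q)
    refine this.congr fun p => ?_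
    simp only [hg, norm_mul, Complex.norm_real, Real.norm_eq_abs, abs_pow]
    rw [abs_of_pos hX, abs_of_nonneg (show 0 ≤ s / X by positivity), abs_of_pos (inv_pos.mpr hX)]
  have havg := (avg_exp hgs ee).2
  -- the right side
  have hR : ∑' p : ℕ × ℕ, (if ee p = 0 then g p else 0) =
      ((∑' l : ℕ, tc c n (l + q) * tc c (n + e) l * s ^ l : ℝ) : ℂ) := by
    rw [Complex.ofReal_tsum]
    have hinj : Function.Injective fun l : ℕ => ((l + q, l) : ℕ × ℕ) :=
      fun a b h => by simp at h; exact h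
    rw [← hinj.tsum_eq (f := fun p : ℕ × ℕ => if ee p = 0 then g p else 0)]
    · refine tsum_congr fun l => ?_
      rw [if_pos (by simp [hee])]
      simp only [hg]
      rw [← Complex.ofReal_mul, ← Complex.ofReal_mul]
      congr 1
      have key : ∀ Y : ℝ, Y ≠ 0 → tc c n (l + q) * Y ^ (l + q) * (tc c (n + e) l * (s / Y) ^ l) *
          Y⁻¹ ^ q = tc c n (l + q) * tc c (n + e) l * s ^ l := by
        intro Y hY
        rw [pow_add, div_pow, inv_pow]
        field_simp
      exact key X hX.ne'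
    · rintro ⟨a, b⟩ hp
      rw [Function.mem_support] at hp
      by_cases h : ee (a, b) = 0
      · refine ⟨b, ?_⟩
        simp only [hee] at h
        have : a = b + q := by omega
        simp [this]
      · exact absurd (if_neg h) hp
  rw [hR] at havg
  -- the integrand
  have hpt : ∀ θ : ℝ, ∑' p, g p * Complex.exp (((ee p * θ : ℝ) : ℂ) * Complex.I) =
      bl c (X * Complex.exp (θ * Complex.I)) ^ n *
        bl c (s / (X * Complex.exp (θ * Complex.I))) ^ (n + e) *
        (X * Complex.exp (θ * Complex.I))⁻¹ ^ q := by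
    intro θ
    have hnX : ‖(X : ℂ) * Complex.exp (θ * Complex.I)‖ = X := by
      rw [norm_mul, Complex.norm_exp_ofReal_mul_I, mul_one, Complex.norm_real, Real.norm_eq_abs,
        abs_of_pos hX]
    have hx0 : (X : ℂ) * Complex.exp (θ * Complex.I) ≠ 0 := by
      rw [← norm_pos_iff, hnX]; exact hX
    have hA := tc_hasSum h0.le h1 n (x := X * Complex.exp (θ * Complex.I))
      (by rw [hnX]; exact hXc)
    have hB := tc_hasSum h0.le h1 (n + e) (x := s / (X * Complex.exp (θ * Complex.I)))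
      (by rw [norm_div, hnX, Complex.norm_real, Real.norm_eq_abs, abs_of_nonneg hs0]; exact hsX)
    rw [← hA.tsum_eq, ← hB.tsum_eq, tsum_mul_tsum_of_summable_norm, ← tsum_mul_right]
    · refine tsum_congr fun p => ?_
      simp only [hg, hee]
      have hXne : (X : ℂ) ≠ 0 := by exact_mod_cast hX.ne'
      have hE : Complex.exp (((((p.1 : ℤ) - p.2 - q : ℤ) : ℝ) * θ : ℝ) * Complex.I) =
          Complex.exp (θ * Complex.I) ^ p.1 * (Complex.exp (θ * Complex.I))⁻¹ ^ p.2 *
            (Complex.exp (θ * Complex.I))⁻¹ ^ q := by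
        rw [← Complex.exp_neg, ← Complex.exp_nat_mul, ← Complex.exp_nat_mul,
          ← Complex.exp_nat_mul, ← Complex.exp_add, ← Complex.exp_add]
        congr 1
        push_cast
        ring
      rw [hE]
      push_cast
      rw [mul_pow, div_pow, div_pow, mul_pow, mul_inv, mul_pow, inv_pow, inv_pow, inv_pow]
      field_simp
    · refine ha.congr fun k => ?_
      rw [norm_mul, norm_pow, hnX, Complex.norm_real, Real.norm_eq_abs]
    · refine hb.congr fun k => ?_
      rw [norm_mul, norm_pow, norm_div, hnX, Complex.norm_real, Real.norm_eq_abs,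
        Complex.norm_real, Real.norm_eq_abs, abs_of_nonneg hs0]
  have hbound : ∀ θ : ℝ, ‖∑' p, g p * Complex.exp (((ee p * θ : ℝ) : ℂ) * Complex.I)‖ ≤
      (2 * c / (1 + c ^ 2)) ^ q * (c * (3 + c ^ 2) / (1 + 3 * c ^ 2)) ^ e := by
    intro θ
    have hnX : ‖(X : ℂ) * Complex.exp (θ * Complex.I)‖ = X := by
      rw [norm_mul, Complex.norm_exp_ofReal_mul_I, mul_one, Complex.norm_real, Real.norm_eq_abs,
        abs_of_pos hX]
    have hb1 := x06_bl_prod h0 h1 (x := X * Complex.exp (θ * Complex.I)) hnX hs0 hs1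
    have hb2 : ‖bl c (s / (X * Complex.exp (θ * Complex.I)))‖ ≤
        c * (3 + c ^ 2) / (1 + 3 * c ^ 2) := by
      refine x06_bl_small h0.le h1 ?_
      rw [norm_div, hnX, Complex.norm_real, Real.norm_eq_abs, abs_of_nonneg hs0, ← hXinv,
        div_eq_mul_inv]
      exact mul_le_of_le_one_left (by positivity) hs1
    rw [hpt θ, norm_mul, norm_mul, norm_pow, norm_pow, norm_pow, norm_inv, hnX, hXinv, pow_add,
      ← mul_assoc, ← mul_pow, mul_comm]
    refine mul_le_mul_of_nonneg_left ?_ (by positivity)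
    calc (‖bl c (X * Complex.exp (θ * Complex.I))‖ *
        ‖bl c (s / (X * Complex.exp (θ * Complex.I)))‖) ^ n *
        ‖bl c (s / (X * Complex.exp (θ * Complex.I)))‖ ^ e
        ≤ 1 * (c * (3 + c ^ 2) / (1 + 3 * c ^ 2)) ^ e :=
          mul_le_mul (pow_le_one₀ (by positivity) hb1)
            (pow_le_pow_left₀ (norm_nonneg _) hb2 e) (by positivity) zero_le_one
      _ = _ := one_mul _
  have hnorm := congrArg norm havg
  rw [Complex.norm_real, Real.norm_eq_abs] at hnorm
  rw [← hnorm, norm_mul, Complex.norm_real, Real.norm_eq_abs,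
    abs_of_pos (show (0 : ℝ) < 1 / (2 * π) by positivity)]
  have hint := intervalIntegral.norm_integral_le_of_norm_le_const
    (a := 0) (b := 2 * π) (C := (2 * c / (1 + c ^ 2)) ^ q *
      (c * (3 + c ^ 2) / (1 + 3 * c ^ 2)) ^ e)
    (f := fun θ : ℝ => ∑' p, g p * Complex.exp (((ee p * θ : ℝ) : ℂ) * Complex.I))
    (fun θ _ => hbound θ)
  rw [sub_zero, abs_of_pos (show (0 : ℝ) < 2 * π by positivity)] at hint
  calc 1 / (2 * π) * ‖∫ θ in (0 : ℝ)..(2 * π),
        ∑' p, g p * Complex.exp (((ee p * θ : ℝ) : ℂ) * Complex.I)‖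
      ≤ 1 / (2 * π) * ((2 * c / (1 + c ^ 2)) ^ q *
      (c * (3 + c ^ 2) / (1 + 3 * c ^ 2)) ^ e * (2 * π)) :=
        mul_le_mul_of_nonneg_left hint (by positivity)
    _ = _ := by field_simp

theorem Icr_large {c : ℝ} (h0 : 0 ≤ c) (h1 : c ^ 2 ≤ 1 / 3) (n e q : ℕ) (hq : 1 ≤ q) :
    |Icr c n e q| ≤ (2 * c / (1 + c ^ 2)) ^ q * (c * (3 + c ^ 2) / (1 + 3 * c ^ 2)) ^ e /
      ((n : ℝ) + e + 1) := by
  rcases eq_or_lt_of_le h0 with h | hc0
  · subst h
    have : Icr 0 n e q = 0 := by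
      unfold Icr
      have hz : ∀ l : ℕ, tc 0 n (l + q) * tc 0 (n + e) l / ((n : ℝ) + e + 1 + 2 * l) = 0 := by
        intro l
        rw [x06_tc0, x06_tc0]
        by_cases h1 : l + q = n
        · have : l ≠ n + e := by omega
          simp [this]
        · simp [h1]
      simp only [hz, tsum_zero]
    rw [this, abs_zero]
    positivity
  have hc1 : c < 1 := by nlinarith
  set M := (2 * c / (1 + c ^ 2)) ^ q * (c * (3 + c ^ 2) / (1 + 3 * c ^ 2)) ^ e with hM
  have hM0 : 0 ≤ M := by positivity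
  have hsum := x06_summable h0 hc1 n (n + e) q
  set f : ℕ → ℝ := fun l => tc c n (l + q) * tc c (n + e) l with hf
  have ha : (0 : ℝ) < (n : ℝ) + e + 1 := by positivity
  -- partial sums
  have hpart : ∀ L : ℕ, |∑ l ∈ range L, f l / ((n : ℝ) + e + 1 + 2 * l)| ≤
      (M + ∑' l, |f (l + L)|) / ((n : ℝ) + e + 1) := by
    intro L
    have hint : ∑ l ∈ range L, f l / ((n : ℝ) + e + 1 + 2 * l) =
        ∫ ρ in (0 : ℝ)..1, ρ ^ (n + e) * ∑ l ∈ range L, f l * (ρ ^ 2) ^ l := by
      have h1 : ∀ ρ : ℝ, ρ ^ (n + e) * ∑ l ∈ range L, f l * (ρ ^ 2) ^ l =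
          ∑ l ∈ range L, f l * ρ ^ (n + e + 2 * l) := by
        intro ρ
        rw [mul_sum]
        refine sum_congr rfl fun l _ => ?_
        rw [pow_add ρ (n + e) (2 * l), pow_mul ρ 2 l]
        ring
      simp only [h1]
      rw [intervalIntegral.integral_finsetSum]
      · refine sum_congr rfl fun l _ => ?_
        rw [intervalIntegral.integral_const_mul, integral_pow]
        simp
        rw [div_eq_mul_inv]
        congr 2
        ring
      · intro l _
        exact (continuous_const.mul (continuous_pow _)).intervalIntegrable _ _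
    have hbd : ∀ ρ ∈ Set.Icc (0 : ℝ) 1, |ρ ^ (n + e) * ∑ l ∈ range L, f l * (ρ ^ 2) ^ l| ≤
        ρ ^ (n + e) * (M + ∑' l, |f (l + L)|) := by
      intro ρ hρ
      have hρ2 : ρ ^ 2 ≤ 1 := pow_le_one₀ hρ.1 hρ.2
      have hpow : ∀ k : ℕ, |(ρ ^ 2) ^ k| ≤ 1 := fun k => by
        rw [abs_pow, abs_of_nonneg (sq_nonneg ρ)]
        exact pow_le_one₀ (sq_nonneg ρ) hρ2
      have hfs : Summable fun l => f l * (ρ ^ 2) ^ l := by
        refine Summable.of_norm_bounded hsum fun l => ?_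
        rw [Real.norm_eq_abs, abs_mul]
        exact mul_le_of_le_one_right (abs_nonneg _) (hpow l)
      have hsplit := hfs.sum_add_tsum_nat_add L
      have hG := x06_G hc0 hc1 n e q (sq_nonneg ρ) hρ2
      have htail : |∑' l, f (l + L) * (ρ ^ 2) ^ (l + L)| ≤ ∑' l, |f (l + L)| := by
        have := tsum_of_norm_bounded (f := fun l => f (l + L) * (ρ ^ 2) ^ (l + L))
          ((summable_nat_add_iff L).mpr hsum).hasSum (fun l => by
            rw [Real.norm_eq_abs, abs_mul]
            exact mul_le_of_le_one_right (abs_nonneg _) (hpow _))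
        rw [Real.norm_eq_abs] at this
        exact this
      rw [abs_mul, abs_of_nonneg (pow_nonneg hρ.1 _)]
      refine mul_le_mul_of_nonneg_left ?_ (pow_nonneg hρ.1 _)
      have : ∑ l ∈ range L, f l * (ρ ^ 2) ^ l = (∑' l, f l * (ρ ^ 2) ^ l) -
          ∑' l, f (l + L) * (ρ ^ 2) ^ (l + L) := by linarith
      rw [this]
      refine (abs_sub _ _).trans ?_
      exact add_le_add hG htail
    rw [hint]
    have h3 := intervalIntegral.norm_integral_le_of_norm_le (μ := MeasureTheory.volume)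
      (a := 0) (b := 1) (f := fun ρ : ℝ => ρ ^ (n + e) * ∑ l ∈ range L, f l * (ρ ^ 2) ^ l)
      (g := fun ρ : ℝ => ρ ^ (n + e) * (M + ∑' l, |f (l + L)|)) zero_le_one
      (Filter.Eventually.of_forall fun ρ hρ => by
        rw [Real.norm_eq_abs]
        exact hbd ρ ⟨hρ.1.le, hρ.2⟩)
      (((continuous_pow _).mul continuous_const).intervalIntegrable _ _)
    rw [Real.norm_eq_abs, intervalIntegral.integral_mul_const, integral_pow] at h3
    refine h3.trans (le_of_eq ?_)
    push_cast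
    simp
    field_simp
  have hs : Summable fun l : ℕ => f l / ((n : ℝ) + e + 1 + 2 * l) := by
    refine Summable.of_norm_bounded hsum fun l => ?_
    rw [Real.norm_eq_abs, abs_div]
    refine div_le_self (abs_nonneg _) ?_
    rw [abs_of_pos (by positivity)]
    have : (0 : ℝ) ≤ (n : ℝ) + e + 2 * l := by positivity
    linarith
  have hlim1 : Tendsto (fun L => |∑ l ∈ range L, f l / ((n : ℝ) + e + 1 + 2 * l)|) atTop
      (𝓝 |Icr c n e q|) := hs.hasSum.tendsto_sum_nat.abs
  have hlim2 : Tendsto (fun L => (M + ∑' l, |f (l + L)|) / ((n : ℝ) + e + 1)) atTop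
      (𝓝 ((M + 0) / ((n : ℝ) + e + 1))) :=
    (tendsto_const_nhds.add (tendsto_sum_nat_add fun l => |f l|)).div_const _
  rw [add_zero] at hlim2
  exact le_of_tendsto_of_tendsto' hlim1 hlim2 hpart

end Pool.Agent.Lib.MP_e1dd62_co.Evn
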