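import Pool.Agent.Lib.MP_e1dd62_co.Evn.X05
import Pool.Agent.Lib.MP_e1dd62_co.Evn.X06

/-!
# X07: the total of the cross terms
-/

namespace Pool.Agent.Lib.MP_e1dd62_co.Evn

open Finset Real

private theorem x07_tele {f T : ℕ → ℝ} (k : ℕ) (hf : ∀ i, 0 ≤ f i) (hT : ∀ i, 0 ≤ T i)
    (h : ∀ i, k ≤ i → f i ≤ T i - T (i + 1)) :
    Summable f ∧ ∑' i, f i ≤ ∑ i ∈ range k, f i + T k := by
  have h1 : ∀ N : ℕ, ∑ i ∈ range N, f (i + k) ≤ T k := by
    intro N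
    have h2 : ∑ i ∈ range N, f (i + k) ≤ T k - T (N + k) := by
      induction N with
      | zero => simp
      | succ N ih =>
        rw [sum_range_succ]
        have h3 := h (N + k) (Nat.le_add_left _ _)
        rw [show N + 1 + k = N + k + 1 by ring]
        linarith
    linarith [hT (N + k)]
  have hs : Summable fun i => f (i + k) := summable_of_sum_range_le (fun i => hf _) h1
  have hs2 : Summable f := (summable_nat_add_iff k).mp hs
  refine ⟨hs2, ?_⟩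
  rw [← hs2.sum_add_tsum_nat_add k]
  have := Real.tsum_le_of_sum_range_le (fun i => hf (i + k)) h1
  linarith

private theorem x07_ebar {c : ℝ} (d q : ℕ) {u : ℕ → ℝ} {B : ℝ} (hs : Summable u)
    (hB : ∑' i, u i ≤ B)
    (h : ∀ i : ℕ, |Icr c (2 * i + 1) (2 * d) q| / ((2 * (i : ℝ) + 1) * (2 * i + 1 + 2 * d)) ≤
      u i) : |Ebar c d q| ≤ B := by
  refine le_trans ?_ hB
  unfold Ebar
  have := tsum_of_norm_bounded (f := fun i : ℕ =>
    Icr c (2 * i + 1) (2 * d) q / ((2 * (i : ℝ) + 1) * (2 * i + 1 + 2 * d))) hs.hasSum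
    (fun i => by
      rw [Real.norm_eq_abs, abs_div, abs_of_pos (show (0 : ℝ) < (2 * (i : ℝ) + 1) *
        (2 * i + 1 + 2 * d) by positivity)]
      exact h i)
  rwa [Real.norm_eq_abs] at this

private theorem x07_rt {c : ℝ} (h1 : c ^ 2 ≤ 3 / 40) {n : ℕ} (hn : 1 ≤ n) :
    rt c n ≤ (13 * n + 16) / 25 := by
  have hn1 : (1 : ℝ) ≤ n := by exact_mod_cast hn
  unfold rt
  rw [Real.sqrt_le_left (by positivity)]
  have h4 : c ^ 4 ≤ 9 / 1600 := by
    have : c ^ 4 = c ^ 2 * c ^ 2 := by ring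
    rw [this]
    nlinarith [sq_nonneg c]
  have h5 : 3 * c ^ 2 + 7 * c ^ 4 ≤ 423 / 1600 := by linarith
  have h6 : (n : ℝ) ^ 2 * (3 * c ^ 2 + 7 * c ^ 4) ≤ (n : ℝ) ^ 2 * (423 / 1600) :=
    mul_le_mul_of_nonneg_left h5 (sq_nonneg _)
  nlinarith

private theorem x07_t {c : ℝ} (h1 : c ^ 2 ≤ 3 / 40) :
    1 / (1 - c ^ 2) ≤ 40 / 37 := by
  rw [div_le_div_iff₀ (by linarith) (by norm_num)]
  linarith

/-- `d = 1`. -/
private theorem x07_one {c : ℝ} (h0 : 0 ≤ c) (h1 : c ^ 2 ≤ 3 / 40) :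
    |Ebar c 1 1| ≤ 425 / 10000 * c ^ 2 := by
  have hc1 : c < 1 := by nlinarith
  have htel := x07_tele
    (f := fun i : ℕ => (26 * (i : ℝ) + 29) / (25 * (2 * i + 4) * (6 * i + 4) ^ 2 * (6 * i + 10)))
    (T := fun i : ℕ => 5 / 1000 / ((2 * (i : ℝ)) * (2 * i + 2))) 2 (fun i => by positivity)
    (fun i => by positivity) (fun i hi => by
      obtain ⟨j, rfl⟩ := Nat.exists_eq_add_of_le hi
      push_cast
      rw [div_sub_div _ _ (by positivity) (by positivity),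
        div_le_div_iff₀ (by positivity) (by positivity), ← sub_nonneg]
      ring_nf
      positivity)
  obtain ⟨hs, hsl⟩ := htel
  have hsl2 : ∑' i : ℕ, (26 * (i : ℝ) + 29) / (25 * (2 * i + 4) * (6 * i + 4) ^ 2 *
      (6 * i + 10)) ≤ 9 / 4000 := by
    refine hsl.trans ?_
    norm_num [sum_range_succ]
  refine x07_ebar 1 1 (hs.mul_left (16 * c ^ 2 * (40 / 37) ^ 2)) ?_ fun i => ?_
  · rw [tsum_mul_left]
    calc 16 * c ^ 2 * (40 / 37) ^ 2 * _ ≤ 16 * c ^ 2 * (40 / 37) ^ 2 * (9 / 4000) :=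
          mul_le_mul_of_nonneg_left hsl2 (by positivity)
      _ ≤ _ := by nlinarith [sq_nonneg c]
  · have h := Icr_one h0 hc1 (2 * i + 1) (by omega)
    have hr := x07_rt (c := c) h1 (n := 2 * i + 1) (by omega)
    push_cast at h hr
    have hi : (0 : ℝ) ≤ i := Nat.cast_nonneg i
    rw [div_le_iff₀ (by positivity)]
    refine h.trans ?_
    have hr0 : 0 ≤ rt c (2 * i + 1) := Real.sqrt_nonneg _
    have ht := x07_t h1
    have ht0 : 0 < 1 / (1 - c ^ 2) := one_div_pos.mpr (by linarith)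
    have e1 : (2 * (i : ℝ) + 1) * (2 * i + 1 + 2) * (16 * c ^ 2 / (1 - c ^ 2) ^ 2 *
        rt c (2 * i + 1)) / ((2 * (i : ℝ) + 1 + 3) * (3 * (2 * i + 1) + 1) ^ 2 *
        (3 * (2 * i + 1) + 7)) = (16 * c ^ 2 * (1 / (1 - c ^ 2)) ^ 2) *
        (rt c (2 * i + 1) * ((2 * (i : ℝ) + 1) * (2 * i + 1 + 2) /
        ((2 * i + 4) * (6 * i + 4) ^ 2 * (6 * i + 10)))) := by
      rw [one_div, inv_pow]
      have q1 : (3 * (2 * (i : ℝ) + 1) + 1) = 6 * i + 4 := by ring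
      have q2 : (3 * (2 * (i : ℝ) + 1) + 7) = 6 * i + 10 := by ring
      have q3 : (2 * (i : ℝ) + 1 + 3) = 2 * i + 4 := by ring
      rw [q1, q2, q3]
      ring
    have e2 : 16 * c ^ 2 * (40 / 37) ^ 2 * ((26 * (i : ℝ) + 29) / (25 * (2 * i + 4) *
        (6 * i + 4) ^ 2 * (6 * i + 10))) * ((2 * (i : ℝ) + 1) * (2 * i + 1 + 2 * ((1 : ℕ) : ℝ))) =
        (16 * c ^ 2 * (40 / 37) ^ 2) * ((13 * (2 * (i : ℝ) + 1) + 16) / 25 *
        ((2 * (i : ℝ) + 1) * (2 * i + 1 + 2) /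
        ((2 * i + 4) * (6 * i + 4) ^ 2 * (6 * i + 10)))) := by
      push_cast
      field_simp
      ring
    rw [e1, e2]
    refine mul_le_mul ?_ ?_ (by positivity) (by positivity)
    · exact mul_le_mul_of_nonneg_left (pow_le_pow_left₀ ht0.le ht 2) (by positivity)
    · exact mul_le_mul_of_nonneg_right hr (by positivity)

/-- `d = 2`, `q = 1`. -/
private theorem x07_two1 {c : ℝ} (h0 : 0 ≤ c) (h1 : c ^ 2 ≤ 3 / 40) :
    |Ebar c 2 1| ≤ 49 / 10000 * c ^ 2 := by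
  have hc1 : c < 1 := by nlinarith
  have htel := x07_tele
    (f := fun i : ℕ => (26 * (i : ℝ) + 29) * (26 * i + 81) /
      (625 * (2 * i + 6) * (6 * i + 16) ^ 2 * (6 * i + 6) ^ 2))
    (T := fun i : ℕ => 84 / 100000 / ((2 * (i : ℝ)) * (2 * i + 2))) 2 (fun i => by positivity)
    (fun i => by positivity) (fun i hi => by
      obtain ⟨j, rfl⟩ := Nat.exists_eq_add_of_le hi
      push_cast
      rw [div_sub_div _ _ (by positivity) (by positivity),
        div_le_div_iff₀ (by positivity) (by positivity), ← sub_nonneg]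
      ring_nf
      positivity)
  obtain ⟨hs, hsl⟩ := htel
  have hsl2 : ∑' i : ℕ, (26 * (i : ℝ) + 29) * (26 * i + 81) /
      (625 * (2 * i + 6) * (6 * i + 16) ^ 2 * (6 * i + 6) ^ 2) ≤ 12 / 100000 := by
    refine hsl.trans ?_
    norm_num [sum_range_succ]
  refine x07_ebar 2 1 (hs.mul_left (32 * c ^ 2 * (40 / 37) ^ 3)) ?_ fun i => ?_
  · rw [tsum_mul_left]
    calc 32 * c ^ 2 * (40 / 37) ^ 3 * _ ≤ 32 * c ^ 2 * (40 / 37) ^ 3 * (12 / 100000) :=
          mul_le_mul_of_nonneg_left hsl2 (by positivity)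
      _ ≤ _ := by nlinarith [sq_nonneg c]
  · have h := Icr_two h0 hc1 (2 * i + 1) 1 (by omega) (by norm_num) (by norm_num)
    have hr := x07_rt (c := c) h1 (n := 2 * i + 1) (by omega)
    have hr' := x07_rt (c := c) h1 (n := 2 * i + 1 + 4) (by omega)
    push_cast at h hr hr'
    have hi : (0 : ℝ) ≤ i := Nat.cast_nonneg i
    rw [div_le_iff₀ (by positivity)]
    refine h.trans ?_
    have hr0 : 0 ≤ rt c (2 * i + 1) := Real.sqrt_nonneg _
    have hr0' : 0 ≤ rt c (2 * i + 1 + 4) := Real.sqrt_nonneg _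
    have ht := x07_t h1
    have ht0 : 0 < 1 / (1 - c ^ 2) := one_div_pos.mpr (by linarith)
    have e1 : (2 * (i : ℝ) + 1) * (2 * i + 1 + 4) * (32 * c ^ 2 / (1 - c ^ 2) ^ 3 *
        (rt c (2 * i + 1) * rt c (2 * i + 1 + 4))) / ((2 * (i : ℝ) + 1 + 5) *
        (3 * (2 * i + 1) + 5 - 2 * 1) ^ 2 * (3 * (2 * i + 1) + 13) ^ 2) =
        (32 * c ^ 2 * (1 / (1 - c ^ 2)) ^ 3) *
        ((rt c (2 * i + 1) * rt c (2 * i + 1 + 4)) * ((2 * (i : ℝ) + 1) * (2 * i + 1 + 4) /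
        ((2 * i + 6) * (6 * i + 6) ^ 2 * (6 * i + 16) ^ 2))) := by
      rw [one_div, inv_pow]
      have q1 : (3 * (2 * (i : ℝ) + 1) + 5 - 2 * 1) = 6 * i + 6 := by ring
      have q2 : (3 * (2 * (i : ℝ) + 1) + 13) = 6 * i + 16 := by ring
      have q3 : (2 * (i : ℝ) + 1 + 5) = 2 * i + 6 := by ring
      rw [q1, q2, q3]
      ring
    have e2 : 32 * c ^ 2 * (40 / 37) ^ 3 * ((26 * (i : ℝ) + 29) * (26 * i + 81) /
        (625 * (2 * i + 6) * (6 * i + 16) ^ 2 * (6 * i + 6) ^ 2)) *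
        ((2 * (i : ℝ) + 1) * (2 * i + 1 + 2 * ((2 : ℕ) : ℝ))) =
        (32 * c ^ 2 * (40 / 37) ^ 3) * (((13 * (2 * (i : ℝ) + 1) + 16) / 25 *
        ((13 * (2 * (i : ℝ) + 1 + 4) + 16) / 25)) *
        ((2 * (i : ℝ) + 1) * (2 * i + 1 + 4) /
        ((2 * i + 6) * (6 * i + 6) ^ 2 * (6 * i + 16) ^ 2))) := by
      push_cast
      field_simp
      ring
    rw [e1, e2]
    refine mul_le_mul ?_ ?_ (by positivity) (by positivity)
    · exact mul_le_mul_of_nonneg_left (pow_le_pow_left₀ ht0.le ht 3) (by positivity)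
    · refine mul_le_mul_of_nonneg_right ?_ (by positivity)
      exact mul_le_mul hr hr' hr0' (by positivity)

/-- `d = 2`, `q = 2`. -/
private theorem x07_two2 {c : ℝ} (h0 : 0 ≤ c) (h1 : c ^ 2 ≤ 3 / 40) :
    |Ebar c 2 2| ≤ 86 / 10000 * c ^ 2 := by
  have hc1 : c < 1 := by nlinarith
  have htel := x07_tele
    (f := fun i : ℕ => (26 * (i : ℝ) + 29) * (26 * i + 81) /
      (625 * (2 * i + 6) * (6 * i + 16) ^ 2 * (6 * i + 4) ^ 2))
    (T := fun i : ℕ => 84 / 100000 / ((2 * (i : ℝ)) * (2 * i + 2))) 2 (fun i => by positivity)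
    (fun i => by positivity) (fun i hi => by
      obtain ⟨j, rfl⟩ := Nat.exists_eq_add_of_le hi
      push_cast
      rw [div_sub_div _ _ (by positivity) (by positivity),
        div_le_div_iff₀ (by positivity) (by positivity), ← sub_nonneg]
      ring_nf
      positivity)
  obtain ⟨hs, hsl⟩ := htel
  have hsl2 : ∑' i : ℕ, (26 * (i : ℝ) + 29) * (26 * i + 81) /
      (625 * (2 * i + 6) * (6 * i + 16) ^ 2 * (6 * i + 4) ^ 2) ≤ (2125 / 100) / 100000 := by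
    refine hsl.trans ?_
    norm_num [sum_range_succ]
  refine x07_ebar 2 2 (hs.mul_left (32 * c ^ 2 * (40 / 37) ^ 3)) ?_ fun i => ?_
  · rw [tsum_mul_left]
    calc 32 * c ^ 2 * (40 / 37) ^ 3 * _ ≤ 32 * c ^ 2 * (40 / 37) ^ 3 * ((2125 / 100) / 100000) :=
          mul_le_mul_of_nonneg_left hsl2 (by positivity)
      _ ≤ _ := by nlinarith [sq_nonneg c]
  · have h := Icr_two h0 hc1 (2 * i + 1) 2 (by omega) (by norm_num) (by norm_num)
    have hr := x07_rt (c := c) h1 (n := 2 * i + 1) (by omega)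
    have hr' := x07_rt (c := c) h1 (n := 2 * i + 1 + 4) (by omega)
    push_cast at h hr hr'
    have hi : (0 : ℝ) ≤ i := Nat.cast_nonneg i
    rw [div_le_iff₀ (by positivity)]
    refine h.trans ?_
    have hr0 : 0 ≤ rt c (2 * i + 1) := Real.sqrt_nonneg _
    have hr0' : 0 ≤ rt c (2 * i + 1 + 4) := Real.sqrt_nonneg _
    have ht := x07_t h1
    have ht0 : 0 < 1 / (1 - c ^ 2) := one_div_pos.mpr (by linarith)
    have e1 : (2 * (i : ℝ) + 1) * (2 * i + 1 + 4) * (32 * c ^ 2 / (1 - c ^ 2) ^ 3 *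
        (rt c (2 * i + 1) * rt c (2 * i + 1 + 4))) / ((2 * (i : ℝ) + 1 + 5) *
        (3 * (2 * i + 1) + 5 - 2 * 2) ^ 2 * (3 * (2 * i + 1) + 13) ^ 2) =
        (32 * c ^ 2 * (1 / (1 - c ^ 2)) ^ 3) *
        ((rt c (2 * i + 1) * rt c (2 * i + 1 + 4)) * ((2 * (i : ℝ) + 1) * (2 * i + 1 + 4) /
        ((2 * i + 6) * (6 * i + 4) ^ 2 * (6 * i + 16) ^ 2))) := by
      rw [one_div, inv_pow]
      have q1 : (3 * (2 * (i : ℝ) + 1) + 5 - 2 * 2) = 6 * i + 4 := by ring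
      have q2 : (3 * (2 * (i : ℝ) + 1) + 13) = 6 * i + 16 := by ring
      have q3 : (2 * (i : ℝ) + 1 + 5) = 2 * i + 6 := by ring
      rw [q1, q2, q3]
      ring
    have e2 : 32 * c ^ 2 * (40 / 37) ^ 3 * ((26 * (i : ℝ) + 29) * (26 * i + 81) /
        (625 * (2 * i + 6) * (6 * i + 16) ^ 2 * (6 * i + 4) ^ 2)) *
        ((2 * (i : ℝ) + 1) * (2 * i + 1 + 2 * ((2 : ℕ) : ℝ))) =
        (32 * c ^ 2 * (40 / 37) ^ 3) * (((13 * (2 * (i : ℝ) + 1) + 16) / 25 *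
        ((13 * (2 * (i : ℝ) + 1 + 4) + 16) / 25)) *
        ((2 * (i : ℝ) + 1) * (2 * i + 1 + 4) /
        ((2 * i + 6) * (6 * i + 4) ^ 2 * (6 * i + 16) ^ 2))) := by
      push_cast
      field_simp
      ring
    rw [e1, e2]
    refine mul_le_mul ?_ ?_ (by positivity) (by positivity)
    · exact mul_le_mul_of_nonneg_left (pow_le_pow_left₀ ht0.le ht 3) (by positivity)
    · refine mul_le_mul_of_nonneg_right ?_ (by positivity)
      exact mul_le_mul hr hr' hr0' (by positivity)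

/-- `d ≥ 3`. -/
private theorem x07_large {c : ℝ} (h0 : 0 ≤ c) (h1 : c ^ 2 ≤ 3 / 40) (m q : ℕ) (hq : 1 ≤ q)
    {S : ℝ} (hs : Summable fun i : ℕ => 1 / ((2 * (i : ℝ) + 1) * (2 * i + 3 + 2 * m) *
      (2 * i + 4 + 2 * m)))
    (hS : ∑' i : ℕ, 1 / ((2 * (i : ℝ) + 1) * (2 * i + 3 + 2 * m) * (2 * i + 4 + 2 * m)) ≤ S) :
    |Ebar c (m + 1) q| ≤ (51 / 100) ^ q * (9 * c ^ 2 * (473 / 1000) ^ m) * S := by
  have hc : c ≤ 274 / 1000 := by nlinarith
  have ht0 : 0 ≤ c ^ 2 := sq_nonneg c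
  have hxi : 2 * c / (1 + c ^ 2) ≤ 51 / 100 := by
    rw [div_le_iff₀ (by positivity)]
    nlinarith
  have hb9 : (c * (3 + c ^ 2) / (1 + 3 * c ^ 2)) ^ 2 ≤ 9 * c ^ 2 := by
    rw [div_pow, div_le_iff₀ (by positivity)]
    have : 0 ≤ c ^ 2 * (9 * (1 + 3 * c ^ 2) ^ 2 - (3 + c ^ 2) ^ 2) :=
      mul_nonneg ht0 (by nlinarith)
    nlinarith
  have hbb : (c * (3 + c ^ 2) / (1 + 3 * c ^ 2)) ^ 2 ≤ 473 / 1000 := by
    rw [div_pow, div_le_iff₀ (by positivity)]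
    have h4 : c ^ 4 ≤ 3 / 40 * c ^ 2 := by nlinarith
    have h6 : c ^ 6 ≤ 3 / 40 * c ^ 4 := by nlinarith [pow_nonneg h0 4]
    nlinarith [pow_nonneg h0 4, pow_nonneg h0 6]
  have hbm : (c * (3 + c ^ 2) / (1 + 3 * c ^ 2)) ^ (2 * (m + 1)) ≤
      9 * c ^ 2 * (473 / 1000) ^ m := by
    rw [pow_mul, pow_succ, mul_comm]
    exact mul_le_mul hb9 (pow_le_pow_left₀ (sq_nonneg _) hbb m) (by positivity) (by positivity)
  refine x07_ebar (m + 1) q
    (hs.mul_left ((51 / 100) ^ q * (9 * c ^ 2 * (473 / 1000) ^ m))) ?_ fun i => ?_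
  · rw [tsum_mul_left]
    exact mul_le_mul_of_nonneg_left hS (by positivity)
  · have h := Icr_large h0 (by linarith) (2 * i + 1) (2 * (m + 1)) q hq
    push_cast at h ⊢
    have hi : (0 : ℝ) ≤ i := Nat.cast_nonneg i
    have hm : (0 : ℝ) ≤ m := Nat.cast_nonneg m
    rw [div_le_iff₀ (by positivity)]
    refine h.trans ?_
    have hmul := mul_le_mul (pow_le_pow_left₀ (by positivity) hxi q) hbm (by positivity)
      (by positivity : (0 : ℝ) ≤ (51 / 100) ^ q)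
    have e1 : (51 / 100 : ℝ) ^ q * (9 * c ^ 2 * (473 / 1000) ^ m) *
        (1 / ((2 * (i : ℝ) + 1) * (2 * i + 3 + 2 * m) * (2 * i + 4 + 2 * m))) *
        ((2 * i + 1) * (2 * i + 1 + 2 * (m + 1))) =
        (51 / 100 : ℝ) ^ q * (9 * c ^ 2 * (473 / 1000) ^ m) / (2 * i + 1 + 2 * (m + 1) + 1) := by
      have q1 : (2 * (i : ℝ) + 3 + 2 * m) = 2 * i + 1 + 2 * (m + 1) := by ring
      have q2 : (2 * (i : ℝ) + 4 + 2 * m) = 2 * i + 1 + 2 * (m + 1) + 1 := by ring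
      rw [q1, q2]
      field_simp
    rw [e1]
    exact div_le_div_of_nonneg_right hmul (by positivity)

private theorem x07_three {c : ℝ} (h0 : 0 ≤ c) (h1 : c ^ 2 ≤ 3 / 40) (q : ℕ) (hq : 1 ≤ q) :
    |Ebar c 3 q| ≤ (51 / 100) ^ q * (9 * c ^ 2 * (473 / 1000) ^ 2) * (263 / 10000) := by
  obtain ⟨hs, hsl⟩ := x07_tele
    (f := fun i : ℕ => 1 / ((2 * (i : ℝ) + 1) * (2 * i + 3 + 2 * ((2 : ℕ) : ℝ)) *
      (2 * i + 4 + 2 * ((2 : ℕ) : ℝ))))
    (T := fun i : ℕ => 1 / (4 * (2 * (i : ℝ) + 2) * (2 * i + 4))) 3 (fun i => by positivity)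
    (fun i => by positivity) (fun i hi => by
      obtain ⟨j, rfl⟩ := Nat.exists_eq_add_of_le hi
      push_cast
      rw [div_sub_div _ _ (by positivity) (by positivity),
        div_le_div_iff₀ (by positivity) (by positivity), ← sub_nonneg]
      ring_nf
      positivity)
  refine x07_large h0 h1 2 q hq hs (hsl.trans ?_)
  norm_num [sum_range_succ]

private theorem x07_four {c : ℝ} (h0 : 0 ≤ c) (h1 : c ^ 2 ≤ 3 / 40) (m q : ℕ) (hm : 3 ≤ m)
    (hq : 1 ≤ q) :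
    |Ebar c (m + 1) q| ≤ (51 / 100) ^ q * (9 * c ^ 2 * (473 / 1000) ^ m) * (173 / 10000) := by
  obtain ⟨hs, hsl⟩ := x07_tele
    (f := fun i : ℕ => 1 / ((2 * (i : ℝ) + 1) * (2 * i + 9) * (2 * i + 10)))
    (T := fun i : ℕ => 1 / (4 * (2 * (i : ℝ) + 3) * (2 * i + 5))) 3 (fun i => by positivity)
    (fun i => by positivity) (fun i hi => by
      obtain ⟨j, rfl⟩ := Nat.exists_eq_add_of_le hi
      push_cast
      rw [div_sub_div _ _ (by positivity) (by positivity),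
        div_le_div_iff₀ (by positivity) (by positivity), ← sub_nonneg]
      ring_nf
      positivity)
  have hm3 : (3 : ℝ) ≤ m := by exact_mod_cast hm
  have hle : ∀ i : ℕ, 1 / ((2 * (i : ℝ) + 1) * (2 * i + 3 + 2 * m) * (2 * i + 4 + 2 * m)) ≤
      1 / ((2 * (i : ℝ) + 1) * (2 * i + 9) * (2 * i + 10)) := by
    intro i
    refine one_div_le_one_div_of_le (by positivity) ?_
    have : 2 * (i : ℝ) + 9 ≤ 2 * i + 3 + 2 * m := by linarith
    have : 2 * (i : ℝ) + 10 ≤ 2 * i + 4 + 2 * m := by linarith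
    gcongr
  have hs2 : Summable fun i : ℕ => 1 / ((2 * (i : ℝ) + 1) * (2 * i + 3 + 2 * m) *
      (2 * i + 4 + 2 * m)) := Summable.of_nonneg_of_le (fun i => by positivity) hle hs
  refine x07_large h0 h1 m q hq hs2 ((hs2.tsum_le_tsum hle hs).trans (hsl.trans ?_))
  norm_num [sum_range_succ]

/-- The corrections of the majorant at `d ≤ 3`. -/
private noncomputable def x07_corr (c : ℝ) : ℕ × ℕ → ℝ
  | (0, 0) => c ^ 2 * (425 / 10000 - 9 * (173 / 10000) * (51 / 100))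
  | (0, 1) => c ^ 2 * (49 / 10000 - 9 * (173 / 10000) * (51 / 100) * (473 / 1000))
  | (1, 0) => c ^ 2 * (86 / 10000 - 9 * (173 / 10000) * (51 / 100) ^ 2 * (473 / 1000))
  | (0, 2) => c ^ 2 * (9 * (9 / 1000) * (51 / 100) * (473 / 1000) ^ 2)
  | (1, 1) => c ^ 2 * (9 * (9 / 1000) * (51 / 100) ^ 2 * (473 / 1000) ^ 2)
  | (2, 0) => c ^ 2 * (9 * (9 / 1000) * (51 / 100) ^ 3 * (473 / 1000) ^ 2)
  | _ => 0

private theorem x07_maj {c : ℝ} (h0 : 0 ≤ c) (h1 : c ^ 2 ≤ 3 / 40) (p : ℕ × ℕ) :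
    |Ebar c (p.1 + p.2 + 1) (p.1 + 1)| ≤
      9 * (173 / 10000) * c ^ 2 * (51 / 100) * ((51 / 100 * (473 / 1000)) ^ p.1 *
        (473 / 1000) ^ p.2) + x07_corr c p := by
  have hbig : ∀ a b : ℕ, 3 ≤ a + b → |Ebar c (a + b + 1) (a + 1)| ≤
      9 * (173 / 10000) * c ^ 2 * (51 / 100) * ((51 / 100 * (473 / 1000)) ^ a *
        (473 / 1000) ^ b) + 0 := by
    intro a b hab
    refine (x07_four h0 h1 (a + b) (a + 1) hab (by omega)).trans (le_of_eq ?_)
    rw [mul_pow, pow_add, pow_succ]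
    ring
  obtain ⟨a, b⟩ := p
  rcases a with _ | _ | _ | a
  · rcases b with _ | _ | _ | b
    · refine (x07_one h0 h1).trans (le_of_eq ?_)
      simp only [x07_corr]
      ring
    · refine (x07_two1 h0 h1).trans (le_of_eq ?_)
      simp only [x07_corr]
      ring
    · refine (x07_three h0 h1 1 le_rfl).trans (le_of_eq ?_)
      simp only [x07_corr]
      ring
    · exact hbig 0 (b + 3) (by omega)
  · rcases b with _ | _ | b
    · refine (x07_two2 h0 h1).trans (le_of_eq ?_)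
      simp only [x07_corr]
      ring
    · refine (x07_three h0 h1 2 (by norm_num)).trans (le_of_eq ?_)
      simp only [x07_corr]
      ring
    · exact hbig 1 (b + 2) (by omega)
  · rcases b with _ | b
    · refine (x07_three h0 h1 3 (by norm_num)).trans (le_of_eq ?_)
      simp only [x07_corr]
      ring
    · exact hbig 2 (b + 1) (by omega)
  · exact hbig (a + 3) b (by omega)

theorem cross_total {c : ℝ} (h0 : 0 ≤ c) (h1 : c ^ 2 ≤ 3 / 40) :
    Summable (fun p : ℕ × ℕ => |Ebar c (p.1 + p.2 + 1) (p.1 + 1)|) ∧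
      2 * ∑' p : ℕ × ℕ, |Ebar c (p.1 + p.2 + 1) (p.1 + 1)| ≤ 29 / 100 * c ^ 2 := by
  have hg1 := hasSum_geometric_of_lt_one (r := (51 / 100 * (473 / 1000) : ℝ)) (by norm_num)
    (by norm_num)
  have hg2 := hasSum_geometric_of_lt_one (r := (473 / 1000 : ℝ)) (by norm_num) (by norm_num)
  have hg := hg1.mul hg2 (hg1.summable.mul_of_nonneg hg2.summable (fun _ => by positivity)
    (fun _ => by positivity))
  have hc : HasSum (x07_corr c) (∑ p ∈ range 3 ×ˢ range 3, x07_corr c p) := by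
    refine hasSum_sum_of_ne_finset_zero fun p hp => ?_
    obtain ⟨a, b⟩ := p
    simp only [mem_product, mem_range, not_and, not_lt] at hp
    rcases a with _ | _ | _ | a
    · have h3 := hp (by norm_num)
      obtain ⟨b', rfl⟩ := Nat.exists_eq_add_of_le' h3
      rfl
    · have h3 := hp (by norm_num)
      obtain ⟨b', rfl⟩ := Nat.exists_eq_add_of_le' h3
      rfl
    · have h3 := hp (by norm_num)
      obtain ⟨b', rfl⟩ := Nat.exists_eq_add_of_le' h3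
      rfl
    · rfl
  have hM := (hg.mul_left (9 * (173 / 10000) * c ^ 2 * (51 / 100))).add hc
  have hs : Summable (fun p : ℕ × ℕ => |Ebar c (p.1 + p.2 + 1) (p.1 + 1)|) :=
    Summable.of_nonneg_of_le (fun _ => abs_nonneg _) (x07_maj h0 h1) hM.summable
  refine ⟨hs, ?_⟩
  have h2 := hs.tsum_le_tsum (x07_maj h0 h1) hM.summable
  rw [hM.tsum_eq] at h2
  have h3 : ∑ p ∈ range 3 ×ˢ range 3, x07_corr c p =
      c ^ 2 * (425 / 10000 - 9 * (173 / 10000) * (51 / 100)) +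
      c ^ 2 * (49 / 10000 - 9 * (173 / 10000) * (51 / 100) * (473 / 1000)) +
      c ^ 2 * (86 / 10000 - 9 * (173 / 10000) * (51 / 100) ^ 2 * (473 / 1000)) +
      c ^ 2 * (9 * (9 / 1000) * (51 / 100) * (473 / 1000) ^ 2) +
      c ^ 2 * (9 * (9 / 1000) * (51 / 100) ^ 2 * (473 / 1000) ^ 2) +
      c ^ 2 * (9 * (9 / 1000) * (51 / 100) ^ 3 * (473 / 1000) ^ 2) := by
    rw [sum_product]
    simp only [sum_range_succ, sum_range_zero, x07_corr]
    ring
  rw [h3] at h2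
  have ht0 : 0 ≤ c ^ 2 := sq_nonneg c
  have h4 : (1 - 51 / 100 * (473 / 1000) : ℝ)⁻¹ * (1 - 473 / 1000)⁻¹ ≤ 2502 / 1000 := by
    rw [← mul_inv]
    rw [inv_le_comm₀ (by norm_num) (by norm_num)]
    norm_num
  have h5 : 9 * (173 / 10000) * c ^ 2 * (51 / 100) *
      ((1 - 51 / 100 * (473 / 1000) : ℝ)⁻¹ * (1 - 473 / 1000)⁻¹) ≤
      9 * (173 / 10000) * c ^ 2 * (51 / 100) * (2502 / 1000) :=
    mul_le_mul_of_nonneg_left h4 (by positivity)
  nlinarith

end Pool.Agent.Lib.MP_e1dd62_co.Evn
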