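import Pool.Agent.Lib.MP_e1dd62_co.Evn.X02
import Pool.Agent.Lib.MP_e1dd62_co.Evn.X08

/-!
# X09: the main sum
-/

namespace Pool.Agent.Lib.MP_e1dd62_co.Evn

open Finset Real

private theorem x09_inner {c : ℝ} (h0 : 0 ≤ c) (h1 : c < 1) (i : ℕ) :
    Summable (fun k : ℕ => tc c (2 * i + 1) k ^ 2 /
      ((2 * (i : ℝ) + 1) ^ 2 * (2 * i + 2 + 2 * k))) ∧
    ∑' k : ℕ, tc c (2 * i + 1) k ^ 2 / ((2 * (i : ℝ) + 1) ^ 2 * (2 * i + 2 + 2 * k)) ≤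
      1 / ((i : ℝ) + 1) ^ 2 := by
  have hs := tc_sq h0 h1 (2 * i + 1)
  have hle : ∀ k : ℕ, tc c (2 * i + 1) k ^ 2 / ((2 * (i : ℝ) + 1) ^ 2 * (2 * i + 2 + 2 * k)) ≤
      1 / ((i : ℝ) + 1) ^ 2 * tc c (2 * i + 1) k ^ 2 := by
    intro k
    rw [div_eq_mul_one_div, mul_comm]
    refine mul_le_mul_of_nonneg_right ?_ (sq_nonneg _)
    refine one_div_le_one_div_of_le (by positivity) ?_
    have hi : (0 : ℝ) ≤ i := Nat.cast_nonneg i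
    have hk : (0 : ℝ) ≤ k := Nat.cast_nonneg k
    have e1 : ((i : ℝ) + 1) ^ 2 ≤ (2 * (i : ℝ) + 1) ^ 2 * 1 + ((2 * (i : ℝ) + 1) ^ 2) := by
      nlinarith
    have e2 : (2 * (i : ℝ) + 1) ^ 2 * 1 + ((2 * (i : ℝ) + 1) ^ 2) ≤
        (2 * (i : ℝ) + 1) ^ 2 * (2 * i + 2 + 2 * k) := by
      nlinarith [sq_nonneg (2 * (i : ℝ) + 1),
        mul_nonneg (sq_nonneg (2 * (i : ℝ) + 1)) (add_nonneg hi hk)]
    exact e1.trans e2
  have hsum : Summable (fun k : ℕ => tc c (2 * i + 1) k ^ 2 /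
      ((2 * (i : ℝ) + 1) ^ 2 * (2 * i + 2 + 2 * k))) :=
    Summable.of_nonneg_of_le (fun k => by positivity) hle (hs.summable.mul_left _)
  refine ⟨hsum, ?_⟩
  refine (hsum.tsum_le_tsum hle (hs.summable.mul_left _)).trans (le_of_eq ?_)
  rw [tsum_mul_left, hs.tsum_eq, mul_one]

theorem Mn_summable {c : ℝ} (h0 : 0 ≤ c) (h1 : c < 1) :
    Summable fun p : ℕ × ℕ => tc c (2 * p.1 + 1) p.2 ^ 2 /
      ((2 * (p.1 : ℝ) + 1) ^ 2 * (2 * p.1 + 2 + 2 * p.2)) := by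
  rw [summable_prod_of_nonneg (fun p => by positivity)]
  refine ⟨fun i => (x09_inner h0 h1 i).1, ?_⟩
  have hmaj : Summable fun i : ℕ => 1 / ((i : ℝ) + 1) ^ 2 := by
    have := (summable_nat_add_iff 1).mpr (Real.summable_one_div_nat_pow.mpr (one_lt_two))
    refine this.congr fun i => ?_
    push_cast
    rfl
  refine Summable.of_nonneg_of_le (fun i => tsum_nonneg fun k => by positivity)
    (fun i => (x09_inner h0 h1 i).2) hmaj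

/-- The terms with `n ≥ 3`. -/
private theorem x09_term {c : ℝ} (h0 : 0 ≤ c) (h1 : c < 1) (i : ℕ) :
    ∑' k : ℕ, tc c (2 * i + 1) k ^ 2 / ((2 * (i : ℝ) + 1) ^ 2 * (2 * i + 2 + 2 * k)) ≤
      1 / ((2 * (i : ℝ) + 1) ^ 2 * (6 * i + 4)) +
        c ^ 2 / (1 - c ^ 2) * (8 / ((6 * (i : ℝ) + 4) ^ 2 * (2 * i + 2))) := by
  have ht : 0 < 1 - c ^ 2 := by nlinarith
  have hs := tc_sq h0 h1 (2 * i + 1)
  have hm1 := tc_m1 h0 h1 (2 * i + 1)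
  have hm2 := tc_m2 h0 h1 (2 * i + 1)
  push_cast at hm1 hm2
  have hB := ((hs.mul_left (1 / (6 * (i : ℝ) + 4))).sub
    (hm1.mul_left (2 / (6 * (i : ℝ) + 4) ^ 2))).add
    (hm2.mul_left (4 / ((6 * (i : ℝ) + 4) ^ 2 * (2 * i + 2))))
  have hB2 := hB.mul_left (1 / (2 * (i : ℝ) + 1) ^ 2)
  have hle : ∀ k : ℕ, tc c (2 * i + 1) k ^ 2 / ((2 * (i : ℝ) + 1) ^ 2 * (2 * i + 2 + 2 * k)) ≤
      1 / (2 * (i : ℝ) + 1) ^ 2 * (1 / (6 * (i : ℝ) + 4) * tc c (2 * i + 1) k ^ 2 -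
        2 / (6 * (i : ℝ) + 4) ^ 2 * (((k : ℝ) - (2 * i + 1)) * tc c (2 * i + 1) k ^ 2) +
        4 / ((6 * (i : ℝ) + 4) ^ 2 * (2 * i + 2)) *
          (((k : ℝ) - (2 * i + 1)) ^ 2 * tc c (2 * i + 1) k ^ 2)) := by
    intro k
    have hk : (0 : ℝ) ≤ k := Nat.cast_nonneg k
    have e1 : 1 / (2 * (i : ℝ) + 2 + 2 * k) = 1 / (6 * (i : ℝ) + 4) -
        2 / (6 * (i : ℝ) + 4) ^ 2 * ((k : ℝ) - (2 * i + 1)) +
        4 * ((k : ℝ) - (2 * i + 1)) ^ 2 / ((6 * (i : ℝ) + 4) ^ 2 * (2 * i + 2 + 2 * k)) := by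
      field_simp
      ring
    have e2 : 4 * ((k : ℝ) - (2 * i + 1)) ^ 2 / ((6 * (i : ℝ) + 4) ^ 2 * (2 * i + 2 + 2 * k)) ≤
        4 * ((k : ℝ) - (2 * i + 1)) ^ 2 / ((6 * (i : ℝ) + 4) ^ 2 * (2 * i + 2)) := by
      refine div_le_div_of_nonneg_left (by positivity) (by positivity) ?_
      refine mul_le_mul_of_nonneg_left (by linarith) (by positivity)
    have e3 : 1 / (2 * (i : ℝ) + 2 + 2 * k) ≤ 1 / (6 * (i : ℝ) + 4) -
        2 / (6 * (i : ℝ) + 4) ^ 2 * ((k : ℝ) - (2 * i + 1)) +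
        4 * ((k : ℝ) - (2 * i + 1)) ^ 2 / ((6 * (i : ℝ) + 4) ^ 2 * (2 * i + 2)) := by
      linarith
    have e4 := mul_le_mul_of_nonneg_left e3
      (show 0 ≤ 1 / (2 * (i : ℝ) + 1) ^ 2 * tc c (2 * i + 1) k ^ 2 by positivity)
    refine le_trans (le_of_eq ?_) (e4.trans (le_of_eq ?_))
    · field_simp
    · ring
  have h3 := (x09_inner h0 h1 i).1.tsum_le_tsum hle hB2.summable
  rw [hB2.tsum_eq] at h3
  refine h3.trans (le_of_eq ?_)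
  field_simp
  ring

/-- The term with `n = 1`. -/
private theorem x09_zero {c : ℝ} (h0 : 0 ≤ c) (h1 : c < 1) :
    ∑' k : ℕ, tc c (2 * 0 + 1) k ^ 2 / ((2 * ((0 : ℕ) : ℝ) + 1) ^ 2 * (2 * ((0 : ℕ) : ℝ) + 2 +
      2 * k)) ≤ 1 / 4 + c ^ 2 / 2 - c ^ 2 / 3 + c ^ 4 / 24 + c ^ 6 / 24 := by
  have ht : 0 < 1 - c ^ 2 := by nlinarith
  have ht1 : c ^ 2 < 1 := by linarith
  rw [(x09_inner h0 h1 0).1.tsum_eq_zero_add]
  have e0 : tc c (2 * 0 + 1) 0 ^ 2 / ((2 * ((0 : ℕ) : ℝ) + 1) ^ 2 * (2 * ((0 : ℕ) : ℝ) + 2 +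
      2 * ((0 : ℕ) : ℝ))) = c ^ 2 / 2 := by
    rw [mul_zero, zero_add, tc_one_zero]
    norm_num
  have hterm : ∀ k : ℕ, tc c (2 * 0 + 1) (k + 1) ^ 2 / ((2 * ((0 : ℕ) : ℝ) + 1) ^ 2 *
      (2 * ((0 : ℕ) : ℝ) + 2 + 2 * ((k + 1 : ℕ) : ℝ))) =
      (1 - c ^ 2) ^ 2 * ((c ^ 2) ^ k / (4 + 2 * k)) := by
    intro k
    rw [mul_zero, zero_add, tc_one_succ, mul_pow, ← pow_mul, mul_comm k 2, pow_mul, neg_sq]
    push_cast
    have : (0 : ℝ) < 4 + 2 * k := by positivity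
    field_simp
    ring
  rw [e0]
  simp only [hterm]
  rw [tsum_mul_left]
  have hg : HasSum (fun k : ℕ => (c ^ 2) ^ k * (1 / 8) + ((if k = 0 then (1 / 8 : ℝ) else 0) +
      if k = 1 then c ^ 2 / 24 else 0)) ((1 - c ^ 2)⁻¹ * (1 / 8) + (1 / 8 + c ^ 2 / 24)) :=
    ((hasSum_geometric_of_lt_one (sq_nonneg c) ht1).mul_right _).add
      ((hasSum_ite_eq 0 _).add (hasSum_ite_eq 1 _))
  have hle : ∀ k : ℕ, (c ^ 2) ^ k / (4 + 2 * k) ≤ (c ^ 2) ^ k * (1 / 8) +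
      ((if k = 0 then (1 / 8 : ℝ) else 0) + if k = 1 then c ^ 2 / 24 else 0) := by
    intro k
    rcases k with _ | _ | k
    · norm_num
    · norm_num
      linarith [sq_nonneg c]
    · simp only [Nat.add_eq_zero_iff, one_ne_zero, and_false, if_false,
        Nat.reduceEqDiff, add_zero]
      rw [div_eq_mul_one_div]
      refine mul_le_mul_of_nonneg_left ?_ (by positivity)
      refine one_div_le_one_div_of_le (by norm_num) ?_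
      push_cast
      have : (0 : ℝ) ≤ k := Nat.cast_nonneg k
      linarith
  have hsumm : Summable fun k : ℕ => (c ^ 2) ^ k / (4 + 2 * (k : ℝ)) :=
    Summable.of_nonneg_of_le (fun k => by positivity) hle hg.summable
  have h4 := hsumm.tsum_le_tsum hle hg.summable
  rw [hg.tsum_eq] at h4
  have h5 := mul_le_mul_of_nonneg_left h4 (sq_nonneg (1 - c ^ 2))
  have e6 : (1 - c ^ 2) ^ 2 * ((1 - c ^ 2)⁻¹ * (1 / 8) + (1 / 8 + c ^ 2 / 24)) =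
      (1 - c ^ 2) / 8 + (1 - c ^ 2) ^ 2 * (1 / 8 + c ^ 2 / 24) := by
    field_simp
  rw [e6] at h5
  nlinarith [h5]

private theorem x09_tail : (Summable fun i : ℕ => 8 / ((6 * ((i + 1 : ℕ) : ℝ) + 4) ^ 2 *
    (2 * ((i + 1 : ℕ) : ℝ) + 2))) ∧
    ∑' i : ℕ, 8 / ((6 * ((i + 1 : ℕ) : ℝ) + 4) ^ 2 * (2 * ((i + 1 : ℕ) : ℝ) + 2)) ≤ 7 / 200 := by
  have hind : ∀ N : ℕ, ∑ i ∈ range (N + 1), 8 / ((6 * ((i + 1 : ℕ) : ℝ) + 4) ^ 2 *
      (2 * ((i + 1 : ℕ) : ℝ) + 2)) ≤ 1 / 50 + 2 / 135 -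
        2 / (9 * (2 * (N : ℝ) + 3) * (2 * N + 5)) := by
    intro N
    induction N with
    | zero => norm_num
    | succ N ih =>
      rw [sum_range_succ]
      have hN : (0 : ℝ) ≤ N := Nat.cast_nonneg N
      have : 8 / ((6 * ((N + 1 + 1 : ℕ) : ℝ) + 4) ^ 2 * (2 * ((N + 1 + 1 : ℕ) : ℝ) + 2)) ≤
          2 / (9 * (2 * (N : ℝ) + 3) * (2 * N + 5)) -
          2 / (9 * (2 * ((N + 1 : ℕ) : ℝ) + 3) * (2 * ((N + 1 : ℕ) : ℝ) + 5)) := by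
        push_cast
        rw [div_sub_div _ _ (by positivity) (by positivity),
          div_le_div_iff₀ (by positivity) (by positivity)]
        ring_nf
        nlinarith [pow_nonneg hN 2, pow_nonneg hN 3, pow_nonneg hN 4, pow_nonneg hN 5,
          pow_nonneg hN 6]
      linarith
  have hbd : ∀ N : ℕ, ∑ i ∈ range N, 8 / ((6 * ((i + 1 : ℕ) : ℝ) + 4) ^ 2 *
      (2 * ((i + 1 : ℕ) : ℝ) + 2)) ≤ 7 / 200 := by
    intro N
    have h1 : ∑ i ∈ range N, 8 / ((6 * ((i + 1 : ℕ) : ℝ) + 4) ^ 2 *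
      (2 * ((i + 1 : ℕ) : ℝ) + 2)) ≤ ∑ i ∈ range (N + 1), 8 / ((6 * ((i + 1 : ℕ) : ℝ) + 4) ^ 2 *
      (2 * ((i + 1 : ℕ) : ℝ) + 2)) :=
      sum_le_sum_of_subset_of_nonneg (range_mono (Nat.le_succ N)) fun _ _ _ => by positivity
    have h2 := hind N
    have h3 : 0 < 2 / (9 * (2 * (N : ℝ) + 3) * (2 * N + 5)) := by positivity
    linarith
  have hsum := summable_of_sum_range_le (fun i => by positivity) hbd
  exact ⟨hsum, Real.tsum_le_of_sum_range_le (fun i => by positivity) hbd⟩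

theorem Mn_le {c : ℝ} (h0 : 0 ≤ c) (h1 : c ^ 2 ≤ 3 / 40) :
    Mn c - c ^ 2 / 2 ≤ Jst - 29 / 100 * c ^ 2 := by
  have hc1 : c < 1 := by nlinarith
  have hMs := Mn_summable h0 hc1
  have hM : Mn c = ∑' i : ℕ, ∑' k : ℕ, tc c (2 * i + 1) k ^ 2 /
      ((2 * (i : ℝ) + 1) ^ 2 * (2 * i + 2 + 2 * k)) := hMs.tsum_prod
  rw [hM, hMs.prod.tsum_eq_zero_add]
  have hJ := Jst_hasSum
  have hJ1 := (hasSum_nat_add_iff' 1).mpr hJ
  obtain ⟨hs, hsl⟩ := x09_tail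
  have hB := hJ1.add (hs.hasSum.mul_left (c ^ 2 / (1 - c ^ 2)))
  have h3 := ((summable_nat_add_iff 1).mpr hMs.prod).tsum_le_tsum
    (fun i => x09_term h0 hc1 (i + 1)) hB.summable
  rw [hB.tsum_eq] at h3
  have h4 := x09_zero h0 hc1
  have h5 : ∑ i ∈ range 1, 1 / ((2 * (i : ℝ) + 1) ^ 2 * (6 * i + 4)) = 1 / 4 := by norm_num
  rw [h5] at h3
  have ht0 : 0 ≤ c ^ 2 := sq_nonneg c
  have h6 : c ^ 2 / (1 - c ^ 2) * ∑' i : ℕ, 8 / ((6 * ((i + 1 : ℕ) : ℝ) + 4) ^ 2 *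
      (2 * ((i + 1 : ℕ) : ℝ) + 2)) ≤ c ^ 2 * (19 / 500) := by
    have : c ^ 2 / (1 - c ^ 2) ≤ c ^ 2 * (40 / 37) := by
      rw [div_le_iff₀ (by linarith)]
      nlinarith
    calc _ ≤ c ^ 2 / (1 - c ^ 2) * (7 / 200) :=
          mul_le_mul_of_nonneg_left hsl (div_nonneg ht0 (by linarith))
      _ ≤ c ^ 2 * (40 / 37) * (7 / 200) := mul_le_mul_of_nonneg_right this (by norm_num)
      _ ≤ _ := by nlinarith
  have h7 : c ^ 4 ≤ 3 / 40 * c ^ 2 := by nlinarith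
  have h8 : c ^ 6 ≤ 3 / 40 * (3 / 40 * c ^ 2) := by
    have : c ^ 6 = c ^ 2 * c ^ 4 := by ring
    rw [this]
    nlinarith [pow_nonneg h0 4]
  linarith

end Pool.Agent.Lib.MP_e1dd62_co.Evn
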