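import Mathlib

/-!
# X10: the pointwise inequality
-/

namespace Pool.Agent.Lib.MP_e1dd62_co.Evn

open Finset Filter Topology

theorem pointwise {A : ℕ → ℂ} (hA : Summable fun k => ‖A k‖) {s : ℂ} (hs : ‖s‖ ≤ 1) :
    ‖∑' k, A k * s ^ k‖ ^ 2 ≤ ∑' k, ‖A k‖ ^ 2 +
      2 * (∑' q : ℕ, s ^ (q + 1) * ∑' l : ℕ, A (l + q + 1) * (starRingEnd ℂ) (A l)).re := by
  have hsk : ∀ k : ℕ, ‖s ^ k‖ ≤ 1 := fun k => by
    rw [norm_pow]; exact pow_le_one₀ (norm_nonneg _) hs
  -- the remainders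
  set R : ℕ → ℂ := fun i => ∑' j, A (j + i) * s ^ j with hR
  have hAi : ∀ i, Summable fun j => ‖A (j + i)‖ := fun i => (summable_nat_add_iff i).mpr hA
  have hRs : ∀ i, Summable fun j => A (j + i) * s ^ j := fun i => by
    refine Summable.of_norm_bounded (hAi i) fun j => ?_
    rw [norm_mul]
    exact mul_le_of_le_one_right (norm_nonneg _) (hsk j)
  have hRrec : ∀ i, R i = A i + s * R (i + 1) := by
    intro i
    simp only [hR]
    rw [(hRs i).tsum_eq_zero_add, ← tsum_mul_left]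
    simp only [zero_add, pow_zero, mul_one]
    congr 1
    refine tsum_congr fun j => ?_
    rw [show j + 1 + i = j + (i + 1) by ring, pow_succ]
    ring
  have hRb : ∀ i, ‖R i‖ ≤ ∑' j, ‖A (j + i)‖ := by
    intro i
    refine tsum_of_norm_bounded (hAi i).hasSum fun j => ?_
    rw [norm_mul]
    exact mul_le_of_le_one_right (norm_nonneg _) (hsk j)
  have hR0 : Tendsto R atTop (𝓝 0) :=
    squeeze_zero_norm hRb (tendsto_sum_nat_add fun k => ‖A k‖)
  have hstep : ∀ i, ‖R i‖ ^ 2 ≤ ‖A i‖ ^ 2 +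
      2 * (s * R (i + 1) * (starRingEnd ℂ) (A i)).re + ‖R (i + 1)‖ ^ 2 := by
    intro i
    rw [hRrec i, ← Complex.normSq_eq_norm_sq, Complex.normSq_add, Complex.normSq_eq_norm_sq,
      Complex.normSq_eq_norm_sq, norm_mul]
    have h1 : (A i * (starRingEnd ℂ) (s * R (i + 1))).re =
        (s * R (i + 1) * (starRingEnd ℂ) (A i)).re := by
      rw [← Complex.conj_re (A i * (starRingEnd ℂ) (s * R (i + 1)))]
      rw [map_mul, Complex.conj_conj, mul_comm]
    rw [h1]
    have h2 : (‖s‖ * ‖R (i + 1)‖) ^ 2 ≤ ‖R (i + 1)‖ ^ 2 :=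
      pow_le_pow_left₀ (by positivity) (mul_le_of_le_one_left (norm_nonneg _) hs) 2
    linarith
  have hiter : ∀ K, ‖R 0‖ ^ 2 ≤ ∑ i ∈ range K, ‖A i‖ ^ 2 +
      2 * (∑ i ∈ range K, s * R (i + 1) * (starRingEnd ℂ) (A i)).re + ‖R K‖ ^ 2 := by
    intro K
    induction K with
    | zero => simp
    | succ K ih =>
      rw [sum_range_succ, sum_range_succ, Complex.add_re]
      have := hstep K
      linarith
  -- the double sum
  set f : ℕ → ℕ → ℂ := fun l q => s ^ (q + 1) * (A (l + q + 1) * (starRingEnd ℂ) (A l)) with hf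
  have hprod : Summable fun p : ℕ × ℕ => ‖A p.1‖ * ‖A p.2‖ :=
    hA.mul_of_nonneg hA (fun _ => norm_nonneg _) (fun _ => norm_nonneg _)
  have hinj : Function.Injective fun p : ℕ × ℕ => ((p.1, p.1 + p.2 + 1) : ℕ × ℕ) := by
    rintro ⟨a, b⟩ ⟨a', b'⟩ h
    simp only [Prod.mk.injEq] at h
    obtain ⟨rfl, h⟩ := h
    simp only [Prod.mk.injEq, true_and]
    omega
  have hF : Summable (Function.uncurry f) := by
    refine Summable.of_norm_bounded (hprod.comp_injective hinj) fun p => ?_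
    simp only [hf, Function.uncurry, Function.comp]
    rw [norm_mul, norm_mul, RCLike.norm_conj]
    calc ‖s ^ (p.2 + 1)‖ * (‖A (p.1 + p.2 + 1)‖ * ‖A p.1‖)
        ≤ 1 * (‖A (p.1 + p.2 + 1)‖ * ‖A p.1‖) :=
          mul_le_mul_of_nonneg_right (hsk _) (by positivity)
      _ = ‖A p.1‖ * ‖A (p.1 + p.2 + 1)‖ := by ring
  have hcomm : ∑' q : ℕ, s ^ (q + 1) * ∑' l : ℕ, A (l + q + 1) * (starRingEnd ℂ) (A l) =
      ∑' l : ℕ, s * R (l + 1) * (starRingEnd ℂ) (A l) := by
    have h1 : ∀ q, s ^ (q + 1) * ∑' l : ℕ, A (l + q + 1) * (starRingEnd ℂ) (A l) =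
        ∑' l, f l q := fun q => by rw [← tsum_mul_left]
    have h2 : ∀ l, s * R (l + 1) * (starRingEnd ℂ) (A l) = ∑' q, f l q := fun l => by
      simp only [hR]
      rw [← tsum_mul_left, ← tsum_mul_right]
      refine tsum_congr fun q => ?_
      simp only [hf]
      rw [show q + (l + 1) = l + q + 1 by ring, pow_succ]
      ring
    simp only [h1, h2]
    exact hF.tsum_comm
  have hsl : Summable fun l : ℕ => s * R (l + 1) * (starRingEnd ℂ) (A l) := by
    have h2 : ∀ l, s * R (l + 1) * (starRingEnd ℂ) (A l) = ∑' q, f l q := fun l => by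
      simp only [hR]
      rw [← tsum_mul_left, ← tsum_mul_right]
      refine tsum_congr fun q => ?_
      simp only [hf]
      rw [show q + (l + 1) = l + q + 1 by ring, pow_succ]
      ring
    simp only [h2]
    exact hF.prod
  have hA2 : Summable fun k => ‖A k‖ ^ 2 := by
    have := hprod.comp_injective (i := fun k : ℕ => ((k, k) : ℕ × ℕ))
      (fun a b h => by simpa using h)
    refine this.congr fun k => ?_
    simp [Function.comp, sq]
  have hlim : Tendsto (fun K => ∑ i ∈ range K, ‖A i‖ ^ 2 +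
      2 * (∑ i ∈ range K, s * R (i + 1) * (starRingEnd ℂ) (A i)).re + ‖R K‖ ^ 2) atTop
      (𝓝 (∑' k, ‖A k‖ ^ 2 + 2 * (∑' l : ℕ, s * R (l + 1) * (starRingEnd ℂ) (A l)).re +
        ‖(0 : ℂ)‖ ^ 2)) := by
    refine (hA2.hasSum.tendsto_sum_nat.add ?_).add ((hR0.norm).pow 2)
    exact ((Complex.continuous_re.tendsto _).comp hsl.hasSum.tendsto_sum_nat).const_mul 2
  have hfin := ge_of_tendsto' hlim hiter
  rw [hcomm]
  have hR00 : R 0 = ∑' k, A k * s ^ k := by simp [hR]
  rw [← hR00]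
  simpa using hfin

end Pool.Agent.Lib.MP_e1dd62_co.Evn
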