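import Pool.Agent.Lib.MP_e1dd62_co.Evn.X02

/-!
# X11B: the expansion of `arctan (z (x + c) / (1 + c x))` in powers of `x = z² s`
-/

namespace Pool.Agent.Lib.MP_e1dd62_co.Evn

open Finset Real

/-- The coefficient of `s ^ k` in `arctan (z (z² s + c) / (1 + c z² s))`. -/
noncomputable def Ak (c : ℝ) (k : ℕ) (z : ℂ) : ℂ :=
  (∑' i : ℕ, (((-1) ^ i * tc c (2 * i + 1) k / (2 * i + 1) : ℝ) : ℂ) * z ^ (2 * i + 1)) *
    (z ^ 2) ^ k

theorem X11B_abs_le {c : ℝ} (h0 : 0 ≤ c) (h1 : c < 1) (n k : ℕ) : |tc c n k| ≤ 1 := by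
  have h := tc_sq h0 h1 n
  have h2 : tc c n k ^ 2 ≤ 1 := by
    have h3 := h.summable.le_tsum k (fun j _ => sq_nonneg _)
    rw [h.tsum_eq] at h3
    exact h3
  exact abs_le_one_iff_mul_self_le_one.mpr (by nlinarith)

theorem X11B_bl_norm {c : ℝ} (h0 : 0 ≤ c) (h1 : c < 1) {x : ℂ} (hx : ‖x‖ ≤ 1) :
    ‖bl c x‖ ≤ 1 := by
  have h2 : (1 + c * x : ℂ) ≠ 0 := by
    intro h
    have h3 : (c * x : ℂ) = -1 := by linear_combination h
    have h4 := congrArg norm h3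
    rw [norm_mul, norm_neg, norm_one, Complex.norm_real, Real.norm_of_nonneg h0] at h4
    nlinarith [norm_nonneg x]
  unfold bl
  rw [norm_div, div_le_one (norm_pos_iff.mpr h2)]
  rw [← abs_of_nonneg (norm_nonneg (x + c : ℂ)), ← abs_of_nonneg (norm_nonneg (1 + c * x : ℂ)),
    ← sq_le_sq]
  rw [← Complex.normSq_eq_norm_sq, ← Complex.normSq_eq_norm_sq, Complex.normSq_apply,
    Complex.normSq_apply]
  have h5 : x.re ^ 2 + x.im ^ 2 ≤ 1 := by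
    have h6 : ‖x‖ ^ 2 ≤ 1 := by nlinarith [norm_nonneg x]
    rw [← Complex.normSq_eq_norm_sq, Complex.normSq_apply] at h6
    nlinarith
  simp
  nlinarith [mul_nonneg (sub_nonneg.mpr h5) (by nlinarith : 0 ≤ 1 - c ^ 2)]

theorem X11B_term {c : ℝ} (h0 : 0 ≤ c) (h1 : c < 1) (k i : ℕ) {z : ℂ} (hz : ‖z‖ < 1) :
    ‖(((-1) ^ i * tc c (2 * i + 1) k / (2 * i + 1) : ℝ) : ℂ) * z ^ (2 * i + 1)‖ ≤ ‖z‖ ^ i := by
  rw [norm_mul, norm_pow, Complex.norm_real, Real.norm_eq_abs, abs_div, abs_mul, abs_pow, abs_neg,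
    abs_one, one_pow, one_mul]
  have h2 := X11B_abs_le h0 h1 (2 * i + 1) k
  have h3 : (1 : ℝ) ≤ |2 * (i : ℝ) + 1| := by
    rw [abs_of_nonneg (by positivity)]
    have : (0 : ℝ) ≤ i := by positivity
    linarith
  have h4 : |tc c (2 * i + 1) k| / |2 * (i : ℝ) + 1| ≤ 1 := by
    rw [div_le_one (by linarith)]
    linarith
  have h5 : ‖z‖ ^ (2 * i + 1) ≤ ‖z‖ ^ i :=
    pow_le_pow_of_le_one (norm_nonneg z) hz.le (by omega)
  calc |tc c (2 * i + 1) k| / |2 * (i : ℝ) + 1| * ‖z‖ ^ (2 * i + 1)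
      ≤ 1 * ‖z‖ ^ (2 * i + 1) := by
        apply mul_le_mul_of_nonneg_right h4 (by positivity)
    _ ≤ ‖z‖ ^ i := by rw [one_mul]; exact h5

theorem Ak_norm {c : ℝ} (h0 : 0 ≤ c) (h1 : c < 1) (k : ℕ) {z : ℂ} (hz : ‖z‖ < 1) :
    ‖Ak c k z‖ ≤ 1 / (1 - ‖z‖) * (‖z‖ ^ 2) ^ k := by
  unfold Ak
  rw [norm_mul, norm_pow, norm_pow]
  apply mul_le_mul_of_nonneg_right _ (by positivity)
  rw [one_div]
  exact tsum_of_norm_bounded (hasSum_geometric_of_lt_one (norm_nonneg z) hz)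
    fun i => X11B_term h0 h1 k i hz

/-- The double family. -/
noncomputable def X11B_F (c : ℝ) (z x : ℂ) (p : ℕ × ℕ) : ℂ :=
  (((-1) ^ p.1 * tc c (2 * p.1 + 1) p.2 / (2 * p.1 + 1) : ℝ) : ℂ) * z ^ (2 * p.1 + 1) * x ^ p.2

theorem X11B_summable {c : ℝ} (h0 : 0 ≤ c) (h1 : c < 1) {z x : ℂ} (hz : ‖z‖ < 1) (hx : ‖x‖ < 1) :
    Summable (X11B_F c z x) := by
  have hg : Summable fun p : ℕ × ℕ => ‖z‖ ^ p.1 * ‖x‖ ^ p.2 :=
    (summable_geometric_of_lt_one (norm_nonneg z) hz).mul_of_nonneg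
      (summable_geometric_of_lt_one (norm_nonneg x) hx) (fun i => by positivity)
      (fun i => by positivity)
  refine Summable.of_norm_bounded hg ?_
  rintro ⟨i, k⟩
  unfold X11B_F
  rw [norm_mul, norm_pow x]
  exact mul_le_mul_of_nonneg_right (X11B_term h0 h1 k i hz) (by positivity)

theorem X11B_fiber {c : ℝ} (h0 : 0 ≤ c) (h1 : c < 1) {z x : ℂ} (hx : ‖x‖ < 1) (i : ℕ) :
    HasSum (fun k => X11B_F c z x (i, k)) ((-1) ^ i * (z * bl c x) ^ (2 * i + 1) /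
      ((2 * i + 1 : ℕ) : ℂ)) := by
  have hxc : ‖x‖ * c < 1 := by nlinarith [norm_nonneg x]
  have h2 := (tc_hasSum h0 h1 (2 * i + 1) hxc).mul_left
    ((-1) ^ i / ((2 * i + 1 : ℕ) : ℂ) * z ^ (2 * i + 1))
  have e1 : (fun k => X11B_F c z x (i, k)) = fun k => (-1) ^ i / ((2 * i + 1 : ℕ) : ℂ) *
      z ^ (2 * i + 1) * ((tc c (2 * i + 1) k : ℂ) * x ^ k) := by
    funext k
    unfold X11B_F
    push_cast
    ring
  have e2 : (-1) ^ i * (z * bl c x) ^ (2 * i + 1) / ((2 * i + 1 : ℕ) : ℂ) =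
      (-1) ^ i / ((2 * i + 1 : ℕ) : ℂ) * z ^ (2 * i + 1) * bl c x ^ (2 * i + 1) := by
    rw [mul_pow]
    ring
  rw [e1, e2]
  exact h2

theorem X11B_total {c : ℝ} (h0 : 0 ≤ c) (h1 : c < 1) {z x : ℂ} (hz : ‖z‖ < 1) (hx : ‖x‖ < 1) :
    HasSum (X11B_F c z x) (Complex.arctan (z * bl c x)) := by
  have hF := X11B_summable h0 h1 hz hx
  have hbl := X11B_bl_norm h0 h1 hx.le
  have hw : ‖z * bl c x‖ < 1 := by
    rw [norm_mul]
    nlinarith [norm_nonneg z, norm_nonneg (bl c x)]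
  have h2 := hF.hasSum.prod_fiberwise fun i => X11B_fiber (z := z) h0 h1 hx i
  have h4 := h2.unique (Complex.hasSum_arctan hw)
  rw [← h4]
  exact hF.hasSum

theorem Ak_hasSum {c : ℝ} (h0 : 0 ≤ c) (h1 : c < 1) {z s : ℂ} (hz : ‖z‖ < 1) (hs : ‖s‖ ≤ 1) :
    HasSum (fun k => Ak c k z * s ^ k) (Complex.arctan (z * bl c (z ^ 2 * s))) := by
  have hxlt : ‖z ^ 2 * s‖ < 1 := by
    rw [norm_mul, norm_pow]
    have hz2 : ‖z‖ ^ 2 < 1 := by nlinarith [norm_nonneg z]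
    nlinarith [norm_nonneg s, sq_nonneg ‖z‖]
  have hS' : HasSum (X11B_F c z (z ^ 2 * s) ∘ Prod.swap)
      (Complex.arctan (z * bl c (z ^ 2 * s))) :=
    (Equiv.prodComm ℕ ℕ).hasSum_iff.mpr (X11B_total h0 h1 hz hxlt)
  refine HasSum.prod_fiberwise hS' fun k => ?_
  change HasSum (fun i => X11B_F c z (z ^ 2 * s) (i, k)) _
  have h5 : Ak c k z * s ^ k = (∑' i : ℕ, (((-1) ^ i * tc c (2 * i + 1) k / (2 * i + 1) : ℝ) : ℂ) *
      z ^ (2 * i + 1)) * (z ^ 2 * s) ^ k := by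
    unfold Ak
    rw [mul_pow]
    ring
  rw [h5]
  have h6 : Summable fun i : ℕ => (((-1) ^ i * tc c (2 * i + 1) k / (2 * i + 1) : ℝ) : ℂ) *
      z ^ (2 * i + 1) :=
    Summable.of_norm_bounded (summable_geometric_of_lt_one (norm_nonneg z) hz)
      fun i => X11B_term h0 h1 k i hz
  have h7 := h6.hasSum.mul_right ((z ^ 2 * s) ^ k)
  have h8 : (fun i => X11B_F c z (z ^ 2 * s) (i, k)) = fun i : ℕ =>
      (((-1) ^ i * tc c (2 * i + 1) k / (2 * i + 1) : ℝ) : ℂ) * z ^ (2 * i + 1) *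
      (z ^ 2 * s) ^ k := rfl
  rw [h8]
  exact h7

end Pool.Agent.Lib.MP_e1dd62_co.Evn
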