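import Pool.Agent.Lib.MP_e1dd62_co.Evn.X11A
import Pool.Agent.Lib.MP_e1dd62_co.Evn.X11B

/-!
# X11C: the average of the diagonal terms
-/

namespace Pool.Agent.Lib.MP_e1dd62_co.Evn

open Finset Real

/-- The coefficients of the double series. -/
noncomputable def X11C_a (c : ℝ) (i k : ℕ) : ℝ := (-1) ^ i * tc c (2 * i + 1) k / (2 * i + 1)

theorem X11C_a_abs {c : ℝ} (h0 : 0 ≤ c) (h1 : c < 1) (i k : ℕ) : |X11C_a c i k| ≤ 1 := by
  unfold X11C_a
  rw [abs_div, abs_mul, abs_pow, abs_neg, abs_one, one_pow, one_mul]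
  have h2 := X11B_abs_le h0 h1 (2 * i + 1) k
  have h3 : (1 : ℝ) ≤ |2 * (i : ℝ) + 1| := by
    rw [abs_of_nonneg (by positivity)]
    have : (0 : ℝ) ≤ i := by positivity
    linarith
  rw [div_le_one (by linarith)]
  linarith

theorem X11C_geo {r : ℝ} (hr0 : 0 ≤ r) (hr1 : r < 1) :
    Summable fun p : ℕ × ℕ => r ^ p.1 * r ^ p.2 :=
  (summable_geometric_of_lt_one hr0 hr1).mul_of_nonneg
    (summable_geometric_of_lt_one hr0 hr1) (fun i => by positivity) (fun i => by positivity)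

theorem X11C_hasSum {c : ℝ} (h0 : 0 ≤ c) (h1 : c < 1) (k : ℕ) {z : ℂ} (hz : ‖z‖ < 1) :
    HasSum (fun i : ℕ => (X11C_a c i k : ℂ) * z ^ (2 * i + 1) * (z ^ 2) ^ k) (Ak c k z) := by
  have h6 : Summable fun i : ℕ => (((-1) ^ i * tc c (2 * i + 1) k / (2 * i + 1) : ℝ) : ℂ) *
      z ^ (2 * i + 1) :=
    Summable.of_norm_bounded (summable_geometric_of_lt_one (norm_nonneg z) hz)
      fun i => X11B_term h0 h1 k i hz
  exact h6.hasSum.mul_right ((z ^ 2) ^ k)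

theorem X11C_hasSum_conj {c : ℝ} (h0 : 0 ≤ c) (h1 : c < 1) (k : ℕ) {z : ℂ} (hz : ‖z‖ < 1) :
    HasSum (fun i : ℕ => (X11C_a c i k : ℂ) * (starRingEnd ℂ) z ^ (2 * i + 1) *
      ((starRingEnd ℂ) z ^ 2) ^ k) ((starRingEnd ℂ) (Ak c k z)) := by
  have h2 := (X11C_hasSum h0 h1 k hz).map (starRingEnd ℂ) Complex.continuous_conj
  have h3 : ((starRingEnd ℂ) ∘ fun i : ℕ => (X11C_a c i k : ℂ) * z ^ (2 * i + 1) * (z ^ 2) ^ k) =
      fun i : ℕ => (X11C_a c i k : ℂ) * (starRingEnd ℂ) z ^ (2 * i + 1) *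
      ((starRingEnd ℂ) z ^ 2) ^ k := by
    funext i
    simp
  rw [h3] at h2
  exact h2

/-- summation by fibres -/
theorem X11C_fib {β : Type} {f : ℕ × β → ℂ} (hf : Summable f) {g : ℕ → ℂ}
    (h : ∀ n, HasSum (fun b => f (n, b)) (g n)) : HasSum f (∑' n, g n) := by
  have h2 := hf.hasSum.prod_fiberwise h
  rw [h2.tsum_eq]
  exact hf.hasSum

/-- powers of the point on the circle -/
theorem X11C_pow (r θ : ℝ) (m m' : ℕ) :
    ((r * Complex.exp (θ * Complex.I) : ℂ)) ^ m *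
      (starRingEnd ℂ) (r * Complex.exp (θ * Complex.I)) ^ m' =
      ((r ^ (m + m') : ℝ) : ℂ) *
        Complex.exp ((((((m : ℤ) - m' : ℤ) : ℝ) * θ : ℝ) : ℂ) * Complex.I) := by
  have h1 : (starRingEnd ℂ) (r * Complex.exp (θ * Complex.I)) =
      r * Complex.exp (-(θ * Complex.I)) := by
    rw [map_mul, Complex.conj_ofReal, ← Complex.exp_conj, map_mul, Complex.conj_ofReal,
      Complex.conj_I, mul_neg]
  rw [h1, mul_pow, mul_pow, ← Complex.exp_nat_mul, ← Complex.exp_nat_mul]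
  have h2 : Complex.exp ((((((m : ℤ) - m' : ℤ) : ℝ) * θ : ℝ) : ℂ) * Complex.I) =
      Complex.exp (m * (θ * Complex.I)) * Complex.exp (m' * -(θ * Complex.I)) := by
    rw [← Complex.exp_add]
    congr 1
    push_cast
    ring
  rw [h2]
  push_cast
  rw [pow_add]
  ring

theorem X11C_norm {r : ℝ} (hr0 : 0 < r) (θ : ℝ) : ‖(r * Complex.exp (θ * Complex.I) : ℂ)‖ = r := by
  rw [norm_mul, Complex.norm_exp_ofReal_mul_I, mul_one, Complex.norm_real,
    Real.norm_of_nonneg hr0.le]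

/-- The coefficients of the expansion of the diagonal terms. -/
noncomputable def X11C_g (c r : ℝ) (p : ℕ × ℕ × ℕ) : ℂ :=
  ((X11C_a c p.2.1 p.1 * X11C_a c p.2.2 p.1 *
    r ^ ((2 * p.2.1 + 1 + 2 * p.1) + (2 * p.2.2 + 1 + 2 * p.1)) : ℝ) : ℂ)

theorem X11C_g_summable {c : ℝ} (h0 : 0 ≤ c) (h1 : c < 1) {r : ℝ} (hr0 : 0 < r) (hr1 : r < 1) :
    Summable fun p => ‖X11C_g c r p‖ := by
  have hg : Summable fun p : ℕ × ℕ × ℕ => r ^ p.1 * (r ^ p.2.1 * r ^ p.2.2) :=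
    (summable_geometric_of_lt_one hr0.le hr1).mul_of_nonneg (X11C_geo hr0.le hr1)
      (fun i => by positivity) (fun i => by positivity)
  refine Summable.of_nonneg_of_le (fun p => norm_nonneg _) ?_ hg
  rintro ⟨k, i, i'⟩
  unfold X11C_g
  rw [Complex.norm_real, Real.norm_eq_abs, abs_mul, abs_mul, abs_of_nonneg (by positivity :
    0 ≤ r ^ ((2 * i + 1 + 2 * k) + (2 * i' + 1 + 2 * k)))]
  have h2 := X11C_a_abs h0 h1 i k
  have h3 := X11C_a_abs h0 h1 i' k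
  have h4 : |X11C_a c i k| * |X11C_a c i' k| ≤ 1 := by
    have := abs_nonneg (X11C_a c i k)
    have := abs_nonneg (X11C_a c i' k)
    nlinarith
  have h5 : r ^ ((2 * i + 1 + 2 * k) + (2 * i' + 1 + 2 * k)) ≤ r ^ (k + (i + i')) :=
    pow_le_pow_of_le_one hr0.le hr1.le (by omega)
  calc |X11C_a c i k| * |X11C_a c i' k| * r ^ ((2 * i + 1 + 2 * k) + (2 * i' + 1 + 2 * k))
      ≤ 1 * r ^ (k + (i + i')) := by
        apply mul_le_mul h4 h5 (by positivity) (by norm_num)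
    _ = r ^ k * (r ^ i * r ^ i') := by rw [one_mul, pow_add, pow_add]

/-- The exponents. -/
def X11C_e (p : ℕ × ℕ × ℕ) : ℤ :=
  ((2 * p.2.1 + 1 + 2 * p.1 : ℕ) : ℤ) - ((2 * p.2.2 + 1 + 2 * p.1 : ℕ) : ℤ)

theorem X11C_expand {c : ℝ} (h0 : 0 ≤ c) (h1 : c < 1) {r : ℝ} (hr0 : 0 < r) (hr1 : r < 1)
    (θ : ℝ) : HasSum (fun p => X11C_g c r p *
      Complex.exp (((X11C_e p * θ : ℝ) : ℂ) * Complex.I))
      ((∑' k, ‖Ak c k (r * Complex.exp (θ * Complex.I))‖ ^ 2 : ℝ) : ℂ) := by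
  have hz : ‖(r * Complex.exp (θ * Complex.I) : ℂ)‖ < 1 := by rw [X11C_norm hr0]; exact hr1
  have hs : Summable (fun p => X11C_g c r p *
      Complex.exp (((X11C_e p * θ : ℝ) : ℂ) * Complex.I)) := by
    refine Summable.of_norm ?_
    refine (X11C_g_summable h0 h1 hr0 hr1).congr fun p => ?_
    rw [norm_mul, Complex.norm_exp_ofReal_mul_I, mul_one]
  rw [Complex.ofReal_tsum]
  refine X11C_fib hs fun k => ?_
  have h2 := X11C_hasSum h0 h1 k hz
  have h3 := X11C_hasSum_conj h0 h1 k hz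
  have h4 : Ak c k (r * Complex.exp (θ * Complex.I)) *
      (starRingEnd ℂ) (Ak c k (r * Complex.exp (θ * Complex.I))) =
      ((‖Ak c k (r * Complex.exp (θ * Complex.I))‖ ^ 2 : ℝ) : ℂ) := by
    rw [Complex.mul_conj, Complex.normSq_eq_norm_sq]
  have e1 : (fun b : ℕ × ℕ => X11C_g c r (k, b) *
      Complex.exp (((X11C_e (k, b) * θ : ℝ) : ℂ) * Complex.I)) =
      fun b : ℕ × ℕ => ((X11C_a c b.1 k : ℂ) * (r * Complex.exp (θ * Complex.I)) ^ (2 * b.1 + 1) *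
      ((r * Complex.exp (θ * Complex.I)) ^ 2) ^ k) *
      ((X11C_a c b.2 k : ℂ) *
      (starRingEnd ℂ) (r * Complex.exp (θ * Complex.I)) ^ (2 * b.2 + 1) *
      ((starRingEnd ℂ) (r * Complex.exp (θ * Complex.I)) ^ 2) ^ k) := by
    funext b
    have h5 := X11C_pow r θ (2 * b.1 + 1 + 2 * k) (2 * b.2 + 1 + 2 * k)
    unfold X11C_g X11C_e
    dsimp only
    rw [Complex.ofReal_mul, mul_assoc, ← h5]
    rw [← pow_mul, ← pow_mul, pow_add _ (2 * b.1 + 1), pow_add _ (2 * b.2 + 1)]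
    push_cast
    ring
  rw [e1, ← h4]
  apply h2.mul h3
  rw [← e1]
  exact hs.prod_factor k

theorem avg_diag {c : ℝ} (h0 : 0 ≤ c) (h1 : c < 1) {r : ℝ} (hr0 : 0 < r) (hr1 : r < 1) :
    Continuous (fun θ : ℝ => ∑' k, ‖Ak c k (r * Complex.exp (θ * Complex.I))‖ ^ 2) ∧
      1 / (2 * π) * (∫ θ in (0 : ℝ)..(2 * π),
        ∑' k, ‖Ak c k (r * Complex.exp (θ * Complex.I))‖ ^ 2) =
      ∑' p : ℕ × ℕ, tc c (2 * p.1 + 1) p.2 ^ 2 / (2 * (p.1 : ℝ) + 1) ^ 2 *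
        r ^ (2 * (2 * p.1 + 1 + 2 * p.2)) := by
  obtain ⟨h2, h3⟩ := avg_exp (X11C_g_summable h0 h1 hr0 hr1) X11C_e
  have h4 : (fun θ : ℝ => ∑' p, X11C_g c r p *
      Complex.exp (((X11C_e p * θ : ℝ) : ℂ) * Complex.I)) =
      fun θ : ℝ => ((∑' k, ‖Ak c k (r * Complex.exp (θ * Complex.I))‖ ^ 2 : ℝ) : ℂ) := by
    funext θ
    exact (X11C_expand h0 h1 hr0 hr1 θ).tsum_eq
  rw [h4] at h2 h3
  refine ⟨?_, ?_⟩
  · exact Complex.continuous_re.comp h2
  · apply Complex.ofReal_injective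
    rw [Complex.ofReal_mul, ← intervalIntegral.integral_ofReal, h3, Complex.ofReal_tsum]
    have hinj : Function.Injective fun p : ℕ × ℕ => ((p.2, (p.1, p.1)) : ℕ × ℕ × ℕ) := by
      rintro ⟨a, b⟩ ⟨a', b'⟩ h
      simp only [Prod.mk.injEq] at h
      ext
      · exact h.2.1
      · exact h.1
    rw [← hinj.tsum_eq]
    · apply tsum_congr
      rintro ⟨i, k⟩
      have h5 : X11C_e (k, i, i) = 0 := by simp [X11C_e]
      change (if X11C_e (k, i, i) = 0 then X11C_g c r (k, i, i) else 0) = _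
      rw [if_pos h5]
      unfold X11C_g X11C_a
      dsimp only
      congr 1
      have h6 : ((-1 : ℝ) ^ i) ^ 2 = 1 := by rw [← pow_mul, mul_comm, pow_mul]; norm_num
      have h7 : (2 * i + 1 + 2 * k) + (2 * i + 1 + 2 * k) = 2 * (2 * i + 1 + 2 * k) := by ring
      rw [h7]
      have h8 : (-1) ^ i * tc c (2 * i + 1) k / (2 * (i : ℝ) + 1) *
          ((-1) ^ i * tc c (2 * i + 1) k / (2 * (i : ℝ) + 1)) =
          ((-1 : ℝ) ^ i) ^ 2 * (tc c (2 * i + 1) k ^ 2 / (2 * (i : ℝ) + 1) ^ 2) := by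
        rw [← div_pow]
        ring
      rw [h8, h6, one_mul]
    · rintro ⟨k, i, i'⟩ h
      rw [Function.mem_support] at h
      have h5 : X11C_e (k, i, i') = 0 := by
        by_contra hne
        exact h (if_neg hne)
      have h6 : i = i' := by
        simp only [X11C_e] at h5
        omega
      exact ⟨(i, k), by rw [h6]⟩

end Pool.Agent.Lib.MP_e1dd62_co.Evn
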