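import Pool.Agent.Lib.MP_e1dd62_co.Evn.X11A
import Pool.Agent.Lib.MP_e1dd62_co.Evn.X11B
import Pool.Agent.Lib.MP_e1dd62_co.Evn.X11C

/-!
# X11D: the average of the cross terms
-/

namespace Pool.Agent.Lib.MP_e1dd62_co.Evn

open Finset Real

/-- The coefficients of the expansion of the cross terms; the index is `(q, (j, (l, (i, i'))))`. -/
noncomputable def X11D_g (c r : ℝ) (σ : ℕ → ℕ → ℂ) (p : ℕ × ℕ × ℕ × ℕ × ℕ) : ℂ :=
  σ (p.1 + 1) p.2.1 * ((X11C_a c p.2.2.2.1 (p.2.2.1 + p.1 + 1) * X11C_a c p.2.2.2.2 p.2.2.1 *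
    r ^ ((2 * p.2.1 + (2 * p.2.2.2.1 + 1) + 2 * (p.2.2.1 + p.1 + 1)) +
      ((2 * p.2.2.2.2 + 1) + 2 * p.2.2.1)) : ℝ) : ℂ)

/-- The exponents. -/
def X11D_e (p : ℕ × ℕ × ℕ × ℕ × ℕ) : ℤ :=
  ((2 * p.2.1 + (2 * p.2.2.2.1 + 1) + 2 * (p.2.2.1 + p.1 + 1) : ℕ) : ℤ) -
    (((2 * p.2.2.2.2 + 1) + 2 * p.2.2.1 : ℕ) : ℤ)

theorem X11D_g_summable {c : ℝ} (h0 : 0 ≤ c) (h1 : c < 1) {σ : ℕ → ℕ → ℂ}
    (hσ : ∀ q j, ‖σ q j‖ ≤ 1) {r : ℝ} (hr0 : 0 < r) (hr1 : r < 1) :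
    Summable fun p => ‖X11D_g c r σ p‖ := by
  have hgeo := summable_geometric_of_lt_one hr0.le hr1
  have hg : Summable fun p : ℕ × ℕ × ℕ × ℕ × ℕ =>
      r ^ p.1 * (r ^ p.2.1 * (r ^ p.2.2.1 * (r ^ p.2.2.2.1 * r ^ p.2.2.2.2))) :=
    hgeo.mul_of_nonneg (hgeo.mul_of_nonneg (hgeo.mul_of_nonneg (X11C_geo hr0.le hr1)
      (fun i => by positivity) (fun i => by positivity)) (fun i => by positivity)
      (fun i => by positivity)) (fun i => by positivity) (fun i => by positivity)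
  refine Summable.of_nonneg_of_le (fun p => norm_nonneg _) ?_ hg
  rintro ⟨q, j, l, i, i'⟩
  unfold X11D_g
  dsimp only
  rw [norm_mul, Complex.norm_real, Real.norm_eq_abs, abs_mul, abs_mul, abs_of_nonneg (by positivity :
    0 ≤ r ^ ((2 * j + (2 * i + 1) + 2 * (l + q + 1)) + ((2 * i' + 1) + 2 * l)))]
  have h2 := X11C_a_abs h0 h1 i (l + q + 1)
  have h3 := X11C_a_abs h0 h1 i' l
  have h4 : |X11C_a c i (l + q + 1)| * |X11C_a c i' l| ≤ 1 := by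
    have := abs_nonneg (X11C_a c i (l + q + 1))
    have := abs_nonneg (X11C_a c i' l)
    nlinarith
  have h5 : r ^ ((2 * j + (2 * i + 1) + 2 * (l + q + 1)) + ((2 * i' + 1) + 2 * l)) ≤
      r ^ (q + (j + (l + (i + i')))) :=
    pow_le_pow_of_le_one hr0.le hr1.le (by omega)
  calc ‖σ (q + 1) j‖ * (|X11C_a c i (l + q + 1)| * |X11C_a c i' l| *
        r ^ ((2 * j + (2 * i + 1) + 2 * (l + q + 1)) + ((2 * i' + 1) + 2 * l)))
      ≤ 1 * (1 * r ^ (q + (j + (l + (i + i'))))) := by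
        apply mul_le_mul (hσ _ _) _ (by positivity) (by norm_num)
        apply mul_le_mul h4 h5 (by positivity) (by norm_num)
    _ = r ^ q * (r ^ j * (r ^ l * (r ^ i * r ^ i'))) := by
        rw [one_mul, one_mul, pow_add, pow_add, pow_add, pow_add]

theorem X11D_expand {c : ℝ} (h0 : 0 ≤ c) (h1 : c < 1) {s : ℂ → ℂ} {σ : ℕ → ℕ → ℂ}
    (hσ : ∀ q j, ‖σ q j‖ ≤ 1)
    (hsum : ∀ q w, ‖w‖ < 1 → HasSum (fun j => σ q j * w ^ j) (s w ^ q))
    {r : ℝ} (hr0 : 0 < r) (hr1 : r < 1) (θ : ℝ) : HasSum (fun p => X11D_g c r σ p *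
      Complex.exp (((X11D_e p * θ : ℝ) : ℂ) * Complex.I))
      (∑' q : ℕ, s ((r * Complex.exp (θ * Complex.I)) ^ 2) ^ (q + 1) *
      ∑' l : ℕ, Ak c (l + q + 1) (r * Complex.exp (θ * Complex.I)) *
        (starRingEnd ℂ) (Ak c l (r * Complex.exp (θ * Complex.I)))) := by
  set z : ℂ := r * Complex.exp (θ * Complex.I) with hzdef
  have hz : ‖z‖ < 1 := by rw [hzdef, X11C_norm hr0]; exact hr1
  have hz2 : ‖z ^ 2‖ < 1 := by
    rw [norm_pow]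
    nlinarith [norm_nonneg z]
  have hs : Summable (fun p => X11D_g c r σ p *
      Complex.exp (((X11D_e p * θ : ℝ) : ℂ) * Complex.I)) := by
    refine Summable.of_norm ?_
    refine (X11D_g_summable h0 h1 hσ hr0 hr1).congr fun p => ?_
    rw [norm_mul, Complex.norm_exp_ofReal_mul_I, mul_one]
  -- the form of the terms
  have hterm : ∀ q j l i i' : ℕ, X11D_g c r σ (q, j, l, i, i') *
      Complex.exp (((X11D_e (q, j, l, i, i') * θ : ℝ) : ℂ) * Complex.I) =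
      (σ (q + 1) j * (z ^ 2) ^ j) * (((X11C_a c i (l + q + 1) : ℂ) * z ^ (2 * i + 1) *
      (z ^ 2) ^ (l + q + 1)) * ((X11C_a c i' l : ℂ) * (starRingEnd ℂ) z ^ (2 * i' + 1) *
      ((starRingEnd ℂ) z ^ 2) ^ l)) := by
    intro q j l i i'
    have h5 := X11C_pow r θ (2 * j + (2 * i + 1) + 2 * (l + q + 1)) ((2 * i' + 1) + 2 * l)
    unfold X11D_g X11D_e
    dsimp only
    rw [Complex.ofReal_mul, mul_assoc, mul_assoc, ← h5, ← hzdef]
    rw [← pow_mul, ← pow_mul, ← pow_mul, pow_add _ (2 * j + (2 * i + 1)),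
      pow_add _ (2 * j) (2 * i + 1), pow_add _ (2 * i' + 1)]
    push_cast
    ring
  refine X11C_fib hs fun q => ?_
  have hs1 := hs.prod_factor q
  -- the sum over l, i, i'
  have hnz : ‖z‖ = r := X11C_norm hr0 θ
  have hnz' : ‖(starRingEnd ℂ) z‖ = r := by rw [RCLike.norm_conj, hnz]
  have hl : Summable fun b : ℕ × ℕ × ℕ => (((X11C_a c b.2.1 (b.1 + q + 1) : ℂ) *
      z ^ (2 * b.2.1 + 1) * (z ^ 2) ^ (b.1 + q + 1)) * ((X11C_a c b.2.2 b.1 : ℂ) *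
      (starRingEnd ℂ) z ^ (2 * b.2.2 + 1) * ((starRingEnd ℂ) z ^ 2) ^ b.1)) := by
    have hgeo := summable_geometric_of_lt_one hr0.le hr1
    have hg : Summable fun p : ℕ × ℕ × ℕ => r ^ p.1 * (r ^ p.2.1 * r ^ p.2.2) :=
      hgeo.mul_of_nonneg (X11C_geo hr0.le hr1) (fun i => by positivity) (fun i => by positivity)
    refine Summable.of_norm_bounded hg ?_
    rintro ⟨l, i, i'⟩
    dsimp only
    rw [norm_mul, norm_mul, norm_mul, norm_mul, norm_mul, norm_pow, norm_pow, norm_pow, norm_pow,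
      norm_pow, norm_pow, hnz, hnz', Complex.norm_real, Complex.norm_real, Real.norm_eq_abs,
      Real.norm_eq_abs]
    have h2 := X11C_a_abs h0 h1 i (l + q + 1)
    have h3 := X11C_a_abs h0 h1 i' l
    have h4 : |X11C_a c i (l + q + 1)| * |X11C_a c i' l| ≤ 1 := by
      have := abs_nonneg (X11C_a c i (l + q + 1))
      have := abs_nonneg (X11C_a c i' l)
      nlinarith
    have h5 : r ^ ((2 * i + 1) + 2 * (l + q + 1) + ((2 * i' + 1) + 2 * l)) ≤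
        r ^ (l + (i + i')) :=
      pow_le_pow_of_le_one hr0.le hr1.le (by omega)
    calc |X11C_a c i (l + q + 1)| * r ^ (2 * i + 1) * (r ^ 2) ^ (l + q + 1) *
        (|X11C_a c i' l| * r ^ (2 * i' + 1) * (r ^ 2) ^ l)
        = (|X11C_a c i (l + q + 1)| * |X11C_a c i' l|) *
          r ^ ((2 * i + 1) + 2 * (l + q + 1) + ((2 * i' + 1) + 2 * l)) := by
          rw [← pow_mul, ← pow_mul, pow_add _ ((2 * i + 1) + 2 * (l + q + 1)),
            pow_add _ (2 * i + 1) (2 * (l + q + 1)), pow_add _ (2 * i' + 1)]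
          ring
      _ ≤ 1 * r ^ (l + (i + i')) := mul_le_mul h4 h5 (by positivity) (by norm_num)
      _ = r ^ l * (r ^ i * r ^ i') := by rw [one_mul, pow_add, pow_add]
  have hl2 : HasSum (fun b : ℕ × ℕ × ℕ => (((X11C_a c b.2.1 (b.1 + q + 1) : ℂ) *
      z ^ (2 * b.2.1 + 1) * (z ^ 2) ^ (b.1 + q + 1)) * ((X11C_a c b.2.2 b.1 : ℂ) *
      (starRingEnd ℂ) z ^ (2 * b.2.2 + 1) * ((starRingEnd ℂ) z ^ 2) ^ b.1)))
      (∑' l : ℕ, Ak c (l + q + 1) z * (starRingEnd ℂ) (Ak c l z)) := by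
    refine X11C_fib hl fun l => ?_
    have hlf : Summable fun b : ℕ × ℕ => (((X11C_a c b.1 (l + q + 1) : ℂ) *
        z ^ (2 * b.1 + 1) * (z ^ 2) ^ (l + q + 1)) * ((X11C_a c b.2 l : ℂ) *
        (starRingEnd ℂ) z ^ (2 * b.2 + 1) * ((starRingEnd ℂ) z ^ 2) ^ l)) := hl.prod_factor l
    have hm := HasSum.mul (X11C_hasSum h0 h1 (l + q + 1) hz) (X11C_hasSum_conj h0 h1 l hz) hlf
    exact hm
  have e1 : (fun b : ℕ × ℕ × ℕ × ℕ => X11D_g c r σ (q, b) *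
      Complex.exp (((X11D_e (q, b) * θ : ℝ) : ℂ) * Complex.I)) =
      fun b : ℕ × ℕ × ℕ × ℕ => (σ (q + 1) b.1 * (z ^ 2) ^ b.1) *
      (((X11C_a c b.2.2.1 (b.2.1 + q + 1) : ℂ) *
      z ^ (2 * b.2.2.1 + 1) * (z ^ 2) ^ (b.2.1 + q + 1)) * ((X11C_a c b.2.2.2 b.2.1 : ℂ) *
      (starRingEnd ℂ) z ^ (2 * b.2.2.2 + 1) * ((starRingEnd ℂ) z ^ 2) ^ b.2.1)) := by
    funext b
    exact hterm q b.1 b.2.1 b.2.2.1 b.2.2.2
  rw [e1] at hs1 ⊢
  have hm := HasSum.mul (hsum (q + 1) (z ^ 2) hz2) hl2 hs1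
  exact hm

theorem avg_cross {c : ℝ} (h0 : 0 ≤ c) (h1 : c < 1) {s : ℂ → ℂ} {σ : ℕ → ℕ → ℂ}
    (hσ : ∀ q j, ‖σ q j‖ ≤ 1)
    (hsum : ∀ q w, ‖w‖ < 1 → HasSum (fun j => σ q j * w ^ j) (s w ^ q))
    {r : ℝ} (hr0 : 0 < r) (hr1 : r < 1) :
    Continuous (fun θ : ℝ => ∑' q : ℕ, s ((r * Complex.exp (θ * Complex.I)) ^ 2) ^ (q + 1) *
      ∑' l : ℕ, Ak c (l + q + 1) (r * Complex.exp (θ * Complex.I)) *
        (starRingEnd ℂ) (Ak c l (r * Complex.exp (θ * Complex.I)))) ∧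
      ((1 / (2 * π) : ℝ) : ℂ) * (∫ θ in (0 : ℝ)..(2 * π),
        ∑' q : ℕ, s ((r * Complex.exp (θ * Complex.I)) ^ 2) ^ (q + 1) *
        ∑' l : ℕ, Ak c (l + q + 1) (r * Complex.exp (θ * Complex.I)) *
          (starRingEnd ℂ) (Ak c l (r * Complex.exp (θ * Complex.I)))) =
      ∑' p : (ℕ × ℕ) × ℕ × ℕ, σ (p.1.1 + 1) p.1.2 * (((-1) ^ (p.1.1 + 1 + p.1.2) *
        (tc c (2 * p.2.1 + 1) (p.2.2 + (p.1.1 + 1)) *
          tc c (2 * p.2.1 + 1 + 2 * (p.1.1 + p.1.2 + 1)) p.2.2) /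
        ((2 * (p.2.1 : ℝ) + 1) * (2 * p.2.1 + 1 + 2 * (p.1.1 + p.1.2 + 1))) *
        r ^ (2 * (2 * p.2.1 + 1 + 2 * (p.1.1 + p.1.2 + 1) + 2 * p.2.2)) : ℝ) : ℂ) := by
  obtain ⟨h2, h3⟩ := avg_exp (X11D_g_summable h0 h1 hσ hr0 hr1) X11D_e
  have h4 : (fun θ : ℝ => ∑' p, X11D_g c r σ p *
      Complex.exp (((X11D_e p * θ : ℝ) : ℂ) * Complex.I)) =
      fun θ : ℝ => ∑' q : ℕ, s ((r * Complex.exp (θ * Complex.I)) ^ 2) ^ (q + 1) *
      ∑' l : ℕ, Ak c (l + q + 1) (r * Complex.exp (θ * Complex.I)) *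
        (starRingEnd ℂ) (Ak c l (r * Complex.exp (θ * Complex.I))) := by
    funext θ
    exact (X11D_expand h0 h1 hσ hsum hr0 hr1 θ).tsum_eq
  rw [h4] at h2 h3
  refine ⟨h2, ?_⟩
  rw [h3]
  have hinj : Function.Injective fun p : (ℕ × ℕ) × ℕ × ℕ =>
      ((p.1.1, (p.1.2, (p.2.2, (p.2.1, p.2.1 + (p.1.1 + p.1.2 + 1))))) : ℕ × ℕ × ℕ × ℕ × ℕ) := by
    rintro ⟨⟨a, b⟩, a1, b1⟩ ⟨⟨a', b'⟩, a1', b1'⟩ h
    simp only [Prod.mk.injEq] at h
    obtain ⟨e1, e2, e3, e4, -⟩ := h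
    subst e1 e2 e3 e4
    rfl
  rw [← hinj.tsum_eq]
  · apply tsum_congr
    rintro ⟨⟨q, j⟩, i, l⟩
    have h5 : X11D_e (q, j, l, i, i + (q + j + 1)) = 0 := by
      simp only [X11D_e]
      push_cast
      ring
    change (if X11D_e (q, j, l, i, i + (q + j + 1)) = 0 then
      X11D_g c r σ (q, j, l, i, i + (q + j + 1)) else 0) = _
    rw [if_pos h5]
    unfold X11D_g X11C_a
    dsimp only
    congr 2
    have h6 : ((-1 : ℝ) ^ i) ^ 2 = 1 := by rw [← pow_mul, mul_comm, pow_mul]; norm_num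
    have h7 : (2 * j + (2 * i + 1) + 2 * (l + q + 1)) + ((2 * (i + (q + j + 1)) + 1) + 2 * l) =
        2 * (2 * i + 1 + 2 * (q + j + 1) + 2 * l) := by ring
    have h9 : 2 * (i + (q + j + 1)) + 1 = 2 * i + 1 + 2 * (q + j + 1) := by ring
    have h10 : l + q + 1 = l + (q + 1) := by ring
    have h11 : q + 1 + j = q + j + 1 := by ring
    rw [h7, h9, h10, h11]
    have h8 : (-1) ^ i * tc c (2 * i + 1) (l + (q + 1)) / (2 * (i : ℝ) + 1) *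
        ((-1) ^ (i + (q + j + 1)) * tc c (2 * i + 1 + 2 * (q + j + 1)) l /
          (2 * ((i + (q + j + 1) : ℕ) : ℝ) + 1)) =
        ((-1 : ℝ) ^ i) ^ 2 * ((-1) ^ (q + j + 1) * (tc c (2 * i + 1) (l + (q + 1)) *
          tc c (2 * i + 1 + 2 * (q + j + 1)) l) / ((2 * (i : ℝ) + 1) *
          (2 * i + 1 + 2 * (q + j + 1)))) := by
      have h12 : (2 * ((i + (q + j + 1) : ℕ) : ℝ) + 1) = 2 * i + 1 + 2 * (q + j + 1) := by
        push_cast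
        ring
      rw [h12, div_mul_div_comm, pow_add _ i]
      ring
    rw [h8, h6, one_mul]
  · rintro ⟨q, j, l, i, i'⟩ h
    rw [Function.mem_support] at h
    have h5 : X11D_e (q, j, l, i, i') = 0 := by
      by_contra hne
      exact h (if_neg hne)
    have h6 : i' = i + (q + j + 1) := by
      simp only [X11D_e] at h5
      omega
    exact ⟨((q, j), i, l), by rw [h6]⟩

end Pool.Agent.Lib.MP_e1dd62_co.Evn
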