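import Pool.Agent.Lib.MP_e1dd62_co.Evn.X10
import Pool.Agent.Lib.MP_e1dd62_co.Evn.X11C
import Pool.Agent.Lib.MP_e1dd62_co.Evn.X11D

/-!
# X11: the inequality on the circle of radius `r`
-/

namespace Pool.Agent.Lib.MP_e1dd62_co.Evn

open Finset Real

theorem X11_pt {c : ℝ} (h0 : 0 ≤ c) (h1 : c < 1) {s : ℂ → ℂ}
    (hs : ∀ w, ‖w‖ < 1 → ‖s w‖ ≤ 1) {z : ℂ} (hz : ‖z‖ < 1) :
    ‖Complex.arctan (z * bl c (z ^ 2 * s (z ^ 2)))‖ ^ 2 ≤ ∑' k, ‖Ak c k z‖ ^ 2 +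
      2 * (∑' q : ℕ, s (z ^ 2) ^ (q + 1) * ∑' l : ℕ, Ak c (l + q + 1) z *
        (starRingEnd ℂ) (Ak c l z)).re := by
  have hz2 : ‖z ^ 2‖ < 1 := by
    rw [norm_pow]
    nlinarith [norm_nonneg z]
  have hsz := hs _ hz2
  have hA : Summable fun k => ‖Ak c k z‖ := by
    refine Summable.of_nonneg_of_le (fun k => norm_nonneg _) (fun k => Ak_norm h0 h1 k hz) ?_
    apply Summable.mul_left
    apply summable_geometric_of_lt_one (by positivity)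
    nlinarith [norm_nonneg z]
  have h2 := pointwise hA hsz
  rw [(Ak_hasSum h0 h1 hz hsz).tsum_eq] at h2
  exact h2

theorem X11_int {f g : ℝ → ℝ} (hf : Continuous f) (hg : Continuous g) (a : ℝ) :
    ∫ θ in (0 : ℝ)..a, (f θ + 2 * g θ) = (∫ θ in (0 : ℝ)..a, f θ) + 2 * ∫ θ in (0 : ℝ)..a, g θ := by
  have h2 : Continuous fun θ => 2 * g θ := continuous_const.mul hg
  rw [intervalIntegral.integral_add (hf.intervalIntegrable 0 a)
    (h2.intervalIntegrable 0 a), intervalIntegral.integral_const_mul]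

theorem circle_ineq {c : ℝ} (h0 : 0 ≤ c) (h1 : c < 1) {s : ℂ → ℂ} {σ : ℕ → ℕ → ℂ}
    (hσ : ∀ q j, ‖σ q j‖ ≤ 1) (hs : ∀ w, ‖w‖ < 1 → ‖s w‖ ≤ 1)
    (hsum : ∀ q w, ‖w‖ < 1 → HasSum (fun j => σ q j * w ^ j) (s w ^ q)) {b : ℕ → ℂ}
    (hb : ∀ z, ‖z‖ < 1 → HasSum (fun j => b j * z ^ (2 * j + 1))
      (Complex.arctan (z * bl c (z ^ 2 * s (z ^ 2))))) {r : ℝ} (hr0 : 0 < r) (hr1 : r < 1)
    (M : ℕ) :
    ∑ j ∈ range M, ‖b j‖ ^ 2 * r ^ (4 * j + 2) ≤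
      ∑' p : ℕ × ℕ, tc c (2 * p.1 + 1) p.2 ^ 2 / (2 * (p.1 : ℝ) + 1) ^ 2 *
        r ^ (2 * (2 * p.1 + 1 + 2 * p.2)) +
      2 * (∑' p : (ℕ × ℕ) × ℕ × ℕ, σ (p.1.1 + 1) p.1.2 * (((-1) ^ (p.1.1 + 1 + p.1.2) *
        (tc c (2 * p.2.1 + 1) (p.2.2 + (p.1.1 + 1)) *
          tc c (2 * p.2.1 + 1 + 2 * (p.1.1 + p.1.2 + 1)) p.2.2) /
        ((2 * (p.2.1 : ℝ) + 1) * (2 * p.2.1 + 1 + 2 * (p.1.1 + p.1.2 + 1))) *
        r ^ (2 * (2 * p.2.1 + 1 + 2 * (p.1.1 + p.1.2 + 1) + 2 * p.2.2)) : ℝ) : ℂ)).re := by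
  obtain ⟨hc1, hB⟩ := bessel (F := fun z => Complex.arctan (z * bl c (z ^ 2 * s (z ^ 2)))) hb hr0 hr1
  obtain ⟨hc2, hd⟩ := avg_diag h0 h1 hr0 hr1
  obtain ⟨hc3, hx⟩ := avg_cross h0 h1 hσ hsum hr0 hr1
  have hpi : 0 < 2 * π := by positivity
  have hle : ∑ j ∈ range M, ‖b j‖ ^ 2 * r ^ (4 * j + 2) ≤ _ :=
    sum_le_hasSum (range M) (fun j _ => by positivity) hB
  refine hle.trans ?_
  rw [← hd, ← hx, Complex.re_ofReal_mul]
  have e1 : (∫ θ in (0 : ℝ)..(2 * π),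
        ∑' q : ℕ, s ((r * Complex.exp (θ * Complex.I)) ^ 2) ^ (q + 1) *
        ∑' l : ℕ, Ak c (l + q + 1) (r * Complex.exp (θ * Complex.I)) *
          (starRingEnd ℂ) (Ak c l (r * Complex.exp (θ * Complex.I)))).re =
      ∫ θ in (0 : ℝ)..(2 * π),
        (∑' q : ℕ, s ((r * Complex.exp (θ * Complex.I)) ^ 2) ^ (q + 1) *
        ∑' l : ℕ, Ak c (l + q + 1) (r * Complex.exp (θ * Complex.I)) *
          (starRingEnd ℂ) (Ak c l (r * Complex.exp (θ * Complex.I)))).re :=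
    (Complex.reCLM.intervalIntegral_comp_comm (hc3.intervalIntegrable 0 (2 * π))).symm
  rw [e1]
  have e2 : (∫ θ in (0 : ℝ)..(2 * π), ‖Complex.arctan ((r * Complex.exp (θ * Complex.I)) *
      bl c ((r * Complex.exp (θ * Complex.I)) ^ 2 *
        s ((r * Complex.exp (θ * Complex.I)) ^ 2)))‖ ^ 2) ≤
      (∫ θ in (0 : ℝ)..(2 * π), (∑' k, ‖Ak c k (r * Complex.exp (θ * Complex.I))‖ ^ 2) +
        2 * (∑' q : ℕ, s ((r * Complex.exp (θ * Complex.I)) ^ 2) ^ (q + 1) *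
        ∑' l : ℕ, Ak c (l + q + 1) (r * Complex.exp (θ * Complex.I)) *
          (starRingEnd ℂ) (Ak c l (r * Complex.exp (θ * Complex.I)))).re) := by
    apply intervalIntegral.integral_mono_on hpi.le
    · exact ((hc1.norm.pow 2).intervalIntegrable 0 (2 * π))
    · exact ((hc2.add (continuous_const.mul (Complex.continuous_re.comp hc3))).intervalIntegrable
        0 (2 * π))
    · intro θ _
      apply X11_pt h0 h1 hs
      rw [X11C_norm hr0]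
      exact hr1
  have e3 := X11_int hc2 (Complex.continuous_re.comp hc3) (2 * π)
  simp only [Function.comp_def] at e3
  rw [e3] at e2
  have h3 := mul_le_mul_of_nonneg_left e2 (by positivity : (0 : ℝ) ≤ 1 / (2 * π))
  refine h3.trans (le_of_eq ?_)
  ring

end Pool.Agent.Lib.MP_e1dd62_co.Evn
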