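import Pool.Agent.Lib.MP_e1dd62_co.Evn.X11
import Pool.Agent.Lib.MP_e1dd62_co.Evn.X09

/-!
# X12: the inequality (I)
-/

namespace Pool.Agent.Lib.MP_e1dd62_co.Evn

open Finset Real MeasureTheory

theorem X12_int {ι : Type} [Countable ι] {a : ι → ℝ} (ha : Summable fun α => |a α|) (m : ι → ℕ) :
    IntervalIntegrable (fun r : ℝ => 2 * r * ∑' α, a α * r ^ m α) volume 0 1 ∧
      ∫ r in (0 : ℝ)..1, 2 * r * ∑' α, a α * r ^ m α = ∑' α, a α * (2 / (m α + 2)) := by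
  have hb : ∀ α, ∀ r ∈ Set.Icc (0 : ℝ) 1, ‖a α * r ^ m α‖ ≤ |a α| := by
    intro α r hr
    rw [norm_mul, norm_pow, Real.norm_eq_abs, Real.norm_eq_abs]
    have h2 : |r| ^ m α ≤ 1 := pow_le_one₀ (abs_nonneg r) (abs_le.mpr ⟨by linarith [hr.1], hr.2⟩)
    nlinarith [abs_nonneg (a α)]
  have hcont : ContinuousOn (fun r : ℝ => ∑' α, a α * r ^ m α) (Set.Icc 0 1) := by
    apply continuousOn_tsum _ ha hb
    intro α
    exact (continuous_const.mul (continuous_pow _)).continuousOn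
  refine ⟨?_, ?_⟩
  · apply ContinuousOn.intervalIntegrable
    rw [Set.uIcc_of_le zero_le_one]
    exact (continuous_const.mul continuous_id).continuousOn.mul hcont
  · let f : ι → C(ℝ, ℝ) := fun α => ⟨fun r => 2 * r * (a α * r ^ m α), by fun_prop⟩
    have hs : Summable fun α => ‖(f α).restrict
        (⟨Set.uIcc (0 : ℝ) 1, isCompact_uIcc⟩ : TopologicalSpace.Compacts ℝ)‖ := by
      refine Summable.of_nonneg_of_le (fun α => norm_nonneg _) (fun α => ?_) (ha.mul_left 2)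
      rw [ContinuousMap.norm_le _ (by positivity)]
      rintro ⟨r, hr⟩
      have hr' : r ∈ Set.Icc (0 : ℝ) 1 := by
        have : r ∈ Set.uIcc (0 : ℝ) 1 := hr
        rwa [Set.uIcc_of_le zero_le_one] at this
      change ‖2 * r * (a α * r ^ m α)‖ ≤ 2 * |a α|
      rw [norm_mul]
      have h3 := hb α r hr'
      have h4 : ‖2 * r‖ ≤ 2 := by
        rw [Real.norm_eq_abs, abs_of_nonneg (by linarith [hr'.1])]
        linarith [hr'.2]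
      exact mul_le_mul h4 h3 (norm_nonneg _) (by norm_num)
    have h5 := intervalIntegral.hasSum_intervalIntegral_of_summable_norm hs
    have h6 : (fun r : ℝ => ∑' α, f α r) = fun r : ℝ => 2 * r * ∑' α, a α * r ^ m α := by
      funext r
      change ∑' α, 2 * r * (a α * r ^ m α) = _
      rw [tsum_mul_left]
    rw [h6] at h5
    rw [← h5.tsum_eq]
    apply tsum_congr
    intro α
    change ∫ r in (0 : ℝ)..1, 2 * r * (a α * r ^ m α) = _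
    have h7 : (fun r : ℝ => 2 * r * (a α * r ^ m α)) = fun r : ℝ => (2 * a α) * r ^ (m α + 1) := by
      funext r
      ring
    rw [h7, intervalIntegral.integral_const_mul, integral_pow, one_pow, zero_pow (by omega)]
    push_cast
    have h8 : (m α : ℝ) + 1 + 1 ≠ 0 := by positivity
    have h9 : (m α : ℝ) + 2 ≠ 0 := by positivity
    field_simp
    ring

theorem X12_Z : Summable fun i : ℕ => 1 / (2 * (i : ℝ) + 1) ^ 2 := by
  have h1 : Summable fun i : ℕ => 1 / (((i + 1 : ℕ) : ℝ)) ^ 2 :=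
    (summable_nat_add_iff 1).mpr (Real.summable_one_div_nat_pow.mpr (by norm_num))
  refine Summable.of_nonneg_of_le (fun i => by positivity) (fun i => ?_) h1
  apply one_div_le_one_div_of_le (by positivity)
  push_cast
  have : (0 : ℝ) ≤ i := by positivity
  nlinarith

theorem X12_inner {u : ℕ → ℕ → ℝ} (h0 : ∀ i l, 0 ≤ u i l) (hs : ∀ i, Summable (u i))
    (h1 : ∀ i, ∑' l, u i l ≤ 1) :
    Summable (fun p : ℕ × ℕ => u p.1 p.2 / (2 * (p.1 : ℝ) + 1) ^ 2) ∧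
      ∑' p : ℕ × ℕ, u p.1 p.2 / (2 * (p.1 : ℝ) + 1) ^ 2 ≤ ∑' i : ℕ, 1 / (2 * (i : ℝ) + 1) ^ 2 := by
  have h2 : ∀ i : ℕ, Summable fun l => u i l / (2 * (i : ℝ) + 1) ^ 2 := fun i =>
    (hs i).div_const _
  have h3 : ∀ i : ℕ, ∑' l, u i l / (2 * (i : ℝ) + 1) ^ 2 ≤ 1 / (2 * (i : ℝ) + 1) ^ 2 := by
    intro i
    rw [tsum_div_const]
    exact div_le_div_of_nonneg_right (h1 i) (by positivity)
  have h4 : Summable fun i : ℕ => ∑' l, u i l / (2 * (i : ℝ) + 1) ^ 2 :=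
    Summable.of_nonneg_of_le (fun i => tsum_nonneg fun l => div_nonneg (h0 i l) (by positivity))
      h3 X12_Z
  have h5 : Summable (fun p : ℕ × ℕ => u p.1 p.2 / (2 * (p.1 : ℝ) + 1) ^ 2) :=
    (summable_prod_of_nonneg fun p => div_nonneg (h0 p.1 p.2) (by positivity)).mpr ⟨h2, h4⟩
  refine ⟨h5, ?_⟩
  rw [h5.tsum_prod' h2]
  exact h4.tsum_le_tsum h3 X12_Z

theorem X12_tail {c : ℝ} (h0 : 0 ≤ c) (h1 : c < 1) (n s : ℕ) :
    Summable (fun l => tc c n (l + s) ^ 2) ∧ ∑' l, tc c n (l + s) ^ 2 ≤ 1 := by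
  have h2 := tc_sq h0 h1 n
  have h3 : Summable (fun l => tc c n (l + s) ^ 2) := (summable_nat_add_iff s).mpr h2.summable
  refine ⟨h3, ?_⟩
  have h4 := h2.summable.sum_add_tsum_nat_add s
  rw [h2.tsum_eq] at h4
  have h5 : 0 ≤ ∑ i ∈ range s, tc c n i ^ 2 := Finset.sum_nonneg fun i _ => sq_nonneg _
  linarith

theorem X12_cs {c : ℝ} (h0 : 0 ≤ c) (h1 : c < 1) (n n' s : ℕ) :
    Summable (fun l => |tc c n (l + s)| * |tc c n' l|) ∧
      ∑' l, |tc c n (l + s)| * |tc c n' l| ≤ 1 := by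
  obtain ⟨h2, h3⟩ := X12_tail h0 h1 n s
  have h4 := tc_sq h0 h1 n'
  have hb : ∀ l, |tc c n (l + s)| * |tc c n' l| ≤ (tc c n (l + s) ^ 2 + tc c n' l ^ 2) / 2 := by
    intro l
    nlinarith [sq_nonneg (|tc c n (l + s)| - |tc c n' l|), sq_abs (tc c n (l + s)),
      sq_abs (tc c n' l)]
  have h5 : Summable fun l => (tc c n (l + s) ^ 2 + tc c n' l ^ 2) / 2 :=
    (h2.add h4.summable).div_const 2
  have h6 : Summable (fun l => |tc c n (l + s)| * |tc c n' l|) :=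
    Summable.of_nonneg_of_le (fun l => by positivity) hb h5
  refine ⟨h6, (h6.tsum_le_tsum hb h5).trans ?_⟩
  rw [tsum_div_const, h2.tsum_add h4.summable, h4.tsum_eq]
  linarith

/-- The cross coefficients without the factor `σ`. -/
noncomputable def X12_C (c : ℝ) (p : (ℕ × ℕ) × ℕ × ℕ) : ℝ :=
  (-1) ^ (p.1.1 + 1 + p.1.2) * (tc c (2 * p.2.1 + 1) (p.2.2 + (p.1.1 + 1)) *
    tc c (2 * p.2.1 + 1 + 2 * (p.1.1 + p.1.2 + 1)) p.2.2) /
    ((2 * (p.2.1 : ℝ) + 1) * (2 * p.2.1 + 1 + 2 * (p.1.1 + p.1.2 + 1)))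

theorem X12_C_abs (c : ℝ) (p : (ℕ × ℕ) × ℕ × ℕ) : |X12_C c p| ≤
    |tc c (2 * p.2.1 + 1) (p.2.2 + (p.1.1 + 1))| *
      |tc c (2 * p.2.1 + 1 + 2 * (p.1.1 + p.1.2 + 1)) p.2.2| / (2 * (p.2.1 : ℝ) + 1) ^ 2 := by
  unfold X12_C
  rw [abs_div, abs_mul, abs_pow, abs_neg, abs_one, one_pow, one_mul, abs_mul,
    abs_of_nonneg (by positivity : (0 : ℝ) ≤ (2 * (p.2.1 : ℝ) + 1) *
      (2 * p.2.1 + 1 + 2 * (p.1.1 + p.1.2 + 1)))]
  apply div_le_div_of_nonneg_left (by positivity) (by positivity)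
  rw [sq]
  apply mul_le_mul_of_nonneg_left _ (by positivity)
  have : (0 : ℝ) ≤ (p.1.1 : ℝ) := by positivity
  have : (0 : ℝ) ≤ (p.1.2 : ℝ) := by positivity
  linarith

theorem X12_C_summable {c : ℝ} (h0 : 0 ≤ c) (h1 : c < 1) (q j : ℕ) :
    Summable (fun p : ℕ × ℕ => |X12_C c ((q, j), p)|) ∧
      ∑' p : ℕ × ℕ, |X12_C c ((q, j), p)| ≤ ∑' i : ℕ, 1 / (2 * (i : ℝ) + 1) ^ 2 := by
  obtain ⟨h2, h3⟩ := X12_inner
    (u := fun i l => |tc c (2 * i + 1) (l + (q + 1))| * |tc c (2 * i + 1 + 2 * (q + j + 1)) l|)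
    (fun i l => by positivity) (fun i => (X12_cs h0 h1 _ _ _).1) (fun i => (X12_cs h0 h1 _ _ _).2)
  have h4 : Summable (fun p : ℕ × ℕ => |X12_C c ((q, j), p)|) :=
    Summable.of_nonneg_of_le (fun p => abs_nonneg _) (fun p => X12_C_abs c ((q, j), p)) h2
  exact ⟨h4, (h4.tsum_le_tsum (fun p => X12_C_abs c ((q, j), p)) h2).trans h3⟩

theorem X12_geo {lam : ℝ} (hl0 : 0 < lam) (hl1 : lam < 1) :
    Summable fun p : ℕ × ℕ => lam ^ (p.1 + 1 + p.2) := by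
  have h2 : Summable fun p : ℕ × ℕ => lam ^ p.1 * lam ^ p.2 :=
    (summable_geometric_of_lt_one hl0.le hl1).mul_of_nonneg
      (summable_geometric_of_lt_one hl0.le hl1) (fun i => by positivity) (fun i => by positivity)
  refine (h2.mul_left lam).congr fun p => ?_
  rw [pow_add, pow_add, pow_one]
  ring

/-- The majorant. -/
noncomputable def X12_M (c lam : ℝ) (p : (ℕ × ℕ) × ℕ × ℕ) : ℝ :=
  lam ^ (p.1.1 + 1 + p.1.2) * |X12_C c p|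

theorem X12_maj {c : ℝ} (h0 : 0 ≤ c) (h1 : c < 1) {lam : ℝ} (hl0 : 0 < lam) (hl1 : lam < 1) :
    Summable (X12_M c lam) := by
  have hnn : 0 ≤ X12_M c lam := fun p => mul_nonneg (by positivity) (abs_nonneg _)
  have e1 : ∀ q j, (fun b => X12_M c lam ((q, j), b)) =
      fun b => lam ^ (q + 1 + j) * |X12_C c ((q, j), b)| := fun q j => rfl
  rw [summable_prod_of_nonneg hnn]
  refine ⟨?_, ?_⟩
  · rintro ⟨q, j⟩
    rw [e1]
    exact (X12_C_summable h0 h1 q j).1.mul_left _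
  · have h3 := (X12_geo hl0 hl1).mul_right (∑' i : ℕ, 1 / (2 * (i : ℝ) + 1) ^ 2)
    refine Summable.of_nonneg_of_le (fun p => tsum_nonneg fun b => hnn _) ?_ h3
    rintro ⟨q, j⟩
    rw [e1, tsum_mul_left]
    exact mul_le_mul_of_nonneg_left (X12_C_summable h0 h1 q j).2 (by positivity)

theorem X12_fam {c : ℝ} (h0 : 0 ≤ c) (h1 : c < 1) {lam : ℝ} (hl0 : 0 < lam) (hl1 : lam < 1)
    {x : ℕ → ℕ → ℝ} (hx : ∀ q j, |x q j| ≤ lam ^ (q + j)) :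
    Summable fun p : (ℕ × ℕ) × ℕ × ℕ => |x (p.1.1 + 1) p.1.2 * X12_C c p| := by
  refine Summable.of_nonneg_of_le (fun p => abs_nonneg _) (fun p => ?_) (X12_maj h0 h1 hl0 hl1)
  rw [abs_mul]
  exact mul_le_mul_of_nonneg_right (hx _ _) (abs_nonneg _)

/-- The main family. -/
theorem X12_main {c : ℝ} (h0 : 0 ≤ c) (h1 : c < 1) :
    Summable fun p : ℕ × ℕ => |tc c (2 * p.1 + 1) p.2 ^ 2 / (2 * (p.1 : ℝ) + 1) ^ 2| := by
  have h2 := (X12_inner (u := fun i l => tc c (2 * i + 1) l ^ 2) (fun i l => sq_nonneg _)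
    (fun i => (tc_sq h0 h1 _).summable) (fun i => (tc_sq h0 h1 _).tsum_eq.le)).1
  refine h2.congr fun p => ?_
  rw [abs_of_nonneg (by positivity)]

/-- The integrated cross coefficients. -/
noncomputable def X12_D (c : ℝ) (p : (ℕ × ℕ) × ℕ × ℕ) : ℝ :=
  X12_C c p * (2 / (((2 * (2 * p.2.1 + 1 + 2 * (p.1.1 + p.1.2 + 1) + 2 * p.2.2) : ℕ) : ℝ) + 2))

theorem X12_D_abs (c : ℝ) (p : (ℕ × ℕ) × ℕ × ℕ) : |X12_D c p| ≤ |X12_C c p| := by
  unfold X12_D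
  rw [abs_mul]
  have h2 : |2 / (((2 * (2 * p.2.1 + 1 + 2 * (p.1.1 + p.1.2 + 1) + 2 * p.2.2) : ℕ) : ℝ) + 2)| ≤
      1 := by
    rw [abs_of_nonneg (by positivity), div_le_one (by positivity)]
    have : (0 : ℝ) ≤ ((2 * (2 * p.2.1 + 1 + 2 * (p.1.1 + p.1.2 + 1) + 2 * p.2.2) : ℕ) : ℝ) := by
      positivity
    linarith
  nlinarith [abs_nonneg (X12_C c p)]

theorem X12_D_tsum {c : ℝ} (h0 : 0 ≤ c) (h1 : c < 1) (q j : ℕ) :
    ∑' b : ℕ × ℕ, X12_D c ((q, j), b) = (-1) ^ (q + 1 + j) * Ebar c (q + j + 1) (q + 1) := by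
  have hs : Summable fun b : ℕ × ℕ => X12_D c ((q, j), b) :=
    Summable.of_norm_bounded (X12_C_summable h0 h1 q j).1 fun b => X12_D_abs c ((q, j), b)
  rw [hs.tsum_prod]
  unfold Ebar Icr
  rw [← tsum_mul_left]
  apply tsum_congr
  intro i
  rw [← tsum_div_const, ← tsum_mul_left]
  apply tsum_congr
  intro l
  unfold X12_D X12_C
  dsimp only
  push_cast
  have e1 : (2 : ℝ) / (2 * (2 * (i : ℝ) + 1 + 2 * ((q : ℝ) + j + 1) + 2 * l) + 2) =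
      1 / (2 * (i : ℝ) + 1 + 2 * ((q : ℝ) + j + 1) + 1 + 2 * l) := by
    rw [div_eq_div_iff (by positivity) (by positivity)]
    ring
  rw [e1]
  field_simp

theorem X12_final {c : ℝ} (h0 : 0 ≤ c) (h1 : c < 1) {lam : ℝ} (hl0 : 0 < lam) (hl1 : lam < 1)
    {x : ℕ → ℕ → ℝ} (hx : ∀ q j, |x q j| ≤ lam ^ (q + j))
    (hE : Summable (fun p : ℕ × ℕ => |Ebar c (p.1 + p.2 + 1) (p.1 + 1)|)) :
    ∑' p : (ℕ × ℕ) × ℕ × ℕ, x (p.1.1 + 1) p.1.2 * X12_D c p ≤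
      ∑' p : ℕ × ℕ, |Ebar c (p.1 + p.2 + 1) (p.1 + 1)| := by
  have hs : Summable fun p : (ℕ × ℕ) × ℕ × ℕ => x (p.1.1 + 1) p.1.2 * X12_D c p := by
    refine Summable.of_norm_bounded (X12_maj h0 h1 hl0 hl1) fun p => ?_
    rw [norm_mul]
    exact mul_le_mul (hx _ _) (X12_D_abs c p) (abs_nonneg _) (by positivity)
  rw [hs.tsum_prod]
  have e1 : ∀ a : ℕ × ℕ, ∑' b : ℕ × ℕ, x (a.1 + 1) a.2 * X12_D c (a, b) =
      x (a.1 + 1) a.2 * ((-1) ^ (a.1 + 1 + a.2) * Ebar c (a.1 + a.2 + 1) (a.1 + 1)) := by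
    rintro ⟨q, j⟩
    rw [tsum_mul_left, X12_D_tsum h0 h1 q j]
  have e2 : ∀ a : ℕ × ℕ, |x (a.1 + 1) a.2 *
      ((-1) ^ (a.1 + 1 + a.2) * Ebar c (a.1 + a.2 + 1) (a.1 + 1))| ≤
      |Ebar c (a.1 + a.2 + 1) (a.1 + 1)| := by
    intro a
    rw [abs_mul, abs_mul, abs_pow, abs_neg, abs_one, one_pow, one_mul]
    have h3 : |x (a.1 + 1) a.2| ≤ 1 := (hx _ _).trans (pow_le_one₀ hl0.le hl1.le)
    nlinarith [abs_nonneg (Ebar c (a.1 + a.2 + 1) (a.1 + 1))]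
  have e3 : (fun a : ℕ × ℕ => ∑' b : ℕ × ℕ, x (a.1 + 1) a.2 * X12_D c (a, b)) = fun a : ℕ × ℕ =>
      x (a.1 + 1) a.2 * ((-1) ^ (a.1 + 1 + a.2) * Ebar c (a.1 + a.2 + 1) (a.1 + 1)) :=
    funext e1
  change ∑' a : ℕ × ℕ, (fun a : ℕ × ℕ => ∑' b : ℕ × ℕ, x (a.1 + 1) a.2 * X12_D c (a, b)) a ≤ _
  rw [e3]
  refine Summable.tsum_le_tsum (fun a => (le_abs_self _).trans (e2 a)) ?_ hE
  exact Summable.of_norm_bounded hE e2

theorem X12_poly (b : ℕ → ℂ) (M : ℕ) :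
    IntervalIntegrable (fun r : ℝ => 2 * r * ∑ j ∈ range M, ‖b j‖ ^ 2 * r ^ (4 * j + 2)) volume 0 1
      ∧ ∫ r in (0 : ℝ)..1, 2 * r * ∑ j ∈ range M, ‖b j‖ ^ 2 * r ^ (4 * j + 2) =
      ∑ j ∈ range M, ‖b j‖ ^ 2 / (2 * j + 2) := by
  have hc : Continuous (fun r : ℝ => 2 * r * ∑ j ∈ range M, ‖b j‖ ^ 2 * r ^ (4 * j + 2)) := by
    fun_prop
  refine ⟨hc.intervalIntegrable 0 1, ?_⟩
  have e1 : (fun r : ℝ => 2 * r * ∑ j ∈ range M, ‖b j‖ ^ 2 * r ^ (4 * j + 2)) =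
      fun r : ℝ => ∑ j ∈ range M, (2 * ‖b j‖ ^ 2) * r ^ (4 * j + 3) := by
    funext r
    rw [Finset.mul_sum]
    apply Finset.sum_congr rfl
    intro j _
    ring
  rw [e1, intervalIntegral.integral_finsetSum]
  · apply Finset.sum_congr rfl
    intro j _
    rw [intervalIntegral.integral_const_mul, integral_pow, one_pow, zero_pow (by omega)]
    push_cast
    have h8 : (4 : ℝ) * j + 3 + 1 ≠ 0 := by positivity
    have h9 : (2 : ℝ) * j + 2 ≠ 0 := by positivity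
    field_simp
    ring
  · intro j _
    apply Continuous.intervalIntegrable
    fun_prop

theorem ineqI {c : ℝ} (h0 : 0 ≤ c) (h1 : c < 1) {lam : ℝ} (hl0 : 0 < lam) (hl1 : lam < 1)
    {s : ℂ → ℂ} {σ : ℕ → ℕ → ℂ}
    (hσ : ∀ q j, ‖σ q j‖ ≤ lam ^ (q + j)) (hs : ∀ w, ‖w‖ < 1 → ‖s w‖ ≤ 1)
    (hsum : ∀ q w, ‖w‖ < 1 → HasSum (fun j => σ q j * w ^ j) (s w ^ q)) {b : ℕ → ℂ}
    (hb : ∀ z, ‖z‖ < 1 → HasSum (fun j => b j * z ^ (2 * j + 1))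
      (Complex.arctan (z * bl c (z ^ 2 * s (z ^ 2)))))
    (hE : Summable (fun p : ℕ × ℕ => |Ebar c (p.1 + p.2 + 1) (p.1 + 1)|)) (M : ℕ) :
    ∑ j ∈ range M, ‖b j‖ ^ 2 / (2 * j + 2) ≤ Mn c +
      2 * ∑' p : ℕ × ℕ, |Ebar c (p.1 + p.2 + 1) (p.1 + 1)| := by
  have hσ1 : ∀ q j, ‖σ q j‖ ≤ 1 := fun q j =>
    (hσ q j).trans (pow_le_one₀ hl0.le hl1.le)
  have hx : ∀ q j, |(σ q j).re| ≤ lam ^ (q + j) := fun q j =>
    (Complex.abs_re_le_norm _).trans (hσ q j)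
  have hcs := X12_fam h0 h1 hl0 hl1 hx
  have hms := X12_main h0 h1
  obtain ⟨hmi, hmI⟩ := X12_int hms (fun p : ℕ × ℕ => 2 * (2 * p.1 + 1 + 2 * p.2))
  obtain ⟨hci, hcI⟩ := X12_int hcs (fun p : (ℕ × ℕ) × ℕ × ℕ =>
    2 * (2 * p.2.1 + 1 + 2 * (p.1.1 + p.1.2 + 1) + 2 * p.2.2))
  -- the inequality for fixed r
  have hr : ∀ r ∈ Set.Ioo (0 : ℝ) 1, 2 * r * ∑ j ∈ range M, ‖b j‖ ^ 2 * r ^ (4 * j + 2) ≤
      2 * r * ∑' p : ℕ × ℕ, tc c (2 * p.1 + 1) p.2 ^ 2 / (2 * (p.1 : ℝ) + 1) ^ 2 *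
        r ^ (2 * (2 * p.1 + 1 + 2 * p.2)) +
      2 * (2 * r * ∑' p : (ℕ × ℕ) × ℕ × ℕ, (σ (p.1.1 + 1) p.1.2).re * X12_C c p *
        r ^ (2 * (2 * p.2.1 + 1 + 2 * (p.1.1 + p.1.2 + 1) + 2 * p.2.2))) := by
    rintro r ⟨hr0, hr1⟩
    have h2 := circle_ineq h0 h1 hσ1 hs hsum hb hr0 hr1 M
    have h3 : (∑' p : (ℕ × ℕ) × ℕ × ℕ, σ (p.1.1 + 1) p.1.2 * (((-1) ^ (p.1.1 + 1 + p.1.2) *
        (tc c (2 * p.2.1 + 1) (p.2.2 + (p.1.1 + 1)) *
          tc c (2 * p.2.1 + 1 + 2 * (p.1.1 + p.1.2 + 1)) p.2.2) /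
        ((2 * (p.2.1 : ℝ) + 1) * (2 * p.2.1 + 1 + 2 * (p.1.1 + p.1.2 + 1))) *
        r ^ (2 * (2 * p.2.1 + 1 + 2 * (p.1.1 + p.1.2 + 1) + 2 * p.2.2)) : ℝ) : ℂ)).re =
        ∑' p : (ℕ × ℕ) × ℕ × ℕ, (σ (p.1.1 + 1) p.1.2).re * X12_C c p *
        r ^ (2 * (2 * p.2.1 + 1 + 2 * (p.1.1 + p.1.2 + 1) + 2 * p.2.2)) := by
      rw [Complex.re_tsum]
      · apply tsum_congr
        intro p
        rw [Complex.re_mul_ofReal, mul_assoc (σ (p.1.1 + 1) p.1.2).re]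
        rfl
      · refine Summable.of_norm_bounded (X12_maj h0 h1 hl0 hl1) fun p => ?_
        rw [norm_mul, Complex.norm_real, norm_mul]
        change ‖σ (p.1.1 + 1) p.1.2‖ * (|X12_C c p| * ‖r ^ _‖) ≤ _
        have h5 : ‖r ^ (2 * (2 * p.2.1 + 1 + 2 * (p.1.1 + p.1.2 + 1) + 2 * p.2.2))‖ ≤ 1 := by
          rw [norm_pow, Real.norm_of_nonneg hr0.le]
          exact pow_le_one₀ hr0.le hr1.le
        have h6 : |X12_C c p| * ‖r ^ (2 * (2 * p.2.1 + 1 + 2 * (p.1.1 + p.1.2 + 1) +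
            2 * p.2.2))‖ ≤ |X12_C c p| := by
          nlinarith [abs_nonneg (X12_C c p)]
        exact mul_le_mul (hσ _ _) h6 (by positivity) (by positivity)
    rw [h3] at h2
    have h4 := mul_le_mul_of_nonneg_left h2 (by linarith : 0 ≤ 2 * r)
    refine h4.trans (le_of_eq ?_)
    ring
  obtain ⟨hpi, hpI⟩ := X12_poly b M
  have hfin := X12_final h0 h1 hl0 hl1 hx hE
  have h5 := intervalIntegral.integral_mono_on_of_le_Ioo zero_le_one hpi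
    (hmi.add (hci.const_mul 2)) hr
  have h6 := intervalIntegral.integral_add hmi (hci.const_mul 2)
  rw [intervalIntegral.integral_const_mul, hmI, hcI] at h6
  have h7 : ∑' p : ℕ × ℕ, tc c (2 * p.1 + 1) p.2 ^ 2 / (2 * (p.1 : ℝ) + 1) ^ 2 *
      (2 / (((2 * (2 * p.1 + 1 + 2 * p.2) : ℕ) : ℝ) + 2)) = Mn c := by
    unfold Mn
    apply tsum_congr
    intro p
    have e1 : (2 : ℝ) / (((2 * (2 * p.1 + 1 + 2 * p.2) : ℕ) : ℝ) + 2) =
        1 / (2 * p.1 + 2 + 2 * p.2) := by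
      rw [div_eq_div_iff (by positivity) (by positivity)]
      push_cast
      ring
    rw [e1, div_mul_div_comm, mul_one]
  have h8 : ∑' p : (ℕ × ℕ) × ℕ × ℕ, (σ (p.1.1 + 1) p.1.2).re * X12_C c p *
      (2 / (((2 * (2 * p.2.1 + 1 + 2 * (p.1.1 + p.1.2 + 1) + 2 * p.2.2) : ℕ) : ℝ) + 2)) =
      ∑' p : (ℕ × ℕ) × ℕ × ℕ, (fun q j => (σ q j).re) (p.1.1 + 1) p.1.2 * X12_D c p := by
    apply tsum_congr
    intro p
    rw [mul_assoc]
    rfl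
  rw [h7, h8] at h6
  rw [hpI, h6] at h5
  linarith

end Pool.Agent.Lib.MP_e1dd62_co.Evn
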