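import Pool.Agent.Lib.MP_e1dd62_co.Evn.Defs
import Pool.Agent.Lib.MP_e1dd62_co.Evn.X11A

/-!
# X13: the Poisson integral
-/

namespace Pool.Agent.Lib.MP_e1dd62_co.Evn

open Finset Real MeasureTheory

/-- The point `z e^{-iθ}`. -/
noncomputable def X13_W (z : ℂ) (θ : ℝ) : ℂ := z * Complex.exp (((-θ : ℝ) : ℂ) * Complex.I)

theorem X13_W_norm (z : ℂ) (θ : ℝ) : ‖X13_W z θ‖ = ‖z‖ := by
  unfold X13_W
  rw [norm_mul, Complex.norm_exp_ofReal_mul_I, mul_one]

theorem X13_W_pow (z : ℂ) (θ : ℝ) (m : ℕ) :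
    X13_W z θ ^ m = z ^ m * Complex.exp (((-(m * θ) : ℝ) : ℂ) * Complex.I) := by
  unfold X13_W
  rw [mul_pow, ← Complex.exp_nat_mul]
  congr 2
  push_cast
  ring

theorem X13_K {z : ℂ} (hz : ‖z‖ < 1) :
    Continuous (fun θ : ℝ => (1 + X13_W z θ) / (1 - X13_W z θ)) ∧
      ((1 / (2 * π) : ℝ) : ℂ) * (∫ θ in (0 : ℝ)..(2 * π),
        (1 + X13_W z θ) / (1 - X13_W z θ)) = 1 := by
  let g : ℕ → ℂ := fun m => if m = 0 then 1 else 2 * z ^ m
  have hg : Summable fun m => ‖g m‖ := by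
    refine Summable.of_nonneg_of_le (fun m => norm_nonneg _) (fun m => ?_)
      ((summable_geometric_of_lt_one (norm_nonneg z) hz).mul_left 2)
    by_cases hm : m = 0
    · simp [g, hm]
    · simp [g, hm]
  obtain ⟨h2, h3⟩ := avg_exp hg (fun m => -(m : ℤ))
  have h4 : (fun θ : ℝ => ∑' m, g m * Complex.exp ((((-(m : ℤ) : ℤ) * θ : ℝ) : ℂ) * Complex.I)) =
      fun θ : ℝ => (1 + X13_W z θ) / (1 - X13_W z θ) := by
    funext θ
    have hW : ‖X13_W z θ‖ < 1 := by rw [X13_W_norm]; exact hz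
    have h5 : HasSum (fun m : ℕ => 2 * X13_W z θ ^ m) (2 * (1 - X13_W z θ)⁻¹) :=
      (hasSum_geometric_of_norm_lt_one hW).mul_left 2
    have h6 : HasSum (fun m : ℕ => if m = 0 then (-1 : ℂ) else 0) (-1) := by
      exact hasSum_ite_eq 0 (-1)
    have h7 := h5.add h6
    have h8 : (fun m : ℕ => 2 * X13_W z θ ^ m + if m = 0 then (-1 : ℂ) else 0) =
        fun m : ℕ => g m * Complex.exp ((((-(m : ℤ) : ℤ) * θ : ℝ) : ℂ) * Complex.I) := by
      funext m
      have e1 : Complex.exp ((((-(m : ℤ) : ℤ) * θ : ℝ) : ℂ) * Complex.I) =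
          Complex.exp (((-(m * θ) : ℝ) : ℂ) * Complex.I) := by
        congr 2
        push_cast
        ring
      rw [e1, X13_W_pow]
      by_cases hm : m = 0
      · subst hm
        simp [g]
        norm_num
      · simp [g, hm]
        ring
    rw [h8] at h7
    rw [h7.tsum_eq]
    have h9 : 1 - X13_W z θ ≠ 0 := by
      intro h
      have : X13_W z θ = 1 := by linear_combination -h
      rw [this, norm_one] at hW
      exact lt_irrefl _ hW
    field_simp
    ring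
  rw [h4] at h2 h3
  refine ⟨h2, ?_⟩
  rw [h3, tsum_eq_single 0]
  · simp [g]
  · intro m hm
    have : ¬ (-(m : ℤ) = 0) := by omega
    simp [hm]

theorem X13_re_nonneg {w : ℂ} (hw : ‖w‖ < 1) : 0 ≤ ((1 + w) / (1 - w)).re := by
  rw [Complex.div_re]
  have h2 : w.re ^ 2 + w.im ^ 2 < 1 := by
    have h6 : ‖w‖ ^ 2 < 1 := by nlinarith [norm_nonneg w]
    rw [← Complex.normSq_eq_norm_sq, Complex.normSq_apply] at h6
    nlinarith
  have h3 : 0 ≤ Complex.normSq (1 - w) := Complex.normSq_nonneg _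
  rw [← add_div]
  apply div_nonneg _ h3
  simp
  nlinarith

theorem X13_kernel {w : ℂ} (hw : ‖w‖ < 1) : |(w / (1 - w ^ 2)).re| ≤
    1 / 4 * (((1 + w) / (1 - w)).re + ((1 + -w) / (1 - -w)).re) := by
  have h1 : 1 - w ≠ 0 := by
    intro h
    have : w = 1 := by linear_combination -h
    rw [this, norm_one] at hw
    exact lt_irrefl _ hw
  have h2 : 1 + w ≠ 0 := by
    intro h
    have : w = -1 := by linear_combination h
    rw [this, norm_neg, norm_one] at hw
    exact lt_irrefl _ hw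
  have h3 : w / (1 - w ^ 2) = ((1 / 4 : ℝ) : ℂ) * ((1 + w) / (1 - w) - (1 + -w) / (1 - -w)) := by
    have h4 : 1 - w ^ 2 = (1 - w) * (1 + w) := by ring
    rw [h4, sub_neg_eq_add]
    push_cast
    field_simp
    ring
  rw [h3, Complex.re_ofReal_mul, Complex.sub_re, abs_mul, abs_of_pos (by norm_num : (0:ℝ) < 1 / 4)]
  apply mul_le_mul_of_nonneg_left _ (by norm_num)
  have h5 := X13_re_nonneg hw
  have h6 := X13_re_nonneg (w := -w) (by rwa [norm_neg])
  rw [abs_le]
  constructor <;> linarith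

theorem poisson {χ : ℝ → ℝ} (hm : Measurable χ) (hb : ∀ θ, |χ θ| ≤ π / 2)
    (ha : ∀ θ, χ (θ + π) = -χ θ) {z : ℂ} (hz : ‖z‖ < 1) :
    Summable (fun j : ℕ => fc χ (2 * j + 1) * z ^ (2 * j + 1)) ∧
      |(∑' j : ℕ, fc χ (2 * j + 1) * z ^ (2 * j + 1)).re| ≤ π / 4 := by
  have hpi : (0 : ℝ) < π := Real.pi_pos
  have hgeo : Summable fun j : ℕ => π / 2 * ‖z‖ ^ (2 * j + 1) := by
    apply Summable.mul_left
    have h2 : Summable fun j : ℕ => (‖z‖ ^ 2) ^ j * ‖z‖ :=
      (summable_geometric_of_lt_one (by positivity) (by nlinarith [norm_nonneg z])).mul_right _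
    refine h2.congr fun j => ?_
    rw [← pow_mul, ← pow_succ]
  have hWn : ∀ θ, ‖X13_W z θ‖ < 1 := fun θ => by rw [X13_W_norm]; exact hz
  have hWc : Continuous (X13_W z) := by
    unfold X13_W
    fun_prop
  have hsum : HasSum (fun j : ℕ => ∫ θ in (0 : ℝ)..(2 * π), (χ θ : ℂ) * X13_W z θ ^ (2 * j + 1))
      (∫ θ in (0 : ℝ)..(2 * π), (χ θ : ℂ) * (X13_W z θ / (1 - X13_W z θ ^ 2))) := by
    refine intervalIntegral.hasSum_integral_of_dominated_convergence
      (fun j _ => π / 2 * ‖z‖ ^ (2 * j + 1)) ?_ ?_ ?_ ?_ ?_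
    · intro j
      apply Measurable.aestronglyMeasurable
      exact (Complex.measurable_ofReal.comp hm).mul (hWc.pow _).measurable
    · intro j
      refine Filter.Eventually.of_forall fun θ _ => ?_
      rw [norm_mul, norm_pow, X13_W_norm, Complex.norm_real]
      exact mul_le_mul_of_nonneg_right (hb θ) (by positivity)
    · exact Filter.Eventually.of_forall fun θ _ => hgeo
    · exact intervalIntegrable_const
    · refine Filter.Eventually.of_forall fun θ _ => ?_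
      apply HasSum.mul_left
      have h3 : ‖X13_W z θ ^ 2‖ < 1 := by
        rw [norm_pow]
        nlinarith [hWn θ, norm_nonneg (X13_W z θ)]
      have h4 := (hasSum_geometric_of_norm_lt_one h3).mul_left (X13_W z θ)
      have h5 : (fun j : ℕ => X13_W z θ * (X13_W z θ ^ 2) ^ j) =
          fun j : ℕ => X13_W z θ ^ (2 * j + 1) := by
        funext j
        rw [← pow_mul, ← pow_succ']
      rw [h5, ← div_eq_mul_inv] at h4
      exact h4
  have hterm : ∀ j : ℕ, fc χ (2 * j + 1) * z ^ (2 * j + 1) = ((1 / (2 * π) : ℝ) : ℂ) *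
      ∫ θ in (0 : ℝ)..(2 * π), (χ θ : ℂ) * X13_W z θ ^ (2 * j + 1) := by
    intro j
    unfold fc
    rw [mul_assoc, ← intervalIntegral.integral_mul_const]
    congr 1
    apply intervalIntegral.integral_congr
    intro θ _
    dsimp only
    rw [X13_W_pow]
    ring
  have hsum2 := hsum.mul_left ((1 / (2 * π) : ℝ) : ℂ)
  rw [← funext hterm] at hsum2
  refine ⟨hsum2.summable, ?_⟩
  rw [hsum2.tsum_eq, Complex.re_ofReal_mul]
  -- the bound
  obtain ⟨hK1, hK2⟩ := X13_K hz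
  have hz' : ‖-z‖ < 1 := by rwa [norm_neg]
  obtain ⟨hK3, hK4⟩ := X13_K hz'
  have hWneg : ∀ θ, X13_W (-z) θ = -X13_W z θ := fun θ => by
    unfold X13_W
    ring
  have hf : Measurable fun θ : ℝ => (χ θ : ℂ) * (X13_W z θ / (1 - X13_W z θ ^ 2)) :=
    (Complex.measurable_ofReal.comp hm).mul
      (hWc.measurable.div ((continuous_const.sub (hWc.pow 2)).measurable))
  have hden : ∀ θ, 1 - X13_W z θ ^ 2 ≠ 0 := by
    intro θ h
    have h3 : ‖X13_W z θ ^ 2‖ < 1 := by
      rw [norm_pow]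
      nlinarith [hWn θ, norm_nonneg (X13_W z θ)]
    have h4 : X13_W z θ ^ 2 = 1 := by linear_combination -h
    rw [h4, norm_one] at h3
    exact lt_irrefl _ h3
  have hqc : Continuous fun θ : ℝ => X13_W z θ / (1 - X13_W z θ ^ 2) :=
    hWc.div (continuous_const.sub (hWc.pow 2)) hden
  have hfi : IntervalIntegrable (fun θ : ℝ => (χ θ : ℂ) * (X13_W z θ / (1 - X13_W z θ ^ 2)))
      volume 0 (2 * π) := by
    refine IntervalIntegrable.mono_fun' (g := fun θ => π / 2 * ‖X13_W z θ / (1 - X13_W z θ ^ 2)‖)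
      ((continuous_const.mul hqc.norm).intervalIntegrable 0 (2 * π)) hf.aestronglyMeasurable ?_
    refine Filter.Eventually.of_forall fun θ => ?_
    dsimp only
    rw [norm_mul, Complex.norm_real]
    exact mul_le_mul_of_nonneg_right (hb θ) (norm_nonneg _)
  have e1 : (∫ θ in (0 : ℝ)..(2 * π), (χ θ : ℂ) * (X13_W z θ / (1 - X13_W z θ ^ 2))).re =
      ∫ θ in (0 : ℝ)..(2 * π), ((χ θ : ℂ) * (X13_W z θ / (1 - X13_W z θ ^ 2))).re :=
    (Complex.reCLM.intervalIntegral_comp_comm hfi).symm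
  rw [e1]
  have hR1 : Continuous fun θ : ℝ => ((1 + X13_W z θ) / (1 - X13_W z θ)).re :=
    Complex.continuous_re.comp hK1
  have hR2 : Continuous fun θ : ℝ => ((1 + X13_W (-z) θ) / (1 - X13_W (-z) θ)).re :=
    Complex.continuous_re.comp hK3
  have e2 : ‖∫ θ in (0 : ℝ)..(2 * π), ((χ θ : ℂ) * (X13_W z θ / (1 - X13_W z θ ^ 2))).re‖ ≤
      ∫ θ in (0 : ℝ)..(2 * π), π / 8 * (((1 + X13_W z θ) / (1 - X13_W z θ)).re +
        ((1 + X13_W (-z) θ) / (1 - X13_W (-z) θ)).re) := by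
    apply intervalIntegral.norm_integral_le_of_norm_le (by positivity)
    · refine Filter.Eventually.of_forall fun θ _ => ?_
      rw [Complex.re_ofReal_mul, norm_mul, hWneg]
      have h5 := X13_kernel (hWn θ)
      have h6 := hb θ
      calc ‖χ θ‖ * ‖(X13_W z θ / (1 - X13_W z θ ^ 2)).re‖
          ≤ (π / 2) * (1 / 4 * (((1 + X13_W z θ) / (1 - X13_W z θ)).re +
            ((1 + -X13_W z θ) / (1 - -X13_W z θ)).re)) := by
            apply mul_le_mul h6 h5 (abs_nonneg _) (by positivity)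
        _ = _ := by ring
    · exact ((continuous_const.mul (hR1.add hR2)).intervalIntegrable 0 (2 * π))
  have e3 : ∫ θ in (0 : ℝ)..(2 * π), π / 8 * (((1 + X13_W z θ) / (1 - X13_W z θ)).re +
        ((1 + X13_W (-z) θ) / (1 - X13_W (-z) θ)).re) = π / 8 * (2 * π + 2 * π) := by
    rw [intervalIntegral.integral_const_mul, intervalIntegral.integral_add
      (hR1.intervalIntegrable 0 (2 * π)) (hR2.intervalIntegrable 0 (2 * π))]
    have e4 : (∫ θ in (0 : ℝ)..(2 * π), (1 + X13_W z θ) / (1 - X13_W z θ)).re =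
      ∫ θ in (0 : ℝ)..(2 * π), ((1 + X13_W z θ) / (1 - X13_W z θ)).re :=
      (Complex.reCLM.intervalIntegral_comp_comm (hK1.intervalIntegrable 0 (2 * π))).symm
    have e5 : (∫ θ in (0 : ℝ)..(2 * π), (1 + X13_W (-z) θ) / (1 - X13_W (-z) θ)).re =
      ∫ θ in (0 : ℝ)..(2 * π), ((1 + X13_W (-z) θ) / (1 - X13_W (-z) θ)).re :=
      (Complex.reCLM.intervalIntegral_comp_comm (hK3.intervalIntegrable 0 (2 * π))).symm
    rw [← e4, ← e5]
    have h2pi : (2 * π : ℝ) ≠ 0 := by positivity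
    have e6 : ∀ I : ℂ, ((1 / (2 * π) : ℝ) : ℂ) * I = 1 → I.re = 2 * π := by
      intro I hI
      have h7 := congrArg Complex.re hI
      rw [Complex.re_ofReal_mul, Complex.one_re] at h7
      field_simp at h7
      exact h7
    rw [e6 _ hK2, e6 _ hK4]
  rw [e3, Real.norm_eq_abs] at e2
  rw [abs_mul, abs_of_nonneg (by positivity : (0 : ℝ) ≤ 1 / (2 * π))]
  calc 1 / (2 * π) * |∫ θ in (0 : ℝ)..(2 * π), ((χ θ : ℂ) *
        (X13_W z θ / (1 - X13_W z θ ^ 2))).re|
      ≤ 1 / (2 * π) * (π / 8 * (2 * π + 2 * π)) := by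
        apply mul_le_mul_of_nonneg_left e2 (by positivity)
    _ = π / 4 := by
        field_simp
        ring

end Pool.Agent.Lib.MP_e1dd62_co.Evn
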