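import Pool.Agent.Lib.MP_e1dd62_co.Evn.Defs

/-!
# X14: the Schur functions of an odd function with bounded real part
-/

namespace Pool.Agent.Lib.MP_e1dd62_co.Evn

open Finset Real

/-- A power series. -/
noncomputable def X14_P (c : ℕ → ℂ) (w : ℂ) : ℂ := ∑' k, c k * w ^ k

theorem X14_P_diff {c : ℕ → ℂ} {R : ℝ} (hs : ∀ w : ℂ, ‖w‖ < R → Summable fun k => c k * w ^ k) :
    DifferentiableOn ℂ (X14_P c) (Metric.ball 0 R) := by
  intro w₀ hw₀
  rw [mem_ball_zero_iff] at hw₀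
  obtain ⟨ρ, h1, h2⟩ := exists_between hw₀
  have hρ0 : 0 < ρ := lt_of_le_of_lt (norm_nonneg _) h1
  have hρ : Summable fun k => ‖c k‖ * ρ ^ k := by
    have h3 := (hs (ρ : ℂ) (by rwa [Complex.norm_real, Real.norm_of_nonneg hρ0.le])).norm
    refine h3.congr fun k => ?_
    rw [norm_mul, norm_pow, Complex.norm_real, Real.norm_of_nonneg hρ0.le]
  have h4 : DifferentiableOn ℂ (X14_P c) (Metric.ball 0 ρ) := by
    refine Complex.differentiableOn_tsum_of_summable_norm hρ (fun k => ?_) Metric.isOpen_ball ?_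
    · exact (differentiable_const _).differentiableOn.mul (differentiable_id.pow k).differentiableOn
    · intro k w hw
      rw [mem_ball_zero_iff] at hw
      rw [norm_mul, norm_pow]
      exact mul_le_mul_of_nonneg_left (pow_le_pow_left₀ (norm_nonneg _) hw.le k) (norm_nonneg _)
  exact ((h4.differentiableAt (Metric.isOpen_ball.mem_nhds
    (mem_ball_zero_iff.mpr h1)))).differentiableWithinAt

theorem X14_P_zero (c : ℕ → ℂ) : X14_P c 0 = c 0 := by
  unfold X14_P
  rw [tsum_eq_single 0]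
  · simp
  · intro k hk
    simp [hk]

theorem X14_P_succ {c : ℕ → ℂ} {R : ℝ} (hs : ∀ w : ℂ, ‖w‖ < R → Summable fun k => c k * w ^ k)
    (w : ℂ) (hw : ‖w‖ < R) : Summable fun k => c (k + 1) * w ^ k := by
  by_cases h0 : w = 0
  · subst h0
    apply summable_of_ne_finset_zero (s := {0})
    intro k hk
    simp only [mem_singleton] at hk
    simp [hk]
  · have h1 := (summable_nat_add_iff 1).mpr (hs w hw)
    have h2 := h1.mul_right w⁻¹
    refine h2.congr fun k => ?_
    rw [pow_succ]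
    field_simp

theorem X14_P_deriv {c : ℕ → ℂ} {R : ℝ} (hR : 0 < R)
    (hs : ∀ w : ℂ, ‖w‖ < R → Summable fun k => c k * w ^ k) : HasDerivAt (X14_P c) (c 1) 0 := by
  have hs1 := X14_P_succ hs
  have h1 : (fun w => c 0 + w * X14_P (fun k => c (k + 1)) w) =ᶠ[nhds 0] X14_P c := by
    filter_upwards [Metric.ball_mem_nhds (0 : ℂ) hR] with w hw
    rw [mem_ball_zero_iff] at hw
    unfold X14_P
    rw [(hs w hw).tsum_eq_zero_add, ← tsum_mul_left]
    simp only [pow_zero, mul_one]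
    congr 1
    apply tsum_congr
    intro k
    rw [pow_succ]
    ring
  have h2 : HasDerivAt (fun w => c 0 + w * X14_P (fun k => c (k + 1)) w)
      (1 * X14_P (fun k => c (k + 1)) 0 + 0 * deriv (X14_P (fun k => c (k + 1))) 0) 0 := by
    have h3 : DifferentiableAt ℂ (X14_P (fun k => c (k + 1))) 0 :=
      (X14_P_diff hs1).differentiableAt (Metric.ball_mem_nhds 0 hR)
    exact ((hasDerivAt_id (0 : ℂ)).mul h3.hasDerivAt).const_add (c 0)
  rw [X14_P_zero, one_mul, zero_mul, add_zero] at h2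
  exact h2.congr_of_eventuallyEq h1.symm

/-- The coefficients of `cos √u`. -/
noncomputable def X14_cc (k : ℕ) : ℂ := (-1) ^ k / ((2 * k).factorial : ℂ)

/-- The coefficients of `sin √u / √u`. -/
noncomputable def X14_sc (k : ℕ) : ℂ := (-1) ^ k / ((2 * k + 1).factorial : ℂ)

theorem X14_cos (v : ℂ) : HasSum (fun k => X14_cc k * (v ^ 2) ^ k) (Complex.cos v) := by
  have h := Complex.hasSum_cos v
  have e : (fun n : ℕ => (-1) ^ n * v ^ (2 * n) / ((2 * n).factorial : ℂ)) =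
      fun k => X14_cc k * (v ^ 2) ^ k := by
    funext k
    unfold X14_cc
    rw [← pow_mul]
    ring
  rw [e] at h
  exact h

theorem X14_sin (v : ℂ) : HasSum (fun k => v * (X14_sc k * (v ^ 2) ^ k)) (Complex.sin v) := by
  have h := Complex.hasSum_sin v
  have e : (fun n : ℕ => (-1) ^ n * v ^ (2 * n + 1) / ((2 * n + 1).factorial : ℂ)) =
      fun k => v * (X14_sc k * (v ^ 2) ^ k) := by
    funext k
    unfold X14_sc
    rw [← pow_mul]
    ring
  rw [e] at h
  exact h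

theorem X14_cc_summable (u : ℂ) : Summable fun k => X14_cc k * u ^ k := by
  obtain ⟨v, hv⟩ := IsAlgClosed.exists_pow_nat_eq u (n := 2) (by norm_num)
  rw [← hv]
  exact (X14_cos v).summable

theorem X14_sc_summable (u : ℂ) : Summable fun k => X14_sc k * u ^ k := by
  obtain ⟨v, hv⟩ := IsAlgClosed.exists_pow_nat_eq u (n := 2) (by norm_num)
  rw [← hv]
  by_cases h0 : v = 0
  · subst h0
    apply summable_of_ne_finset_zero (s := {0})
    intro k hk
    simp only [mem_singleton] at hk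
    simp [hk]
  · have h1 := (X14_sin v).summable.mul_left v⁻¹
    refine h1.congr fun k => ?_
    field_simp

theorem X14_C (v : ℂ) : X14_P X14_cc (v ^ 2) = Complex.cos v := (X14_cos v).tsum_eq

theorem X14_S (v : ℂ) : v * X14_P X14_sc (v ^ 2) = Complex.sin v := by
  unfold X14_P
  rw [← tsum_mul_left]
  exact (X14_sin v).tsum_eq

theorem X14_entire {c : ℕ → ℂ} (hs : ∀ w : ℂ, Summable fun k => c k * w ^ k) :
    Differentiable ℂ (X14_P c) := by
  intro w
  exact (X14_P_diff (R := ‖w‖ + 1) fun w _ => hs w).differentiableAt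
    (Metric.isOpen_ball.mem_nhds (mem_ball_zero_iff.mpr (by linarith)))

theorem X14_normSq (v : ℂ) : Complex.normSq (Complex.cos v) - Complex.normSq (Complex.sin v) =
    Real.cos (2 * v.re) := by
  have h1 : Complex.cos (v + (starRingEnd ℂ) v) = Complex.cos v * (starRingEnd ℂ) (Complex.cos v) -
      Complex.sin v * (starRingEnd ℂ) (Complex.sin v) := by
    rw [Complex.cos_add, Complex.cos_conj, Complex.sin_conj]
  rw [Complex.mul_conj, Complex.mul_conj, Complex.add_conj] at h1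
  have h2 := congrArg Complex.re h1
  rw [← Complex.ofReal_cos, Complex.ofReal_re, ← Complex.ofReal_sub, Complex.ofReal_re] at h2
  exact h2.symm

theorem X14_cos_ne {v : ℂ} (hv : |v.re| ≤ π / 4) : Complex.cos v ≠ 0 := by
  intro h
  have h1 := X14_normSq v
  have h2 : 0 ≤ Real.cos (2 * v.re) := by
    apply Real.cos_nonneg_of_mem_Icc
    rw [abs_le] at hv
    constructor <;> linarith [hv.1, hv.2]
  rw [h, Complex.normSq_zero, zero_sub] at h1
  have h3 : Complex.normSq (Complex.sin v) = 0 := by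
    have := Complex.normSq_nonneg (Complex.sin v)
    linarith
  have h4 := Complex.sin_sq_add_cos_sq v
  rw [h, Complex.normSq_eq_zero.mp h3] at h4
  norm_num at h4

theorem X14_tan_norm {v : ℂ} (hv : |v.re| ≤ π / 4) : ‖Complex.tan v‖ ≤ 1 := by
  have h1 := X14_normSq v
  have h2 : 0 ≤ Real.cos (2 * v.re) := by
    apply Real.cos_nonneg_of_mem_Icc
    rw [abs_le] at hv
    constructor <;> linarith [hv.1, hv.2]
  have h3 : Complex.normSq (Complex.sin v) ≤ Complex.normSq (Complex.cos v) := by linarith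
  rw [Complex.normSq_eq_norm_sq, Complex.normSq_eq_norm_sq] at h3
  have h4 : 0 < ‖Complex.cos v‖ := norm_pos_iff.mpr (X14_cos_ne hv)
  rw [Complex.tan, norm_div, div_le_one h4]
  exact (sq_le_sq₀ (norm_nonneg _) h4.le).mp h3

/-- The function `b`. -/
noncomputable def X14_b (a : ℕ → ℂ) (w : ℂ) : ℂ :=
  X14_P a w * X14_P X14_sc (w * X14_P a w ^ 2) / X14_P X14_cc (w * X14_P a w ^ 2)

section main

variable {a : ℕ → ℂ} {f : ℂ → ℂ}
  (hf : ∀ z, ‖z‖ < 1 → HasSum (fun j => a j * z ^ (2 * j + 1)) (f z))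
  (hre : ∀ z, ‖z‖ < 1 → |(f z).re| ≤ π / 4)

include hf

theorem X14_a_summable (w : ℂ) (hw : ‖w‖ < 1) : Summable fun k => a k * w ^ k := by
  obtain ⟨z, hz⟩ := IsAlgClosed.exists_pow_nat_eq w (n := 2) (by norm_num)
  have hz1 : ‖z‖ < 1 := by
    rw [← hz, norm_pow] at hw
    nlinarith [norm_nonneg z]
  by_cases h0 : w = 0
  · subst h0
    apply summable_of_ne_finset_zero (s := {0})
    intro k hk
    simp only [mem_singleton] at hk
    simp [hk]
  · have hz0 : z ≠ 0 := by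
      rintro rfl
      apply h0
      rw [← hz]
      norm_num
    have h1 := (hf z hz1).summable.mul_right z⁻¹
    refine h1.congr fun k => ?_
    rw [← hz, pow_succ, ← pow_mul]
    field_simp

theorem X14_f_eq (z : ℂ) (hz : ‖z‖ < 1) : f z = z * X14_P a (z ^ 2) := by
  unfold X14_P
  rw [← (hf z hz).tsum_eq, ← tsum_mul_left]
  apply tsum_congr
  intro k
  rw [← pow_mul, pow_succ]
  ring

theorem X14_u_eq (z : ℂ) (hz : ‖z‖ < 1) : z ^ 2 * X14_P a (z ^ 2) ^ 2 = f z ^ 2 := by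
  rw [X14_f_eq hf z hz]
  ring

theorem X14_tan (z : ℂ) (hz : ‖z‖ < 1) : z * X14_b a (z ^ 2) = Complex.tan (f z) := by
  unfold X14_b
  rw [X14_u_eq hf z hz, X14_C, Complex.tan, ← X14_S (f z), ← mul_div_assoc]
  congr 1
  rw [← mul_assoc, ← X14_f_eq hf z hz]

include hre

theorem X14_c_ne (w : ℂ) (hw : ‖w‖ < 1) : X14_P X14_cc (w * X14_P a w ^ 2) ≠ 0 := by
  obtain ⟨z, hz⟩ := IsAlgClosed.exists_pow_nat_eq w (n := 2) (by norm_num)
  have hz1 : ‖z‖ < 1 := by
    rw [← hz, norm_pow] at hw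
    nlinarith [norm_nonneg z]
  rw [← hz, X14_u_eq hf z hz1, X14_C]
  exact X14_cos_ne (hre z hz1)

theorem X14_b_diff : DifferentiableOn ℂ (X14_b a) (Metric.ball 0 1) := by
  have hg : DifferentiableOn ℂ (X14_P a) (Metric.ball 0 1) := X14_P_diff (X14_a_summable hf)
  have hu : DifferentiableOn ℂ (fun w => w * X14_P a w ^ 2) (Metric.ball 0 1) :=
    differentiableOn_id.mul (hg.pow 2)
  have hS : DifferentiableOn ℂ (fun w => X14_P X14_sc (w * X14_P a w ^ 2)) (Metric.ball 0 1) :=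
    (X14_entire X14_sc_summable).comp_differentiableOn hu
  have hC : DifferentiableOn ℂ (fun w => X14_P X14_cc (w * X14_P a w ^ 2)) (Metric.ball 0 1) :=
    (X14_entire X14_cc_summable).comp_differentiableOn hu
  exact (hg.mul hS).div hC fun w hw => X14_c_ne hf hre w (mem_ball_zero_iff.mp hw)

theorem X14_b_norm_aux (z : ℂ) (hz : ‖z‖ < 1) : ‖z * X14_b a (z ^ 2)‖ ≤ ‖z‖ := by
  have hd : DifferentiableOn ℂ (fun z => z * X14_b a (z ^ 2)) (Metric.ball 0 1) := by
    apply differentiableOn_id.mul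
    refine (X14_b_diff hf hre).comp (differentiable_id.pow 2).differentiableOn ?_
    intro z hz
    rw [mem_ball_zero_iff] at hz ⊢
    change ‖z ^ 2‖ < 1
    rw [norm_pow]
    nlinarith [norm_nonneg z]
  refine Complex.norm_le_norm_of_mapsTo_ball (f := fun z => z * X14_b a (z ^ 2)) hd ?_
    (by simp) hz
  intro z hz
  rw [mem_ball_zero_iff] at hz
  rw [mem_closedBall_zero_iff]
  change ‖z * X14_b a (z ^ 2)‖ ≤ 1
  rw [X14_tan hf z hz]
  exact X14_tan_norm (hre z hz)

theorem X14_b_norm (w : ℂ) (hw : ‖w‖ < 1) : ‖X14_b a w‖ ≤ 1 := by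
  have key : ∀ w : ℂ, ‖w‖ < 1 → w ≠ 0 → ‖X14_b a w‖ ≤ 1 := by
    intro w hw h0
    obtain ⟨z, hz⟩ := IsAlgClosed.exists_pow_nat_eq w (n := 2) (by norm_num)
    have hz1 : ‖z‖ < 1 := by
      rw [← hz, norm_pow] at hw
      nlinarith [norm_nonneg z]
    have hz0 : z ≠ 0 := by
      rintro rfl
      apply h0
      rw [← hz]
      norm_num
    have h1 := X14_b_norm_aux hf hre z hz1
    rw [hz, norm_mul] at h1
    have h2 : 0 < ‖z‖ := norm_pos_iff.mpr hz0
    by_contra h3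
    push Not at h3
    nlinarith
  by_cases h0 : w = 0
  · subst h0
    have hcont : ContinuousAt (X14_b a) 0 :=
      ((X14_b_diff hf hre).differentiableAt (Metric.ball_mem_nhds 0 one_pos)).continuousAt
    have h1 : Filter.Tendsto (fun w => ‖X14_b a w‖) (nhdsWithin 0 {0}ᶜ) (nhds ‖X14_b a 0‖) :=
      (hcont.norm.tendsto).mono_left nhdsWithin_le_nhds
    refine le_of_tendsto h1 ?_
    have h2 : ∀ᶠ w : ℂ in nhdsWithin 0 {0}ᶜ, ‖w‖ < 1 := by
      apply nhdsWithin_le_nhds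
      filter_upwards [Metric.ball_mem_nhds (0 : ℂ) one_pos] with w hw
      exact mem_ball_zero_iff.mp hw
    filter_upwards [h2, self_mem_nhdsWithin] with w hw hw0
    exact key w hw hw0
  · exact key w hw h0

omit hre in
theorem X14_b_deriv : X14_b a 0 = a 0 ∧ HasDerivAt (X14_b a) (a 1 + a 0 ^ 3 / 3) 0 := by
  have hg := X14_P_deriv one_pos (X14_a_summable hf)
  have hS := X14_P_deriv one_pos (fun w _ => X14_sc_summable w)
  have hC := X14_P_deriv one_pos (fun w _ => X14_cc_summable w)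
  have s0 : X14_sc 0 = 1 := by simp [X14_sc]
  have s1 : X14_sc 1 = -1 / 6 := by
    simp [X14_sc, Nat.factorial]
  have c0 : X14_cc 0 = 1 := by simp [X14_cc]
  have c1 : X14_cc 1 = -1 / 2 := by
    simp [X14_cc, Nat.factorial]
  have hu : HasDerivAt (fun w => w * X14_P a w ^ 2) (a 0 ^ 2) 0 := by
    have h := (hasDerivAt_id (0 : ℂ)).mul (hg.pow 2)
    exact h.congr_deriv (by simp [X14_P_zero])
  have hSu : HasDerivAt (fun w => X14_P X14_sc (w * X14_P a w ^ 2)) (-1 / 6 * a 0 ^ 2) 0 := by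
    rw [← s1]
    exact HasDerivAt.comp_of_eq (0 : ℂ) hS hu (by simp)
  have hCu : HasDerivAt (fun w => X14_P X14_cc (w * X14_P a w ^ 2)) (-1 / 2 * a 0 ^ 2) 0 := by
    rw [← c1]
    exact HasDerivAt.comp_of_eq (0 : ℂ) hC hu (by simp)
  have hC0 : X14_P X14_cc (0 * X14_P a 0 ^ 2) = 1 := by rw [zero_mul, X14_P_zero, c0]
  have hS0 : X14_P X14_sc (0 * X14_P a 0 ^ 2) = 1 := by rw [zero_mul, X14_P_zero, s0]
  refine ⟨?_, ?_⟩
  · unfold X14_b
    rw [hC0, hS0, X14_P_zero]
    simp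
  · have h := (hg.mul hSu).div hCu (by rw [hC0]; exact one_ne_zero)
    have e : ((a 1 * X14_P X14_sc (0 * X14_P a 0 ^ 2) + X14_P a 0 * (-1 / 6 * a 0 ^ 2)) *
        X14_P X14_cc (0 * X14_P a 0 ^ 2) - (X14_P a * fun w => X14_P X14_sc
          (w * X14_P a w ^ 2)) 0 * (-1 / 2 * a 0 ^ 2)) /
        X14_P X14_cc (0 * X14_P a 0 ^ 2) ^ 2 = a 1 + a 0 ^ 3 / 3 := by
      rw [Pi.mul_apply, hC0, hS0, X14_P_zero]
      ring
    rw [e] at h
    exact h

end main

/-- `tan f = z b(z²)` with a Schur function `b`. -/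
theorem schur_b {a : ℕ → ℂ} {f : ℂ → ℂ}
    (hf : ∀ z, ‖z‖ < 1 → HasSum (fun j => a j * z ^ (2 * j + 1)) (f z))
    (hre : ∀ z, ‖z‖ < 1 → |(f z).re| ≤ π / 4) :
    ∃ b : ℂ → ℂ, DifferentiableOn ℂ b (Metric.ball 0 1) ∧ (∀ w, ‖w‖ < 1 → ‖b w‖ ≤ 1) ∧
      b 0 = a 0 ∧ deriv b 0 = a 1 + a 0 ^ 3 / 3 ∧
      ∀ z, ‖z‖ < 1 → f z = Complex.arctan (z * b (z ^ 2)) := by
  refine ⟨X14_b a, X14_b_diff hf hre, X14_b_norm hf hre, (X14_b_deriv hf).1,
    (X14_b_deriv hf).2.deriv, ?_⟩
  intro z hz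
  have h := abs_le.mp (hre z hz)
  have hpi := Real.pi_pos
  rw [X14_tan hf z hz, Complex.arctan_tan]
  · intro h1
    rw [h1] at h
    have h2 : ((π : ℂ) / 2).re = π / 2 := by
      rw [show ((π : ℂ) / 2) = ((π / 2 : ℝ) : ℂ) by push_cast; rfl, Complex.ofReal_re]
    rw [h2] at h
    linarith [h.2]
  · linarith [h.1]
  · linarith [h.2]

end Pool.Agent.Lib.MP_e1dd62_co.Evn
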