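import Pool.Agent.Lib.MP_e1dd62_co.Evn.X14
import Pool.Agent.Lib.MP_e1dd62_co.Evn.X11A
import Pool.Agent.Lib.MP_e1dd62_co.Evn.X11C

/-!
# X15: the regularised Schur data; the crude bound
-/

namespace Pool.Agent.Lib.MP_e1dd62_co.Evn

open Finset Real

theorem X15_blaschke {c₀ β : ℂ} (h0 : ‖c₀‖ < 1) (hβ : ‖β‖ ≤ 1) :
    1 - (starRingEnd ℂ) c₀ * β ≠ 0 ∧ ‖(β - c₀) / (1 - (starRingEnd ℂ) c₀ * β)‖ ≤ 1 := by
  have h1 : 1 - (starRingEnd ℂ) c₀ * β ≠ 0 := by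
    intro h
    have h2 : (starRingEnd ℂ) c₀ * β = 1 := by linear_combination -h
    have h3 := congrArg norm h2
    rw [norm_mul, RCLike.norm_conj, norm_one] at h3
    nlinarith [norm_nonneg c₀, norm_nonneg β]
  refine ⟨h1, ?_⟩
  rw [norm_div, div_le_one (norm_pos_iff.mpr h1)]
  rw [← sq_le_sq₀ (norm_nonneg _) (norm_nonneg _), ← Complex.normSq_eq_norm_sq,
    ← Complex.normSq_eq_norm_sq, Complex.normSq_apply, Complex.normSq_apply]
  have h5 : c₀.re ^ 2 + c₀.im ^ 2 ≤ 1 := by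
    have h6 : ‖c₀‖ ^ 2 ≤ 1 := by nlinarith [norm_nonneg c₀]
    rw [← Complex.normSq_eq_norm_sq, Complex.normSq_apply] at h6
    nlinarith
  have h7 : β.re ^ 2 + β.im ^ 2 ≤ 1 := by
    have h6 : ‖β‖ ^ 2 ≤ 1 := by nlinarith [norm_nonneg β]
    rw [← Complex.normSq_eq_norm_sq, Complex.normSq_apply] at h6
    nlinarith
  simp
  nlinarith [mul_nonneg (sub_nonneg.mpr h5) (sub_nonneg.mpr h7)]

theorem X15_bl {β c' : ℂ} (h4 : 1 - c' * β ≠ 0) (h5 : 1 - c' ^ 2 ≠ 0) :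
    ((β - c') / (1 - c' * β) + c') / (1 + c' * ((β - c') / (1 - c' * β))) = β := by
  have h7 : (β - c') / (1 - c' * β) + c' = β * (1 - c' ^ 2) / (1 - c' * β) := by
    rw [div_add' _ _ _ h4]
    congr 1
    ring
  have h8 : 1 + c' * ((β - c') / (1 - c' * β)) = (1 - c' ^ 2) / (1 - c' * β) := by
    rw [← mul_div_assoc, add_comm, div_add' _ _ _ h4]
    congr 1
    ring
  rw [h7, h8, div_div_div_cancel_right₀ h4, mul_div_assoc, div_self h5, mul_one]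

theorem X15_schwarz {y : ℂ → ℂ} {R : ℝ} (hR : 0 < R)
    (hd : DifferentiableOn ℂ y (Metric.ball 0 R)) (hy : ∀ w, ‖w‖ < R → ‖y w‖ ≤ 1)
    (h0 : y 0 = 0) : DifferentiableOn ℂ (dslope y 0) (Metric.ball 0 R) ∧
      ∀ w, ‖w‖ < R → ‖dslope y 0 w‖ ≤ 1 / R := by
  have hmaps : Set.MapsTo y (Metric.ball 0 R) (Metric.closedBall (y 0) 1) := by
    intro w hw
    rw [h0, mem_closedBall_zero_iff]
    exact hy w (mem_ball_zero_iff.mp hw)
  refine ⟨(Complex.differentiableOn_dslope (Metric.ball_mem_nhds 0 hR)).mpr hd, ?_⟩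
  intro w hw
  by_cases hw0 : w = 0
  · subst hw0
    rw [dslope_same, norm_deriv_eq_norm_fderiv]
    exact Complex.norm_fderiv_le_div_of_mapsTo_ball hd hmaps hR
  · have h1 := Complex.dist_le_div_mul_dist_of_mapsTo_ball hd hmaps (mem_ball_zero_iff.mpr hw)
    rw [h0, dist_zero_right, dist_zero_right] at h1
    rw [dslope_of_ne _ hw0, slope_def_field, h0, sub_zero, sub_zero, norm_div,
      div_le_iff₀ (norm_pos_iff.mpr hw0)]
    exact h1

theorem X15_taylor {S : ℂ → ℂ} {R C : ℝ} (hR : 0 < R)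
    (hd : DifferentiableOn ℂ S (Metric.ball 0 R)) (hS : ∀ w, ‖w‖ < R → ‖S w‖ ≤ C) (j : ℕ) :
    ‖((j.factorial : ℂ)⁻¹ * iteratedDeriv j S 0)‖ ≤ C / R ^ j := by
  have h1 : ∀ R' : ℝ, 0 < R' → R' < R →
      ‖((j.factorial : ℂ)⁻¹ * iteratedDeriv j S 0)‖ * R' ^ j ≤ C := by
    intro R' h0' hR'
    have h2 : DiffContOnCl ℂ S (Metric.ball 0 R') := by
      apply DifferentiableOn.diffContOnCl
      apply hd.mono
      refine Metric.closure_ball_subset_closedBall.trans ?_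
      exact Metric.closedBall_subset_ball hR'
    have h3 := Complex.norm_iteratedDeriv_le_of_forall_mem_sphere_norm_le j h0' h2
      (C := C) (fun z hz => hS z (by rw [mem_sphere_zero_iff_norm.mp hz]; exact hR'))
    rw [norm_mul, norm_inv, Complex.norm_natCast]
    have h4 : 0 < (j.factorial : ℝ) := by exact_mod_cast j.factorial_pos
    have h5 : 0 < R' ^ j := by positivity
    rw [le_div_iff₀ h5] at h3
    calc (j.factorial : ℝ)⁻¹ * ‖iteratedDeriv j S 0‖ * R' ^ j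
        = (j.factorial : ℝ)⁻¹ * (‖iteratedDeriv j S 0‖ * R' ^ j) := by ring
      _ ≤ (j.factorial : ℝ)⁻¹ * (j.factorial * C) := by
          apply mul_le_mul_of_nonneg_left h3 (by positivity)
      _ = C := by field_simp
  rw [le_div_iff₀ (by positivity)]
  have h2 : Filter.Tendsto (fun R' : ℝ => ‖((j.factorial : ℂ)⁻¹ * iteratedDeriv j S 0)‖ * R' ^ j)
      (nhdsWithin R (Set.Iio R)) (nhds (‖((j.factorial : ℂ)⁻¹ * iteratedDeriv j S 0)‖ * R ^ j)) :=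
    ((continuous_const.mul (continuous_pow j)).tendsto R).mono_left nhdsWithin_le_nhds
  refine le_of_tendsto h2 ?_
  have h3 : ∀ᶠ R' : ℝ in nhdsWithin R (Set.Iio R), 0 < R' :=
    nhdsWithin_le_nhds (lt_mem_nhds hR)
  filter_upwards [h3, self_mem_nhdsWithin] with R' h4 h5
  exact h1 R' h4 h5

theorem schur_data {a : ℕ → ℂ} {f : ℂ → ℂ}
    (hf : ∀ z, ‖z‖ < 1 → HasSum (fun j => a j * z ^ (2 * j + 1)) (f z))
    (hre : ∀ z, ‖z‖ < 1 → |(f z).re| ≤ π / 4) {c : ℝ} (hc : a 0 = c) (hc0 : 0 ≤ c) (hc1 : c < 1)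
    {ρ : ℝ} (hρ0 : 0 < ρ) (hρ1 : ρ < 1) :
    ∃ (s : ℂ → ℂ) (σ : ℕ → ℕ → ℂ), (∀ q j, ‖σ q j‖ ≤ (ρ ^ 2) ^ (q + j)) ∧
      (∀ w, ‖w‖ < 1 → ‖s w‖ ≤ 1) ∧
      (∀ q w, ‖w‖ < 1 → HasSum (fun j => σ q j * w ^ j) (s w ^ q)) ∧
      ∀ z, ‖z‖ < 1 → f (ρ * z) = Complex.arctan (z * bl (ρ * c) (z ^ 2 * s (z ^ 2))) := by
  obtain ⟨b, hbd, hb1, hb0, -, hbf⟩ := schur_b hf hre
  have hρ2 : 0 < ρ ^ 2 := by positivity
  have hρ2' : ρ ^ 2 < 1 := by nlinarith
  set R : ℝ := (ρ ^ 2)⁻¹ with hRdef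
  have hR : 0 < R := by positivity
  have hR1 : 1 < R := (one_lt_inv₀ hρ2).mpr hρ2'
  have hin : ∀ w : ℂ, ‖w‖ < R → ‖((ρ ^ 2 : ℝ) : ℂ) * w‖ < 1 := by
    intro w hw
    rw [norm_mul, Complex.norm_real, Real.norm_of_nonneg hρ2.le]
    calc ρ ^ 2 * ‖w‖ < ρ ^ 2 * R := mul_lt_mul_of_pos_left hw hρ2
      _ = 1 := by rw [hRdef]; field_simp
  set c' : ℝ := ρ * c with hc'
  have hc'0 : 0 ≤ c' := by positivity
  have hc'1 : c' < 1 := by nlinarith
  let bρ : ℂ → ℂ := fun w => (ρ : ℂ) * b (((ρ ^ 2 : ℝ) : ℂ) * w)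
  have hbρd : DifferentiableOn ℂ bρ (Metric.ball 0 R) := by
    apply (differentiableOn_const _).mul
    refine hbd.comp ((differentiable_const _).mul differentiable_id).differentiableOn ?_
    intro w hw
    rw [mem_ball_zero_iff] at hw ⊢
    exact hin w hw
  have hbρ1 : ∀ w, ‖w‖ < R → ‖bρ w‖ ≤ 1 := by
    intro w hw
    have h1 := hb1 _ (hin w hw)
    change ‖(ρ : ℂ) * b (((ρ ^ 2 : ℝ) : ℂ) * w)‖ ≤ 1
    rw [norm_mul, Complex.norm_real, Real.norm_of_nonneg hρ0.le]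
    nlinarith [norm_nonneg (b (((ρ ^ 2 : ℝ) : ℂ) * w))]
  have hc'n : ‖(c' : ℂ)‖ < 1 := by rwa [Complex.norm_real, Real.norm_of_nonneg hc'0]
  have hconj : (starRingEnd ℂ) (c' : ℂ) = c' := Complex.conj_ofReal _
  let y : ℂ → ℂ := fun w => (bρ w - c') / (1 - c' * bρ w)
  have hyd : DifferentiableOn ℂ y (Metric.ball 0 R) := by
    apply (hbρd.sub (differentiableOn_const _)).div
      ((differentiableOn_const _).sub ((differentiableOn_const _).mul hbρd))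
    intro w hw
    have h1 := (X15_blaschke hc'n (hbρ1 w (mem_ball_zero_iff.mp hw))).1
    rw [hconj] at h1
    exact h1
  have hy1 : ∀ w, ‖w‖ < R → ‖y w‖ ≤ 1 := by
    intro w hw
    have h1 := (X15_blaschke hc'n (hbρ1 w hw)).2
    rw [hconj] at h1
    exact h1
  have hy0 : y 0 = 0 := by
    change (((ρ : ℂ) * b (((ρ ^ 2 : ℝ) : ℂ) * 0)) - c') / _ = 0
    rw [mul_zero, hb0, hc, hc']
    push_cast
    simp
  obtain ⟨hsd, hs1⟩ := X15_schwarz hR hyd hy1 hy0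
  have hRinv : 1 / R = ρ ^ 2 := by rw [hRdef]; field_simp
  rw [hRinv] at hs1
  refine ⟨dslope y 0, fun q j => (j.factorial : ℂ)⁻¹ *
    iteratedDeriv j (fun w => dslope y 0 w ^ q) 0, ?_, ?_, ?_, ?_⟩
  · intro q j
    have h1 := X15_taylor (S := fun w => dslope y 0 w ^ q) (C := (ρ ^ 2) ^ q) hR
      (hsd.pow q) (fun w hw => by
        rw [norm_pow]
        exact pow_le_pow_left₀ (norm_nonneg _) (hs1 w hw) q) j
    refine h1.trans (le_of_eq ?_)
    rw [hRdef, pow_add, inv_pow, div_inv_eq_mul]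
  · intro w hw
    exact (hs1 w (hw.trans hR1)).trans hρ2'.le
  · intro q w hw
    have h1 := Complex.hasSum_taylorSeries_on_ball (hsd.pow q)
      (mem_ball_zero_iff.mpr (hw.trans hR1))
    have e1 : (fun n : ℕ => (n.factorial : ℂ)⁻¹ • (w - 0) ^ n •
        iteratedDeriv n (dslope y 0 ^ q) 0) = fun j => (j.factorial : ℂ)⁻¹ *
        iteratedDeriv j (fun w => dslope y 0 w ^ q) 0 * w ^ j := by
      funext n
      rw [smul_eq_mul, smul_eq_mul, sub_zero]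
      change _ * (_ * iteratedDeriv n (fun w => dslope y 0 w ^ q) 0) = _
      ring
    rw [e1] at h1
    exact h1
  · intro z hz
    have hz2 : ‖z ^ 2‖ < R := by
      rw [norm_pow]
      nlinarith [norm_nonneg z]
    have hρz : ‖(ρ * z : ℂ)‖ < 1 := by
      rw [norm_mul, Complex.norm_real, Real.norm_of_nonneg hρ0.le]
      nlinarith [norm_nonneg z]
    rw [hbf _ hρz]
    congr 1
    have h1 : z ^ 2 * dslope y 0 (z ^ 2) = y (z ^ 2) := by
      have h2 := sub_smul_dslope y 0 (z ^ 2)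
      rw [hy0, sub_zero, sub_zero, smul_eq_mul] at h2
      exact h2
    rw [h1]
    have h3 : bl c' (y (z ^ 2)) = bρ (z ^ 2) := by
      have h4 := (X15_blaschke hc'n (hbρ1 _ hz2)).1
      rw [hconj] at h4
      have h5 : (1 : ℂ) - c' ^ 2 ≠ 0 := by
        have h6 : (1 : ℝ) - c' ^ 2 ≠ 0 := by nlinarith
        exact_mod_cast h6
      unfold bl
      change ((bρ (z ^ 2) - c') / (1 - c' * bρ (z ^ 2)) + c') /
        (1 + c' * ((bρ (z ^ 2) - c') / (1 - c' * bρ (z ^ 2)))) = bρ (z ^ 2)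
      exact X15_bl h4 h5
    rw [h3]
    change ρ * z * b ((ρ * z) ^ 2) = z * (ρ * b (((ρ ^ 2 : ℝ) : ℂ) * z ^ 2))
    have h9 : ((ρ : ℂ) * z) ^ 2 = ((ρ ^ 2 : ℝ) : ℂ) * z ^ 2 := by
      push_cast
      ring
    rw [h9]
    ring

/-- Schwarz-Pick at the origin. -/
theorem X15_pick {b : ℂ → ℂ} (hd : DifferentiableOn ℂ b (Metric.ball 0 1))
    (hb : ∀ w, ‖w‖ < 1 → ‖b w‖ ≤ 1) : ‖deriv b 0‖ ≤ 1 - ‖b 0‖ ^ 2 := by
  have hb0 : ‖b 0‖ ≤ 1 := hb 0 (by simp)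
  have hda : HasDerivAt b (deriv b 0) 0 :=
    (hd.differentiableAt (Metric.ball_mem_nhds 0 one_pos)).hasDerivAt
  have key : ∀ t : ℝ, 0 < t → t < 1 → t * ‖deriv b 0‖ ≤ 1 - t ^ 2 * ‖b 0‖ ^ 2 := by
    intro t ht0 ht1
    set c₀ : ℂ := t * b 0 with hc₀
    have hc₀n : ‖c₀‖ = t * ‖b 0‖ := by
      rw [hc₀, norm_mul, Complex.norm_real, Real.norm_of_nonneg ht0.le]
    have hc₀1 : ‖c₀‖ < 1 := by
      rw [hc₀n]
      nlinarith [norm_nonneg (b 0)]
    have htb : ∀ w, ‖w‖ < 1 → ‖(t : ℂ) * b w‖ ≤ 1 := by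
      intro w hw
      rw [norm_mul, Complex.norm_real, Real.norm_of_nonneg ht0.le]
      nlinarith [hb w hw, norm_nonneg (b w)]
    let y : ℂ → ℂ := fun w => (t * b w - c₀) / (1 - (starRingEnd ℂ) c₀ * (t * b w))
    have htd : DifferentiableOn ℂ (fun w => (t : ℂ) * b w) (Metric.ball 0 1) :=
      (differentiableOn_const _).mul hd
    have hyd : DifferentiableOn ℂ y (Metric.ball 0 1) := by
      apply (htd.sub (differentiableOn_const _)).div
        ((differentiableOn_const _).sub ((differentiableOn_const _).mul htd))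
      intro w hw
      exact (X15_blaschke hc₀1 (htb w (mem_ball_zero_iff.mp hw))).1
    have hy1 : ∀ w, ‖w‖ < 1 → ‖y w‖ ≤ 1 := fun w hw => (X15_blaschke hc₀1 (htb w hw)).2
    have hy0 : y 0 = 0 := by
      change (t * b 0 - c₀) / _ = 0
      rw [hc₀, sub_self, zero_div]
    have hmaps : Set.MapsTo y (Metric.ball 0 1) (Metric.closedBall (y 0) 1) := by
      intro w hw
      rw [hy0, mem_closedBall_zero_iff]
      exact hy1 w (mem_ball_zero_iff.mp hw)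
    have h1 := Complex.norm_fderiv_le_one_of_mapsTo_ball hyd hmaps one_pos
    rw [← norm_deriv_eq_norm_fderiv] at h1
    have hD : 1 - (starRingEnd ℂ) c₀ * (t * b 0) ≠ 0 := (X15_blaschke hc₀1 (htb 0 (by simp))).1
    have hDv : 1 - (starRingEnd ℂ) c₀ * (t * b 0) = ((1 - ‖c₀‖ ^ 2 : ℝ) : ℂ) := by
      rw [← hc₀, mul_comm, Complex.mul_conj, Complex.normSq_eq_norm_sq]
      push_cast
      ring
    have hyder : HasDerivAt y ((t * deriv b 0) / (1 - (starRingEnd ℂ) c₀ * (t * b 0))) 0 := by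
      have h2 : HasDerivAt (fun w => (t : ℂ) * b w) (t * deriv b 0) 0 := hda.const_mul _
      have h3 : HasDerivAt (fun w => (t : ℂ) * b w - c₀) (t * deriv b 0) 0 := h2.sub_const _
      have h4 : HasDerivAt (fun w => 1 - (starRingEnd ℂ) c₀ * ((t : ℂ) * b w))
          (-((starRingEnd ℂ) c₀ * (t * deriv b 0))) 0 := (h2.const_mul _).const_sub _
      have h5 := h3.div h4 hD
      refine h5.congr_deriv ?_
      rw [← hc₀, sub_self, zero_mul, sub_zero, sq, mul_div_mul_right]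
      rw [hc₀]
      exact hD
    rw [hyder.deriv, norm_div, hDv, Complex.norm_real] at h1
    have h6 : 0 < 1 - ‖c₀‖ ^ 2 := by nlinarith [norm_nonneg c₀]
    rw [Real.norm_of_nonneg h6.le, div_le_one h6, norm_mul, Complex.norm_real,
      Real.norm_of_nonneg ht0.le, hc₀n] at h1
    rw [mul_pow] at h1
    exact h1
  have h2 : Filter.Tendsto (fun t : ℝ => t * ‖deriv b 0‖) (nhdsWithin 1 (Set.Iio 1))
      (nhds (1 * ‖deriv b 0‖)) :=
    ((continuous_id.mul continuous_const).tendsto (1 : ℝ)).mono_left nhdsWithin_le_nhds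
  have h3 : Filter.Tendsto (fun t : ℝ => 1 - t ^ 2 * ‖b 0‖ ^ 2) (nhdsWithin 1 (Set.Iio 1))
      (nhds (1 - 1 ^ 2 * ‖b 0‖ ^ 2)) :=
    ((continuous_const.sub ((continuous_pow 2).mul continuous_const)).tendsto (1 : ℝ)).mono_left
      nhdsWithin_le_nhds
  have h4 := le_of_tendsto_of_tendsto h2 h3 (by
    have h5 : ∀ᶠ t : ℝ in nhdsWithin 1 (Set.Iio 1), 0 < t :=
      nhdsWithin_le_nhds (lt_mem_nhds one_pos)
    filter_upwards [h5, self_mem_nhdsWithin] with t ht0 ht1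
    exact key t ht0 ht1)
  linarith

/-- The mean of `f ^ 2` vanishes. -/
theorem X15_sq_mean {a : ℕ → ℂ} {f : ℂ → ℂ}
    (hf : ∀ z, ‖z‖ < 1 → HasSum (fun j => a j * z ^ (2 * j + 1)) (f z)) {r : ℝ} (hr0 : 0 < r)
    (hr1 : r < 1) :
    Continuous (fun θ : ℝ => f (r * Complex.exp (θ * Complex.I)) ^ 2) ∧
      ((1 / (2 * π) : ℝ) : ℂ) * (∫ θ in (0 : ℝ)..(2 * π),
        f (r * Complex.exp (θ * Complex.I)) ^ 2) = 0 := by
  have ha : Summable fun j => ‖a j‖ * r ^ (2 * j + 1) := by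
    have h1 := (hf (r : ℂ) (by rwa [Complex.norm_real, Real.norm_of_nonneg hr0.le])).summable.norm
    refine h1.congr fun j => ?_
    rw [norm_mul, norm_pow, Complex.norm_real, Real.norm_of_nonneg hr0.le]
  let g : ℕ × ℕ → ℂ := fun p => a p.1 * a p.2 * ((r ^ ((2 * p.1 + 1) + (2 * p.2 + 1)) : ℝ) : ℂ)
  have hg : Summable fun p => ‖g p‖ := by
    have h2 := ha.mul_of_nonneg ha (fun j => by positivity) (fun j => by positivity)
    refine h2.congr fun p => ?_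
    change _ = ‖a p.1 * a p.2 * ((r ^ ((2 * p.1 + 1) + (2 * p.2 + 1)) : ℝ) : ℂ)‖
    rw [norm_mul, norm_mul, Complex.norm_real, Real.norm_of_nonneg (by positivity), pow_add]
    ring
  obtain ⟨h3, h4⟩ := avg_exp hg (fun p => ((2 * p.1 + 1 : ℕ) : ℤ) + ((2 * p.2 + 1 : ℕ) : ℤ))
  have h5 : (fun θ : ℝ => ∑' p, g p * Complex.exp ((((((2 * p.1 + 1 : ℕ) : ℤ) +
      ((2 * p.2 + 1 : ℕ) : ℤ) : ℤ) * θ : ℝ) : ℂ) * Complex.I)) =
      fun θ : ℝ => f (r * Complex.exp (θ * Complex.I)) ^ 2 := by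
    funext θ
    have hz : ‖(r * Complex.exp (θ * Complex.I) : ℂ)‖ < 1 := by rw [X11C_norm hr0]; exact hr1
    have h6 := hf _ hz
    set z : ℂ := r * Complex.exp (θ * Complex.I) with hzdef
    have hterm : ∀ p : ℕ × ℕ, g p * Complex.exp ((((((2 * p.1 + 1 : ℕ) : ℤ) +
      ((2 * p.2 + 1 : ℕ) : ℤ) : ℤ) * θ : ℝ) : ℂ) * Complex.I) =
        (a p.1 * z ^ (2 * p.1 + 1)) * (a p.2 * z ^ (2 * p.2 + 1)) := by
      intro p
      have h7 : z ^ (2 * p.1 + 1) * z ^ (2 * p.2 + 1) =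
          ((r ^ ((2 * p.1 + 1) + (2 * p.2 + 1)) : ℝ) : ℂ) *
          Complex.exp ((((((2 * p.1 + 1 : ℕ) : ℤ) +
            ((2 * p.2 + 1 : ℕ) : ℤ) : ℤ) * θ : ℝ) : ℂ) * Complex.I) := by
        rw [← pow_add, hzdef, mul_pow, ← Complex.exp_nat_mul]
        push_cast
        congr 2
        ring
      change a p.1 * a p.2 * ((r ^ ((2 * p.1 + 1) + (2 * p.2 + 1)) : ℝ) : ℂ) * _ = _
      rw [mul_assoc, ← h7]
      ring
    have h8 : (fun p : ℕ × ℕ => g p * Complex.exp ((((((2 * p.1 + 1 : ℕ) : ℤ) +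
      ((2 * p.2 + 1 : ℕ) : ℤ) : ℤ) * θ : ℝ) : ℂ) * Complex.I)) = fun p : ℕ × ℕ =>
        (a p.1 * z ^ (2 * p.1 + 1)) * (a p.2 * z ^ (2 * p.2 + 1)) := funext hterm
    have h9 : Summable fun p : ℕ × ℕ =>
        (a p.1 * z ^ (2 * p.1 + 1)) * (a p.2 * z ^ (2 * p.2 + 1)) := by
      rw [← h8]
      refine Summable.of_norm (hg.congr fun p => ?_)
      rw [norm_mul (g p), Complex.norm_exp_ofReal_mul_I, mul_one]
    have h10 := HasSum.mul h6 h6 h9
    rw [h8, sq]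
    exact h10.tsum_eq
  rw [h5] at h3 h4
  refine ⟨h3, ?_⟩
  rw [h4]
  have h6 : ∀ p : ℕ × ℕ, (if ((2 * p.1 + 1 : ℕ) : ℤ) + ((2 * p.2 + 1 : ℕ) : ℤ) = 0 then g p
      else 0) = 0 := by
    intro p
    apply if_neg
    omega
  simp only [h6, tsum_zero]

theorem crude {a : ℕ → ℂ} {f : ℂ → ℂ}
    (hf : ∀ z, ‖z‖ < 1 → HasSum (fun j => a j * z ^ (2 * j + 1)) (f z))
    (hre : ∀ z, ‖z‖ < 1 → |(f z).re| ≤ π / 4) :
    ‖a 0‖ ≤ 1 ∧ ‖a 1‖ ≤ 1 - ‖a 0‖ ^ 2 + ‖a 0‖ ^ 3 / 3 ∧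
      ∀ M, ∑ j ∈ range M, ‖a j‖ ^ 2 ≤ π ^ 2 / 8 := by
  obtain ⟨b, hbd, hb1, hb0, hb', -⟩ := schur_b hf hre
  refine ⟨?_, ?_, ?_⟩
  · rw [← hb0]
    exact hb1 0 (by simp)
  · have h1 := X15_pick hbd hb1
    rw [hb', hb0] at h1
    have h2 : ‖a 1‖ ≤ ‖a 1 + a 0 ^ 3 / 3‖ + ‖a 0 ^ 3 / 3‖ := by
      have h3 := norm_sub_le (a 1 + a 0 ^ 3 / 3) (a 0 ^ 3 / 3)
      rw [add_sub_cancel_right] at h3
      exact h3
    have h4 : ‖a 0 ^ 3 / 3‖ = ‖a 0‖ ^ 3 / 3 := by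
      rw [norm_div, norm_pow]
      norm_num
    linarith
  · intro M
    have key : ∀ r : ℝ, 0 < r → r < 1 →
        ∑ j ∈ range M, ‖a j‖ ^ 2 * r ^ (4 * j + 2) ≤ π ^ 2 / 8 := by
      intro r hr0 hr1
      obtain ⟨hc1, hB⟩ := bessel hf hr0 hr1
      obtain ⟨hc2, hS⟩ := X15_sq_mean hf hr0 hr1
      have hle : ∑ j ∈ range M, ‖a j‖ ^ 2 * r ^ (4 * j + 2) ≤ _ :=
        sum_le_hasSum (range M) (fun j _ => by positivity) hB
      refine hle.trans ?_
      have e1 : (∫ θ in (0 : ℝ)..(2 * π), f (r * Complex.exp (θ * Complex.I)) ^ 2).re =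
          ∫ θ in (0 : ℝ)..(2 * π), (f (r * Complex.exp (θ * Complex.I)) ^ 2).re :=
        (Complex.reCLM.intervalIntegral_comp_comm (hc2.intervalIntegrable 0 (2 * π))).symm
      have hS2 := congrArg Complex.re hS
      rw [Complex.re_ofReal_mul, e1, Complex.zero_re] at hS2
      have hpi : (0 : ℝ) < 2 * π := by positivity
      have hcr : Continuous fun θ : ℝ => (f (r * Complex.exp (θ * Complex.I)) ^ 2).re :=
        Complex.continuous_re.comp hc2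
      have hcn : Continuous fun θ : ℝ => ‖f (r * Complex.exp (θ * Complex.I))‖ ^ 2 :=
        hc1.norm.pow 2
      have h1 : ∫ θ in (0 : ℝ)..(2 * π), (‖f (r * Complex.exp (θ * Complex.I))‖ ^ 2 +
          (f (r * Complex.exp (θ * Complex.I)) ^ 2).re) ≤
          ∫ θ in (0 : ℝ)..(2 * π), (π ^ 2 / 8 : ℝ) := by
        apply intervalIntegral.integral_mono_on hpi.le
        · exact (hcn.add hcr).intervalIntegrable 0 (2 * π)
        · exact continuous_const.intervalIntegrable 0 (2 * π)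
        · intro θ _
          have h2 := hre (r * Complex.exp (θ * Complex.I)) (by rw [X11C_norm hr0]; exact hr1)
          have h3 : (f (r * Complex.exp (θ * Complex.I))).re ^ 2 ≤ (π / 4) ^ 2 := by
            rw [← sq_abs]
            exact pow_le_pow_left₀ (abs_nonneg _) h2 2
          rw [← Complex.normSq_eq_norm_sq, Complex.normSq_apply, sq, Complex.mul_re]
          nlinarith
      rw [intervalIntegral.integral_add (hcn.intervalIntegrable 0 (2 * π))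
        (hcr.intervalIntegrable 0 (2 * π)), intervalIntegral.integral_const, sub_zero,
        smul_eq_mul] at h1
      have h4 := mul_le_mul_of_nonneg_left h1 (by positivity : (0 : ℝ) ≤ 1 / (2 * π))
      rw [mul_add, hS2, add_zero] at h4
      refine h4.trans (le_of_eq ?_)
      field_simp
    have h2 : Filter.Tendsto (fun r : ℝ => ∑ j ∈ range M, ‖a j‖ ^ 2 * r ^ (4 * j + 2))
        (nhdsWithin 1 (Set.Iio 1)) (nhds (∑ j ∈ range M, ‖a j‖ ^ 2 * 1 ^ (4 * j + 2))) := by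
      have hc : Continuous (fun r : ℝ => ∑ j ∈ range M, ‖a j‖ ^ 2 * r ^ (4 * j + 2)) := by
        fun_prop
      exact (hc.tendsto 1).mono_left nhdsWithin_le_nhds
    simp only [one_pow, mul_one] at h2
    refine le_of_tendsto h2 ?_
    have h5 : ∀ᶠ t : ℝ in nhdsWithin 1 (Set.Iio 1), 0 < t :=
      nhdsWithin_le_nhds (lt_mem_nhds one_pos)
    filter_upwards [h5, self_mem_nhdsWithin] with t ht0 ht1
    exact key t ht0 ht1

end Pool.Agent.Lib.MP_e1dd62_co.Evn
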