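import Pool.Agent.Lib.MP_e1dd62_co.Evn.X07
import Pool.Agent.Lib.MP_e1dd62_co.Evn.X12
import Pool.Agent.Lib.MP_e1dd62_co.Evn.X13
import Pool.Agent.Lib.MP_e1dd62_co.Evn.X15

/-!
# X16: the sharp extremal inequality on the circle
-/

namespace Pool.Agent.Lib.MP_e1dd62_co.Evn

open Finset Real

/-- A numerical lower bound of the constant. -/
theorem X16_num : (26555 : ℝ) / 100000 ≤ Jst := by
  have h := sum_le_hasSum (range 12) (fun i _ => by positivity) Jst_hasSum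
  refine le_trans ?_ h
  simp only [sum_range_succ, sum_range_zero]
  norm_num

theorem X16_fun {s : ℝ} (hs0 : 0 ≤ s) (hs1 : s ≤ 1) (h3 : 3 / 40 ≤ s ^ 2) :
    (1 - s ^ 2 + s ^ 3 / 3) ^ 2 / 12 + (98697 / 80000 - s ^ 2) / 6 ≤ 26555 / 100000 := by
  have hs2 : s ^ 2 ≤ 1 := by nlinarith
  have key : ∀ κ τ : ℝ, 0 ≤ κ → κ ≤ 1 → τ ≤ s ^ 2 → 0 ≤ τ → s / 3 ≤ 1 - κ →
      (1 - κ * τ) ^ 2 / 12 + (98697 / 80000 - τ) / 6 ≤ 26555 / 100000 →
      (1 - s ^ 2 + s ^ 3 / 3) ^ 2 / 12 + (98697 / 80000 - s ^ 2) / 6 ≤ 26555 / 100000 := by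
    intro κ τ hκ0 hκ1 hτ hτ0 h1 h2
    have h4 : s / 3 * s ^ 2 ≤ (1 - κ) * s ^ 2 := mul_le_mul_of_nonneg_right h1 (sq_nonneg s)
    have hA : 1 - s ^ 2 + s ^ 3 / 3 ≤ 1 - κ * s ^ 2 := by linarith
    have hA0 : 0 ≤ 1 - s ^ 2 + s ^ 3 / 3 := by
      have : 0 ≤ s ^ 3 := pow_nonneg hs0 3
      linarith
    have hB : κ * τ ≤ κ * s ^ 2 := mul_le_mul_of_nonneg_left hτ hκ0
    have hC : (1 - s ^ 2 + s ^ 3 / 3) ^ 2 ≤ (1 - κ * τ) ^ 2 := by
      apply pow_le_pow_left₀ hA0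
      linarith
    linarith
  rcases le_or_gt s (28 / 100) with h | h
  · exact key (1 - 28 / 300) (3 / 40) (by norm_num) (by norm_num) h3 (by norm_num)
      (by linarith) (by norm_num)
  rcases le_or_gt s (4 / 10) with h' | h'
  · exact key (1 - 4 / 30) ((28 / 100) ^ 2) (by norm_num) (by norm_num) (by nlinarith)
      (by norm_num) (by linarith) (by norm_num)
  · exact key (1 - 1 / 3) ((4 / 10) ^ 2) (by norm_num) (by norm_num) (by nlinarith)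
      (by norm_num) (by linarith) (by norm_num)

/-- The crude case. -/
theorem X16_crude {a : ℕ → ℂ} {f : ℂ → ℂ}
    (hf : ∀ z, ‖z‖ < 1 → HasSum (fun j => a j * z ^ (2 * j + 1)) (f z))
    (hre : ∀ z, ‖z‖ < 1 → |(f z).re| ≤ π / 4) (h3 : 3 / 40 ≤ ‖a 0‖ ^ 2) (M : ℕ) :
    ∑ j ∈ range M, ‖a (j + 1)‖ ^ 2 / (2 * j + 4) ≤ Jst := by
  obtain ⟨h0, h1, hB⟩ := crude hf hre
  rcases Nat.eq_zero_or_pos M with hM | hM
  · subst hM
    simp only [range_zero, sum_empty]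
    linarith [X16_num]
  set s := ‖a 0‖ with hs
  have hs0 : 0 ≤ s := norm_nonneg _
  -- the weights
  have hw : ∑ j ∈ range M, ‖a (j + 1)‖ ^ 2 / (2 * (j : ℝ) + 4) ≤
      ‖a 1‖ ^ 2 / 12 + (∑ j ∈ range M, ‖a (j + 1)‖ ^ 2) / 6 := by
    obtain ⟨M', rfl⟩ : ∃ M', M = M' + 1 := ⟨M - 1, by omega⟩
    rw [sum_range_succ', sum_range_succ']
    have : ∑ k ∈ range M', ‖a (k + 1 + 1)‖ ^ 2 / (2 * ((k + 1 : ℕ) : ℝ) + 4) ≤
        ∑ k ∈ range M', ‖a (k + 1 + 1)‖ ^ 2 / 6 := by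
      refine sum_le_sum fun k _ => ?_
      refine div_le_div_of_nonneg_left (by positivity) (by norm_num) ?_
      have : (0 : ℝ) ≤ k := Nat.cast_nonneg k
      push_cast
      linarith
    rw [← sum_div] at this
    simp only [zero_add, Nat.cast_zero, mul_zero]
    linarith
  have hB' := hB (M + 1)
  rw [sum_range_succ'] at hB'
  have ha1 : ‖a 1‖ ^ 2 ≤ (1 - s ^ 2 + s ^ 3 / 3) ^ 2 := by
    have := norm_nonneg (a 1)
    gcongr
  have hpi : π ^ 2 ≤ 98697 / 10000 := by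
    have h1 := pi_lt_d6
    have h2 := pi_pos
    nlinarith
  have hnum := X16_num
  -- the function of s
  have hkey := X16_fun hs0 h0 h3
  have : (∑ j ∈ range M, ‖a (j + 1)‖ ^ 2) ≤ 98697 / 80000 - s ^ 2 := by
    have : ‖a 0‖ ^ 2 = s ^ 2 := rfl
    linarith
  linarith

theorem ext_coeff {a : ℕ → ℂ} {f : ℂ → ℂ}
    (hf : ∀ z, ‖z‖ < 1 → HasSum (fun j => a j * z ^ (2 * j + 1)) (f z))
    (hre : ∀ z, ‖z‖ < 1 → |(f z).re| ≤ π / 4) (M : ℕ) :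
    ∑ j ∈ range M, ‖a (j + 1)‖ ^ 2 / (2 * j + 4) ≤ Jst := by
  rcases le_or_gt (3 / 40) (‖a 0‖ ^ 2) with h3 | h3
  · exact X16_crude hf hre h3 M
  -- rotation
  set c := ‖a 0‖ with hc
  have hc0 : 0 ≤ c := norm_nonneg _
  have hc1 : c < 1 := by nlinarith
  obtain ⟨w, hw1, hw⟩ : ∃ w : ℂ, ‖w‖ = 1 ∧ a 0 * w = c := by
    by_cases h0 : a 0 = 0
    · exact ⟨1, by simp, by simp [hc, h0]⟩
    · refine ⟨(c : ℂ) / a 0, ?_, ?_⟩
      · rw [norm_div, Complex.norm_real, Real.norm_eq_abs, abs_of_nonneg hc0]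
        exact div_self (norm_ne_zero_iff.2 h0)
      · field_simp
  have hwz : ∀ z : ℂ, ‖z‖ < 1 → ‖w * z‖ < 1 := fun z hz => by rwa [norm_mul, hw1, one_mul]
  have hf' : ∀ z, ‖z‖ < 1 → HasSum (fun j => (a j * w ^ (2 * j + 1)) * z ^ (2 * j + 1))
      (f (w * z)) := by
    intro z hz
    have := hf (w * z) (hwz z hz)
    simp only [mul_pow] at this
    simpa only [mul_assoc] using this
  have hre' : ∀ z, ‖z‖ < 1 → |(f (w * z)).re| ≤ π / 4 := fun z hz => hre _ (hwz z hz)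
  have hnorm : ∀ j, ‖a j * w ^ (2 * j + 1)‖ = ‖a j‖ := fun j => by
    rw [norm_mul, norm_pow, hw1, one_pow, mul_one]
  -- the inequality for every `ρ < 1`
  have key : ∀ ρ : ℝ, 0 < ρ → ρ < 1 →
      ∑ j ∈ range M, ‖a (j + 1)‖ ^ 2 * (ρ ^ (2 * (j + 1) + 1)) ^ 2 / (2 * j + 4) ≤ Jst := by
    intro ρ hρ0 hρ1
    obtain ⟨s, σ, hσ, hs, hsum, hid⟩ := schur_data (a := fun j => a j * w ^ (2 * j + 1))
      (f := fun z => f (w * z)) hf' hre' (c := c) (by simpa using hw) hc0 hc1 hρ0 hρ1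
    have hρc0 : 0 ≤ ρ * c := by positivity
    have hρc1 : ρ * c < 1 := by nlinarith
    have hρc2 : (ρ * c) ^ 2 ≤ 3 / 40 := by
      have : (ρ * c) ^ 2 ≤ c ^ 2 := by
        rw [mul_pow]
        have h1 : ρ ^ 2 ≤ 1 := by nlinarith
        nlinarith [sq_nonneg c]
      linarith
    obtain ⟨hE1, hE2⟩ := cross_total hρc0 hρc2
    have hI := ineqI hρc0 hρc1 (lam := ρ ^ 2) (by positivity) (by nlinarith) hσ hs hsum
      (b := fun j => a j * w ^ (2 * j + 1) * (ρ : ℂ) ^ (2 * j + 1)) (fun z hz => by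
        rw [← hid z hz]
        have hρz : ‖(ρ : ℂ) * z‖ < 1 := by
          rw [norm_mul, Complex.norm_real, Real.norm_eq_abs, abs_of_pos hρ0]
          nlinarith [norm_nonneg z]
        have := hf' (ρ * z) hρz
        simp only [mul_pow] at this
        simpa only [mul_assoc] using this) hE1 (M + 1)
    have hM := Mn_le hρc0 hρc2
    rw [sum_range_succ'] at hI
    have h0 : ‖a 0 * w ^ (2 * 0 + 1) * (ρ : ℂ) ^ (2 * 0 + 1)‖ ^ 2 / (2 * ((0 : ℕ) : ℝ) + 2) =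
        (ρ * c) ^ 2 / 2 := by
      rw [norm_mul, hnorm, norm_pow, Complex.norm_real, Real.norm_eq_abs, abs_of_pos hρ0]
      norm_num
      ring
    rw [h0] at hI
    have h1 : ∑ j ∈ range M, ‖a (j + 1)‖ ^ 2 * (ρ ^ (2 * (j + 1) + 1)) ^ 2 / (2 * (j : ℝ) + 4) =
        ∑ k ∈ range M, ‖a (k + 1) * w ^ (2 * (k + 1) + 1) * (ρ : ℂ) ^ (2 * (k + 1) + 1)‖ ^ 2 /
          (2 * ((k + 1 : ℕ) : ℝ) + 2) := by
      refine sum_congr rfl fun j _ => ?_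
      rw [norm_mul, hnorm, norm_pow, Complex.norm_real, Real.norm_eq_abs, abs_of_pos hρ0, mul_pow]
      push_cast
      ring
    rw [h1]
    linarith
  -- the limit
  have hcont : Continuous fun ρ : ℝ =>
      ∑ j ∈ range M, ‖a (j + 1)‖ ^ 2 * (ρ ^ (2 * (j + 1) + 1)) ^ 2 / (2 * (j : ℝ) + 4) := by
    fun_prop
  have hlim := (hcont.tendsto 1).mono_left (nhdsWithin_le_nhds (s := Set.Iio (1 : ℝ)))
  have h1 : ∑ j ∈ range M, ‖a (j + 1)‖ ^ 2 * ((1 : ℝ) ^ (2 * (j + 1) + 1)) ^ 2 /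
      (2 * (j : ℝ) + 4) = ∑ j ∈ range M, ‖a (j + 1)‖ ^ 2 / (2 * (j : ℝ) + 4) := by
    simp
  rw [h1] at hlim
  refine le_of_tendsto hlim ?_
  have h2 : Set.Ioo (0 : ℝ) 1 ∈ nhdsWithin (1 : ℝ) (Set.Iio 1) :=
    Ioo_mem_nhdsLT (by norm_num)
  filter_upwards [h2] with ρ hρ
  exact key ρ hρ.1 hρ.2

theorem ext_main {χ : ℝ → ℝ} (hm : Measurable χ) (hb : ∀ θ, |χ θ| ≤ π / 2)
    (ha : ∀ θ, χ (θ + π) = -χ θ) (M : ℕ) :
    ∑ j ∈ range M, ‖fc χ (2 * j + 3)‖ ^ 2 / (2 * j + 4) ≤ Jst := by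
  have h := ext_coeff (a := fun j => fc χ (2 * j + 1))
    (f := fun z => ∑' j : ℕ, fc χ (2 * j + 1) * z ^ (2 * j + 1))
    (fun z hz => (poisson hm hb ha hz).1.hasSum) (fun z hz => (poisson hm hb ha hz).2) M
  exact h

end Pool.Agent.Lib.MP_e1dd62_co.Evn
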