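import Pool.Agent.Lib.MP_e1dd62_co.Evn.X16

/-!
# Y1: truncation
-/

namespace Pool.Agent.Lib.MP_e1dd62_co.Evn

open Finset Real MeasureTheory

/-- Bounded measurable functions are integrable. -/
theorem Y1_int {f : ℝ → ℝ} (hm : Measurable f) {C : ℝ} (hb : ∀ θ, |f θ| ≤ C) (a b : ℝ) :
    IntervalIntegrable f volume a b := by
  refine (intervalIntegrable_const (c := C)).mono_fun hm.aestronglyMeasurable ?_
  refine Filter.Eventually.of_forall fun θ => ?_
  simp only [Real.norm_eq_abs]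
  exact (hb θ).trans (le_abs_self _)

/-- A real trigonometric polynomial with the odd frequencies `2 j + 3`. -/
noncomputable def Y1_w (A : ℕ → ℂ) (M : ℕ) (θ : ℝ) : ℝ :=
  ∑ j ∈ range M, 2 * (A j * Complex.exp (((2 * j + 3 : ℕ) * θ : ℝ) * Complex.I)).re

theorem Y1_w_cont (A : ℕ → ℂ) (M : ℕ) : Continuous (Y1_w A M) := by
  unfold Y1_w
  fun_prop

theorem Y1_term {f : ℝ → ℝ} (hm : Measurable f) {C : ℝ} (hb : ∀ θ, |f θ| ≤ C) (A : ℂ) (p : ℕ) :
    (1 / (2 * π)) * ∫ θ in (0 : ℝ)..(2 * π),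
      f θ * (2 * (A * Complex.exp (((p : ℝ) * θ : ℝ) * Complex.I)).re) =
    2 * (A * (starRingEnd ℂ) (fc f p)).re := by
  have hint : IntervalIntegrable (fun θ : ℝ => (f θ : ℂ) *
      Complex.exp (((-(p * θ) : ℝ) : ℂ) * Complex.I)) volume 0 (2 * π) := by
    refine IntervalIntegrable.mul_continuousOn ?_ (by fun_prop)
    exact ⟨(Y1_int hm hb 0 (2 * π)).1.ofReal, (Y1_int hm hb 0 (2 * π)).2.ofReal⟩
  have h1 : (2 * (A * (starRingEnd ℂ) (fc f p)).re) = (1 / (2 * π)) *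
      ∫ θ in (0 : ℝ)..(2 * π), 2 * ((starRingEnd ℂ) A * ((f θ : ℂ) *
        Complex.exp (((-(p * θ) : ℝ) : ℂ) * Complex.I))).re := by
    have h2 : (A * (starRingEnd ℂ) (fc f p)).re = ((starRingEnd ℂ) A * fc f p).re := by
      have : A * (starRingEnd ℂ) (fc f p) = (starRingEnd ℂ) ((starRingEnd ℂ) A * fc f p) := by
        rw [map_mul, Complex.conj_conj]
      rw [this, Complex.conj_re]
    rw [h2, intervalIntegral.integral_const_mul]
    have h3 : ∫ θ in (0 : ℝ)..(2 * π), ((starRingEnd ℂ) A * ((f θ : ℂ) *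
        Complex.exp (((-(p * θ) : ℝ) : ℂ) * Complex.I))).re =
        (∫ θ in (0 : ℝ)..(2 * π), (starRingEnd ℂ) A * ((f θ : ℂ) *
        Complex.exp (((-(p * θ) : ℝ) : ℂ) * Complex.I))).re := by
      rw [intervalIntegral.integral_of_le (by positivity),
        intervalIntegral.integral_of_le (by positivity)]
      have := (hint.const_mul ((starRingEnd ℂ) A)).1
      exact (integral_re this)
    rw [h3, intervalIntegral.integral_const_mul]
    unfold fc
    rw [show (starRingEnd ℂ) A * (((1 / (2 * π) : ℝ) : ℂ) * ∫ θ in (0 : ℝ)..(2 * π), (f θ : ℂ) *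
        Complex.exp (((-(p * θ) : ℝ) : ℂ) * Complex.I)) = ((1 / (2 * π) : ℝ) : ℂ) *
        ((starRingEnd ℂ) A * ∫ θ in (0 : ℝ)..(2 * π), (f θ : ℂ) *
        Complex.exp (((-(p * θ) : ℝ) : ℂ) * Complex.I)) by ring, Complex.re_ofReal_mul]
    ring
  rw [h1]
  congr 1
  refine intervalIntegral.integral_congr fun θ _ => ?_
  beta_reduce
  have h4 : (starRingEnd ℂ) A * ((f θ : ℂ) *
      Complex.exp (((-(p * θ) : ℝ) : ℂ) * Complex.I)) = (f θ : ℂ) * (starRingEnd ℂ)
        (A * Complex.exp (((p : ℝ) * θ : ℝ) * Complex.I)) := by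
    rw [map_mul, ← Complex.exp_conj, map_mul, Complex.conj_I, Complex.conj_ofReal]
    rw [show ((-(p * θ) : ℝ) : ℂ) * Complex.I = (((p : ℝ) * θ : ℝ) : ℂ) * -Complex.I by
      push_cast; ring]
    ring
  rw [h4, Complex.re_ofReal_mul, Complex.conj_re]
  ring

theorem Y1_cross {f : ℝ → ℝ} (hm : Measurable f) {C : ℝ} (hb : ∀ θ, |f θ| ≤ C) (A : ℕ → ℂ)
    (M : ℕ) : (1 / (2 * π)) * ∫ θ in (0 : ℝ)..(2 * π), f θ * Y1_w A M θ =
      ∑ j ∈ range M, 2 * (A j * (starRingEnd ℂ) (fc f (2 * j + 3))).re := by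
  have h1 : ∀ θ, f θ * Y1_w A M θ = ∑ j ∈ range M, f θ *
      (2 * (A j * Complex.exp (((2 * j + 3 : ℕ) * θ : ℝ) * Complex.I)).re) := by
    intro θ
    unfold Y1_w
    rw [mul_sum]
  simp only [h1]
  rw [intervalIntegral.integral_finsetSum, mul_sum]
  · refine sum_congr rfl fun j _ => ?_
    exact Y1_term hm hb (A j) (2 * j + 3)
  · intro j _
    exact (Y1_int hm hb 0 (2 * π)).mul_continuousOn (by fun_prop)

/-- Orthogonality. -/
theorem Y1_exp {e : ℤ} (he : e ≠ 0) :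
    ∫ θ in (0 : ℝ)..(2 * π), Complex.exp (((e * θ : ℝ) : ℂ) * Complex.I) = 0 := by
  have h1 : ∀ θ : ℝ, Complex.exp (((e * θ : ℝ) : ℂ) * Complex.I) =
      Complex.exp ((e * Complex.I) * θ) := fun θ => by push_cast; ring_nf
  simp only [h1]
  rw [integral_exp_mul_complex (by simp [he])]
  have h2 : Complex.exp ((e : ℂ) * Complex.I * ((2 * π : ℝ) : ℂ)) = 1 := by
    rw [show (e : ℂ) * Complex.I * ((2 * π : ℝ) : ℂ) = e * (2 * π * Complex.I) by
      push_cast; ring]
    exact Complex.exp_int_mul_two_pi_mul_I e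
  rw [h2]
  simp

theorem Y1_fc_w (A : ℕ → ℂ) {M k : ℕ} (hk : k < M) : fc (Y1_w A M) (2 * k + 3) = A k := by
  have h1 : ∀ θ : ℝ, (Y1_w A M θ : ℂ) *
      Complex.exp (((-(((2 * k + 3 : ℕ) : ℝ) * θ) : ℝ) : ℂ) * Complex.I) =
      ∑ j ∈ range M, (A j * Complex.exp ((((2 * j - 2 * k : ℤ) : ℝ) * θ : ℝ) * Complex.I) +
        (starRingEnd ℂ) (A j) *
          Complex.exp ((((-(2 * j + 2 * k + 6) : ℤ) : ℝ) * θ : ℝ) * Complex.I)) := by
    intro θ
    unfold Y1_w
    rw [Complex.ofReal_sum, sum_mul]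
    refine sum_congr rfl fun j _ => ?_
    have h2 : ((2 * (A j * Complex.exp ((((2 * j + 3 : ℕ) : ℝ) * θ : ℝ) * Complex.I)).re : ℝ) : ℂ) =
        A j * Complex.exp ((((2 * j + 3 : ℕ) : ℝ) * θ : ℝ) * Complex.I) + (starRingEnd ℂ) (A j) *
          Complex.exp (((-(((2 * j + 3 : ℕ) : ℝ) * θ) : ℝ) : ℂ) * Complex.I) := by
      have h3 := Complex.add_conj (A j * Complex.exp ((((2 * j + 3 : ℕ) : ℝ) * θ : ℝ) * Complex.I))
      rw [map_mul, ← Complex.exp_conj, map_mul, Complex.conj_I, Complex.conj_ofReal] at h3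
      rw [← h3]
      congr 3
      push_cast
      ring
    rw [h2, add_mul, mul_assoc, ← Complex.exp_add, mul_assoc, ← Complex.exp_add]
    congr 3
    · push_cast
      ring
    · push_cast
      ring_nf
  unfold fc
  simp only [h1]
  rw [intervalIntegral.integral_finsetSum]
  swap
  · intro j _
    exact (Continuous.intervalIntegrable (by fun_prop) _ _)
  have h4 : ∀ j ∈ range M, (∫ θ in (0 : ℝ)..(2 * π),
      (A j * Complex.exp ((((2 * j - 2 * k : ℤ) : ℝ) * θ : ℝ) * Complex.I) +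
        (starRingEnd ℂ) (A j) *
          Complex.exp ((((-(2 * j + 2 * k + 6) : ℤ) : ℝ) * θ : ℝ) * Complex.I))) =
      if j = k then A j * (2 * π) else 0 := by
    intro j _
    rw [intervalIntegral.integral_add (Continuous.intervalIntegrable (by fun_prop) _ _)
      (Continuous.intervalIntegrable (by fun_prop) _ _), intervalIntegral.integral_const_mul,
      intervalIntegral.integral_const_mul, Y1_exp (e := -(2 * j + 2 * k + 6)) (by omega), mul_zero,
      add_zero]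
    split_ifs with h
    · subst h
      simp
    · rw [Y1_exp (by omega), mul_zero]
  rw [sum_congr rfl h4, sum_ite_eq' (range M) k]
  rw [if_pos (mem_range.2 hk)]
  push_cast
  have hpi : (π : ℂ) ≠ 0 := by exact_mod_cast pi_ne_zero
  field_simp

/-- Bessel's inequality. -/
theorem Y1_bessel {f : ℝ → ℝ} (hm : Measurable f) {C : ℝ} (hb : ∀ θ, |f θ| ≤ C) (M : ℕ) :
    2 * ∑ j ∈ range M, ‖fc f (2 * j + 3)‖ ^ 2 ≤
      1 / (2 * π) * ∫ θ in (0 : ℝ)..(2 * π), f θ ^ 2 := by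
  have hpi := pi_pos
  set A : ℕ → ℂ := fun j => fc f (2 * j + 3) with hA
  have hwc := Y1_w_cont A M
  have hwb : ∀ θ, |Y1_w A M θ| ≤ ∑ j ∈ range M, 2 * ‖A j‖ := by
    intro θ
    unfold Y1_w
    refine (abs_sum_le_sum_abs _ _).trans (sum_le_sum fun j _ => ?_)
    rw [abs_mul, abs_two]
    refine mul_le_mul_of_nonneg_left ?_ (by norm_num)
    refine (Complex.abs_re_le_norm _).trans ?_
    rw [norm_mul, Complex.norm_exp_ofReal_mul_I, mul_one]
  have hsq : ∀ z : ℂ, (z * (starRingEnd ℂ) z).re = ‖z‖ ^ 2 := by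
    intro z
    rw [Complex.mul_conj, Complex.ofReal_re, Complex.normSq_eq_norm_sq]
  have h1 : 1 / (2 * π) * ∫ θ in (0 : ℝ)..(2 * π), f θ * Y1_w A M θ =
      2 * ∑ j ∈ range M, ‖A j‖ ^ 2 := by
    rw [Y1_cross hm hb A M, mul_sum]
    exact sum_congr rfl fun j _ => by rw [hsq]
  have h2 : 1 / (2 * π) * ∫ θ in (0 : ℝ)..(2 * π), Y1_w A M θ * Y1_w A M θ =
      2 * ∑ j ∈ range M, ‖A j‖ ^ 2 := by
    rw [Y1_cross hwc.measurable hwb A M, mul_sum]
    exact sum_congr rfl fun j hj => by rw [Y1_fc_w A (mem_range.1 hj), hsq]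
  have hf2 : IntervalIntegrable (fun θ => f θ ^ 2) volume 0 (2 * π) :=
    Y1_int (hm.pow_const 2) (C := C ^ 2) (fun θ => by
      rw [abs_pow]
      exact pow_le_pow_left₀ (abs_nonneg _) (hb θ) 2) _ _
  have hfw : IntervalIntegrable (fun θ => f θ * Y1_w A M θ) volume 0 (2 * π) :=
    (Y1_int hm hb 0 (2 * π)).mul_continuousOn hwc.continuousOn
  have hww : IntervalIntegrable (fun θ => Y1_w A M θ * Y1_w A M θ) volume 0 (2 * π) :=
    (hwc.mul hwc).intervalIntegrable _ _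
  have h3 : 0 ≤ 1 / (2 * π) * ∫ θ in (0 : ℝ)..(2 * π),
      (f θ ^ 2 - (2 * (f θ * Y1_w A M θ)) + Y1_w A M θ * Y1_w A M θ) := by
    refine mul_nonneg (by positivity) ?_
    refine intervalIntegral.integral_nonneg (by positivity) fun θ _ => ?_
    nlinarith [sq_nonneg (f θ - Y1_w A M θ)]
  rw [intervalIntegral.integral_add (hf2.sub (hfw.const_mul 2)) hww,
    intervalIntegral.integral_sub hf2 (hfw.const_mul 2),
    intervalIntegral.integral_const_mul, mul_add, mul_sub] at h3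
  have h4 : 1 / (2 * π) * (2 * ∫ θ in (0 : ℝ)..(2 * π), f θ * Y1_w A M θ) =
      2 * (1 / (2 * π) * ∫ θ in (0 : ℝ)..(2 * π), f θ * Y1_w A M θ) := by ring
  rw [h4, h1, h2] at h3
  linarith

/-- Truncation. -/
noncomputable def Y1_cl (x : ℝ) : ℝ := max (-(π / 2)) (min x (π / 2))

theorem Y1_cl_abs (x : ℝ) : |Y1_cl x| ≤ π / 2 := by
  have hpi := pi_pos
  unfold Y1_cl
  rw [abs_le]
  constructor
  · exact le_max_left _ _
  · exact max_le (by linarith) (min_le_right _ _)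

theorem Y1_cl_neg (x : ℝ) : Y1_cl (-x) = -Y1_cl x := by
  have hpi := pi_pos
  unfold Y1_cl
  rcases le_total x (-(π / 2)) with h | h
  · rw [min_eq_right (by linarith), max_eq_right (by linarith), min_eq_left (by linarith),
      max_eq_left (by linarith), neg_neg]
  rcases le_total x (π / 2) with h' | h'
  · rw [min_eq_left (by linarith), max_eq_right (by linarith), min_eq_left h',
      max_eq_right (by linarith)]
  · rw [min_eq_left (by linarith), max_eq_left (by linarith), min_eq_right h',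
      max_eq_right (by linarith)]

theorem Y1_dist_le (x : ℝ) : Dist x ≤ π ^ 2 / 4 ∧ Dist x ≤ x ^ 2 := by
  have hpi := pi_pos
  have h1 : Dist x = π ^ 2 * |x / π - round (x / π)| ^ 2 := by
    unfold Dist
    rw [sq_abs, ← mul_pow]
    congr 1
    field_simp
  have h2 := abs_sub_round (x / π)
  have h3 := round_le (x / π) 0
  have h4 := abs_nonneg (x / π - round (x / π))
  rw [h1]
  constructor
  · calc π ^ 2 * |x / π - round (x / π)| ^ 2 ≤ π ^ 2 * (1 / 2) ^ 2 := by gcongr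
      _ = π ^ 2 / 4 := by ring
  · have h5 : |x / π - round (x / π)| ^ 2 ≤ (x / π) ^ 2 := by
      rw [← sq_abs (x / π)]
      refine pow_le_pow_left₀ h4 ?_ 2
      simpa using h3
    calc π ^ 2 * |x / π - round (x / π)| ^ 2 ≤ π ^ 2 * (x / π) ^ 2 := by gcongr
      _ = x ^ 2 := by field_simp

theorem Y1_point (x : ℝ) : (Dist x - x ^ 2) / 2 ≤
    -(π * |x - Y1_cl x| + (x - Y1_cl x) ^ 2) / 2 := by
  have hpi := pi_pos
  obtain ⟨h1, h2⟩ := Y1_dist_le x
  unfold Y1_cl
  rcases le_total x (-(π / 2)) with h | h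
  · rw [min_eq_left (by linarith), max_eq_left (by linarith), abs_of_nonpos (by linarith)]
    nlinarith
  rcases le_total x (π / 2) with h' | h'
  · rw [min_eq_left (by linarith), max_eq_right (by linarith), sub_self, abs_zero]
    linarith
  · rw [min_eq_right (by linarith), max_eq_right (by linarith), abs_of_nonneg (by linarith)]
    nlinarith

theorem J_le {κ : ℝ → ℝ} (hm : Measurable κ) {C : ℝ} (hb : ∀ θ, |κ θ| ≤ C)
    (ha : ∀ θ, κ (θ + π) = -κ θ) (M : ℕ) :
    1 / (2 * π) * (∫ θ in (0 : ℝ)..(2 * π), (Dist (κ θ) - κ θ ^ 2) / 2) +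
      ∑ j ∈ range M, ‖fc κ (2 * j + 3)‖ ^ 2 / (2 * j + 4) ≤ Jst := by
  have hpi := pi_pos
  have hC0 : 0 ≤ C := (abs_nonneg _).trans (hb 0)
  set κ' : ℝ → ℝ := fun θ => Y1_cl (κ θ) with hκ'
  set e : ℝ → ℝ := fun θ => κ θ - κ' θ with he
  have hm' : Measurable κ' := by
    simp only [hκ', Y1_cl]
    exact measurable_const.max (hm.min measurable_const)
  have hb' : ∀ θ, |κ' θ| ≤ π / 2 := fun θ => Y1_cl_abs _
  have ha' : ∀ θ, κ' (θ + π) = -κ' θ := fun θ => by
    simp only [hκ']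
    rw [ha, Y1_cl_neg]
  have hme : Measurable e := hm.sub hm'
  have hbe : ∀ θ, |e θ| ≤ C + π / 2 := fun θ => by
    refine (abs_sub _ _).trans ?_
    have := hb θ
    have := hb' θ
    linarith
  have hQ' := ext_main hm' hb' ha' M
  -- linearity of the coefficients
  have hlin : ∀ p, fc κ p = fc κ' p + fc e p := by
    intro p
    unfold fc
    rw [← mul_add, ← intervalIntegral.integral_add]
    · congr 1
      refine intervalIntegral.integral_congr fun θ _ => ?_
      simp only [he]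
      push_cast
      ring
    · refine IntervalIntegrable.mul_continuousOn ?_ (by fun_prop)
      exact ⟨(Y1_int hm' hb' 0 (2 * π)).1.ofReal, (Y1_int hm' hb' 0 (2 * π)).2.ofReal⟩
    · refine IntervalIntegrable.mul_continuousOn ?_ (by fun_prop)
      exact ⟨(Y1_int hme hbe 0 (2 * π)).1.ofReal, (Y1_int hme hbe 0 (2 * π)).2.ofReal⟩
  set A : ℕ → ℂ := fun j => fc κ' (2 * j + 3) / (2 * j + 4) with hA
  -- the expansion of the quadratic form
  have hQ : ∑ j ∈ range M, ‖fc κ (2 * j + 3)‖ ^ 2 / (2 * (j : ℝ) + 4) =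
      ∑ j ∈ range M, ‖fc κ' (2 * j + 3)‖ ^ 2 / (2 * (j : ℝ) + 4) +
      ∑ j ∈ range M, 2 * (A j * (starRingEnd ℂ) (fc e (2 * j + 3))).re +
      ∑ j ∈ range M, ‖fc e (2 * j + 3)‖ ^ 2 / (2 * (j : ℝ) + 4) := by
    rw [← sum_add_distrib, ← sum_add_distrib]
    refine sum_congr rfl fun j _ => ?_
    have h1 : A j * (starRingEnd ℂ) (fc e (2 * j + 3)) = ((1 / (2 * (j : ℝ) + 4) : ℝ) : ℂ) *
        (fc κ' (2 * j + 3) * (starRingEnd ℂ) (fc e (2 * j + 3))) := by
      simp only [hA]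
      push_cast
      ring
    rw [h1, Complex.re_ofReal_mul, hlin, ← Complex.normSq_eq_norm_sq, ← Complex.normSq_eq_norm_sq,
      ← Complex.normSq_eq_norm_sq, Complex.normSq_add]
    ring
  -- the cross term
  have hcross := Y1_cross hme hbe A M
  have hbes' := Y1_bessel hm' hb' M
  have hbese := Y1_bessel hme hbe M
  have hκ'2 : 1 / (2 * π) * ∫ θ in (0 : ℝ)..(2 * π), κ' θ ^ 2 ≤ π ^ 2 / 4 := by
    have h1 : ∫ θ in (0 : ℝ)..(2 * π), κ' θ ^ 2 ≤ ∫ _θ in (0 : ℝ)..(2 * π), π ^ 2 / 4 := by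
      refine intervalIntegral.integral_mono_on (by positivity) ?_ intervalIntegrable_const
        fun θ _ => ?_
      · exact Y1_int (hm'.pow_const 2) (C := (π / 2) ^ 2) (fun θ => by
          rw [abs_pow]
          exact pow_le_pow_left₀ (abs_nonneg _) (hb' θ) 2) _ _
      · rw [← sq_abs]
        have := hb' θ
        nlinarith [abs_nonneg (κ' θ)]
    rw [intervalIntegral.integral_const, smul_eq_mul, sub_zero] at h1
    calc 1 / (2 * π) * ∫ θ in (0 : ℝ)..(2 * π), κ' θ ^ 2 ≤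
        1 / (2 * π) * (2 * π * (π ^ 2 / 4)) := by gcongr
      _ = π ^ 2 / 4 := by field_simp
  -- the sup norm of the trigonometric polynomial
  have hinv : ∀ K : ℕ, ∑ j ∈ range K, (1 / (2 * (j : ℝ) + 4)) ^ 2 ≤
      1 / 4 - 1 / (4 * ((K : ℝ) + 1)) := by
    intro K
    induction K with
    | zero => simp
    | succ K ih =>
      rw [sum_range_succ]
      have h1 : (0 : ℝ) ≤ K := Nat.cast_nonneg K
      have h2 : (1 / (2 * (K : ℝ) + 4)) ^ 2 ≤
          1 / (4 * ((K : ℝ) + 1)) - 1 / (4 * ((K : ℝ) + 1 + 1)) := by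
        rw [div_sub_div _ _ (by positivity) (by positivity), div_pow, one_pow,
          div_le_div_iff₀ (by positivity) (by positivity)]
        nlinarith [mul_nonneg h1 h1, mul_nonneg (mul_nonneg h1 h1) h1]
      push_cast
      linarith
  have hS : (∑ j ∈ range M, ‖A j‖) ^ 2 ≤ π ^ 2 / 32 := by
    have h1 : ∑ j ∈ range M, ‖A j‖ =
        ∑ j ∈ range M, ‖fc κ' (2 * j + 3)‖ * (1 / (2 * (j : ℝ) + 4)) := by
      refine sum_congr rfl fun j _ => ?_
      simp only [hA]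
      rw [norm_div, mul_one_div]
      congr 1
      have : ((2 * (j : ℂ) + 4)) = ((2 * (j : ℝ) + 4 : ℝ) : ℂ) := by push_cast; ring
      rw [this, Complex.norm_real, Real.norm_eq_abs, abs_of_pos (by positivity)]
    rw [h1]
    refine (sum_mul_sq_le_sq_mul_sq _ _ _).trans ?_
    have h2 := hinv M
    have h3 : (0 : ℝ) ≤ 1 / (4 * ((M : ℝ) + 1)) := by positivity
    have h4 : ∑ j ∈ range M, ‖fc κ' (2 * j + 3)‖ ^ 2 ≤ π ^ 2 / 8 := by linarith
    calc (∑ j ∈ range M, ‖fc κ' (2 * j + 3)‖ ^ 2) * ∑ j ∈ range M, (1 / (2 * (j : ℝ) + 4)) ^ 2 ≤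
        π ^ 2 / 8 * (1 / 4) := by
          refine mul_le_mul h4 (by linarith) (sum_nonneg fun _ _ => by positivity) (by positivity)
      _ = π ^ 2 / 32 := by ring
  have hw : ∀ θ, |Y1_w A M θ| ≤ π / 2 := by
    intro θ
    have h1 : |Y1_w A M θ| ≤ 2 * ∑ j ∈ range M, ‖A j‖ := by
      unfold Y1_w
      rw [mul_sum]
      refine (abs_sum_le_sum_abs _ _).trans (sum_le_sum fun j _ => ?_)
      rw [abs_mul, abs_two]
      refine mul_le_mul_of_nonneg_left ?_ (by norm_num)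
      refine (Complex.abs_re_le_norm _).trans ?_
      rw [norm_mul, Complex.norm_exp_ofReal_mul_I, mul_one]
    have h2 : 0 ≤ ∑ j ∈ range M, ‖A j‖ := sum_nonneg fun _ _ => norm_nonneg _
    have h3 : 2 * ∑ j ∈ range M, ‖A j‖ ≤ π / 2 := by nlinarith
    exact h1.trans h3
  -- integrability
  have hie : IntervalIntegrable (fun θ => |e θ|) volume 0 (2 * π) := (Y1_int hme hbe _ _).abs
  have hie2 : IntervalIntegrable (fun θ => e θ ^ 2) volume 0 (2 * π) :=
    Y1_int (hme.pow_const 2) (C := (C + π / 2) ^ 2) (fun θ => by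
      rw [abs_pow]
      exact pow_le_pow_left₀ (abs_nonneg _) (hbe θ) 2) _ _
  have hiw : IntervalIntegrable (fun θ => e θ * Y1_w A M θ) volume 0 (2 * π) :=
    (Y1_int hme hbe 0 (2 * π)).mul_continuousOn (Y1_w_cont A M).continuousOn
  have hDm : Measurable fun θ => (Dist (κ θ) - κ θ ^ 2) / 2 := by
    have : Measurable Dist := by
      unfold Dist
      have h1 : Measurable fun y : ℝ => ((round (y / π) : ℤ) : ℝ) := by
        simp only [round_eq]
        exact (measurable_from_top (f := fun k : ℤ => (k : ℝ))).comp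
          (((measurable_id.div_const π).add_const (1 / 2)).floor)
      exact (measurable_id.sub (h1.const_mul π)).pow_const 2
    exact ((this.comp hm).sub (hm.pow_const 2)).div_const 2
  have hDb : ∀ θ, |(Dist (κ θ) - κ θ ^ 2) / 2| ≤ C ^ 2 := by
    intro θ
    have h1 := (Y1_dist_le (κ θ)).2
    have h2 : 0 ≤ Dist (κ θ) := by unfold Dist; positivity
    have h3 : κ θ ^ 2 ≤ C ^ 2 := by
      rw [← sq_abs]
      exact pow_le_pow_left₀ (abs_nonneg _) (hb θ) 2
    rw [abs_le]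
    constructor <;> linarith
  have hiD : IntervalIntegrable (fun θ => (Dist (κ θ) - κ θ ^ 2) / 2) volume 0 (2 * π) :=
    Y1_int hDm hDb _ _
  -- the conclusion
  have hQe : ∑ j ∈ range M, ‖fc e (2 * j + 3)‖ ^ 2 / (2 * (j : ℝ) + 4) ≤
      1 / (2 * π) * ∫ θ in (0 : ℝ)..(2 * π), e θ ^ 2 / 8 := by
    have h1 : ∑ j ∈ range M, ‖fc e (2 * j + 3)‖ ^ 2 / (2 * (j : ℝ) + 4) ≤
        ∑ j ∈ range M, ‖fc e (2 * j + 3)‖ ^ 2 / 4 := by
      refine sum_le_sum fun j _ => ?_
      refine div_le_div_of_nonneg_left (by positivity) (by norm_num) ?_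
      have : (0 : ℝ) ≤ j := Nat.cast_nonneg j
      linarith
    rw [← sum_div] at h1
    rw [intervalIntegral.integral_div, ← mul_div_assoc]
    linarith
  rw [hQ, ← hcross]
  have hfin : 1 / (2 * π) * (∫ θ in (0 : ℝ)..(2 * π), (Dist (κ θ) - κ θ ^ 2) / 2) +
      1 / (2 * π) * (∫ θ in (0 : ℝ)..(2 * π), e θ * Y1_w A M θ) +
      1 / (2 * π) * (∫ θ in (0 : ℝ)..(2 * π), e θ ^ 2 / 8) ≤ 0 := by
    rw [← mul_add, ← mul_add, ← intervalIntegral.integral_add hiD hiw,
      ← intervalIntegral.integral_add (hiD.add hiw) (hie2.div_const 8)]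
    refine mul_nonpos_of_nonneg_of_nonpos (by positivity) ?_
    have h1 : (∫ θ in (0 : ℝ)..(2 * π), ((Dist (κ θ) - κ θ ^ 2) / 2 + e θ * Y1_w A M θ +
        e θ ^ 2 / 8)) ≤ ∫ _θ in (0 : ℝ)..(2 * π), (0 : ℝ) := by
      refine intervalIntegral.integral_mono_on (by positivity)
        ((hiD.add hiw).add (hie2.div_const 8)) intervalIntegrable_const fun θ _ => ?_
      have h2 := Y1_point (κ θ)
      have h3 : e θ * Y1_w A M θ ≤ |e θ| * (π / 2) := by
        refine (le_abs_self _).trans ?_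
        rw [abs_mul]
        exact mul_le_mul_of_nonneg_left (hw θ) (abs_nonneg _)
      have h4 : κ θ - Y1_cl (κ θ) = e θ := rfl
      rw [h4] at h2
      have h5 : 0 ≤ e θ ^ 2 := sq_nonneg _
      linarith
    simpa using h1
  linarith

end Pool.Agent.Lib.MP_e1dd62_co.Evn
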