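import Pool.Agent.Lib.MP_e1dd62_co.Evn.Y1

/-!
# Y2: the extremal inequality for functions on `ZMod (2 N)`
-/

namespace Pool.Agent.Lib.MP_e1dd62_co.Evn

open Finset Real

/-- index of the cell of `θ` -/
noncomputable def Y2_idx (N : ℕ) (θ : ℝ) : ZMod (2 * N) :=
  ((⌊N * θ / π⌋ : ℤ) : ZMod (2 * N))

theorem Y2_idx_eq {N : ℕ} (hN : 0 < N) (k : ℕ) {θ : ℝ} (h1 : π * k / N < θ)
    (h2 : θ < π * ((k + 1 : ℕ) : ℝ) / N) : Y2_idx N θ = (k : ZMod (2 * N)) := by
  have hNr : (0 : ℝ) < N := by exact_mod_cast hN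
  have hpi := Real.pi_pos
  have : ⌊(N : ℝ) * θ / π⌋ = (k : ℤ) := by
    rw [Int.floor_eq_iff]
    rw [div_lt_iff₀ hNr] at h1
    rw [lt_div_iff₀ hNr] at h2
    push_cast at h2 ⊢
    constructor
    · rw [le_div_iff₀ hpi]
      nlinarith
    · rw [div_lt_iff₀ hpi]
      nlinarith
  unfold Y2_idx
  rw [this]
  push_cast
  rfl

theorem Y2_idx_pi {N : ℕ} (θ : ℝ) :
    Y2_idx N (θ + π) = Y2_idx N θ + (N : ZMod (2 * N)) := by
  unfold Y2_idx
  have hpi := Real.pi_pos.ne'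
  have : (N : ℝ) * (θ + π) / π = N * θ / π + (N : ℕ) := by
    field_simp
  rw [this, Int.floor_add_natCast]
  push_cast
  rfl

theorem Y2_sum {N : ℕ} [NeZero (2 * N)] {E : Type*} [AddCommMonoid E] (f : ZMod (2 * N) → E) :
    ∑ k ∈ range (2 * N), f (k : ZMod (2 * N)) = ∑ a, f a := by
  refine Finset.sum_bij' (fun k _ => (k : ZMod (2 * N))) (fun a _ => a.val) ?_ ?_ ?_ ?_ ?_
  · intro k _; exact Finset.mem_univ _
  · intro a _; exact Finset.mem_range.mpr (ZMod.val_lt a)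
  · intro k hk; exact ZMod.val_natCast_of_lt (Finset.mem_range.mp hk)
  · intro a _; exact ZMod.natCast_zmod_val a
  · intro k _; rfl

theorem Y2_int {E : Type*} [NormedAddCommGroup E] [NormedSpace ℝ E] {N : ℕ} (hN : 0 < N)
    (Φ : ZMod (2 * N) → ℝ → E) (hΦ : ∀ a, Continuous (Φ a)) :
    ∫ θ in (0 : ℝ)..(2 * π), Φ (Y2_idx N θ) θ =
      ∑ k ∈ range (2 * N), ∫ θ in (π * k / N)..(π * ((k + 1 : ℕ) : ℝ) / N),
        Φ (k : ZMod (2 * N)) θ := by
  have hNr : (0 : ℝ) < N := by exact_mod_cast hN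
  have hpi := Real.pi_pos
  have hle : ∀ k : ℕ, π * k / N ≤ π * ((k + 1 : ℕ) : ℝ) / N := by
    intro k
    apply div_le_div_of_nonneg_right _ hNr.le
    push_cast
    nlinarith
  have heq : ∀ k : ℕ, Set.EqOn (fun θ => Φ (k : ZMod (2 * N)) θ) (fun θ => Φ (Y2_idx N θ) θ)
      (Set.uIoo (π * k / N) (π * ((k + 1 : ℕ) : ℝ) / N)) := by
    intro k θ hθ
    rw [Set.uIoo_of_le (hle k)] at hθ
    simp only [Y2_idx_eq hN k hθ.1 hθ.2]
  have h1 := intervalIntegral.sum_integral_adjacent_intervals (f := fun θ => Φ (Y2_idx N θ) θ)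
    (μ := MeasureTheory.volume) (a := fun k : ℕ => π * k / N) (n := 2 * N) (fun k _ =>
      ((hΦ (k : ZMod (2 * N))).intervalIntegrable _ _).congr_uIoo (heq k))
  have e0 : π * ((0 : ℕ) : ℝ) / N = 0 := by simp
  have e1 : π * ((2 * N : ℕ) : ℝ) / N = 2 * π := by
    push_cast
    field_simp
  simp only [e0, e1] at h1
  rw [← h1]
  apply Finset.sum_congr rfl
  intro k _
  exact (intervalIntegral.integral_congr_uIoo (heq k)).symm

/-- the factor of the Fourier coefficients of a step function -/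
noncomputable def Y2_psi (N : ℕ) (p : ℕ) : ℂ :=
  ∫ θ in (0 : ℝ)..(π / N), Complex.exp (((-(p * θ) : ℝ) : ℂ) * Complex.I)

theorem Y2_psi_norm {N : ℕ} (hN : 0 < N) (p : ℕ) :
    (π / N) ^ 2 * (1 - π * p / N) ≤ ‖Y2_psi N p‖ ^ 2 := by
  have hNr : (0 : ℝ) < N := by exact_mod_cast hN
  have hpi := Real.pi_pos
  have hcont : Continuous fun θ : ℝ => Complex.exp (((-(p * θ) : ℝ) : ℂ) * Complex.I) := by
    fun_prop
  have h1 : Y2_psi N p - ((π / N : ℝ) : ℂ) = ∫ θ in (0 : ℝ)..(π / N),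
      (Complex.exp (((-(p * θ) : ℝ) : ℂ) * Complex.I) - 1) := by
    unfold Y2_psi
    rw [intervalIntegral.integral_sub (hcont.intervalIntegrable _ _)
      (continuous_const.intervalIntegrable _ _), intervalIntegral.integral_const, sub_zero]
    simp
  have h2 : ‖Y2_psi N p - ((π / N : ℝ) : ℂ)‖ ≤ p * (π / N) ^ 2 / 2 := by
    rw [h1]
    have h3 : ‖∫ θ in (0 : ℝ)..(π / N), (Complex.exp (((-(p * θ) : ℝ) : ℂ) * Complex.I) - 1)‖ ≤
        ∫ θ in (0 : ℝ)..(π / N), p * θ := by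
      apply intervalIntegral.norm_integral_le_of_norm_le (by positivity)
      · apply Filter.Eventually.of_forall
        intro θ hθ
        have := Real.norm_exp_I_mul_ofReal_sub_one_le (x := -(p * θ))
        rw [mul_comm] at this
        refine this.trans ?_
        rw [norm_neg, norm_mul, Real.norm_of_nonneg hθ.1.le, Real.norm_natCast]
      · exact (by fun_prop : Continuous fun θ : ℝ => (p : ℝ) * θ).intervalIntegrable _ _
    refine h3.trans ?_
    rw [intervalIntegral.integral_const_mul, integral_id]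
    apply le_of_eq
    ring
  have h4 : π / N - p * (π / N) ^ 2 / 2 ≤ ‖Y2_psi N p‖ := by
    have h5 : ‖((π / N : ℝ) : ℂ)‖ = π / N := by
      rw [Complex.norm_real, Real.norm_of_nonneg (by positivity)]
    have h6 := norm_sub_norm_le ((π / N : ℝ) : ℂ) (Y2_psi N p)
    rw [norm_sub_rev, h5] at h6
    linarith
  have h7 : π / N - p * (π / N) ^ 2 / 2 = (π / N) * (1 - π * p / N / 2) := by ring
  rw [h7] at h4
  have hx : 0 < π / N := by positivity
  set z := π * p / N with hz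
  rcases le_or_gt 0 (1 - z / 2) with h | h
  · have h8 : ((π / N) * (1 - z / 2)) ^ 2 ≤ ‖Y2_psi N p‖ ^ 2 :=
      pow_le_pow_left₀ (mul_nonneg hx.le h) h4 2
    refine le_trans ?_ h8
    rw [mul_pow]
    apply mul_le_mul_of_nonneg_left _ (sq_nonneg _)
    nlinarith [sq_nonneg z]
  · have h8 : (π / N) ^ 2 * (1 - z) ≤ 0 := by
      apply mul_nonpos_of_nonneg_of_nonpos (sq_nonneg _)
      linarith
    exact h8.trans (sq_nonneg _)

theorem Y2_fc {N : ℕ} (hN : 0 < N) [NeZero (2 * N)] (G : ZMod (2 * N) → ℝ) (p : ℕ) :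
    fc (fun θ => G (Y2_idx N θ)) p =
      ((1 / (2 * π) : ℝ) : ℂ) * (Y2_psi N p * Big.hat G (p : ZMod (2 * N))) := by
  have hNr : (0 : ℝ) < N := by exact_mod_cast hN
  unfold fc
  congr 1
  have h1 := Y2_int hN (fun a θ => (G a : ℂ) * Complex.exp (((-(p * θ) : ℝ) : ℂ) * Complex.I))
    (fun a => by fun_prop)
  rw [h1]
  unfold Big.hat
  rw [Finset.mul_sum, ← Y2_sum]
  apply Finset.sum_congr rfl
  intro k _
  rw [intervalIntegral.integral_const_mul]
  have h2 : ∫ θ in (π * k / N)..(π * ((k + 1 : ℕ) : ℝ) / N),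
      Complex.exp (((-(p * θ) : ℝ) : ℂ) * Complex.I) =
      Y2_psi N p * Complex.exp (((-(p * (π * k / N)) : ℝ) : ℂ) * Complex.I) := by
    unfold Y2_psi
    rw [← intervalIntegral.integral_mul_const]
    have h3 := intervalIntegral.integral_comp_add_right
      (fun θ : ℝ => Complex.exp (((-(p * θ) : ℝ) : ℂ) * Complex.I)) (a := 0) (b := π / N)
      (π * k / N)
    have e1 : (0 : ℝ) + π * k / N = π * k / N := by ring
    have e2 : π / N + π * k / N = π * ((k + 1 : ℕ) : ℝ) / N := by push_cast; ring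
    rw [e1, e2] at h3
    rw [← h3]
    apply intervalIntegral.integral_congr
    intro θ _
    simp only
    rw [← Complex.exp_add]
    congr 1
    push_cast
    ring
  rw [h2]
  have h4 : (ZMod.stdAddChar (-((k : ZMod (2 * N)) * (p : ZMod (2 * N)))) : ℂ) =
      Complex.exp (((-(p * (π * k / N)) : ℝ) : ℂ) * Complex.I) := by
    have e1 : -((k : ZMod (2 * N)) * (p : ZMod (2 * N))) =
        ((-((k : ℤ) * p) : ℤ) : ZMod (2 * N)) := by push_cast; ring
    rw [e1, ZMod.stdAddChar_coe]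
    congr 1
    have hNc : (N : ℂ) ≠ 0 := by exact_mod_cast hN.ne'
    push_cast
    field_simp
  rw [h4]
  ring

theorem J_disc {N : ℕ} (hN : 0 < N) [NeZero (2 * N)] (G : ZMod (2 * N) → ℝ)
    (hG : ∀ a, G (a + (N : ZMod (2 * N))) = -G a) (M : ℕ) :
    (∑ a, (Dist (G a) - G a ^ 2) / 2) / (2 * N) +
      ∑ j ∈ range M, (1 - π * (2 * j + 3) / N) *
        (‖Big.hat G ((2 * j + 3 : ℕ) : ZMod (2 * N))‖ ^ 2 / (2 * N) ^ 2) / (2 * j + 4) ≤ Jst := by
  have hNr : (0 : ℝ) < N := by exact_mod_cast hN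
  have hpi := Real.pi_pos
  have hm : Measurable (fun θ => G (Y2_idx N θ)) := by
    have h1 : Measurable fun θ : ℝ => ⌊(N : ℝ) * θ / π⌋ :=
      Int.measurable_floor.comp ((measurable_const.mul measurable_id).div_const π)
    have h2 : Measurable fun k : ℤ => G ((k : ℤ) : ZMod (2 * N)) := measurable_from_top
    exact h2.comp h1
  have hb : ∀ θ, |G (Y2_idx N θ)| ≤ ∑ a, |G a| := fun θ =>
    Finset.single_le_sum (f := fun a => |G a|) (fun a _ => abs_nonneg _) (Finset.mem_univ _)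
  have ha : ∀ θ, G (Y2_idx N (θ + π)) = -G (Y2_idx N θ) := fun θ => by
    rw [Y2_idx_pi, hG]
  have h1 := J_le (κ := fun θ => G (Y2_idx N θ)) hm hb ha M
  refine le_trans (add_le_add (le_of_eq ?_) (Finset.sum_le_sum ?_)) h1
  · have h2 := Y2_int hN (fun a _ => (Dist (G a) - G a ^ 2) / 2) (fun a => continuous_const)
    rw [h2]
    have h3 : ∀ k ∈ range (2 * N), (∫ _ in (π * k / N)..(π * ((k + 1 : ℕ) : ℝ) / N),
        (Dist (G (k : ZMod (2 * N))) - G (k : ZMod (2 * N)) ^ 2) / 2) =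
        π / N * ((Dist (G (k : ZMod (2 * N))) - G (k : ZMod (2 * N)) ^ 2) / 2) := by
      intro k _
      rw [intervalIntegral.integral_const, smul_eq_mul]
      push_cast
      ring
    rw [Finset.sum_congr rfl h3, Y2_sum fun a => π / N * ((Dist (G a) - G a ^ 2) / 2),
      ← Finset.mul_sum]
    field_simp
  · intro j _
    rw [Y2_fc hN, norm_mul, norm_mul, Complex.norm_real, Real.norm_of_nonneg (by positivity)]
    have hj : (0 : ℝ) < 2 * j + 4 := by positivity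
    apply div_le_div_of_nonneg_right _ hj.le
    have h2 := Y2_psi_norm hN (2 * j + 3)
    have h3 : (1 - π * (2 * j + 3) / N) *
        (‖Big.hat G ((2 * j + 3 : ℕ) : ZMod (2 * N))‖ ^ 2 / (2 * N) ^ 2) =
        (1 / (2 * π)) ^ 2 * ((π / N) ^ 2 * (1 - π * ((2 * j + 3 : ℕ) : ℝ) / N)) *
          ‖Big.hat G ((2 * j + 3 : ℕ) : ZMod (2 * N))‖ ^ 2 := by
      push_cast
      field_simp
    rw [h3]
    have h4 : (1 / (2 * π) * (‖Y2_psi N (2 * j + 3)‖ *
        ‖Big.hat G ((2 * j + 3 : ℕ) : ZMod (2 * N))‖)) ^ 2 =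
        (1 / (2 * π)) ^ 2 * ‖Y2_psi N (2 * j + 3)‖ ^ 2 *
          ‖Big.hat G ((2 * j + 3 : ℕ) : ZMod (2 * N))‖ ^ 2 := by ring
    rw [h4]
    apply mul_le_mul_of_nonneg_right _ (sq_nonneg _)
    exact mul_le_mul_of_nonneg_left h2 (sq_nonneg _)

end Pool.Agent.Lib.MP_e1dd62_co.Evn
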