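import Pool.Agent.Lib.MP_e1dd62_co.Evn.Defs

/-!
# Y3: block averages
-/

namespace Pool.Agent.Lib.MP_e1dd62_co.Evn

open Finset Real

/-- The index (in `0, …, 2 B - 1`) of the block of `a`. -/
def blk (B N : ℕ) (a : ZMod (2 * N)) : ℕ := a.val * B / N

theorem Y3_NN {N : ℕ} (a : ZMod (2 * N)) :
    a + (N : ZMod (2 * N)) + (N : ZMod (2 * N)) = a := by
  have h : ((2 * N : ℕ) : ZMod (2 * N)) = 0 := ZMod.natCast_self _
  push_cast at h
  linear_combination h

theorem Y3_blk_add {B N : ℕ} (hN : 0 < N) [NeZero (2 * N)] (a : ZMod (2 * N)) :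
    blk B N (a + (N : ZMod (2 * N))) = (blk B N a + B) % (2 * B) := by
  rcases Nat.eq_zero_or_pos B with rfl | hB
  · simp [blk]
  have hv : (a + (N : ZMod (2 * N))).val = (a.val + N) % (2 * N) := by
    rw [ZMod.val_add, ZMod.val_natCast, Nat.add_mod_mod]
  have hlt := ZMod.val_lt a
  unfold blk
  rw [hv]
  rcases lt_or_ge a.val N with h | h
  · rw [Nat.mod_eq_of_lt (by omega : a.val + N < 2 * N)]
    have h1 : (a.val + N) * B / N = a.val * B / N + B := by
      rw [add_mul, Nat.add_mul_div_left _ _ hN]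
    rw [h1, Nat.mod_eq_of_lt]
    have h2 : a.val * B / N < B := by
      rw [Nat.div_lt_iff_lt_mul hN, mul_comm B N]
      exact Nat.mul_lt_mul_of_pos_right h hB
    omega
  · have h0 : (a.val + N) % (2 * N) = a.val - N := by
      rw [Nat.mod_eq_sub_mod (by omega), Nat.mod_eq_of_lt (by omega)]
      omega
    rw [h0]
    obtain ⟨v, hv'⟩ := Nat.exists_eq_add_of_le h
    have h1 : a.val * B / N = v * B / N + B := by
      rw [hv', add_mul, add_comm, Nat.add_mul_div_left _ _ hN]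
    rw [h1, hv', Nat.add_sub_cancel_left]
    have h2 : v * B / N < B := by
      rw [Nat.div_lt_iff_lt_mul hN, mul_comm B N]
      exact Nat.mul_lt_mul_of_pos_right (by omega) hB
    generalize v * B / N = q at h2 ⊢
    rw [Nat.mod_eq_sub_mod (by omega), Nat.mod_eq_of_lt (by omega)]
    omega

/-- the block of a point -/
def Y3_s (B N : ℕ) [NeZero (2 * N)] (a : ZMod (2 * N)) : Finset (ZMod (2 * N)) :=
  univ.filter fun b => blk B N b = blk B N a

theorem Y3_mem {B N : ℕ} [NeZero (2 * N)] {a b : ZMod (2 * N)} :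
    b ∈ Y3_s B N a ↔ blk B N b = blk B N a := by
  simp [Y3_s]

theorem Y3_s_eq {B N : ℕ} [NeZero (2 * N)] {a b : ZMod (2 * N)} (h : blk B N a = blk B N b) :
    Y3_s B N a = Y3_s B N b := by
  unfold Y3_s
  rw [h]

theorem Y3_card_pos {B N : ℕ} [NeZero (2 * N)] (a : ZMod (2 * N)) :
    0 < (Y3_s B N a).card := Finset.card_pos.mpr ⟨a, Y3_mem.mpr rfl⟩

/-- blocks are long -/
theorem Y3_card {B N : ℕ} (hB : 0 < B) (hN : 2 * B ≤ N) [NeZero (2 * N)] (a : ZMod (2 * N)) :
    N ≤ 2 * B * (Y3_s B N a).card := by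
  have hN0 : 0 < N := by omega
  set b := blk B N a with hb
  have hb2 : b < 2 * B := by
    rw [hb]
    unfold blk
    rw [Nat.div_lt_iff_lt_mul hN0]
    have := ZMod.val_lt a
    calc a.val * B < 2 * N * B := Nat.mul_lt_mul_of_pos_right this hB
      _ = 2 * B * N := by ring
  set st := (b * N + (B - 1)) / B with hst
  have e1 := Nat.div_add_mod (b * N + (B - 1)) B
  have e2 := Nat.mod_lt (b * N + (B - 1)) hB
  rw [← hst] at e1
  have e3 : b * N ≤ st * B := by
    rw [mul_comm st B]; omega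
  have e4 : st * B ≤ b * N + (B - 1) := by
    rw [mul_comm st B]; omega
  have key : ∀ i, i < N / B → b * N ≤ (st + i) * B ∧ (st + i) * B < (b + 1) * N := by
    intro i hi
    constructor
    · rw [add_mul]; omega
    · have h1 : (i + 1) * B ≤ N := (Nat.le_div_iff_mul_le hB).mp hi
      rw [add_mul] at h1 ⊢
      rw [add_mul, one_mul] at *
      omega
  have hval : ∀ i, i < N / B → st + i < 2 * N := by
    intro i hi
    have h1 := (key i hi).2
    have h2 : (b + 1) * N ≤ 2 * B * N := Nat.mul_le_mul_right N hb2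
    have h3 : (st + i) * B < 2 * N * B := by
      calc (st + i) * B < (b + 1) * N := h1
        _ ≤ 2 * B * N := h2
        _ = 2 * N * B := by ring
    exact Nat.lt_of_mul_lt_mul_right h3
  have hcard : N / B ≤ (Y3_s B N a).card := by
    have : (range (N / B)).card ≤ (Y3_s B N a).card := by
      apply Finset.card_le_card_of_injOn (fun i => ((st + i : ℕ) : ZMod (2 * N)))
      · intro i hi
        have hi' : i < N / B := by simpa using hi
        rw [Finset.mem_coe, Y3_mem, ← hb]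
        unfold blk
        rw [ZMod.val_natCast_of_lt (hval i hi')]
        obtain ⟨k1, k2⟩ := key i hi'
        exact Nat.div_eq_of_lt_le k1 k2
      · intro i hi j hj hij
        have hi' : i < N / B := by simpa using hi
        have hj' : j < N / B := by simpa using hj
        have := congrArg ZMod.val hij
        simp only [ZMod.val_natCast_of_lt (hval i hi'), ZMod.val_natCast_of_lt (hval j hj')] at this
        omega
    simpa using this
  have h1 : N < B * (N / B + 1) := Nat.lt_mul_div_succ N hB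
  have h2 : 1 ≤ N / B := by
    rw [Nat.le_div_iff_mul_le hB]; omega
  calc N ≤ B * (N / B + 1) := h1.le
    _ ≤ B * (2 * (N / B)) := Nat.mul_le_mul_left B (by omega)
    _ = 2 * B * (N / B) := by ring
    _ ≤ 2 * B * (Y3_s B N a).card := Nat.mul_le_mul_left _ hcard

/-- the antiperiodic part -/
noncomputable def Y3_yo {N : ℕ} (y : ZMod (2 * N) → ℝ) (a : ZMod (2 * N)) : ℝ :=
  (y a - y (a + (N : ZMod (2 * N)))) / 2

/-- block averages -/
noncomputable def Y3_G (B : ℕ) {N : ℕ} [NeZero (2 * N)] (y : ZMod (2 * N) → ℝ)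
    (a : ZMod (2 * N)) : ℝ := (∑ b ∈ Y3_s B N a, Y3_yo y b) / (Y3_s B N a).card

theorem Y3_yo_anti {N : ℕ} (y : ZMod (2 * N) → ℝ) (a : ZMod (2 * N)) :
    Y3_yo y (a + (N : ZMod (2 * N))) = -Y3_yo y a := by
  unfold Y3_yo
  rw [Y3_NN]
  ring

theorem Y3_mem_add {B N : ℕ} (hN : 0 < N) [NeZero (2 * N)] {a b : ZMod (2 * N)} :
    b + (N : ZMod (2 * N)) ∈ Y3_s B N (a + (N : ZMod (2 * N))) ↔ b ∈ Y3_s B N a := by
  have key : ∀ a b : ZMod (2 * N), b ∈ Y3_s B N a →
      b + (N : ZMod (2 * N)) ∈ Y3_s B N (a + (N : ZMod (2 * N))) := by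
    intro a b h
    rw [Y3_mem] at h ⊢
    rw [Y3_blk_add hN, Y3_blk_add hN, h]
  constructor
  · intro h
    have := key _ _ h
    rwa [Y3_NN, Y3_NN] at this
  · exact key a b

theorem Y3_G_anti {B N : ℕ} (hN : 0 < N) [NeZero (2 * N)] (y : ZMod (2 * N) → ℝ)
    (a : ZMod (2 * N)) : Y3_G B y (a + (N : ZMod (2 * N))) = -Y3_G B y a := by
  unfold Y3_G
  have h1 : ∑ b ∈ Y3_s B N (a + (N : ZMod (2 * N))), Y3_yo y b =
      -∑ b ∈ Y3_s B N a, Y3_yo y b := by
    rw [← Finset.sum_neg_distrib]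
    symm
    apply Finset.sum_equiv (Equiv.addRight (N : ZMod (2 * N)))
    · intro b
      exact (Y3_mem_add hN).symm
    · intro b _
      exact (Y3_yo_anti y b).symm
  have h2 : (Y3_s B N (a + (N : ZMod (2 * N)))).card = (Y3_s B N a).card := by
    symm
    apply Finset.card_equiv (Equiv.addRight (N : ZMod (2 * N)))
    intro b
    exact (Y3_mem_add hN).symm
  rw [h1, h2, neg_div]

theorem Y3_G_blk {B N : ℕ} [NeZero (2 * N)] (y : ZMod (2 * N) → ℝ) {a b : ZMod (2 * N)}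
    (h : blk B N a = blk B N b) : Y3_G B y a = Y3_G B y b := by
  unfold Y3_G
  rw [Y3_s_eq h]

/-- averaging against functions constant on the blocks -/
theorem Y3_avg {B N : ℕ} [NeZero (2 * N)] (y : ZMod (2 * N) → ℝ) (H : ZMod (2 * N) → ℂ)
    (hH : ∀ a b, blk B N a = blk B N b → H a = H b) :
    ∑ a, (Y3_G B y a : ℂ) * H a = ∑ a, (Y3_yo y a : ℂ) * H a := by
  have h1 : ∀ a, (Y3_G B y a : ℂ) * H a = ∑ b, if blk B N b = blk B N a then
      (Y3_yo y b : ℂ) * H b / ((Y3_s B N b).card : ℂ) else 0 := by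
    intro a
    rw [← Finset.sum_filter]
    unfold Y3_G
    push_cast
    rw [div_mul_eq_mul_div, Finset.sum_mul, Finset.sum_div]
    apply Finset.sum_congr rfl
    intro b hb
    have hb' : blk B N b = blk B N a := Y3_mem.mp hb
    rw [Y3_s_eq hb', hH b a hb']
  rw [Finset.sum_congr rfl fun a _ => h1 a, Finset.sum_comm]
  apply Finset.sum_congr rfl
  intro b _
  rw [← Finset.sum_filter, Finset.sum_const]
  have h2 : (univ.filter fun a => blk B N b = blk B N a) = Y3_s B N b := by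
    unfold Y3_s
    apply Finset.filter_congr
    intro a _
    exact eq_comm
  rw [h2, nsmul_eq_mul]
  have h3 : ((Y3_s B N b).card : ℂ) ≠ 0 := by
    exact_mod_cast (Y3_card_pos b).ne'
  field_simp

theorem Y3_avg_real {B N : ℕ} [NeZero (2 * N)] (y h : ZMod (2 * N) → ℝ)
    (hH : ∀ a b, blk B N a = blk B N b → h a = h b) :
    ∑ a, Y3_G B y a * h a = ∑ a, Y3_yo y a * h a := by
  have := Y3_avg (B := B) y (fun a => (h a : ℂ)) (fun a b hab => by rw [hH a b hab])
  exact_mod_cast this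

theorem Y3_sum_shift {N : ℕ} [NeZero (2 * N)] {E : Type*} [AddCommMonoid E]
    (f : ZMod (2 * N) → E) : ∑ a, f (a + (N : ZMod (2 * N))) = ∑ a, f a :=
  Equiv.sum_comp (Equiv.addRight (N : ZMod (2 * N))) f

theorem Y3_yo_sum {N : ℕ} [NeZero (2 * N)] (y : ZMod (2 * N) → ℝ) (H : ZMod (2 * N) → ℂ)
    (hH : ∀ a, H (a + (N : ZMod (2 * N))) = -H a) :
    ∑ a, (Y3_yo y a : ℂ) * H a = ∑ a, (y a : ℂ) * H a := by
  have h1 : ∑ a, (y (a + (N : ZMod (2 * N))) : ℂ) * H a = -∑ a, (y a : ℂ) * H a := by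
    rw [← Y3_sum_shift fun a => (y a : ℂ) * H a, ← Finset.sum_neg_distrib]
    apply Finset.sum_congr rfl
    intro a _
    rw [hH]
    ring
  have h2 : ∑ a, (Y3_yo y a : ℂ) * H a = (∑ a, (y a : ℂ) * H a -
      ∑ a, (y (a + (N : ZMod (2 * N))) : ℂ) * H a) / 2 := by
    rw [← Finset.sum_sub_distrib, Finset.sum_div]
    apply Finset.sum_congr rfl
    intro a _
    unfold Y3_yo
    push_cast
    ring
  rw [h2, h1]
  ring

theorem Y3_yo_sq {N : ℕ} [NeZero (2 * N)] (y : ZMod (2 * N) → ℝ) :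
    ∑ a, Y3_yo y a ^ 2 ≤ ∑ a, y a ^ 2 := by
  have h1 : ∀ a, Y3_yo y a ^ 2 ≤ (y a ^ 2 + y (a + (N : ZMod (2 * N))) ^ 2) / 2 := by
    intro a
    unfold Y3_yo
    nlinarith [sq_nonneg (y a + y (a + (N : ZMod (2 * N))))]
  refine (Finset.sum_le_sum fun a _ => h1 a).trans ?_
  rw [← Finset.sum_div, Finset.sum_add_distrib, Y3_sum_shift fun a => y a ^ 2]
  linarith

theorem Y3_abs_sum {N : ℕ} [NeZero (2 * N)] {f : ZMod (2 * N) → ℝ} {C : ℝ}
    (hf : ∑ a, f a ^ 2 ≤ C * (2 * N)) : ∑ a, |f a| ≤ √C * (2 * N) := by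
  have hN : (0 : ℝ) < 2 * N := by
    have : (0 : ℕ) < 2 * N := Nat.pos_of_ne_zero (NeZero.ne _)
    exact_mod_cast this
  have hC : 0 ≤ C := by
    have h1 : 0 ≤ ∑ a, f a ^ 2 := Finset.sum_nonneg fun a _ => sq_nonneg _
    by_contra hcon
    push Not at hcon
    nlinarith
  have h1 := sq_sum_le_card_mul_sum_sq (s := (univ : Finset (ZMod (2 * N)))) (f := fun a => |f a|)
  simp only [sq_abs] at h1
  rw [Finset.card_univ, ZMod.card] at h1
  push_cast at h1
  apply abs_le_of_sq_le_sq' _ (by positivity) |>.2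
  calc (∑ a, |f a|) ^ 2 ≤ 2 * N * ∑ a, f a ^ 2 := h1
    _ ≤ 2 * N * (C * (2 * N)) := mul_le_mul_of_nonneg_left hf hN.le
    _ = (√C * (2 * N)) ^ 2 := by
      rw [mul_pow, Real.sq_sqrt hC]
      ring

theorem Y3_char {N : ℕ} [NeZero (2 * N)] (j : ℕ) (a : ZMod (2 * N)) :
    (ZMod.stdAddChar (-(a * ((2 * j + 1 : ℕ) : ZMod (2 * N)))) : ℂ) =
      Complex.exp (Complex.I * ((-(π * (2 * j + 1) * a.val / N) : ℝ) : ℂ)) := by
  have hN : (N : ℂ) ≠ 0 := by
    have : (2 * N : ℕ) ≠ 0 := NeZero.ne _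
    have : N ≠ 0 := by omega
    exact_mod_cast this
  have h1 : -(a * ((2 * j + 1 : ℕ) : ZMod (2 * N))) =
      ((-((a.val : ℤ) * (2 * j + 1)) : ℤ) : ZMod (2 * N)) := by
    push_cast
    rw [ZMod.natCast_zmod_val]
  rw [h1, ZMod.stdAddChar_coe]
  congr 1
  push_cast
  field_simp

theorem Y3_char_anti {N : ℕ} [NeZero (2 * N)] (j : ℕ) (a : ZMod (2 * N)) :
    (ZMod.stdAddChar (-((a + (N : ZMod (2 * N))) * ((2 * j + 1 : ℕ) : ZMod (2 * N)))) : ℂ) =
      -(ZMod.stdAddChar (-(a * ((2 * j + 1 : ℕ) : ZMod (2 * N)))) : ℂ) := by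
  have hN : (N : ℂ) ≠ 0 := by
    have : (2 * N : ℕ) ≠ 0 := NeZero.ne _
    have : N ≠ 0 := by omega
    exact_mod_cast this
  have h1 : -((a + (N : ZMod (2 * N))) * ((2 * j + 1 : ℕ) : ZMod (2 * N))) =
      -(a * ((2 * j + 1 : ℕ) : ZMod (2 * N))) +
        ((-((N : ℤ) * (2 * j + 1)) : ℤ) : ZMod (2 * N)) := by
    push_cast
    ring
  rw [h1, AddChar.map_add_eq_mul, ZMod.stdAddChar_coe]
  have h2 : Complex.exp (2 * π * Complex.I * ((-((N : ℤ) * (2 * j + 1)) : ℤ) : ℂ) /
      ((2 * N : ℕ) : ℂ)) = -1 := by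
    have h3 : 2 * π * Complex.I * ((-((N : ℤ) * (2 * j + 1)) : ℤ) : ℂ) / ((2 * N : ℕ) : ℂ) =
        π * Complex.I + ((-(j : ℤ) - 1 : ℤ) : ℂ) * (2 * π * Complex.I) := by
      push_cast
      field_simp
      ring
    rw [h3, Complex.exp_add, Complex.exp_int_mul_two_pi_mul_I, Complex.exp_pi_mul_I]
    ring
  rw [h2]
  ring

/-- Block averages of antiperiodic functions: for `B` blocks in the half circle. -/
theorem block_avg {B : ℕ} (hB : 0 < B) {N : ℕ} (hN : 2 * B ≤ N) [NeZero (2 * N)]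
    {y : ZMod (2 * N) → ℝ} {C : ℝ} (hy : ∑ a, y a ^ 2 ≤ C * (2 * N)) :
    ∃ G : ZMod (2 * N) → ℝ, (∀ a, G (a + (N : ZMod (2 * N))) = -G a) ∧
      (∀ a b, blk B N a = blk B N b → G a = G b) ∧ (∀ a, G a ^ 2 ≤ 4 * B * C) ∧
      (∀ h : ZMod (2 * N) → ℝ, (∀ a, h (a + (N : ZMod (2 * N))) = -h a) →
        (∀ a b, blk B N a = blk B N b → h a = h b) → ∑ a, h a * y a = ∑ a, h a * G a) ∧
      ∑ a, G a ^ 2 ≤ C * (2 * N) ∧
      ∀ j : ℕ, ‖Big.hat y ((2 * j + 1 : ℕ) : ZMod (2 * N)) -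
        Big.hat G ((2 * j + 1 : ℕ) : ZMod (2 * N))‖ ≤ 8 * (2 * j + 1) / B * √C * (2 * N) := by
  have hN0 : 0 < N := by omega
  have hNr : (0 : ℝ) < N := by exact_mod_cast hN0
  have hBr : (0 : ℝ) < B := by exact_mod_cast hB
  have hyo : ∑ a, Y3_yo y a ^ 2 ≤ C * (2 * N) := (Y3_yo_sq y).trans hy
  have hpair : ∀ h : ZMod (2 * N) → ℝ, (∀ a, h (a + (N : ZMod (2 * N))) = -h a) →
        (∀ a b, blk B N a = blk B N b → h a = h b) →
        ∑ a, h a * y a = ∑ a, h a * Y3_G B y a := by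
    intro h hanti hblk
    have h1 := Y3_avg_real (B := B) y h hblk
    have h2 : ∑ a, Y3_yo y a * h a = ∑ a, y a * h a := by
      have := Y3_yo_sum y (fun a => (h a : ℂ)) (fun a => by rw [hanti]; push_cast; rfl)
      exact_mod_cast this
    calc ∑ a, h a * y a = ∑ a, y a * h a := Finset.sum_congr rfl fun a _ => mul_comm _ _
      _ = ∑ a, Y3_G B y a * h a := by rw [h1, h2]
      _ = ∑ a, h a * Y3_G B y a := Finset.sum_congr rfl fun a _ => mul_comm _ _
  have hG2 : ∑ a, Y3_G B y a ^ 2 ≤ C * (2 * N) := by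
    have h1 := hpair (Y3_G B y) (Y3_G_anti hN0 y) (fun a b h => Y3_G_blk y h)
    have h2 : ∑ a, Y3_G B y a * y a ≤ ∑ a, (Y3_G B y a ^ 2 + y a ^ 2) / 2 := by
      apply Finset.sum_le_sum
      intro a _
      nlinarith [sq_nonneg (Y3_G B y a - y a)]
    rw [← Finset.sum_div, Finset.sum_add_distrib] at h2
    have h3 : ∑ a, Y3_G B y a * Y3_G B y a = ∑ a, Y3_G B y a ^ 2 :=
      Finset.sum_congr rfl fun a _ => (pow_two _).symm
    linarith
  refine ⟨Y3_G B y, Y3_G_anti hN0 y, fun a b h => Y3_G_blk y h, ?_, hpair, hG2, ?_⟩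
  · intro a
    have h1 := sq_sum_le_card_mul_sum_sq (s := Y3_s B N a) (f := Y3_yo y)
    have hc : (0 : ℝ) < (Y3_s B N a).card := by exact_mod_cast Y3_card_pos a
    have h2 : ∑ b ∈ Y3_s B N a, Y3_yo y b ^ 2 ≤ ∑ b, Y3_yo y b ^ 2 :=
      Finset.sum_le_univ_sum_of_nonneg fun b => sq_nonneg _
    have h3 : (N : ℝ) ≤ 2 * B * (Y3_s B N a).card := by exact_mod_cast Y3_card hB hN a
    unfold Y3_G
    rw [div_pow, div_le_iff₀ (by positivity)]
    have hC : 0 ≤ C := by
      have h1 : 0 ≤ ∑ a, y a ^ 2 := Finset.sum_nonneg fun a _ => sq_nonneg _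
      by_contra hcon
      push Not at hcon
      nlinarith
    calc (∑ b ∈ Y3_s B N a, Y3_yo y b) ^ 2
        ≤ (Y3_s B N a).card * ∑ b ∈ Y3_s B N a, Y3_yo y b ^ 2 := h1
      _ ≤ (Y3_s B N a).card * (C * (2 * N)) :=
          mul_le_mul_of_nonneg_left (h2.trans hyo) hc.le
      _ ≤ (Y3_s B N a).card * (C * (2 * (2 * B * (Y3_s B N a).card))) := by
          apply mul_le_mul_of_nonneg_left _ hc.le
          apply mul_le_mul_of_nonneg_left _ hC
          linarith
      _ = 4 * B * C * (Y3_s B N a).card ^ 2 := by ring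
  · intro j
    set e : ZMod (2 * N) → ℂ := fun a =>
      (ZMod.stdAddChar (-(a * ((2 * j + 1 : ℕ) : ZMod (2 * N)))) : ℂ) with he
    set E : ZMod (2 * N) → ℂ := fun a =>
      Complex.exp (Complex.I * ((-(π * (2 * j + 1) * blk B N a / B) : ℝ) : ℂ)) with hE
    have h1 : Big.hat y ((2 * j + 1 : ℕ) : ZMod (2 * N)) = ∑ a, (Y3_yo y a : ℂ) * e a := by
      unfold Big.hat
      rw [Y3_yo_sum y e (fun a => Y3_char_anti j a)]
    have h2 : Big.hat (Y3_G B y) ((2 * j + 1 : ℕ) : ZMod (2 * N)) =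
        ∑ a, (Y3_G B y a : ℂ) * e a := rfl
    have h3 := Y3_avg (B := B) y E (fun a b hab => by simp only [hE, hab])
    have h4 : Big.hat y ((2 * j + 1 : ℕ) : ZMod (2 * N)) -
        Big.hat (Y3_G B y) ((2 * j + 1 : ℕ) : ZMod (2 * N)) =
        ∑ a, (Y3_yo y a - Y3_G B y a : ℂ) * (e a - E a) := by
      rw [h1, h2]
      have : ∑ a, (Y3_yo y a - Y3_G B y a : ℂ) * (e a - E a) =
          ∑ a, (Y3_yo y a : ℂ) * e a - ∑ a, (Y3_G B y a : ℂ) * e a -
            (∑ a, (Y3_yo y a : ℂ) * E a - ∑ a, (Y3_G B y a : ℂ) * E a) := by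
        rw [← Finset.sum_sub_distrib, ← Finset.sum_sub_distrib, ← Finset.sum_sub_distrib]
        apply Finset.sum_congr rfl
        intro a _
        ring
      rw [this, h3]
      ring
    have h5 : ∀ a, ‖e a - E a‖ ≤ π * (2 * j + 1) / B := by
      intro a
      have e1 : e a = Complex.exp (Complex.I * ((-(π * (2 * j + 1) * a.val / N) : ℝ) : ℂ)) :=
        Y3_char j a
      have e2 : e a - E a = E a * (Complex.exp (Complex.I *
          ((-(π * (2 * j + 1) * a.val / N) + π * (2 * j + 1) * blk B N a / B : ℝ) : ℂ)) - 1) := by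
        rw [e1, mul_sub, mul_one]
        simp only [hE]
        rw [← Complex.exp_add]
        congr 2
        push_cast
        ring
      have e3 : ‖E a‖ = 1 := by
        simp only [hE]
        rw [mul_comm, Complex.norm_exp_ofReal_mul_I]
      rw [e2, norm_mul, e3, one_mul]
      refine (Real.norm_exp_I_mul_ofReal_sub_one_le).trans ?_
      have e4 : -(π * (2 * j + 1) * a.val / N) + π * (2 * j + 1) * blk B N a / B =
          -(π * (2 * j + 1) * (a.val / N - blk B N a / B)) := by ring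
      rw [e4, norm_neg, norm_mul, Real.norm_of_nonneg (by positivity)]
      have e5 : ‖(a.val : ℝ) / N - blk B N a / B‖ ≤ 1 / B := by
        have d := Nat.div_add_mod (a.val * B) N
        have m := Nat.mod_lt (a.val * B) hN0
        have d' : (N : ℝ) * blk B N a + ((a.val * B % N : ℕ) : ℝ) = a.val * B := by
          unfold blk
          exact_mod_cast d
        have m' : ((a.val * B % N : ℕ) : ℝ) ≤ N := by exact_mod_cast m.le
        have m0 : (0 : ℝ) ≤ ((a.val * B % N : ℕ) : ℝ) := Nat.cast_nonneg _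
        have e6 : (a.val : ℝ) / N - blk B N a / B = ((a.val * B % N : ℕ) : ℝ) / (N * B) := by
          field_simp
          linarith
        rw [e6, Real.norm_of_nonneg (by positivity), div_le_div_iff₀ (by positivity) hBr]
        nlinarith
      calc π * (2 * j + 1) * ‖(a.val : ℝ) / N - blk B N a / B‖
          ≤ π * (2 * j + 1) * (1 / B) := mul_le_mul_of_nonneg_left e5 (by positivity)
        _ = π * (2 * j + 1) / B := by ring
    rw [h4]
    have h6 := Y3_abs_sum hyo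
    have h7 := Y3_abs_sum hG2
    calc ‖∑ a, (Y3_yo y a - Y3_G B y a : ℂ) * (e a - E a)‖
        ≤ ∑ a, ‖(Y3_yo y a - Y3_G B y a : ℂ) * (e a - E a)‖ := norm_sum_le _ _
      _ ≤ ∑ a, (|Y3_yo y a| + |Y3_G B y a|) * (π * (2 * j + 1) / B) := by
          apply Finset.sum_le_sum
          intro a _
          rw [norm_mul]
          apply mul_le_mul _ (h5 a) (norm_nonneg _) (by positivity)
          refine (norm_sub_le _ _).trans ?_
          rw [Complex.norm_real, Complex.norm_real, Real.norm_eq_abs, Real.norm_eq_abs]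
      _ = (∑ a, |Y3_yo y a| + ∑ a, |Y3_G B y a|) * (π * (2 * j + 1) / B) := by
          rw [← Finset.sum_mul, Finset.sum_add_distrib]
      _ ≤ (√C * (2 * N) + √C * (2 * N)) * (4 * (2 * j + 1) / B) := by
          apply mul_le_mul (add_le_add h6 h7) _ (by positivity) (by positivity)
          apply div_le_div_of_nonneg_right _ hBr.le
          apply mul_le_mul_of_nonneg_right _ (by positivity)
          linarith [Real.pi_le_four]
      _ = 8 * (2 * j + 1) / B * √C * (2 * N) := by ring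

end Pool.Agent.Lib.MP_e1dd62_co.Evn
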